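import Pool.Agent.Helper2.ST.Defs

/-!
# ST-B01: elementary facts on `S3`, `d`

PROOFS.
* `S3_eq_zero`: induction on `n` (generalise `k`): `S3 (n+1) (k+1) = (k+1) S3 n (k+1) +
  C(n+2k+2,2) S3 n k`, and `n+1 < k+1` gives `n < k+1` and `n < k`.
* `S3_zero_right`: by definition.
* `S3_pos`: induction on `n`: for `k = j+1 <= n+1`: if `j = 0` then `S3 (n+1) 1 = S3 n 1 + C(n+2,2)
  S3 n 0`; for `n = 0` this is `1`, for `n >= 1` use `S3 n 1 > 0`. If `j >= 1` then `S3 n j > 0` and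
  `C(n+2j+2, 2) > 0`.
* `d_rec`: with `N = n+1+2(k+1) = n+2k+3`: `S3 (n+1) (k+1) = (k+1) S3 n (k+1) + C(N-1,2) S3 n k`,
  `C(N-1,2) = (N-1)(N-2)/2`; divide by `(N-1)!` and use `n + 2(k+1) = N-1`, `n + 2k = N-3`.
* `s_rec`: compare coefficients of `x^k`: with `m = 2(k-1)+n` the coefficient of the second sum is
  `(2(k-1)+(n+1)) (2(k-1)+(n+2)) / 2 * S3 n (k-1) = C(n+2k, 2) S3 n (k-1)`.
-/

namespace ST3

private theorem S3_succ (n k : ℕ) :
    S3 (n + 1) (k + 1) = (k + 1) * S3 n (k + 1) + (n + 2 * k + 2).choose 2 * S3 n k := by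
  rw [S3]

theorem S3_eq_zero {n k : ℕ} (h : n < k) : S3 n k = 0 := by
  induction n generalizing k with
  | zero =>
    obtain ⟨k, rfl⟩ : ∃ j, k = j + 1 := ⟨k - 1, by omega⟩
    rw [S3]
  | succ n ih =>
    obtain ⟨k, rfl⟩ : ∃ j, k = j + 1 := ⟨k - 1, by omega⟩
    rw [S3_succ, ih (by omega), ih (by omega)]
    simp

theorem S3_zero_right {n : ℕ} (h : 1 ≤ n) : S3 n 0 = 0 := by
  obtain ⟨n, rfl⟩ : ∃ j, n = j + 1 := ⟨n - 1, by omega⟩
  rw [S3]

theorem S3_pos {n k : ℕ} (h1 : 1 ≤ k) (h2 : k ≤ n) : 0 < S3 n k := by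
  induction n generalizing k with
  | zero => omega
  | succ n ih =>
    obtain ⟨k, rfl⟩ : ∃ j, k = j + 1 := ⟨k - 1, by omega⟩
    rw [S3_succ]
    rcases Nat.eq_zero_or_pos k with hk | hk
    · subst hk
      rcases Nat.eq_zero_or_pos n with hn | hn
      · subst hn
        decide
      · have h3 := ih (k := 1) le_rfl hn
        have : 0 < (0 + 1) * S3 n (0 + 1) := by simpa using h3
        omega
    · have h3 := ih (k := k) hk (by omega)
      have h4 : 0 < (n + 2 * k + 2).choose 2 := Nat.choose_pos (by omega)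
      have : 0 < (n + 2 * k + 2).choose 2 * S3 n k := Nat.mul_pos h4 h3
      omega

theorem d_nonneg (n k : ℕ) : 0 ≤ d n k := by
  unfold d
  positivity

theorem d_eq_zero {n k : ℕ} (h : n < k) : d n k = 0 := by
  unfold d
  rw [S3_eq_zero h]
  simp

private theorem choose_two_cast (N : ℕ) :
    (((N + 2).choose 2 : ℕ) : ℝ) = ((N : ℝ) + 2) * ((N : ℝ) + 1) / 2 := by
  rw [Nat.cast_choose_two]
  push_cast
  ring

/-- `(n + 2k) d_{n,k} = k d_{n-1,k} + d_{n-1,k-1} / 2` -/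
theorem d_rec (n k : ℕ) :
    ((n : ℝ) + 1 + 2 * ((k : ℝ) + 1)) * d (n + 1) (k + 1) =
      ((k : ℝ) + 1) * d n (k + 1) + d n k / 2 := by
  unfold d
  have e1 : n + 1 + 2 * (k + 1) = n + 2 * k + 3 := by ring
  have e2 : n + 2 * (k + 1) = n + 2 * k + 2 := by ring
  rw [e1, e2, S3_succ]
  have f1 : ((n + 2 * k + 3).factorial : ℝ) =
      ((n : ℝ) + 2 * k + 3) * (((n : ℝ) + 2 * k + 2) * (((n : ℝ) + 2 * k + 1) *
        ((n + 2 * k).factorial : ℝ))) := by
    rw [Nat.factorial_succ, Nat.factorial_succ, Nat.factorial_succ]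
    push_cast
    ring
  have f2 : ((n + 2 * k + 2).factorial : ℝ) =
      ((n : ℝ) + 2 * k + 2) * (((n : ℝ) + 2 * k + 1) * ((n + 2 * k).factorial : ℝ)) := by
    rw [Nat.factorial_succ, Nat.factorial_succ]
    push_cast
    ring
  rw [f1, f2]
  push_cast
  have c1 := choose_two_cast (n + 2 * k)
  push_cast at c1
  rw [c1]
  have p0 : ((n + 2 * k).factorial : ℝ) ≠ 0 := by positivity
  have p1 : ((n : ℝ) + 2 * k + 3) ≠ 0 := by positivity
  have p2 : ((n : ℝ) + 2 * k + 2) ≠ 0 := by positivity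
  have p3 : ((n : ℝ) + 2 * k + 1) ≠ 0 := by positivity
  field_simp
  ring

/-- the operator recursion for the polynomials, written with sums -/
theorem s_rec (n : ℕ) (x : ℂ) :
    s (n + 1) x = ∑ k ∈ Finset.range (n + 1), (k : ℂ) * (S3 n k : ℂ) * x ^ k +
      (∑ k ∈ Finset.range (n + 1),
        ((2 * k + (n + 1) : ℕ) : ℂ) * ((2 * k + (n + 2) : ℕ) : ℂ) * (S3 n k : ℂ) * x ^ (k + 1)) / 2 := by
  unfold s
  rw [Finset.sum_range_succ' _ (n + 1), S3_zero_right (by omega)]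
  have h1 : ∑ k ∈ Finset.range (n + 1), (k : ℂ) * (S3 n k : ℂ) * x ^ k =
      ∑ k ∈ Finset.range (n + 1), ((k : ℂ) + 1) * (S3 n (k + 1) : ℂ) * x ^ (k + 1) := by
    rw [Finset.sum_range_succ' _ n, Finset.sum_range_succ _ n, S3_eq_zero (Nat.lt_succ_self n)]
    push_cast
    ring
  rw [h1, Finset.sum_div, ← Finset.sum_add_distrib]
  simp only [Nat.cast_zero, zero_mul, add_zero]
  refine Finset.sum_congr rfl fun k _ => ?_
  rw [S3_succ]
  have c1 : (((n + 2 * k + 2).choose 2 : ℕ) : ℂ) =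
      ((n : ℂ) + 2 * k + 2) * ((n : ℂ) + 2 * k + 1) / 2 := by
    rw [Nat.cast_choose_two]
    push_cast
    ring
  push_cast
  rw [c1]
  ring

end ST3
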