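import Pool.Agent.Helper2.ST.B02a

/-!
# ST-B02b: `GG j` is entire, `z (GG j)' = GG (j+1)`

PROOF. A power series with infinite radius of convergence may be differentiated termwise
(`hasDerivAt_tsum_of_isPreconnected`, or `hasDerivAt_tsum` on balls, or `HasFPowerSeriesOnBall`);
the derivative of the term is `(m+1)^j (m+1) z^m/(m+3)!`, and `z` times it is the term of
`GG (j+1)`. Use `GG_norm_summable (j+1)` for the majorant on a ball.
-/

namespace ST3

open Complex

private theorem b02b_deriv (j : ℕ) (z : ℂ) : HasDerivAt (GG j)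
    (∑' m : ℕ, ((m : ℂ) + 1) ^ (j + 1) * z ^ m / ((m + 3).factorial : ℂ)) z := by
  have hr : 1 ≤ ‖z‖ + 1 := by linarith [norm_nonneg z]
  have hz : z ∈ Metric.ball (0 : ℂ) (‖z‖ + 1) := by
    rw [mem_ball_zero_iff]
    linarith
  refine hasDerivAt_tsum_of_isPreconnected
    (g := fun (m : ℕ) (y : ℂ) => ((m : ℂ) + 1) ^ j * y ^ (m + 1) / ((m + 3).factorial : ℂ))
    (g' := fun (m : ℕ) (y : ℂ) => ((m : ℂ) + 1) ^ (j + 1) * y ^ m / ((m + 3).factorial : ℂ))
    (GG_norm_summable (j + 1) (‖z‖ + 1))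
    Metric.isOpen_ball (convex_ball (0 : ℂ) (‖z‖ + 1)).isPreconnected ?_ ?_ hz (GG_summable j z) hz
  · intro m y _
    have h1 := ((hasDerivAt_pow (m + 1) y).const_mul (((m : ℂ) + 1) ^ j)).div_const
      ((m + 3).factorial : ℂ)
    refine h1.congr_deriv ?_
    rw [Nat.add_sub_cancel]
    push_cast
    ring
  · intro m y hy
    rw [mem_ball_zero_iff] at hy
    rw [norm_div, norm_mul, norm_pow, norm_pow, Complex.norm_natCast]
    have h1 : ‖((m : ℂ) + 1)‖ = (m : ℝ) + 1 := by
      have : ((m : ℂ) + 1) = (((m : ℝ) + 1 : ℝ) : ℂ) := by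
        push_cast
        ring
      rw [this, Complex.norm_real, Real.norm_of_nonneg (by positivity)]
    rw [h1]
    have h2 : ‖y‖ ^ m ≤ (‖z‖ + 1) ^ (m + 1) :=
      (pow_le_pow_left₀ (norm_nonneg y) hy.le m).trans (pow_le_pow_right₀ hr (by omega))
    gcongr

theorem GG_differentiable (j : ℕ) : Differentiable ℂ (GG j) := by
  intro z
  exact (b02b_deriv j z).differentiableAt

theorem GG_hasDerivAt (j : ℕ) {z : ℂ} (hz : z ≠ 0) : HasDerivAt (GG j) (GG (j + 1) z / z) z := by
  refine (b02b_deriv j z).congr_deriv ?_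
  unfold GG
  rw [← tsum_div_const]
  refine tsum_congr fun m => ?_
  rw [pow_succ z m]
  field_simp

end ST3
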