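import Pool.Agent.Helper2.ST.B02a

/-!
# ST-B02c: closed forms and relations of the `GG j`

PROOFS. `z^2 GG 0 z = e^z - 1 - z - z^2/2` is the exponential series without its first three
terms (`z^2 z^(m+1)/(m+3)! = z^(m+3)/(m+3)!`). For the others compare the coefficients of
`z^m/(m+2)!` (`m >= 1`): for `GG j` it is `m^j`, for `z * GG j` it is `(m-1)^j (m+2)` (for `m = 1`
this is `0` if `j >= 1` and has to be corrected by the term `z/2` if `j = 0`).
* `GG1_lin`: `m = (m+2) - 2` for `m >= 2`, and for `m = 1`: `1/6 = -2/6 + 1/2`.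
* `GG_rel0`: `2 = m^2 + m - (m-1)(m+2)`.
* `GG_rel3`: `m^3 = 2m + (m-1)(m+2) + (m-1)^2(m+2) - m^2`.
* `GG_rel4`: `m^4 = ...`: coefficientwise with `z^2 GG j`: `(m-2)^j (m+2)(m+1)`; or
  use differentiation: `z d/dz` of `GG_rel3` (then import B02b).
* `GG1_closed`: from `GG1_lin` and `GG0_closed`:
  `z^2 GG 1 = (z-2)(e^z-1-z-z^2/2) + z^3/2 = e^z (z-2) + z + 2`.
* `GG2_closed`: from `GG_rel0`.
Shifting an infinite sum: `Summable.tsum_eq_zero_add` or `hasSum_nat_add_iff'`.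
-/

namespace ST3

open Complex

/-- the basic coefficients -/
private noncomputable def cc (z : ℂ) (m : ℕ) : ℂ := z ^ (m + 1) / ((m + 3).factorial : ℂ)

private theorem cc_succ (z : ℂ) (m : ℕ) : ((m : ℂ) + 4) * cc z (m + 1) = z * cc z m := by
  unfold cc
  have h1 : ((m + 1 + 3).factorial : ℂ) = ((m : ℂ) + 4) * ((m + 3).factorial : ℂ) := by
    have : (m + 1 + 3).factorial = (m + 4) * (m + 3).factorial := by
      rw [show m + 1 + 3 = (m + 3) + 1 by ring, Nat.factorial_succ]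
    rw [this]
    push_cast
    ring
  have h2 : ((m + 3).factorial : ℂ) ≠ 0 := by exact_mod_cast Nat.factorial_ne_zero _
  have h3 : ((m : ℂ) + 4) ≠ 0 := by
    have : ((m + 4 : ℕ) : ℂ) ≠ 0 := by exact_mod_cast (by omega : m + 4 ≠ 0)
    push_cast at this
    exact this
  rw [h1]
  field_simp
  ring

private theorem hs_congr {f g : ℕ → ℂ} {a : ℂ} (h : HasSum f a) (e : ∀ m, g m = f m) :
    HasSum g a := by
  have : g = f := funext e
  rw [this]
  exact h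

private theorem hs (j : ℕ) (z : ℂ) :
    HasSum (fun m : ℕ => ((m : ℂ) + 1) ^ j * cc z m) (GG j z) := by
  have h := (GG_summable j z).hasSum
  refine hs_congr h fun m => ?_
  unfold cc
  ring

private theorem hz1 (j : ℕ) (z : ℂ) :
    HasSum (fun m : ℕ => (m : ℂ) ^ (j + 1) * ((m : ℂ) + 3) * cc z m) (z * GG (j + 1) z) := by
  have h := (hs (j + 1) z).mul_left z
  have h1 : HasSum (fun m : ℕ => ((m + 1 : ℕ) : ℂ) ^ (j + 1) * (((m + 1 : ℕ) : ℂ) + 3) *
      cc z (m + 1)) (z * GG (j + 1) z) := by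
    refine hs_congr h fun m => ?_
    have := cc_succ z m
    push_cast
    linear_combination (((m : ℂ) + 1) ^ (j + 1)) * this
  have h2 := (hasSum_nat_add_iff
    (f := fun m : ℕ => (m : ℂ) ^ (j + 1) * ((m : ℂ) + 3) * cc z m) 1).mp h1
  simpa using h2

private theorem hz0 (z : ℂ) :
    HasSum (fun m : ℕ => ((m : ℂ) + 3) * cc z m) (z * GG 0 z + z / 2) := by
  have h := (hs 0 z).mul_left z
  have h1 : HasSum (fun m : ℕ => (((m + 1 : ℕ) : ℂ) + 3) * cc z (m + 1)) (z * GG 0 z) := by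
    refine hs_congr h fun m => ?_
    have := cc_succ z m
    push_cast
    linear_combination this
  have h2 := (hasSum_nat_add_iff (f := fun m : ℕ => ((m : ℂ) + 3) * cc z m) 1).mp h1
  have h3 : ((3 : ℕ).factorial : ℂ) = 6 := by norm_num [Nat.factorial]
  have h4 : z * GG 0 z + z / 2 = z * GG 0 z +
      ∑ i ∈ Finset.range 1, ((i : ℂ) + 3) * cc z i := by
    simp [cc, h3]
    ring
  rw [h4]
  exact h2

private theorem hzz (z : ℂ) :
    HasSum (fun m : ℕ => (m : ℂ) * ((m : ℂ) - 1) * ((m : ℂ) + 2) * ((m : ℂ) + 3) * cc z m)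
      (z * (z * GG 2 z + z * GG 1 z)) := by
  have h := ((hz1 1 z).add (hz1 0 z)).mul_left z
  have h1 : HasSum (fun m : ℕ => ((m + 1 : ℕ) : ℂ) * (((m + 1 : ℕ) : ℂ) - 1) *
      (((m + 1 : ℕ) : ℂ) + 2) * (((m + 1 : ℕ) : ℂ) + 3) * cc z (m + 1))
      (z * (z * GG 2 z + z * GG 1 z)) := by
    refine hs_congr h fun m => ?_
    have := cc_succ z m
    push_cast
    linear_combination ((m : ℂ) * ((m : ℂ) + 1) * ((m : ℂ) + 3)) * this
  have h2 := (hasSum_nat_add_iff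
    (f := fun m : ℕ => (m : ℂ) * ((m : ℂ) - 1) * ((m : ℂ) + 2) * ((m : ℂ) + 3) * cc z m) 1).mp h1
  simpa using h2

theorem GG0_closed (z : ℂ) : z ^ 2 * GG 0 z = exp z - 1 - z - z ^ 2 / 2 := by
  have h := (hs 0 z).mul_left (z ^ 2)
  have he : HasSum (fun n : ℕ => z ^ n / (n.factorial : ℂ)) (exp z) := by
    have := NormedSpace.expSeries_div_hasSum_exp (𝔸 := ℂ) z
    rwa [← Complex.exp_eq_exp_ℂ] at this
  have h2 := (hasSum_nat_add_iff' (f := fun n : ℕ => z ^ n / (n.factorial : ℂ)) 3).mpr he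
  have h3 : (fun m : ℕ => z ^ 2 * (((m : ℂ) + 1) ^ 0 * cc z m)) =
      fun m : ℕ => z ^ (m + 3) / ((m + 3).factorial : ℂ) := by
    funext m
    unfold cc
    rw [pow_zero, one_mul, ← mul_div_assoc, ← pow_add]
    congr 2
    ring
  rw [h3] at h
  rw [h.unique h2]
  simp [Finset.sum_range_succ]
  ring

theorem GG1_lin (z : ℂ) : GG 1 z = (z - 2) * GG 0 z + z / 2 := by
  have h := (hz0 z).sub ((hs 0 z).mul_left 2)
  have h2 : (fun m : ℕ => ((m : ℂ) + 3) * cc z m - 2 * (((m : ℂ) + 1) ^ 0 * cc z m)) =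
      fun m : ℕ => ((m : ℂ) + 1) ^ 1 * cc z m := by
    funext m
    ring
  rw [h2] at h
  rw [(hs 1 z).unique h]
  ring

theorem GG_rel0 (z : ℂ) : 2 * GG 0 z = GG 2 z + (1 - z) * GG 1 z := by
  have h := ((hs 2 z).add (hs 1 z)).sub (hz1 0 z)
  have h2 : (fun m : ℕ => ((m : ℂ) + 1) ^ 2 * cc z m + ((m : ℂ) + 1) ^ 1 * cc z m -
      (m : ℂ) ^ (0 + 1) * ((m : ℂ) + 3) * cc z m) =
      fun m : ℕ => 2 * (((m : ℂ) + 1) ^ 0 * cc z m) := by
    funext m
    ring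
  rw [h2] at h
  rw [((hs 0 z).mul_left 2).unique h]
  ring

theorem GG1_closed (z : ℂ) : z ^ 2 * GG 1 z = exp z * (z - 2) + z + 2 := by
  rw [GG1_lin]
  linear_combination (z - 2) * GG0_closed z

theorem GG2_closed (z : ℂ) : z ^ 2 * GG 2 z = exp z * (z ^ 2 - 3 * z + 4) - z - 4 := by
  linear_combination -z ^ 2 * GG_rel0 z + 2 * GG0_closed z - (1 - z) * GG1_closed z

theorem GG_rel3 (z : ℂ) : GG 3 z = (2 + z) * GG 1 z + (z - 1) * GG 2 z := by
  have h := ((((hs 1 z).mul_left 2).add (hz1 0 z)).add (hz1 1 z)).sub (hs 2 z)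
  have h2 : (fun m : ℕ => 2 * (((m : ℂ) + 1) ^ 1 * cc z m) +
      (m : ℂ) ^ (0 + 1) * ((m : ℂ) + 3) * cc z m + (m : ℂ) ^ (1 + 1) * ((m : ℂ) + 3) * cc z m -
      ((m : ℂ) + 1) ^ 2 * cc z m) = fun m : ℕ => ((m : ℂ) + 1) ^ 3 * cc z m := by
    funext m
    ring
  rw [h2] at h
  rw [(hs 3 z).unique h]
  ring

theorem GG_rel4 (z : ℂ) :
    GG 4 z = (z ^ 2 + 3) * GG 2 z + (z ^ 2 + 2 * z - 2) * GG 1 z := by
  have h := ((hzz z).add ((hs 2 z).mul_left 3)).add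
    (((hz1 0 z).mul_left 2).sub ((hs 1 z).mul_left 2))
  have h2 : (fun m : ℕ => (m : ℂ) * ((m : ℂ) - 1) * ((m : ℂ) + 2) * ((m : ℂ) + 3) * cc z m +
      3 * (((m : ℂ) + 1) ^ 2 * cc z m) + (2 * ((m : ℂ) ^ (0 + 1) * ((m : ℂ) + 3) * cc z m) -
      2 * (((m : ℂ) + 1) ^ 1 * cc z m))) = fun m : ℕ => ((m : ℂ) + 1) ^ 4 * cc z m := by
    funext m
    ring
  rw [h2] at h
  rw [(hs 4 z).unique h]
  ring

end ST3
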