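import Pool.Agent.Helper2.ST.Defs

/-!
# ST-B02a: the entire functions `GG j`: summability and norms

`GG j z = sum_{m >= 0} (m+1)^j z^(m+1)/(m+3)!`.

PROOFS.
* Summability: compare with `sum C (2|z|)^m/m!` since `(m+1)^j/((m+3)!/m!) <= C_j 2^m`; or use the
  ratio test (`summable_of_ratio_test_tendsto_lt_one`). Norm bound: termwise.
* `GG_re_mono_index`: termwise, `1 <= m+1`.
* `GG_conj`: `Complex.conj_tsum` (or `Complex.conjCLE.map_tsum`).
-/

namespace ST3

open Complex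

private theorem aux_bound (j : ℕ) (r : ℝ) (hr : 0 ≤ r) (m : ℕ) :
    ((m : ℝ) + 1) ^ j * r ^ (m + 1) / ((m + 3).factorial : ℝ) ≤
      (j.factorial : ℝ) * ((Real.exp 1 * r) ^ (m + 1) / ((m + 1).factorial : ℝ)) := by
  have h1 : ((m : ℝ) + 1) ^ j ≤ (j.factorial : ℝ) * Real.exp 1 ^ (m + 1) := by
    have h2 := Real.pow_div_factorial_le_exp ((m : ℝ) + 1) (by positivity) j
    have h3 : Real.exp ((m : ℝ) + 1) = Real.exp 1 ^ (m + 1) := by
      rw [← Real.exp_nat_mul]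
      push_cast
      ring_nf
    rw [h3, div_le_iff₀ (by positivity)] at h2
    linarith
  have h4 : ((m + 1).factorial : ℝ) ≤ ((m + 3).factorial : ℝ) := by
    exact_mod_cast Nat.factorial_le (by omega)
  have h5 : (0 : ℝ) < ((m + 1).factorial : ℝ) := by exact_mod_cast Nat.factorial_pos _
  calc ((m : ℝ) + 1) ^ j * r ^ (m + 1) / ((m + 3).factorial : ℝ)
      ≤ ((m : ℝ) + 1) ^ j * r ^ (m + 1) / ((m + 1).factorial : ℝ) :=
        div_le_div_of_nonneg_left (by positivity) h5 h4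
    _ ≤ ((j.factorial : ℝ) * Real.exp 1 ^ (m + 1)) * r ^ (m + 1) / ((m + 1).factorial : ℝ) := by
        gcongr
    _ = _ := by rw [mul_pow]; ring

private theorem aux_summable (j : ℕ) (r : ℝ) (hr : 0 ≤ r) :
    Summable (fun m : ℕ => ((m : ℝ) + 1) ^ j * r ^ (m + 1) / ((m + 3).factorial : ℝ)) := by
  refine Summable.of_nonneg_of_le (fun m => by positivity) (aux_bound j r hr) ?_
  refine Summable.mul_left _ ?_
  exact (summable_nat_add_iff (f := fun n : ℕ => (Real.exp 1 * r) ^ n / (n.factorial : ℝ)) 1).2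
    (Real.summable_pow_div_factorial _)

private theorem norm_term (j : ℕ) (z : ℂ) (m : ℕ) :
    ‖((m : ℂ) + 1) ^ j * z ^ (m + 1) / ((m + 3).factorial : ℂ)‖ =
      ((m : ℝ) + 1) ^ j * ‖z‖ ^ (m + 1) / ((m + 3).factorial : ℝ) := by
  rw [norm_div, norm_mul, norm_pow, norm_pow]
  have h1 : ‖((m : ℂ) + 1)‖ = (m : ℝ) + 1 := by
    have : ((m : ℂ) + 1) = (((m : ℝ) + 1 : ℝ) : ℂ) := by push_cast; ring
    rw [this, Complex.norm_real, Real.norm_of_nonneg (by positivity)]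
  rw [h1, Complex.norm_natCast]

theorem GG_summable (j : ℕ) (z : ℂ) :
    Summable (fun m : ℕ => ((m : ℂ) + 1) ^ j * z ^ (m + 1) / ((m + 3).factorial : ℂ)) := by
  refine Summable.of_norm ?_
  simp only [norm_term]
  exact aux_summable j ‖z‖ (norm_nonneg z)

theorem GG_norm_summable (j : ℕ) (r : ℝ) :
    Summable (fun m : ℕ => ((m : ℝ) + 1) ^ j * r ^ (m + 1) / ((m + 3).factorial : ℝ)) := by
  refine Summable.of_norm ?_
  refine (aux_summable j |r| (abs_nonneg r)).congr fun m => ?_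
  rw [norm_div, norm_mul, norm_pow, norm_pow, Real.norm_eq_abs, Real.norm_eq_abs, Real.norm_eq_abs,
    abs_of_nonneg (by positivity : (0 : ℝ) ≤ (m : ℝ) + 1), Nat.abs_cast]

/-- on the real axis everything is real -/
theorem GG_ofReal (j : ℕ) (r : ℝ) :
    GG j (r : ℂ) =
      ((∑' m : ℕ, ((m : ℝ) + 1) ^ j * r ^ (m + 1) / ((m + 3).factorial : ℝ) : ℝ) : ℂ) := by
  rw [Complex.ofReal_tsum]
  unfold GG
  refine tsum_congr fun m => ?_
  push_cast
  ring

theorem GG_norm_le (j : ℕ) (z : ℂ) : ‖GG j z‖ ≤ (GG j (‖z‖ : ℂ)).re := by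
  rw [GG_ofReal, Complex.ofReal_re]
  unfold GG
  have h1 : Summable (fun m : ℕ => ‖((m : ℂ) + 1) ^ j * z ^ (m + 1) / ((m + 3).factorial : ℂ)‖) := by
    simp only [norm_term]
    exact aux_summable j ‖z‖ (norm_nonneg z)
  refine (norm_tsum_le_tsum_norm h1).trans (le_of_eq ?_)
  exact tsum_congr fun m => norm_term j z m

theorem GG_re_mono (j : ℕ) {r r' : ℝ} (h0 : 0 ≤ r) (h : r ≤ r') :
    (GG j (r : ℂ)).re ≤ (GG j (r' : ℂ)).re := by
  rw [GG_ofReal, GG_ofReal, Complex.ofReal_re, Complex.ofReal_re]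
  refine (GG_norm_summable j r).tsum_le_tsum (fun m => ?_) (GG_norm_summable j r')
  gcongr

theorem GG_re_mono_index {j j' : ℕ} (hj : j ≤ j') {r : ℝ} (h0 : 0 ≤ r) :
    (GG j (r : ℂ)).re ≤ (GG j' (r : ℂ)).re := by
  rw [GG_ofReal, GG_ofReal, Complex.ofReal_re, Complex.ofReal_re]
  refine (GG_norm_summable j r).tsum_le_tsum (fun m => ?_) (GG_norm_summable j' r)
  have h1 : ((m : ℝ) + 1) ^ j ≤ ((m : ℝ) + 1) ^ j' :=
    pow_le_pow_right₀ (by linarith [Nat.cast_nonneg (α := ℝ) m]) hj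
  gcongr

theorem GG_re_pos (j : ℕ) {r : ℝ} (h0 : 0 < r) : 0 < (GG j (r : ℂ)).re := by
  rw [GG_ofReal, Complex.ofReal_re]
  exact (GG_norm_summable j r).tsum_pos (fun m => by positivity) 0 (by positivity)

theorem GG_conj (j : ℕ) (z : ℂ) : GG j (starRingEnd ℂ z) = starRingEnd ℂ (GG j z) := by
  unfold GG
  rw [Complex.conj_tsum]
  refine tsum_congr fun m => ?_
  simp only [map_div₀, map_mul, map_pow, map_add, map_one, map_natCast]

theorem GG_zero (j : ℕ) : GG j 0 = 0 := by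
  unfold GG
  simp

end ST3
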