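import Pool.Agent.Helper2.ST.B02

/-!
# ST-B03b: the Riccati equation

PROOFS.
* `kap_hasDerivAt`: quotient rule and `GG_hasDerivAt`: `z kap' = GG3/GG1 - kap^2`, with `GG_rel3`.
* `VV_eq`: `VV z = 1 + 2 GG 0 z/GG 1 z` from `GG_rel0`.
* `VV_hasDerivAt`: `z VV' = tk z - z`.
* `V1_eq`: `V1 z = VV z - 1 - 2/kap z`: `(z - tk)/kap = (z-2-z-(z-1)kap+kap^2)/kap`.
* `V1_hasDerivAt`: `-(z/kap) V1' = V2`; i.e. `V1' = -kap V2/z`: from `V1 = VV - 1 - 2/kap` near `z`: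
  `V1' = (tk - z)/z + 2 (tk/z)/kap^2` and `-(z/kap) V1' = (z-tk)/kap - 2 tk/kap^3 = V2`.
* `kap_conj`: from `GG_conj`; `G43`: `GG 3/GG 1 = 2+z+(z-1)kap`.
-/

namespace ST3

open Complex

theorem kap_hasDerivAt {z : ℂ} (hz : z ≠ 0) (h : GG 1 z ≠ 0) : HasDerivAt kap (tk z / z) z := by
  have h1 := GG_hasDerivAt 1 hz
  have h2 := GG_hasDerivAt 2 hz
  have h3 : HasDerivAt kap _ z := h2.div h1 h
  refine h3.congr_deriv ?_
  have h4 := GG_rel3 z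
  unfold tk kap
  rw [show (2 : ℕ) + 1 = 3 from rfl, show (1 : ℕ) + 1 = 2 from rfl, h4]
  field_simp

theorem kap_conj (z : ℂ) : kap (starRingEnd ℂ z) = starRingEnd ℂ (kap z) := by
  unfold kap
  rw [GG_conj, GG_conj, map_div₀]

theorem VV_eq {z : ℂ} (h : GG 1 z ≠ 0) : VV z = 1 + 2 * GG 0 z / GG 1 z := by
  have h4 := GG_rel0 z
  unfold VV kap
  rw [h4]
  field_simp
  ring

theorem VV_hasDerivAt {z : ℂ} (hz : z ≠ 0) (h : GG 1 z ≠ 0) :
    HasDerivAt VV ((tk z - z) / z) z := by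
  have h1 := kap_hasDerivAt hz h
  have h3 : HasDerivAt VV _ z := (h1.add_const 2).sub (hasDerivAt_id z)
  refine h3.congr_deriv ?_
  field_simp

theorem V1_eq {z : ℂ} (h : kap z ≠ 0) : V1 z = VV z - 1 - 2 / kap z := by
  unfold V1 VV tk
  field_simp
  ring

theorem V1_hasDerivAt {z : ℂ} (hz : z ≠ 0) (h : GG 1 z ≠ 0) (hk : kap z ≠ 0) :
    HasDerivAt V1 (-(kap z * V2 z) / z) z := by
  have h1 := kap_hasDerivAt hz h
  have h2 : HasDerivAt tk _ z :=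
    (((hasDerivAt_id z).const_add 2).add (((hasDerivAt_id z).sub_const 1).mul h1)).sub (h1.pow 2)
  have h3 : HasDerivAt V1 _ z := ((hasDerivAt_id z).sub h2).div h1 hk
  refine h3.congr_deriv ?_
  unfold V2 V1
  simp only [id_eq, Pi.sub_apply]
  rw [show tk z = 2 + z + (z - 1) * kap z - kap z ^ 2 from rfl]
  field_simp
  ring

theorem G31 {z : ℂ} (h : GG 1 z ≠ 0) : GG 3 z / GG 1 z = 2 + z + (z - 1) * kap z := by
  unfold kap
  rw [GG_rel3 z]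
  field_simp

theorem G41 {z : ℂ} (h : GG 1 z ≠ 0) :
    GG 4 z / GG 1 z = (z ^ 2 + 3) * kap z + z ^ 2 + 2 * z - 2 := by
  unfold kap
  rw [GG_rel4 z]
  field_simp
  ring

end ST3
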