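import Pool.Agent.Helper2.ST.B03a
import Pool.Agent.Helper2.ST.B03b

/-!
# ST-B03c: `Im VV > 0` in the lower half strip

PROOF. For `-pi < Im z < 0` (so `z != 0`, `GG 1 z != 0`): `VV - 1 = 2g/G = N/M` with
`N = int_0^1 (1-a)^2 e^{az} da`, `M = int_0^1 a(1-a) e^{az} da` (indeed `g = (z/2) N`, `G = z M`:
check by integrating explicitly with an antiderivative and the closed forms `GG0_closed`,
`GG1_closed`).
`Im (N conj M) = 1/2 int int [(1-a)^2 b(1-b) - (1-b)^2 a(1-a)] e^{(a+b)X} sin((a-b)Y) da db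
= -1/2 int int (1-a)(1-b)(a-b) sin((a-b)Y) e^{(a+b)X} da db > 0` because
`(1-a)^2 b (1-b) - (1-b)^2 a (1-a) = (1-a)(1-b)(b - a)` and
`(a-b) sin((a-b)Y) <= 0` for `-pi < Y < 0`, `|a-b| <= 1`.
(`Im N/M = Im (N conj M)/|M|^2`.)
-/

namespace ST3

open Complex

/-- `N = int_0^1 (1-a)^2 e^{az} da` -/
private noncomputable def NN (z : ℂ) : ℂ := ∫ a in (0 : ℝ)..1, ((1 - (a : ℂ)) ^ 2 * exp (a * z))

/-- `M = int_0^1 a (1-a) e^{az} da` -/
private noncomputable def MI (z : ℂ) : ℂ := ∫ a in (0 : ℝ)..1, ((a : ℂ) * (1 - a) * exp (a * z))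

private lemma hasDerivAt_coe (t : ℝ) : HasDerivAt (fun s : ℝ => (s : ℂ)) 1 t :=
  Complex.ofRealCLM.hasDerivAt

private lemma hasDerivAt_expc (z : ℂ) (t : ℝ) :
    HasDerivAt (fun s : ℝ => exp ((s : ℂ) * z)) (exp ((t : ℂ) * z) * z) t := by
  have h1 : HasDerivAt (fun s : ℝ => (s : ℂ) * z) z t := by
    simpa using (hasDerivAt_coe t).mul_const z
  exact h1.cexp

private lemma GG0_NN {z : ℂ} (hz : z ≠ 0) : GG 0 z = z / 2 * NN z := by
  have hd : ∀ t ∈ Set.uIcc (0 : ℝ) 1, HasDerivAt (fun s : ℝ => exp ((s : ℂ) * z) *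
      ((1 - (s : ℂ)) ^ 2 / z + 2 * (1 - (s : ℂ)) / z ^ 2 + 2 / z ^ 3))
      ((1 - (t : ℂ)) ^ 2 * exp (t * z)) t := by
    intro t _
    have h1 : HasDerivAt (fun s : ℝ => (1 - (s : ℂ))) (-1) t := by
      simpa using (hasDerivAt_coe t).const_sub 1
    have h2 := (((h1.pow 2).div_const z).add (((h1.const_mul 2)).div_const (z ^ 2))).add_const
      (2 / z ^ 3)
    have h3 := (hasDerivAt_expc z t).mul h2
    refine h3.congr_deriv ?_
    simp only [Pi.add_apply, Pi.pow_apply]
    field_simp
    ring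
  have hc : Continuous fun t : ℝ => (1 - (t : ℂ)) ^ 2 * exp (t * z) := by fun_prop
  have hi := intervalIntegral.integral_eq_sub_of_hasDerivAt hd (hc.intervalIntegrable 0 1)
  have h0 := GG0_closed z
  have hN : NN z = 2 / z ^ 3 * (exp z - 1 - z - z ^ 2 / 2) := by
    unfold NN
    rw [hi]
    simp only [ofReal_one, ofReal_zero, one_mul, zero_mul, exp_zero, sub_self, sub_zero]
    field_simp
    ring
  have hz2 : z ^ 2 ≠ 0 := pow_ne_zero 2 hz
  apply mul_left_cancel₀ hz2
  rw [h0, hN]
  field_simp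

private lemma GG1_MI {z : ℂ} (hz : z ≠ 0) : GG 1 z = z * MI z := by
  have hd : ∀ t ∈ Set.uIcc (0 : ℝ) 1, HasDerivAt (fun s : ℝ => exp ((s : ℂ) * z) *
      ((s : ℂ) * (1 - (s : ℂ)) / z + (2 * (s : ℂ) - 1) / z ^ 2 - 2 / z ^ 3))
      ((t : ℂ) * (1 - t) * exp (t * z)) t := by
    intro t _
    have h1 : HasDerivAt (fun s : ℝ => (1 - (s : ℂ))) (-1) t := by
      simpa using (hasDerivAt_coe t).const_sub 1
    have h2 := ((((hasDerivAt_coe t).mul h1).div_const z).add
      ((((hasDerivAt_coe t).const_mul 2).sub_const 1).div_const (z ^ 2))).sub_const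
      (2 / z ^ 3)
    have h3 := (hasDerivAt_expc z t).mul h2
    refine h3.congr_deriv ?_
    simp only [Pi.add_apply, Pi.mul_apply]
    field_simp
    ring
  have hc : Continuous fun t : ℝ => (t : ℂ) * (1 - t) * exp (t * z) := by fun_prop
  have hi := intervalIntegral.integral_eq_sub_of_hasDerivAt hd (hc.intervalIntegrable 0 1)
  have h0 := GG1_closed z
  have hN : MI z = (exp z * (z - 2) + z + 2) / z ^ 3 := by
    unfold MI
    rw [hi]
    simp only [ofReal_one, ofReal_zero, one_mul, zero_mul, exp_zero, sub_self, sub_zero]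
    field_simp
    ring
  have hz2 : z ^ 2 ≠ 0 := pow_ne_zero 2 hz
  apply mul_left_cancel₀ hz2
  rw [h0, hN]
  field_simp

private lemma im_pos_aux {z : ℂ} (h1 : -Real.pi < z.im) (h2 : z.im < 0) :
    0 < (NN z).im * (MI z).re - (NN z).re * (MI z).im := by
  have cN : Continuous fun t : ℝ => (1 - (t : ℂ)) ^ 2 * exp (t * z) := by fun_prop
  have cM : Continuous fun t : ℝ => (t : ℂ) * (1 - t) * exp (t * z) := by fun_prop
  have er : ∀ t : ℝ, (exp ((t : ℂ) * z)).re = Real.exp (t * z.re) * Real.cos (t * z.im) := by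
    intro t
    rw [exp_re]
    simp
  have ei : ∀ t : ℝ, (exp ((t : ℂ) * z)).im = Real.exp (t * z.re) * Real.sin (t * z.im) := by
    intro t
    rw [exp_im]
    simp
  have nr : (NN z).re = ∫ a in (0 : ℝ)..1, (1 - a) ^ 2 * (Real.exp (a * z.re) *
      Real.cos (a * z.im)) := by
    have h := Complex.reCLM.intervalIntegral_comp_comm (μ := MeasureTheory.volume)
      (cN.intervalIntegrable 0 1)
    unfold NN
    rw [← Complex.reCLM_apply, ← h]
    refine intervalIntegral.integral_congr fun t _ => ?_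
    simp only [Complex.reCLM_apply]
    have e : (1 - (t : ℂ)) ^ 2 = (((1 - t) ^ 2 : ℝ) : ℂ) := by push_cast; ring
    rw [e, Complex.re_ofReal_mul, er]
  have ni : (NN z).im = ∫ a in (0 : ℝ)..1, (1 - a) ^ 2 * (Real.exp (a * z.re) *
      Real.sin (a * z.im)) := by
    have h := Complex.imCLM.intervalIntegral_comp_comm (μ := MeasureTheory.volume)
      (cN.intervalIntegrable 0 1)
    unfold NN
    rw [← Complex.imCLM_apply, ← h]
    refine intervalIntegral.integral_congr fun t _ => ?_
    simp only [Complex.imCLM_apply]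
    have e : (1 - (t : ℂ)) ^ 2 = (((1 - t) ^ 2 : ℝ) : ℂ) := by push_cast; ring
    rw [e, Complex.im_ofReal_mul, ei]
  have mr : (MI z).re = ∫ a in (0 : ℝ)..1, a * (1 - a) * (Real.exp (a * z.re) *
      Real.cos (a * z.im)) := by
    have h := Complex.reCLM.intervalIntegral_comp_comm (μ := MeasureTheory.volume)
      (cM.intervalIntegrable 0 1)
    unfold MI
    rw [← Complex.reCLM_apply, ← h]
    refine intervalIntegral.integral_congr fun t _ => ?_
    simp only [Complex.reCLM_apply]
    have e : (t : ℂ) * (1 - t) = ((t * (1 - t) : ℝ) : ℂ) := by push_cast; ring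
    rw [e, Complex.re_ofReal_mul, er]
  have mi : (MI z).im = ∫ a in (0 : ℝ)..1, a * (1 - a) * (Real.exp (a * z.re) *
      Real.sin (a * z.im)) := by
    have h := Complex.imCLM.intervalIntegral_comp_comm (μ := MeasureTheory.volume)
      (cM.intervalIntegrable 0 1)
    unfold MI
    rw [← Complex.imCLM_apply, ← h]
    refine intervalIntegral.integral_congr fun t _ => ?_
    simp only [Complex.imCLM_apply]
    have e : (t : ℂ) * (1 - t) = ((t * (1 - t) : ℝ) : ℂ) := by push_cast; ring
    rw [e, Complex.im_ofReal_mul, ei]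
  set X := z.re with hX
  set Y := z.im with hY
  -- the kernel
  set K : ℝ → ℝ → ℝ := fun a b =>
    (1 - a) * (1 - b) * (b - a) * (Real.exp (a * X) * Real.exp (b * X)) *
      Real.sin ((a - b) * Y) with hK
  have hK0 : ∀ a ∈ Set.Icc (0 : ℝ) 1, ∀ b ∈ Set.Icc (0 : ℝ) 1, 0 ≤ K a b := by
    intro a ha b hb
    have e : K a b = (1 - a) * (1 - b) * (Real.exp (a * X) * Real.exp (b * X)) *
        ((b - a) * Real.sin ((b - a) * (-Y))) := by
      rw [hK]
      simp only
      rw [show (a - b) * Y = (b - a) * (-Y) by ring]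
      ring
    rw [e]
    have h3 : 0 ≤ (b - a) * Real.sin ((b - a) * (-Y)) := by
      rcases le_total a b with hab | hab
      · refine mul_nonneg (by linarith) (Real.sin_nonneg_of_nonneg_of_le_pi ?_ ?_)
        · exact mul_nonneg (by linarith) (by linarith)
        · nlinarith [ha.1, ha.2, hb.1, hb.2]
      · refine mul_nonneg_of_nonpos_of_nonpos (by linarith)
          (Real.sin_nonpos_of_nonpos_of_neg_pi_le ?_ ?_)
        · exact mul_nonpos_of_nonpos_of_nonneg (by linarith) (by linarith)
        · nlinarith [ha.1, ha.2, hb.1, hb.2]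
    have h4 : 0 ≤ 1 - a := by linarith [ha.2]
    have h5 : 0 ≤ 1 - b := by linarith [hb.2]
    positivity
  have hKp : ∀ a ∈ Set.Ico (0 : ℝ) 1, ∃ b ∈ Set.Icc (0 : ℝ) 1, 0 < K a b := by
    intro a ha
    refine ⟨(1 + a) / 2, ⟨by linarith [ha.1], by linarith [ha.2]⟩, ?_⟩
    have h3 : 0 < 1 - a := by linarith [ha.2]
    have h4 : 0 < Real.sin ((a - (1 + a) / 2) * Y) := by
      refine Real.sin_pos_of_pos_of_lt_pi ?_ ?_
      · have : (a - (1 + a) / 2) * Y = (1 - a) / 2 * (-Y) := by ring
        rw [this]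
        exact mul_pos (by linarith) (by linarith)
      · have h5 := ha.1
        nlinarith
    rw [hK]
    simp only
    have h6 : 0 < 1 - (1 + a) / 2 := by linarith
    have h7 : 0 < (1 + a) / 2 - a := by linarith
    positivity
  have hKb : ∀ a, ∫ b in (0 : ℝ)..1, K a b =
      (1 - a) ^ 2 * (Real.exp (a * X) * Real.sin (a * Y)) * (MI z).re -
      (1 - a) ^ 2 * (Real.exp (a * X) * Real.cos (a * Y)) * (MI z).im -
      a * (1 - a) * (Real.exp (a * X) * Real.sin (a * Y)) * (NN z).re +
      a * (1 - a) * (Real.exp (a * X) * Real.cos (a * Y)) * (NN z).im := by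
    intro a
    rw [nr, ni, mr, mi]
    have i1 : IntervalIntegrable (fun b : ℝ => b * (1 - b) * (Real.exp (b * X) * Real.cos (b * Y)))
        MeasureTheory.volume 0 1 := Continuous.intervalIntegrable (by fun_prop) _ _
    have i2 : IntervalIntegrable (fun b : ℝ => b * (1 - b) * (Real.exp (b * X) * Real.sin (b * Y)))
        MeasureTheory.volume 0 1 := Continuous.intervalIntegrable (by fun_prop) _ _
    have i3 : IntervalIntegrable (fun b : ℝ => (1 - b) ^ 2 * (Real.exp (b * X) * Real.cos (b * Y)))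
        MeasureTheory.volume 0 1 := Continuous.intervalIntegrable (by fun_prop) _ _
    have i4 : IntervalIntegrable (fun b : ℝ => (1 - b) ^ 2 * (Real.exp (b * X) * Real.sin (b * Y)))
        MeasureTheory.volume 0 1 := Continuous.intervalIntegrable (by fun_prop) _ _
    rw [← intervalIntegral.integral_const_mul, ← intervalIntegral.integral_const_mul,
      ← intervalIntegral.integral_const_mul, ← intervalIntegral.integral_const_mul,
      ← intervalIntegral.integral_sub (i1.const_mul _) (i2.const_mul _),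
      ← intervalIntegral.integral_sub ((i1.const_mul _).sub (i2.const_mul _)) (i3.const_mul _),
      ← intervalIntegral.integral_add (((i1.const_mul _).sub (i2.const_mul _)).sub
        (i3.const_mul _)) (i4.const_mul _)]
    refine intervalIntegral.integral_congr fun b _ => ?_
    simp only [hK]
    rw [show (a - b) * Y = a * Y - b * Y by ring, Real.sin_sub]
    ring
  have hout : ∫ a in (0 : ℝ)..1, (∫ b in (0 : ℝ)..1, K a b) =
      2 * ((NN z).im * (MI z).re - (NN z).re * (MI z).im) := by
    simp_rw [hKb]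
    have j1 : IntervalIntegrable (fun a : ℝ => (1 - a) ^ 2 * (Real.exp (a * X) *
        Real.sin (a * Y)) * (MI z).re)
        MeasureTheory.volume 0 1 := Continuous.intervalIntegrable (by fun_prop) _ _
    have j2 : IntervalIntegrable (fun a : ℝ => (1 - a) ^ 2 * (Real.exp (a * X) *
        Real.cos (a * Y)) * (MI z).im)
        MeasureTheory.volume 0 1 := Continuous.intervalIntegrable (by fun_prop) _ _
    have j3 : IntervalIntegrable (fun a : ℝ => a * (1 - a) * (Real.exp (a * X) *
        Real.sin (a * Y)) * (NN z).re)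
        MeasureTheory.volume 0 1 := Continuous.intervalIntegrable (by fun_prop) _ _
    have j4 : IntervalIntegrable (fun a : ℝ => a * (1 - a) * (Real.exp (a * X) *
        Real.cos (a * Y)) * (NN z).im)
        MeasureTheory.volume 0 1 := Continuous.intervalIntegrable (by fun_prop) _ _
    rw [intervalIntegral.integral_add ((j1.sub j2).sub j3) j4,
      intervalIntegral.integral_sub (j1.sub j2) j3, intervalIntegral.integral_sub j1 j2,
      intervalIntegral.integral_mul_const, intervalIntegral.integral_mul_const,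
      intervalIntegral.integral_mul_const, intervalIntegral.integral_mul_const,
      ← nr, ← ni, ← mr, ← mi]
    ring
  have cKb : ∀ a, Continuous fun b => K a b := by
    intro a
    simp only [hK]
    fun_prop
  have cK : Continuous fun a => ∫ b in (0 : ℝ)..1, K a b := by
    simp_rw [hKb]
    fun_prop
  have hpos : 0 < ∫ a in (0 : ℝ)..1, (∫ b in (0 : ℝ)..1, K a b) := by
    refine intervalIntegral.integral_pos zero_lt_one cK.continuousOn ?_ ?_
    · intro a ha
      refine intervalIntegral.integral_nonneg zero_le_one fun b hb => ?_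
      exact hK0 a ⟨ha.1.le, ha.2⟩ b hb
    · refine ⟨0, ⟨le_rfl, zero_le_one⟩, ?_⟩
      refine intervalIntegral.integral_pos zero_lt_one (cKb 0).continuousOn ?_ ?_
      · intro b hb
        exact hK0 0 ⟨le_rfl, zero_le_one⟩ b ⟨hb.1.le, hb.2⟩
      · exact hKp 0 ⟨le_rfl, zero_lt_one⟩
  rw [hout] at hpos
  linarith

theorem VV_im_pos {z : ℂ} (h1 : -Real.pi < z.im) (h2 : z.im < 0) : 0 < (VV z).im := by
  have hz : z ≠ 0 := by
    rintro rfl
    simp at h2
  have hG : GG 1 z ≠ 0 := GG1_ne_zero hz (by rw [abs_of_neg h2]; linarith)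
  have hM : MI z ≠ 0 := by
    intro h
    rw [GG1_MI hz, h, mul_zero] at hG
    exact hG rfl
  have e : VV z = 1 + NN z / MI z := by
    rw [VV_eq hG, GG0_NN hz, GG1_MI hz]
    field_simp
  rw [e, add_im, one_im, zero_add, div_im]
  have h3 := im_pos_aux h1 h2
  have h4 : 0 < normSq (MI z) := normSq_pos.2 hM
  rw [← sub_div]
  exact div_pos h3 h4

end ST3
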