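import Pool.Agent.Helper2.ST.B02

/-!
# ST-B03a: `MM` and the nonvanishing of `G`

PROOFS.
* `GG1_eq_MM`: `GG 1 z = (z/6) e^{z/2} MM z`. For `z = 0` both sides vanish. For `z != 0` multiply by
  `z^2` and use `GG1_closed`; an antiderivative in `u` of `(1-u^2) cosh(uz/2)` is
  `(1-u^2)(2/z) sinh(uz/2) - (8u/z^2) (-cosh(uz/2)) ...`: precisely
  `A(u) = (2/z)(1-u^2) sinh(uz/2) - (8/z^2) (-u) ... `; determine it by integrating by parts twice;
  the value of the integral is `(8/z^2) cosh(z/2) - (16/z^3) sinh(z/2)`, so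
  `MM z = (12/z^2) cosh(z/2) - (24/z^3) sinh(z/2)`.
* `MM_re_pos`: `Re cosh(uz/2) = cosh(u X/2) cos(u Y/2)` with `|uY/2| < pi/2` for `|Y| <= pi`,
  `0 <= u < 1`; the integrand is continuous, nonnegative and positive on `(0,1)`.
* `MM_zero`: `(3/2) int_0^1 (1-u^2) du = 1`.
* `MM_differentiable`: differentiate under the integral
  (`intervalIntegral.hasDerivAt_integral_of_dominated_loc_of_deriv_le`), or: for `z != 0` it is
  `(12 z cosh(z/2) - 24 sinh(z/2))/z^3`, at `0` use continuity and removability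
  (`Complex.differentiableOn_update_limUnder...`), or a power series.
* `GG1_ne_zero`: from the two first ones.
-/

namespace ST3

open Complex

private theorem mm_cont (z : ℂ) :
    Continuous fun u : ℝ => ((1 - u ^ 2 : ℝ) : ℂ) * Complex.cosh ((u : ℂ) * z / 2) := by
  fun_prop

private theorem mm_closed {z : ℂ} (hz : z ≠ 0) :
    MM z = 12 * Complex.cosh (z / 2) / z ^ 2 - 24 * Complex.sinh (z / 2) / z ^ 3 := by
  have hd : ∀ u ∈ Set.uIcc (0 : ℝ) 1, HasDerivAt (fun u : ℝ =>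
      (2 / z) * (1 - (u : ℂ) ^ 2) * Complex.sinh ((u : ℂ) * z / 2) +
        (8 / z ^ 2) * (u : ℂ) * Complex.cosh ((u : ℂ) * z / 2) -
        (16 / z ^ 3) * Complex.sinh ((u : ℂ) * z / 2))
      (((1 - u ^ 2 : ℝ) : ℂ) * Complex.cosh ((u : ℂ) * z / 2)) u := by
    intro u _
    have h0 : HasDerivAt (fun w : ℂ => w) 1 (u : ℂ) := hasDerivAt_id _
    have h1 : HasDerivAt (fun w : ℂ => w * z / 2) (1 * z / 2) (u : ℂ) :=
      (h0.mul_const z).div_const 2
    have h2 := h1.csinh
    have h3 := h1.ccosh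
    have h4 : HasDerivAt (fun w : ℂ => (2 / z) * (1 - w ^ 2)) _ (u : ℂ) :=
      ((h0.pow 2).const_sub 1).const_mul (2 / z)
    have h5 : HasDerivAt (fun w : ℂ => (8 / z ^ 2) * w) _ (u : ℂ) := h0.const_mul (8 / z ^ 2)
    refine ((((h4.mul h2).add (h5.mul h3)).sub (h2.const_mul (16 / z ^ 3))).comp_ofReal).congr_deriv
      ?_
    push_cast
    field_simp
    ring
  have h := intervalIntegral.integral_eq_sub_of_hasDerivAt hd
    ((mm_cont z).intervalIntegrable 0 1)
  unfold MM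
  rw [h]
  simp only [Complex.ofReal_one, Complex.ofReal_zero, zero_mul, zero_div, Complex.sinh_zero,
    mul_zero, one_mul]
  ring

theorem GG1_eq_MM (z : ℂ) : GG 1 z = z / 6 * exp (z / 2) * MM z := by
  by_cases hz : z = 0
  · rw [hz, GG_zero]
    ring
  · have h1 := GG1_closed z
    have h2 : GG 1 z = (exp z * (z - 2) + z + 2) / z ^ 2 := by
      rw [← h1]
      field_simp
    have h3 : exp z = exp (z / 2) ^ 2 := by
      rw [← Complex.exp_nat_mul]
      congr 1
      push_cast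
      ring
    have h4 : exp (-(z / 2)) = (exp (z / 2))⁻¹ := Complex.exp_neg _
    have h5 : exp (z / 2) ≠ 0 := Complex.exp_ne_zero _
    rw [h2, mm_closed hz, Complex.cosh, Complex.sinh, h3, h4]
    field_simp
    ring

theorem MM_re_pos {z : ℂ} (h : |z.im| ≤ Real.pi) : 0 < (MM z).re := by
  have h1 : (MM z).re = 3 / 2 * ∫ u in (0 : ℝ)..1, (1 - u ^ 2) *
      (Real.cosh (u * z.re / 2) * Real.cos (u * z.im / 2)) := by
    unfold MM
    have h2 : ((3 / 2 : ℂ) * ∫ u in (0 : ℝ)..1, ((1 - u ^ 2 : ℝ) : ℂ) *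
        Complex.cosh ((u : ℂ) * z / 2)).re = 3 / 2 * (∫ u in (0 : ℝ)..1, ((1 - u ^ 2 : ℝ) : ℂ) *
        Complex.cosh ((u : ℂ) * z / 2)).re := by
      have : (3 / 2 : ℂ) = ((3 / 2 : ℝ) : ℂ) := by push_cast; rfl
      rw [this, Complex.re_ofReal_mul]
    rw [h2]
    congr 1
    have h3 := Complex.reCLM.intervalIntegral_comp_comm
      ((mm_cont z).intervalIntegrable (μ := MeasureTheory.volume) 0 1)
    rw [← Complex.reCLM_apply, ← h3]
    refine intervalIntegral.integral_congr fun u _ => ?_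
    simp only [Complex.reCLM_apply]
    rw [Complex.re_ofReal_mul]
    congr 1
    have h4 : (u : ℂ) * z / 2 = ((u * z.re / 2 : ℝ) : ℂ) + ((u * z.im / 2 : ℝ) : ℂ) * Complex.I := by
      apply Complex.ext <;> simp
    rw [h4, Complex.cosh_add, Complex.cosh_mul_I, Complex.sinh_mul_I, ← Complex.ofReal_cosh,
      ← Complex.ofReal_sinh, ← Complex.ofReal_cos, ← Complex.ofReal_sin]
    simp only [Complex.add_re, Complex.mul_re, Complex.ofReal_re, Complex.ofReal_im, Complex.I_re,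
      Complex.I_im, Complex.mul_im]
    ring
  rw [h1]
  refine mul_pos (by norm_num) (intervalIntegral.intervalIntegral_pos_of_pos_on ?_ ?_ one_pos)
  · refine Continuous.intervalIntegrable ?_ 0 1
    have c1 : Continuous fun u : ℝ => Real.cosh (u * z.re / 2) :=
      Real.continuous_cosh.comp (by fun_prop)
    fun_prop
  · intro u hu
    refine mul_pos ?_ (mul_pos (Real.cosh_pos _) (Real.cos_pos_of_mem_Ioo ?_))
    · nlinarith [hu.1, hu.2]
    · have h5 : |u * z.im / 2| < Real.pi / 2 := by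
        rw [abs_div, abs_mul, abs_of_pos hu.1, abs_of_pos (by norm_num : (0 : ℝ) < 2)]
        have h6 : u * |z.im| ≤ u * Real.pi := mul_le_mul_of_nonneg_left h hu.1.le
        have h7 : u * Real.pi < 1 * Real.pi := mul_lt_mul_of_pos_right hu.2 Real.pi_pos
        linarith
      rw [abs_lt] at h5
      exact ⟨h5.1, h5.2⟩

theorem MM_differentiable : Differentiable ℂ MM := by
  intro z₀
  have hsb : ∀ w : ℂ, ‖Complex.sinh w‖ ≤ Real.exp ‖w‖ := by
    intro w
    rw [Complex.sinh, norm_div]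
    have h1 := norm_sub_le (exp w) (exp (-w))
    have h2 := Complex.norm_exp_le_exp_norm w
    have h3 := Complex.norm_exp_le_exp_norm (-w)
    rw [norm_neg] at h3
    have h4 : ‖(2 : ℂ)‖ = 2 := by simp
    rw [h4]
    linarith
  have hder : ∀ u : ℝ, ∀ x : ℂ, HasDerivAt
      (fun z : ℂ => ((1 - u ^ 2 : ℝ) : ℂ) * Complex.cosh ((u : ℂ) * z / 2))
      (((1 - u ^ 2 : ℝ) : ℂ) * (Complex.sinh ((u : ℂ) * x / 2) * ((u : ℂ) / 2))) x := by
    intro u x
    have h1 : HasDerivAt (fun z : ℂ => (u : ℂ) * z / 2) ((u : ℂ) / 2) x := by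
      have := ((hasDerivAt_id x).const_mul (u : ℂ)).div_const 2
      simpa using this
    exact (h1.ccosh).const_mul _
  have key := intervalIntegral.hasDerivAt_integral_of_dominated_loc_of_deriv_le
    (𝕜 := ℂ) (μ := MeasureTheory.volume) (a := 0) (b := 1)
    (F := fun (z : ℂ) (u : ℝ) => ((1 - u ^ 2 : ℝ) : ℂ) * Complex.cosh ((u : ℂ) * z / 2))
    (F' := fun (x : ℂ) (u : ℝ) =>
      ((1 - u ^ 2 : ℝ) : ℂ) * (Complex.sinh ((u : ℂ) * x / 2) * ((u : ℂ) / 2)))
    (x₀ := z₀) (s := Metric.ball z₀ 1) (bound := fun _ => Real.exp ((‖z₀‖ + 1) / 2))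
    (Metric.ball_mem_nhds z₀ one_pos)
    (Filter.Eventually.of_forall fun z => (mm_cont z).aestronglyMeasurable)
    ((mm_cont z₀).intervalIntegrable 0 1)
    (by
      have : Continuous fun u : ℝ =>
          ((1 - u ^ 2 : ℝ) : ℂ) * (Complex.sinh ((u : ℂ) * z₀ / 2) * ((u : ℂ) / 2)) := by
        fun_prop
      exact this.aestronglyMeasurable)
    (by
      refine Filter.Eventually.of_forall fun u hu x hx => ?_
      rw [Set.uIoc_of_le zero_le_one] at hu
      have hx' : ‖x‖ ≤ ‖z₀‖ + 1 := by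
        rw [Metric.mem_ball, dist_eq_norm] at hx
        have := norm_add_le (x - z₀) z₀
        rw [sub_add_cancel] at this
        linarith
      rw [norm_mul, norm_mul]
      have a1 : ‖((1 - u ^ 2 : ℝ) : ℂ)‖ ≤ 1 := by
        rw [Complex.norm_real, Real.norm_eq_abs, abs_le]
        constructor <;> nlinarith [hu.1, hu.2]
      have a2 : ‖(u : ℂ) / 2‖ ≤ 1 := by
        rw [norm_div, Complex.norm_real, Real.norm_eq_abs, abs_of_pos hu.1]
        have : ‖(2 : ℂ)‖ = 2 := by simp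
        rw [this]
        linarith [hu.2]
      have a3 : ‖Complex.sinh ((u : ℂ) * x / 2)‖ ≤ Real.exp ((‖z₀‖ + 1) / 2) := by
        refine (hsb _).trans (Real.exp_le_exp.2 ?_)
        rw [norm_div, norm_mul, Complex.norm_real, Real.norm_eq_abs, abs_of_pos hu.1]
        have : ‖(2 : ℂ)‖ = 2 := by simp
        rw [this]
        have h9 : u * ‖x‖ ≤ 1 * ‖x‖ := mul_le_mul_of_nonneg_right hu.2 (norm_nonneg _)
        linarith
      have a4 : 0 ≤ ‖Complex.sinh ((u : ℂ) * x / 2)‖ := norm_nonneg _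
      have a5 : 0 ≤ ‖(u : ℂ) / 2‖ := norm_nonneg _
      have a6 : ‖Complex.sinh ((u : ℂ) * x / 2)‖ * ‖(u : ℂ) / 2‖ ≤
          Real.exp ((‖z₀‖ + 1) / 2) * 1 := mul_le_mul a3 a2 a5 (Real.exp_pos _).le
      calc _ ≤ 1 * (Real.exp ((‖z₀‖ + 1) / 2) * 1) :=
            mul_le_mul a1 a6 (mul_nonneg a4 a5) zero_le_one
        _ = _ := by ring)
    (continuous_const.intervalIntegrable 0 1)
    (Filter.Eventually.of_forall fun u _ x _ => hder u x)
  exact (key.2.const_mul (3 / 2 : ℂ)).differentiableAt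

theorem MM_zero : MM 0 = 1 := by
  unfold MM
  simp only [mul_zero, zero_div, Complex.cosh_zero, mul_one]
  rw [intervalIntegral.integral_ofReal]
  have : ∫ u in (0 : ℝ)..1, (1 - u ^ 2) = 2 / 3 := by
    rw [intervalIntegral.integral_sub (by simp) (by simp)]
    simp
    norm_num
  rw [this]
  push_cast
  norm_num

theorem GG1_ne_zero {z : ℂ} (hz : z ≠ 0) (h : |z.im| ≤ Real.pi) : GG 1 z ≠ 0 := by
  rw [GG1_eq_MM]
  have h1 := MM_re_pos h
  have h2 : MM z ≠ 0 := by
    intro h0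
    rw [h0] at h1
    simp at h1
  exact mul_ne_zero (mul_ne_zero (div_ne_zero hz (by norm_num)) (Complex.exp_ne_zero _)) h2

end ST3
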