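import Pool.Agent.Helper2.ST.B01
import Pool.Agent.Helper2.ST.B03

/-!
# ST-B04: the circle formula for `q_n` and `J_n`

PROOF of `q_circle`. Put `t = z e^{ib}`, `F_k = (GG 0)^k/k!`,
`E n k = (1/2pi) int_{-pi}^{pi} F_k(t) t^{-n} db`. First note `GG 1 t = (t-2) GG 0 t + t/2`
(coefficients: `m = (m+2) - 2` for `m >= 2`, `1 = -2 + 3` for `m = 1`; or from the closed forms
`GG0_closed`, `GG1_closed` after multiplication by `t^2`). Hence
`t F_k'(t) = F_{k-1}(t) GG 1 t = k (t-2) F_k(t) + (t/2) F_{k-1}(t)` for `k >= 1`.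
The function `b -> F_k(t) t^{-n}` has derivative `i (t F_k'(t) - n F_k(t)) t^{-n}` and equal values
at `b = -pi` and `b = pi`, so
`n E n k = k E (n-1) k - 2k E n k + (1/2) E (n-1) (k-1)` for `n, k >= 1`.
Moreover `E 0 k = F_k(0)` (mean value property of the entire function `F_k`, for instance
`circleAverage` / `circleIntegral` Cauchy formula), i.e. `1` for `k = 0` and `0` for `k >= 1`, and
`E n 0 = 0` for `n >= 1` (integral of `e^{-inb}`). With `d_rec` (and `d 0 0 = 1`, `d 0 (k+1) = 0`,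
`d (n+1) 0 = 0`) induction on `n` gives `E n k = d n k` for all `n, k`.
Finally `exp (v GG 0 t) = sum_k v^k F_k(t)`, uniformly on the circle (`|GG 0 t| <= GG 0 |z|`), so the
right hand side is `sum_k v^k E n k = sum_{k <= n} v^k d n k = q n v` (`d n k = 0` for `k > n`).

PROOF of `J_circle`: insert `v = n / GG 1 z` and multiply by `exp (-n GG 0 z/GG 1 z) z^n`;
`((z e^{ib})^n)^{-1} z^n = e^{-inb}`.
-/

namespace ST3

open Complex MeasureTheory

/-- the terms of the exponential series -/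
private noncomputable def FF (k : ℕ) (t : ℂ) : ℂ := GG 0 t ^ k / (k.factorial : ℂ)

/-- the integrand of the coefficient integral -/
private noncomputable def EI (z : ℂ) (n k : ℕ) (b : ℝ) : ℂ :=
  FF k (z * exp (b * I)) * ((z * exp (b * I)) ^ n)⁻¹

private theorem FF_diff (k : ℕ) : Differentiable ℂ (FF k) := by
  unfold FF
  exact ((GG_differentiable 0).pow k).div_const _

private theorem t_ne {z : ℂ} (hz : z ≠ 0) (b : ℝ) : z * exp (b * I) ≠ 0 :=
  mul_ne_zero hz (exp_ne_zero _)

private theorem t_deriv (z : ℂ) (b : ℝ) :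
    HasDerivAt (fun b : ℝ => z * exp (b * I)) (z * exp (b * I) * I) b := by
  have h1 : HasDerivAt (fun b : ℝ => (b : ℂ) * I) (1 * I) b :=
    (Complex.ofRealCLM.hasDerivAt (x := b)).mul_const I
  have h2 := (h1.cexp).const_mul z
  refine h2.congr_deriv ?_
  ring

private theorem EI_cont {z : ℂ} (hz : z ≠ 0) (n k : ℕ) : Continuous (EI z n k) := by
  unfold EI
  have h1 : Continuous (fun b : ℝ => z * exp (b * I)) := by fun_prop
  refine ((FF_diff k).continuous.comp h1).mul ?_
  exact (h1.pow n).inv₀ fun b => pow_ne_zero _ (t_ne hz b)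

private theorem inv_deriv {z : ℂ} (hz : z ≠ 0) (n : ℕ) (b : ℝ) :
    HasDerivAt (fun b : ℝ => ((z * exp (b * I)) ^ n)⁻¹)
      (-(n : ℂ) * I * ((z * exp (b * I)) ^ n)⁻¹) b := by
  have h0 := t_ne hz b
  have h1 := ((t_deriv z b).pow n).inv (pow_ne_zero n h0)
  have h2 : HasDerivAt (fun b : ℝ => ((z * exp (b * I)) ^ n)⁻¹) _ b := h1
  refine h2.congr_deriv ?_
  rcases n with _ | n
  · simp
  · simp only [Nat.add_sub_cancel, Nat.cast_add, Nat.cast_one, Pi.pow_apply]
    field_simp
    ring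

private theorem GG_comp_deriv {z : ℂ} (hz : z ≠ 0) (b : ℝ) :
    HasDerivAt (fun b : ℝ => GG 0 (z * exp (b * I))) (I * GG 1 (z * exp (b * I))) b := by
  have h0 := t_ne hz b
  have h1 := (GG_hasDerivAt 0 h0).comp b (t_deriv z b)
  have h2 : HasDerivAt (fun b : ℝ => GG 0 (z * exp (b * I))) _ b := h1
  refine h2.congr_deriv ?_
  field_simp

private theorem FF_succ_deriv {z : ℂ} (hz : z ≠ 0) (k : ℕ) (b : ℝ) :
    HasDerivAt (fun b : ℝ => FF (k + 1) (z * exp (b * I)))
      (I * (FF k (z * exp (b * I)) * GG 1 (z * exp (b * I)))) b := by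
  have h1 := ((GG_comp_deriv hz b).pow (k + 1)).div_const ((k + 1).factorial : ℂ)
  have h2 : HasDerivAt (fun b : ℝ => FF (k + 1) (z * exp (b * I))) _ b := h1
  refine h2.congr_deriv ?_
  unfold FF
  rw [Nat.factorial_succ]
  have hk : (k.factorial : ℂ) ≠ 0 := by exact_mod_cast Nat.factorial_ne_zero k
  have hk1 : ((k : ℂ) + 1) ≠ 0 := by exact_mod_cast Nat.succ_ne_zero k
  push_cast
  field_simp

private theorem FF_mul (k : ℕ) (t : ℂ) : FF k t * GG 0 t = ((k : ℂ) + 1) * FF (k + 1) t := by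
  unfold FF
  rw [Nat.factorial_succ]
  have hk : (k.factorial : ℂ) ≠ 0 := by exact_mod_cast Nat.factorial_ne_zero k
  have hk1 : ((k : ℂ) + 1) ≠ 0 := by exact_mod_cast Nat.succ_ne_zero k
  push_cast
  field_simp
  ring

private theorem exp_pi_eq : exp ((Real.pi : ℂ) * I) = exp (((-Real.pi : ℝ) : ℂ) * I) := by
  rw [Complex.exp_pi_mul_I]
  push_cast
  rw [neg_mul, Complex.exp_neg, Complex.exp_pi_mul_I]
  norm_num

private theorem EI_rec {z : ℂ} (hz : z ≠ 0) (m k : ℕ) :
    ((m : ℂ) + 1 + 2 * ((k : ℂ) + 1)) * (∫ b in (-Real.pi)..Real.pi, EI z (m + 1) (k + 1) b) =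
      ((k : ℂ) + 1) * (∫ b in (-Real.pi)..Real.pi, EI z m (k + 1) b) +
        (∫ b in (-Real.pi)..Real.pi, EI z m k b) / 2 := by
  have hd : ∀ b : ℝ, HasDerivAt (fun b : ℝ => EI z (m + 1) (k + 1) b)
      (I * (((k : ℂ) + 1) * EI z m (k + 1) b + EI z m k b / 2 -
        ((m : ℂ) + 1 + 2 * ((k : ℂ) + 1)) * EI z (m + 1) (k + 1) b)) b := by
    intro b
    have h0 := t_ne hz b
    have h1 := (FF_succ_deriv hz k b).mul (inv_deriv hz (m + 1) b)
    have h2 : HasDerivAt (fun b : ℝ => EI z (m + 1) (k + 1) b) _ b := h1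
    refine h2.congr_deriv ?_
    unfold EI
    have h3 := GG1_lin (z * exp (b * I))
    have h4 := FF_mul k (z * exp (b * I))
    set t := z * exp (b * I) with ht
    have h5 : FF k t * GG 1 t = (t - 2) * (((k : ℂ) + 1) * FF (k + 1) t) + t / 2 * FF k t := by
      rw [h3, ← h4]
      ring
    rw [h5]
    have h6 : (t ^ m)⁻¹ = t * (t ^ (m + 1))⁻¹ := by
      rw [pow_succ]
      field_simp
    rw [h6]
    push_cast
    ring
  have hint : ∫ b in (-Real.pi)..Real.pi,
      (I * (((k : ℂ) + 1) * EI z m (k + 1) b + EI z m k b / 2 -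
        ((m : ℂ) + 1 + 2 * ((k : ℂ) + 1)) * EI z (m + 1) (k + 1) b)) = 0 := by
    rw [intervalIntegral.integral_eq_sub_of_hasDerivAt (fun b _ => hd b)]
    · unfold EI
      rw [exp_pi_eq, sub_self]
    · apply Continuous.intervalIntegrable
      have c1 := EI_cont hz m (k + 1)
      have c2 := EI_cont hz m k
      have c3 := EI_cont hz (m + 1) (k + 1)
      fun_prop
  rw [intervalIntegral.integral_const_mul] at hint
  have hI : (I : ℂ) ≠ 0 := I_ne_zero
  have hint2 := (mul_eq_zero.1 hint).resolve_left hI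
  have i1 : IntervalIntegrable (fun b => ((k : ℂ) + 1) * EI z m (k + 1) b) volume
      (-Real.pi) Real.pi := by
    apply Continuous.intervalIntegrable
    have c1 := EI_cont hz m (k + 1)
    fun_prop
  have i2 : IntervalIntegrable (fun b => EI z m k b / 2) volume (-Real.pi) Real.pi := by
    apply Continuous.intervalIntegrable
    have c1 := EI_cont hz m k
    fun_prop
  have i3 : IntervalIntegrable (fun b => ((m : ℂ) + 1 + 2 * ((k : ℂ) + 1)) *
      EI z (m + 1) (k + 1) b) volume (-Real.pi) Real.pi := by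
    apply Continuous.intervalIntegrable
    have c1 := EI_cont hz (m + 1) (k + 1)
    fun_prop
  rw [intervalIntegral.integral_sub (i1.add i2) i3, intervalIntegral.integral_add i1 i2,
    intervalIntegral.integral_const_mul, intervalIntegral.integral_const_mul,
    intervalIntegral.integral_div] at hint2
  linear_combination -hint2

private theorem EI_zero (z : ℂ) (k : ℕ) :
    ∫ b in (-Real.pi)..Real.pi, EI z 0 k b = 2 * Real.pi * FF k 0 := by
  have h1 : Real.circleAverage (FF k) 0 ‖z‖ = FF k 0 :=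
    (FF_diff k).diffContOnCl.circleAverage
  rw [Real.circleAverage_eq_integral_add (Complex.arg z - Real.pi)] at h1
  have h2 : ∫ θ in (0 : ℝ)..2 * Real.pi,
      FF k (circleMap 0 ‖z‖ (θ + (Complex.arg z - Real.pi))) =
      ∫ b in (-Real.pi)..Real.pi, EI z 0 k b := by
    have h3 := intervalIntegral.integral_comp_sub_right (a := (0 : ℝ)) (b := 2 * Real.pi)
      (fun b : ℝ => EI z 0 k b) Real.pi
    rw [show (0 : ℝ) - Real.pi = -Real.pi by ring,
      show 2 * Real.pi - Real.pi = Real.pi by ring] at h3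
    rw [← h3]
    refine intervalIntegral.integral_congr fun θ _ => ?_
    simp only [EI, pow_zero, inv_one, mul_one]
    apply congrArg
    rw [circleMap_zero]
    conv_rhs => rw [← Complex.norm_mul_exp_arg_mul_I z]
    rw [mul_assoc, ← Complex.exp_add]
    congr 2
    push_cast
    ring
  rw [h2] at h1
  rw [← h1, Complex.real_smul]
  have : (Real.pi : ℂ) ≠ 0 := by exact_mod_cast Real.pi_ne_zero
  push_cast
  field_simp

private theorem EI_succ_zero {z : ℂ} (hz : z ≠ 0) (m : ℕ) :
    ∫ b in (-Real.pi)..Real.pi, EI z (m + 1) 0 b = 0 := by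
  have hd : ∀ b : ℝ, HasDerivAt (fun b : ℝ => ((z * exp (b * I)) ^ (m + 1))⁻¹)
      (-((m + 1 : ℕ) : ℂ) * I * EI z (m + 1) 0 b) b := by
    intro b
    have := inv_deriv hz (m + 1) b
    unfold EI FF
    simpa using this
  have hint : ∫ b in (-Real.pi)..Real.pi, (-((m + 1 : ℕ) : ℂ) * I * EI z (m + 1) 0 b) = 0 := by
    rw [intervalIntegral.integral_eq_sub_of_hasDerivAt (fun b _ => hd b)]
    · rw [exp_pi_eq, sub_self]
    · apply Continuous.intervalIntegrable
      have c1 := EI_cont hz (m + 1) 0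
      fun_prop
  rw [intervalIntegral.integral_const_mul] at hint
  refine (mul_eq_zero.1 hint).resolve_left ?_
  refine mul_ne_zero (neg_ne_zero.2 ?_) I_ne_zero
  exact_mod_cast Nat.succ_ne_zero m

private theorem d_zero_zero : d 0 0 = 1 := by
  unfold d
  simp [S3]

private theorem EI_eq {z : ℂ} (hz : z ≠ 0) (n : ℕ) : ∀ k : ℕ,
    ∫ b in (-Real.pi)..Real.pi, EI z n k b = 2 * Real.pi * (d n k : ℂ) := by
  induction n with
  | zero =>
    intro k
    rw [EI_zero z]
    rcases k with _ | k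
    · rw [d_zero_zero]
      unfold FF
      simp
    · rw [d_eq_zero (Nat.succ_pos k)]
      unfold FF
      rw [GG_zero]
      simp
  | succ m ih =>
    intro k
    rcases k with _ | k
    · rw [EI_succ_zero hz]
      unfold d
      rw [S3_zero_right (Nat.succ_pos m)]
      simp
    · have h1 := EI_rec hz m k
      rw [ih (k + 1), ih k] at h1
      have h2 : (((m : ℝ) + 1 + 2 * ((k : ℝ) + 1) : ℝ) : ℂ) * (d (m + 1) (k + 1) : ℂ) =
          (((k : ℝ) + 1 : ℝ) : ℂ) * (d m (k + 1) : ℂ) + (d m k : ℂ) / 2 := by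
        have := d_rec m k
        exact_mod_cast this
      push_cast at h2
      have h3 : ((m : ℂ) + 1 + 2 * ((k : ℂ) + 1)) ≠ 0 := by
        have : (m + 1 + 2 * (k + 1) : ℕ) ≠ 0 := by omega
        exact_mod_cast this
      apply mul_left_cancel₀ h3
      rw [h1]
      linear_combination (-2 * (Real.pi : ℂ)) * h2

theorem q_circle (n : ℕ) (v : ℂ) {z : ℂ} (hz : z ≠ 0) :
    q n v = (1 / (2 * Real.pi) : ℝ) •
      ∫ b in (-Real.pi)..Real.pi, exp (v * GG 0 (z * exp (b * I))) * ((z * exp (b * I)) ^ n)⁻¹ := by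
  set R : ℝ := (GG 0 (‖z‖ : ℂ)).re with hR
  have hnorm : ∀ b : ℝ, ‖z * exp (b * I)‖ = ‖z‖ := by
    intro b
    rw [norm_mul, Complex.norm_exp_ofReal_mul_I, mul_one]
  have hsum : HasSum (fun k : ℕ => ∫ b in (-Real.pi)..Real.pi, v ^ k * EI z n k b)
      (∫ b in (-Real.pi)..Real.pi,
        exp (v * GG 0 (z * exp (b * I))) * ((z * exp (b * I)) ^ n)⁻¹) := by
    refine intervalIntegral.hasSum_integral_of_dominated_convergence
      (fun k _ => ((‖v‖ * R) ^ k / (k.factorial : ℝ)) * (‖z‖ ^ n)⁻¹) ?_ ?_ ?_ ?_ ?_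
    · intro k
      have c1 := EI_cont hz n k
      exact (c1.const_smul (v ^ k) |>.congr fun b => rfl).aestronglyMeasurable
    · intro k
      refine Filter.Eventually.of_forall fun b _ => ?_
      unfold EI FF
      rw [norm_mul, norm_mul, norm_pow, norm_div, norm_pow, norm_inv, norm_pow, hnorm,
        Complex.norm_natCast, mul_pow]
      have h1 : ‖GG 0 (z * exp (b * I))‖ ≤ R := by
        have := GG_norm_le 0 (z * exp (b * I))
        rw [hnorm] at this
        exact this
      calc ‖v‖ ^ k * (‖GG 0 (z * exp (b * I))‖ ^ k / (k.factorial : ℝ) * (‖z‖ ^ n)⁻¹)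
          ≤ ‖v‖ ^ k * (R ^ k / (k.factorial : ℝ) * (‖z‖ ^ n)⁻¹) := by gcongr
        _ = _ := by ring
    · refine Filter.Eventually.of_forall fun b _ => ?_
      exact (Real.summable_pow_div_factorial _).mul_right _
    · exact intervalIntegrable_const
    · refine Filter.Eventually.of_forall fun b _ => ?_
      have h1 : HasSum (fun k : ℕ => (v * GG 0 (z * exp (b * I))) ^ k / (k.factorial : ℂ))
          (exp (v * GG 0 (z * exp (b * I)))) := by
        rw [Complex.exp_eq_exp_ℂ]
        exact NormedSpace.expSeries_div_hasSum_exp _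
      have h2 := h1.mul_right (((z * exp (b * I)) ^ n)⁻¹)
      refine h2.congr_fun ?_
      intro k
      unfold EI FF
      rw [mul_pow]
      ring
  have hterm : ∀ k : ℕ, ∫ b in (-Real.pi)..Real.pi, v ^ k * EI z n k b =
      v ^ k * (2 * Real.pi * (d n k : ℂ)) := by
    intro k
    rw [intervalIntegral.integral_const_mul, EI_eq hz]
  simp only [hterm] at hsum
  have hfin : HasSum (fun k : ℕ => v ^ k * (2 * Real.pi * (d n k : ℂ)))
      (∑ k ∈ Finset.range (n + 1), v ^ k * (2 * Real.pi * (d n k : ℂ))) := by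
    refine hasSum_sum_of_ne_finset_zero fun k hk => ?_
    rw [d_eq_zero (by simpa using hk)]
    simp
  rw [← hsum.unique hfin |>.symm, Complex.real_smul]
  unfold q
  rw [Finset.mul_sum]
  refine Finset.sum_congr rfl fun k _ => ?_
  have : (Real.pi : ℂ) ≠ 0 := by exact_mod_cast Real.pi_ne_zero
  push_cast
  field_simp

/-- the exponent of the circle integral -/
noncomputable def hh (z : ℂ) (b : ℝ) : ℂ :=
  (GG 0 (z * exp (b * I)) - GG 0 z) / GG 1 z - b * I

theorem J_circle (n : ℕ) {z : ℂ} (hz : z ≠ 0) (hG : GG 1 z ≠ 0) :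
    J n z = (1 / (2 * Real.pi) : ℝ) • ∫ b in (-Real.pi)..Real.pi, exp ((n : ℂ) * hh z b) := by
  unfold J
  rw [q_circle n _ hz, Complex.real_smul, Complex.real_smul, mul_assoc, mul_assoc,
    ← intervalIntegral.integral_mul_const]
  congr 1
  refine intervalIntegral.integral_congr fun b _ => ?_
  unfold hh
  have h1 : (n : ℂ) * ((GG 0 (z * exp (b * I)) - GG 0 z) / GG 1 z - b * I) =
      ((n : ℂ) / GG 1 z * GG 0 (z * exp (b * I))) + (-(n : ℂ) * GG 0 z / GG 1 z) +
        (-((n : ℂ) * (b * I))) := by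
    field_simp
    ring
  rw [h1, Complex.exp_add, Complex.exp_add, Complex.exp_neg, Complex.exp_nat_mul, mul_pow]
  have h2 := exp_ne_zero (b * I)
  field_simp

end ST3
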