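import Pool.Agent.Helper2.ST.B01

/-!
# ST-B05: the ray formula for `s_n`

For `Re r > 0`: `s_n(x) = (1/2) int_R e^{-r e^{u/2}} (r e^{u/2})^{n+1} q_n(x r^2 e^u) du`.

PROOF. `q_n(x r^2 e^u) = sum_k d_{n,k} x^k (r e^{u/2})^{2k}`, so by linearity it is enough that for
every `N : Nat`: `u -> e^{-r e^{u/2}} (r e^{u/2})^{N+1}` is integrable on the real line with integral
`2 N!` (then use `d n k * (n+2k)! = S3 n k`). Substituting `rho = e^{u/2}`, `du = 2 d rho / rho`:
`int_R e^{-r e^{u/2}} (r e^{u/2})^{N+1} du = 2 r^{N+1} int_0^oo e^{-r rho} rho^N d rho = 2 N!`, by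
`Complex.integral_cpow_mul_exp_neg_mul_Ioi` (`Re r > 0`). Change of variables:
`MeasureTheory.integral_image_eq_integral_abs_deriv_smul` or `integral_comp_rpow_Ioi` style; or use
`integral_exp_...`; integrability transfers in the same way
(`MeasureTheory.integrableOn_image_iff_integrableOn_abs_deriv_smul`), or dominate:
`|.| = e^{-Re r e^{u/2}} (|r| e^{u/2})^{N+1}`.
-/

namespace ST3

open Complex MeasureTheory

private theorem b05_intOn (N : ℕ) {r : ℂ} (hr : 0 < r.re) :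
    IntegrableOn (fun ρ : ℝ => 2 * r ^ (N + 1) * ((ρ : ℂ) ^ N * exp (-(r * ρ)))) (Set.Ioi 0) := by
  have h1 : IntegrableOn (fun ρ : ℝ => ρ ^ (N : ℝ) * Real.exp (-r.re * ρ ^ (1 : ℝ)))
      (Set.Ioi 0) :=
    integrableOn_rpow_mul_exp_neg_mul_rpow (by
      have : (0 : ℝ) ≤ N := Nat.cast_nonneg N
      linarith) one_pos hr
  refine Integrable.const_mul ?_ _
  refine Integrable.mono' h1 ?_ ?_
  · refine (Continuous.aestronglyMeasurable ?_).restrict
    fun_prop
  · rw [ae_restrict_iff' measurableSet_Ioi]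
    refine Filter.Eventually.of_forall fun ρ hρ => ?_
    have hρ' : 0 < ρ := hρ
    rw [norm_mul, norm_pow, Complex.norm_real, Real.norm_of_nonneg hρ'.le, Complex.norm_exp,
      Real.rpow_natCast, Real.rpow_one]
    refine le_of_eq ?_
    congr 2
    simp

private theorem b05_intOn' (N : ℕ) {r : ℂ} (hr : 0 < r.re) :
    IntegrableOn (fun ρ : ℝ => (ρ : ℂ) ^ N * exp (-(r * ρ))) (Set.Ioi 0) := by
  have hr0 : r ≠ 0 := by
    rintro rfl
    simp at hr
  have h1 : IntegrableOn (fun ρ : ℝ => (2 * r ^ (N + 1))⁻¹ *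
      (2 * r ^ (N + 1) * ((ρ : ℂ) ^ N * exp (-(r * ρ))))) (Set.Ioi 0) :=
    (b05_intOn N hr).const_mul (2 * r ^ (N + 1))⁻¹
  refine h1.congr_fun (fun ρ _ => ?_) measurableSet_Ioi
  have : (2 * r ^ (N + 1)) ≠ 0 := mul_ne_zero two_ne_zero (pow_ne_zero _ hr0)
  simp only
  rw [← mul_assoc, inv_mul_cancel₀ this, one_mul]

private theorem b05_gamma (N : ℕ) {r : ℂ} (hr : 0 < r.re) :
    ∫ ρ : ℝ in Set.Ioi 0, (ρ : ℂ) ^ N * exp (-(r * ρ)) = (1 / r) ^ (N + 1) * (N.factorial : ℂ) := by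
  have hr0 : r ≠ 0 := by
    rintro rfl
    simp at hr
  induction N with
  | zero =>
    have h1 := integral_exp_mul_complex_Ioi (a := -r) (by simpa using hr) 0
    simp only [pow_zero, one_mul, zero_add, pow_one, Nat.factorial_zero, Nat.cast_one, mul_one]
    simp only [neg_mul] at h1
    rw [h1]
    simp
  | succ N ih =>
    have hderiv : ∀ ρ ∈ Set.Ici (0 : ℝ), HasDerivAt
        (fun ρ : ℝ => (ρ : ℂ) ^ (N + 1) * exp (-(r * ρ)))
        (((N : ℂ) + 1) * ((ρ : ℂ) ^ N * exp (-(r * ρ))) -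
          r * ((ρ : ℂ) ^ (N + 1) * exp (-(r * ρ)))) ρ := by
      intro ρ _
      have h1 : HasDerivAt (fun ρ : ℝ => (ρ : ℂ)) 1 ρ := Complex.ofRealCLM.hasDerivAt
      have h2 := h1.pow (N + 1)
      have h3 : HasDerivAt (fun ρ : ℝ => exp (-(r * ρ))) (exp (-(r * ρ)) * (-(r * 1))) ρ :=
        ((h1.const_mul r).neg).cexp
      refine (h2.mul h3).congr_deriv ?_
      rw [Nat.add_sub_cancel, Pi.pow_apply]
      push_cast
      ring
    have hint : IntegrableOn (fun ρ : ℝ => ((N : ℂ) + 1) * ((ρ : ℂ) ^ N * exp (-(r * ρ))) -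
          r * ((ρ : ℂ) ^ (N + 1) * exp (-(r * ρ)))) (Set.Ioi 0) :=
      ((b05_intOn' N hr).const_mul _).sub ((b05_intOn' (N + 1) hr).const_mul _)
    have hlim : Filter.Tendsto (fun ρ : ℝ => (ρ : ℂ) ^ (N + 1) * exp (-(r * ρ)))
        Filter.atTop (nhds 0) := by
      have h1 := tendsto_rpow_mul_exp_neg_mul_atTop_nhds_zero ((N + 1 : ℕ) : ℝ) r.re hr
      rw [tendsto_zero_iff_norm_tendsto_zero]
      refine h1.congr' ?_
      filter_upwards [Filter.eventually_gt_atTop (0 : ℝ)] with ρ hρ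
      rw [norm_mul, norm_pow, Complex.norm_real, Real.norm_of_nonneg hρ.le, Complex.norm_exp,
        Real.rpow_natCast]
      congr 2
      simp
    have h1 := integral_Ioi_of_hasDerivAt_of_tendsto' hderiv hint hlim
    rw [integral_sub ((b05_intOn' N hr).const_mul _) ((b05_intOn' (N + 1) hr).const_mul _),
      integral_const_mul, integral_const_mul, ih] at h1
    have h2 : (0 : ℂ) - ((0 : ℝ) : ℂ) ^ (N + 1) * exp (-(r * ((0 : ℝ) : ℂ))) = 0 := by
      simp
    rw [h2] at h1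
    have h3 : ∫ ρ : ℝ in Set.Ioi 0, (ρ : ℂ) ^ (N + 1) * exp (-(r * ρ)) =
        (((N : ℂ) + 1) * ((1 / r) ^ (N + 1) * (N.factorial : ℂ))) / r := by
      rw [eq_div_iff hr0]
      linear_combination (-1 : ℂ) * h1
    rw [h3, Nat.factorial_succ]
    push_cast
    rw [pow_succ (1 / r) (N + 1)]
    ring

private theorem b05_key (N : ℕ) {r : ℂ} (hr : 0 < r.re) :
    Integrable (fun u : ℝ => exp (-r * exp ((u : ℂ) / 2)) * (r * exp ((u : ℂ) / 2)) ^ (N + 1)) ∧
    ∫ u : ℝ, exp (-r * exp ((u : ℂ) / 2)) * (r * exp ((u : ℂ) / 2)) ^ (N + 1) =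
      2 * (N.factorial : ℂ) := by
  have hderiv : ∀ u ∈ (Set.univ : Set ℝ), HasDerivWithinAt (fun u : ℝ => Real.exp (u / 2))
      (Real.exp (u / 2) / 2) Set.univ u := by
    intro u _
    rw [hasDerivWithinAt_univ]
    have h1 : HasDerivAt (fun u : ℝ => u / 2) (1 / 2) u := (hasDerivAt_id u).div_const 2
    refine h1.exp.congr_deriv ?_
    ring
  have hinj : Set.InjOn (fun u : ℝ => Real.exp (u / 2)) Set.univ := by
    intro a _ b _ hab
    have h1 : a / 2 = b / 2 := Real.exp_injective hab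
    linarith
  have himg : (fun u : ℝ => Real.exp (u / 2)) '' Set.univ = Set.Ioi 0 := by
    ext y
    simp only [Set.mem_image, Set.mem_univ, true_and, Set.mem_Ioi]
    constructor
    · rintro ⟨u, rfl⟩
      exact Real.exp_pos _
    · intro hy
      refine ⟨2 * Real.log y, ?_⟩
      have : 2 * Real.log y / 2 = Real.log y := by ring
      rw [this, Real.exp_log hy]
  have hfun : (fun u : ℝ => |Real.exp (u / 2) / 2| •
      ((fun ρ : ℝ => 2 * r ^ (N + 1) * ((ρ : ℂ) ^ N * exp (-(r * ρ)))) (Real.exp (u / 2)))) =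
      fun u : ℝ => exp (-r * exp ((u : ℂ) / 2)) * (r * exp ((u : ℂ) / 2)) ^ (N + 1) := by
    funext u
    rw [abs_of_pos (by positivity)]
    have h1 : ((Real.exp (u / 2) : ℝ) : ℂ) = exp ((u : ℂ) / 2) := by
      push_cast
      rfl
    rw [Complex.real_smul]
    simp only [Complex.ofReal_div, h1, Complex.ofReal_ofNat]
    rw [mul_pow, pow_succ (exp ((u : ℂ) / 2)) N, neg_mul]
    ring
  have hI := b05_intOn N hr
  constructor
  · have h2 := integrableOn_image_iff_integrableOn_abs_deriv_smul MeasurableSet.univ hderiv hinj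
      (fun ρ : ℝ => 2 * r ^ (N + 1) * ((ρ : ℂ) ^ N * exp (-(r * ρ))))
    rw [himg] at h2
    have h3 := h2.1 hI
    rw [integrableOn_univ, hfun] at h3
    exact h3
  · have h2 := integral_image_eq_integral_abs_deriv_smul MeasurableSet.univ hderiv hinj
      (fun ρ : ℝ => 2 * r ^ (N + 1) * ((ρ : ℂ) ^ N * exp (-(r * ρ))))
    rw [himg, hfun, setIntegral_univ] at h2
    rw [← h2, integral_const_mul]
    have h5 := b05_gamma N hr
    rw [h5]
    have hr0 : r ≠ 0 := by
      rintro rfl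
      simp at hr
    have h6 : r ^ (N + 1) * (1 / r) ^ (N + 1) = 1 := by
      rw [← mul_pow, mul_one_div_cancel hr0, one_pow]
    linear_combination (2 * (N.factorial : ℂ)) * h6

private theorem b05_expand (n : ℕ) (x r : ℂ) (u : ℝ) :
    exp (-r * exp ((u : ℂ) / 2)) * (r * exp ((u : ℂ) / 2)) ^ (n + 1) *
      q n (x * r ^ 2 * exp (u : ℂ)) =
    ∑ k ∈ Finset.range (n + 1), ((d n k : ℂ) * x ^ k) *
      (exp (-r * exp ((u : ℂ) / 2)) * (r * exp ((u : ℂ) / 2)) ^ (n + 2 * k + 1)) := by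
  unfold q
  rw [Finset.mul_sum]
  refine Finset.sum_congr rfl fun k _ => ?_
  have h1 : exp (u : ℂ) = exp ((u : ℂ) / 2) ^ 2 := by
    rw [← Complex.exp_nat_mul]
    congr 1
    push_cast
    ring
  rw [h1]
  generalize exp ((u : ℂ) / 2) = e
  have h2 : x * r ^ 2 * e ^ 2 = x * (r * e) ^ 2 := by ring
  rw [h2, mul_pow x, ← pow_mul, show n + 2 * k + 1 = (n + 1) + 2 * k by ring,
    pow_add (r * e) (n + 1) (2 * k)]
  ring

theorem s_ray_integrable (n : ℕ) (x : ℂ) {r : ℂ} (hr : 0 < r.re) :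
    Integrable (fun u : ℝ => exp (-r * exp ((u : ℂ) / 2)) * (r * exp ((u : ℂ) / 2)) ^ (n + 1) *
      q n (x * r ^ 2 * exp (u : ℂ))) := by
  simp only [b05_expand]
  exact integrable_finsetSum _ fun k _ => (b05_key (n + 2 * k) hr).1.const_mul _

theorem s_ray (n : ℕ) (x : ℂ) {r : ℂ} (hr : 0 < r.re) :
    s n x = (1 / 2 : ℂ) * ∫ u : ℝ, exp (-r * exp ((u : ℂ) / 2)) *
      (r * exp ((u : ℂ) / 2)) ^ (n + 1) * q n (x * r ^ 2 * exp (u : ℂ)) := by
  simp only [b05_expand]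
  rw [integral_finsetSum _ fun k _ => (b05_key (n + 2 * k) hr).1.const_mul _, Finset.mul_sum]
  unfold s
  refine Finset.sum_congr rfl fun k _ => ?_
  rw [integral_const_mul, (b05_key (n + 2 * k) hr).2]
  unfold d
  have h1 : (((n + 2 * k).factorial : ℕ) : ℂ) ≠ 0 := by
    exact_mod_cast Nat.factorial_ne_zero _
  push_cast
  field_simp

end ST3
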