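import Pool.Agent.Helper2.ST.B01

/-!
# ST-B06: `S3 n k` counts the partitions of a set with `n + 2k` elements into `k` blocks of size `>= 3`

PROOF. For a finite set `A` let `a(N,k)` be the number of partitions of a set with `N` elements into
`k` blocks of size at least `3`; it depends only on `N` and `k` (transport along a bijection). Claim,
for `N >= 1`, `k >= 1`: `a(N,k) = k a(N-1,k) + C(N-1,2) a(N-3,k-1)` (the second term is `0` for
`N < 3`): fix an element `x0`. If the block of `x0` has more than three elements, delete `x0`: one
gets a partition of the other `N-1` elements into `k` blocks of size `>= 3` together with one of its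
`k` blocks (the one to which `x0` has to be added). If the block of `x0` is `{x0, y, z}`, delete it:
a choice of `{y,z}` (`C(N-1,2)`) and a partition of the remaining `N-3` elements into `k-1` blocks.
With `N = n+2k` this is the recursion of `S3`: `N - 1 = (n-1) + 2k`, `N - 3 = (n-1) + 2(k-1)`.
For `n = 0`, `k >= 1` there is no such partition, since `2k < 3k`. For `k = 0`: one partition iff
`N = 0`. Induction on `n`.

You may choose any technique (for instance prove the statement for all finite types by induction on
the cardinality with `Option`, or count `Finpartition`s through `Finpartition.extend`, `avoid`,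
or through equivalence relations / functions). Add auxiliary lemmas freely.
-/

namespace ST3

/-- the partitions of a set with `n + 2k` elements into `k` blocks, each of size at least three -/
def Parts (n k : ℕ) : Set (Finpartition (Finset.univ : Finset (Fin (n + 2 * k)))) :=
  {p | p.parts.card = k ∧ ∀ B ∈ p.parts, 3 ≤ B.card}

section Aux

variable {α : Type*} [DecidableEq α]

/-- the families of `k` disjoint blocks of size at least three with union `s` -/
def Fam (s : Finset α) (k : ℕ) : Finset (Finset (Finset α)) :=
  s.powerset.powerset.filter (fun F => F.card = k ∧ (∀ B ∈ F, 3 ≤ B.card) ∧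
    (∀ B ∈ F, ∀ C ∈ F, B ≠ C → Disjoint B C) ∧ F.biUnion id = s)

theorem mem_Fam {s : Finset α} {k : ℕ} {F : Finset (Finset α)} :
    F ∈ Fam s k ↔ F.card = k ∧ (∀ B ∈ F, 3 ≤ B.card) ∧
      (∀ B ∈ F, ∀ C ∈ F, B ≠ C → Disjoint B C) ∧ (∀ y, y ∈ s ↔ ∃ B ∈ F, y ∈ B) := by
  unfold Fam
  rw [Finset.mem_filter]
  constructor
  · rintro ⟨_, h1, h2, h3, h4⟩
    refine ⟨h1, h2, h3, fun y => ?_⟩
    rw [← h4]
    simp
  · rintro ⟨h1, h2, h3, h4⟩
    refine ⟨?_, h1, h2, h3, ?_⟩
    · rw [Finset.mem_powerset]
      intro B hB
      rw [Finset.mem_powerset]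
      intro y hy
      exact (h4 y).mpr ⟨B, hB, hy⟩
    · ext y
      rw [h4 y]
      simp

theorem insert_aux {x : α} {A A' : Finset α} {F F' : Finset (Finset α)}
    (hA : x ∉ A) (hA' : x ∉ A') (hF : ∀ B ∈ F, x ∉ B) (hF' : ∀ B ∈ F', x ∉ B)
    (h : insert (insert x A) F = insert (insert x A') F') : A = A' ∧ F = F' := by
  have h1 : insert x A ∈ insert (insert x A') F' := by
    rw [← h]
    exact Finset.mem_insert_self _ _
  have h2 : insert x A = insert x A' := by
    rcases Finset.mem_insert.mp h1 with h3 | h3
    · exact h3
    · exact absurd (Finset.mem_insert_self x A) (hF' _ h3)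
  have h3 : A = A' := by
    rw [← Finset.erase_insert hA, h2, Finset.erase_insert hA']
  subst h3
  refine ⟨rfl, ?_⟩
  have h4 : insert x A ∉ F := fun hh => hF _ hh (Finset.mem_insert_self x A)
  have h5 : insert x A ∉ F' := fun hh => hF' _ hh (Finset.mem_insert_self x A)
  rw [← Finset.erase_insert h4, h, Finset.erase_insert h5]

theorem card_Fam_insert {s : Finset α} {x : α} (hx : x ∉ s) (k : ℕ) :
    (Fam (insert x s) (k + 1)).card = (k + 1) * (Fam s (k + 1)).card +
      ∑ e ∈ s.powersetCard 2, (Fam (s \ e) k).card := by
  classical
  set T1 : Finset (Σ _ : Finset α, Finset (Finset α)) :=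
    (s.powersetCard 2).sigma (fun e => Fam (s \ e) k) with hT1
  set T2 : Finset (Σ _ : Finset (Finset α), Finset α) :=
    (Fam s (k + 1)).sigma (fun F => F) with hT2
  have c1 : T1.card = ∑ e ∈ s.powersetCard 2, (Fam (s \ e) k).card := by
    rw [hT1, Finset.card_sigma]
  have c2 : T2.card = (k + 1) * (Fam s (k + 1)).card := by
    rw [hT2, Finset.card_sigma, Finset.sum_congr rfl (fun F hF => (mem_Fam.mp hF).1),
      Finset.sum_const, smul_eq_mul, mul_comm]
  have hm1 : ∀ p ∈ T1, (p.1 ⊆ s ∧ p.1.card = 2) ∧ p.2 ∈ Fam (s \ p.1) k := by
    intro p hp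
    rw [hT1, Finset.mem_sigma, Finset.mem_powersetCard] at hp
    exact hp
  have hm2 : ∀ p ∈ T2, p.1 ∈ Fam s (k + 1) ∧ p.2 ∈ p.1 := by
    intro p hp
    rw [hT2, Finset.mem_sigma] at hp
    exact hp
  have hx1 : ∀ p ∈ T1, x ∉ p.1 ∧ ∀ B ∈ p.2, x ∉ B := by
    intro p hp
    obtain ⟨⟨h1, _⟩, h3⟩ := hm1 p hp
    refine ⟨fun h => hx (h1 h), fun B hB hxB => ?_⟩
    have := ((mem_Fam.mp h3).2.2.2 x).mpr ⟨B, hB, hxB⟩
    exact hx (Finset.mem_sdiff.mp this).1
  have hx2 : ∀ p ∈ T2, ∀ B ∈ p.1, x ∉ B := by
    intro p hp B hB hxB
    obtain ⟨h1, _⟩ := hm2 p hp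
    exact hx (((mem_Fam.mp h1).2.2.2 x).mpr ⟨B, hB, hxB⟩)
  set φ1 : (Σ _ : Finset α, Finset (Finset α)) → Finset (Finset α) :=
    fun p => insert (insert x p.1) p.2 with hφ1
  set φ2 : (Σ _ : Finset (Finset α), Finset α) → Finset (Finset α) :=
    fun p => insert (insert x p.2) (p.1.erase p.2) with hφ2
  have i1 : Set.InjOn φ1 (T1 : Set _) := by
    rintro ⟨e, F⟩ hp ⟨e', F'⟩ hp' h
    obtain ⟨h1, h2⟩ := insert_aux (hx1 _ hp).1 (hx1 _ hp').1 (hx1 _ hp).2 (hx1 _ hp').2 h
    simp only at h1 h2
    rw [h1, h2]
  have i2 : Set.InjOn φ2 (T2 : Set _) := by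
    rintro ⟨F, B⟩ hp ⟨F', B'⟩ hp' h
    obtain ⟨h1, h2⟩ := insert_aux (hx2 _ hp _ (hm2 _ hp).2) (hx2 _ hp' _ (hm2 _ hp').2)
      (fun C hC => hx2 _ hp C (Finset.mem_of_mem_erase hC))
      (fun C hC => hx2 _ hp' C (Finset.mem_of_mem_erase hC)) h
    simp only at h1 h2
    subst h1
    have hB : B ∈ F := (hm2 _ hp).2
    have hB' : B ∈ F' := (hm2 _ hp').2
    have h3 : F = F' := by
      calc F = insert B (F.erase B) := (Finset.insert_erase hB).symm
        _ = insert B (F'.erase B) := by rw [h2]
        _ = F' := Finset.insert_erase hB'
    rw [h3]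
  have hdis : Disjoint (T1.image φ1) (T2.image φ2) := by
    rw [Finset.disjoint_left]
    intro G hG1 hG2
    rw [Finset.mem_image] at hG1 hG2
    obtain ⟨⟨e, F⟩, hp, h1⟩ := hG1
    obtain ⟨⟨F', B'⟩, hp', h2⟩ := hG2
    have h3 : φ1 ⟨e, F⟩ = φ2 ⟨F', B'⟩ := by rw [h1, h2]
    obtain ⟨h4, _⟩ := insert_aux (hx1 _ hp).1 (hx2 _ hp' _ (hm2 _ hp').2) (hx1 _ hp).2
      (fun C hC => hx2 _ hp' C (Finset.mem_of_mem_erase hC)) h3
    simp only at h4
    have h5 := (hm1 _ hp).1.2
    have h6 := (mem_Fam.mp (hm2 _ hp').1).2.1 _ (hm2 _ hp').2
    simp only at h5 h6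
    rw [h4] at h5
    omega
  have hEq : Fam (insert x s) (k + 1) = T1.image φ1 ∪ T2.image φ2 := by
    ext G
    rw [Finset.mem_union, Finset.mem_image, Finset.mem_image]
    constructor
    · intro hG
      obtain ⟨g1, g2, g3, g4⟩ := mem_Fam.mp hG
      obtain ⟨A, hA, hxA⟩ := (g4 x).mp (Finset.mem_insert_self x s)
      have hAi : insert x (A.erase x) = A := Finset.insert_erase hxA
      have hGi : insert A (G.erase A) = G := Finset.insert_erase hA
      have hAs : A.erase x ⊆ s := by
        intro y hy
        rw [Finset.mem_erase] at hy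
        have := (g4 y).mpr ⟨A, hA, hy.2⟩
        rw [Finset.mem_insert] at this
        exact this.resolve_left hy.1
      have hcard : (A.erase x).card = A.card - 1 := Finset.card_erase_of_mem hxA
      have hcardG : (G.erase A).card = k := by
        rw [Finset.card_erase_of_mem hA, g1]
        rfl
      have hG0 : ∀ B ∈ G.erase A, Disjoint B A := by
        intro B hB
        rw [Finset.mem_erase] at hB
        exact g3 B hB.2 A hA hB.1
      by_cases h3 : A.card = 3
      · left
        refine ⟨⟨A.erase x, G.erase A⟩, ?_, ?_⟩
        · rw [hT1, Finset.mem_sigma, Finset.mem_powersetCard]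
          refine ⟨⟨hAs, by show (A.erase x).card = 2; omega⟩, mem_Fam.mpr ⟨hcardG, ?_, ?_, ?_⟩⟩
          · intro B hB
            exact g2 B (Finset.mem_of_mem_erase hB)
          · intro B hB C hC hBC
            exact g3 B (Finset.mem_of_mem_erase hB) C (Finset.mem_of_mem_erase hC) hBC
          · intro y
            simp only
            rw [Finset.mem_sdiff]
            constructor
            · rintro ⟨hy1, hy2⟩
              obtain ⟨B, hB, hyB⟩ := (g4 y).mp (Finset.mem_insert_of_mem hy1)
              refine ⟨B, Finset.mem_erase.mpr ⟨?_, hB⟩, hyB⟩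
              rintro rfl
              apply hy2
              refine Finset.mem_erase.mpr ⟨?_, hyB⟩
              rintro rfl
              exact hx hy1
            · rintro ⟨B, hB, hyB⟩
              have h5 : y ∉ A := fun hyA =>
                (Finset.disjoint_left.mp (hG0 B hB)) hyB hyA
              have h6 := (g4 y).mpr ⟨B, Finset.mem_of_mem_erase hB, hyB⟩
              rw [Finset.mem_insert] at h6
              refine ⟨h6.resolve_left ?_, fun h => h5 (Finset.mem_of_mem_erase h)⟩
              rintro rfl
              exact h5 hxA
        · simp only [hφ1]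
          rw [hAi, hGi]
      · right
        have hA4 : 4 ≤ A.card := by
          have := g2 A hA
          omega
        have hne : A.erase x ∉ G.erase A := by
          intro h
          have h5 := hG0 _ h
          have h6 : (A.erase x).Nonempty := by
            rw [← Finset.card_pos]
            omega
          obtain ⟨y, hy⟩ := h6
          exact (Finset.disjoint_left.mp h5) hy (Finset.mem_of_mem_erase hy)
        have hdisj : ∀ B ∈ G.erase A, Disjoint B (A.erase x) := by
          intro B hB
          exact (hG0 B hB).mono_right (Finset.erase_subset _ _)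
        refine ⟨⟨insert (A.erase x) (G.erase A), A.erase x⟩, ?_, ?_⟩
        · rw [hT2, Finset.mem_sigma]
          refine ⟨mem_Fam.mpr ⟨?_, ?_, ?_, ?_⟩, Finset.mem_insert_self _ _⟩
          · simp only
            rw [Finset.card_insert_of_notMem hne, hcardG]
          · intro B hB
            simp only at hB
            rcases Finset.mem_insert.mp hB with rfl | hB
            · omega
            · exact g2 B (Finset.mem_of_mem_erase hB)
          · intro B hB C hC hBC
            simp only at hB hC
            rcases Finset.mem_insert.mp hB with rfl | hB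
            · rcases Finset.mem_insert.mp hC with rfl | hC
              · exact absurd rfl hBC
              · exact (hdisj C hC).symm
            · rcases Finset.mem_insert.mp hC with rfl | hC
              · exact hdisj B hB
              · exact g3 B (Finset.mem_of_mem_erase hB) C (Finset.mem_of_mem_erase hC) hBC
          · intro y
            simp only
            constructor
            · intro hy
              obtain ⟨B, hB, hyB⟩ := (g4 y).mp (Finset.mem_insert_of_mem hy)
              by_cases hBA : B = A
              · subst hBA
                refine ⟨B.erase x, Finset.mem_insert_self _ _, Finset.mem_erase.mpr ⟨?_, hyB⟩⟩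
                rintro rfl
                exact hx hy
              · exact ⟨B, Finset.mem_insert_of_mem (Finset.mem_erase.mpr ⟨hBA, hB⟩), hyB⟩
            · rintro ⟨B, hB, hyB⟩
              rcases Finset.mem_insert.mp hB with rfl | hB
              · exact hAs hyB
              · have h5 : y ∉ A := fun hyA =>
                  (Finset.disjoint_left.mp (hG0 B hB)) hyB hyA
                have h6 := (g4 y).mpr ⟨B, Finset.mem_of_mem_erase hB, hyB⟩
                rw [Finset.mem_insert] at h6
                refine h6.resolve_left ?_
                rintro rfl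
                exact h5 hxA
        · simp only [hφ2]
          rw [Finset.erase_insert hne, hAi, hGi]
    · rintro (⟨⟨e, F⟩, hp, rfl⟩ | ⟨⟨F, B0⟩, hp, rfl⟩)
      · obtain ⟨⟨he, he2⟩, hF⟩ := hm1 _ hp
        obtain ⟨hxe, hxF⟩ := hx1 _ hp
        simp only at he he2 hF hxe hxF
        obtain ⟨g1, g2, g3, g4⟩ := mem_Fam.mp hF
        have hn : insert x e ∉ F := fun hh => hxF _ hh (Finset.mem_insert_self x e)
        have hdisj : ∀ B ∈ F, Disjoint B (insert x e) := by
          intro B hB
          rw [Finset.disjoint_left]
          intro y hy hye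
          rcases Finset.mem_insert.mp hye with rfl | hye
          · exact hxF B hB hy
          · have := (g4 y).mpr ⟨B, hB, hy⟩
            exact (Finset.mem_sdiff.mp this).2 hye
        refine mem_Fam.mpr ⟨?_, ?_, ?_, ?_⟩
        · simp only [hφ1]
          rw [Finset.card_insert_of_notMem hn, g1]
        · intro B hB
          simp only [hφ1] at hB
          rcases Finset.mem_insert.mp hB with rfl | hB
          · rw [Finset.card_insert_of_notMem hxe]
            omega
          · exact g2 B hB
        · intro B hB C hC hBC
          simp only [hφ1] at hB hC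
          rcases Finset.mem_insert.mp hB with rfl | hB
          · rcases Finset.mem_insert.mp hC with rfl | hC
            · exact absurd rfl hBC
            · exact (hdisj C hC).symm
          · rcases Finset.mem_insert.mp hC with rfl | hC
            · exact hdisj B hB
            · exact g3 B hB C hC hBC
        · intro y
          simp only [hφ1]
          constructor
          · intro hy
            by_cases hye : y ∈ insert x e
            · exact ⟨_, Finset.mem_insert_self _ _, hye⟩
            · have h5 : y ∈ s \ e := by
                rw [Finset.mem_insert] at hy hye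
                push Not at hye
                exact Finset.mem_sdiff.mpr ⟨hy.resolve_left hye.1, hye.2⟩
              obtain ⟨B, hB, hyB⟩ := (g4 y).mp h5
              exact ⟨B, Finset.mem_insert_of_mem hB, hyB⟩
          · rintro ⟨B, hB, hyB⟩
            rcases Finset.mem_insert.mp hB with rfl | hB
            · rcases Finset.mem_insert.mp hyB with rfl | hyB
              · exact Finset.mem_insert_self _ _
              · exact Finset.mem_insert_of_mem (he hyB)
            · have := (g4 y).mpr ⟨B, hB, hyB⟩
              exact Finset.mem_insert_of_mem (Finset.mem_sdiff.mp this).1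
      · obtain ⟨hF, hB0⟩ := hm2 _ hp
        have hxF := hx2 _ hp
        simp only at hF hB0 hxF
        obtain ⟨g1, g2, g3, g4⟩ := mem_Fam.mp hF
        have hn : insert x B0 ∉ F.erase B0 := fun hh =>
          hxF _ (Finset.mem_of_mem_erase hh) (Finset.mem_insert_self x B0)
        have hdisj : ∀ B ∈ F.erase B0, Disjoint B (insert x B0) := by
          intro B hB
          rw [Finset.mem_erase] at hB
          rw [Finset.disjoint_left]
          intro y hy hye
          rcases Finset.mem_insert.mp hye with rfl | hye
          · exact hxF B hB.2 hy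
          · exact (Finset.disjoint_left.mp (g3 B hB.2 B0 hB0 hB.1)) hy hye
        refine mem_Fam.mpr ⟨?_, ?_, ?_, ?_⟩
        · simp only [hφ2]
          rw [Finset.card_insert_of_notMem hn, Finset.card_erase_of_mem hB0, g1]
          rfl
        · intro B hB
          simp only [hφ2] at hB
          rcases Finset.mem_insert.mp hB with rfl | hB
          · exact (g2 B0 hB0).trans (Finset.card_le_card (Finset.subset_insert _ _))
          · exact g2 B (Finset.mem_of_mem_erase hB)
        · intro B hB C hC hBC
          simp only [hφ2] at hB hC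
          rcases Finset.mem_insert.mp hB with rfl | hB
          · rcases Finset.mem_insert.mp hC with rfl | hC
            · exact absurd rfl hBC
            · exact (hdisj C hC).symm
          · rcases Finset.mem_insert.mp hC with rfl | hC
            · exact hdisj B hB
            · exact g3 B (Finset.mem_of_mem_erase hB) C (Finset.mem_of_mem_erase hC) hBC
        · intro y
          simp only [hφ2]
          constructor
          · intro hy
            rcases Finset.mem_insert.mp hy with rfl | hy
            · exact ⟨_, Finset.mem_insert_self _ _, Finset.mem_insert_self _ _⟩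
            · obtain ⟨B, hB, hyB⟩ := (g4 y).mp hy
              by_cases hBB : B = B0
              · subst hBB
                exact ⟨_, Finset.mem_insert_self _ _, Finset.mem_insert_of_mem hyB⟩
              · exact ⟨B, Finset.mem_insert_of_mem (Finset.mem_erase.mpr ⟨hBB, hB⟩), hyB⟩
          · rintro ⟨B, hB, hyB⟩
            rcases Finset.mem_insert.mp hB with rfl | hB
            · rcases Finset.mem_insert.mp hyB with rfl | hyB
              · exact Finset.mem_insert_self _ _
              · exact Finset.mem_insert_of_mem ((g4 y).mpr ⟨B0, hB0, hyB⟩)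
            · exact Finset.mem_insert_of_mem
                ((g4 y).mpr ⟨B, Finset.mem_of_mem_erase hB, hyB⟩)
  rw [hEq, Finset.card_union_of_disjoint hdis, Finset.card_image_of_injOn i1,
    Finset.card_image_of_injOn i2, c1, c2, add_comm]

/-- the counting function -/
def aa : ℕ → ℕ → ℕ
  | 0, 0 => 1
  | 0, _ + 1 => 0
  | _ + 1, 0 => 0
  | N + 1, k + 1 => (k + 1) * aa N (k + 1) + N.choose 2 * aa (N - 2) k
termination_by N k => N
decreasing_by all_goals omega

theorem card_Fam_empty : (Fam (∅ : Finset α) 0).card = 1 := by
  have : Fam (∅ : Finset α) 0 = {∅} := by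
    ext F
    rw [mem_Fam, Finset.mem_singleton, Finset.card_eq_zero]
    constructor
    · rintro ⟨h, _⟩
      exact h
    · rintro rfl
      simp
  rw [this, Finset.card_singleton]

theorem Fam_empty_succ (k : ℕ) : Fam (∅ : Finset α) (k + 1) = ∅ := by
  rw [Finset.eq_empty_iff_forall_notMem]
  intro F hF
  obtain ⟨h1, h2, _, h4⟩ := mem_Fam.mp hF
  have h5 : F.Nonempty := by
    rw [← Finset.card_pos]
    omega
  obtain ⟨B, hB⟩ := h5
  have h6 : B.Nonempty := by
    rw [← Finset.card_pos]
    have := h2 B hB
    omega
  obtain ⟨y, hy⟩ := h6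
  have := (h4 y).mpr ⟨B, hB, hy⟩
  simp at this

theorem Fam_zero {s : Finset α} (hs : s.Nonempty) : Fam s 0 = ∅ := by
  rw [Finset.eq_empty_iff_forall_notMem]
  intro F hF
  obtain ⟨h1, _, _, h4⟩ := mem_Fam.mp hF
  rw [Finset.card_eq_zero] at h1
  subst h1
  obtain ⟨y, hy⟩ := hs
  have := (h4 y).mp hy
  simp at this

theorem card_Fam (N : ℕ) : ∀ (s : Finset α) (k : ℕ), s.card = N → (Fam s k).card = aa N k := by
  induction N using Nat.strong_induction_on with
  | _ N ih =>
    intro s k hs
    rcases N with _ | N
    · rw [Finset.card_eq_zero] at hs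
      subst hs
      rcases k with _ | k
      · rw [card_Fam_empty]
        simp [aa]
      · rw [Fam_empty_succ]
        simp [aa]
    · have hne : s.Nonempty := by
        rw [← Finset.card_pos]
        omega
      rcases k with _ | k
      · rw [Fam_zero hne]
        simp [aa]
      · obtain ⟨x, hx⟩ := hne
        have h1 : insert x (s.erase x) = s := Finset.insert_erase hx
        have h2 : x ∉ s.erase x := Finset.notMem_erase x s
        have h3 : (s.erase x).card = N := by
          rw [Finset.card_erase_of_mem hx, hs]
          rfl
        rw [← h1, card_Fam_insert h2 k, ih N (by omega) _ _ h3]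
        have h4 : ∀ e ∈ (s.erase x).powersetCard 2,
            (Fam (s.erase x \ e) k).card = aa (N - 2) k := by
          intro e he
          rw [Finset.mem_powersetCard] at he
          apply ih (N - 2) (by omega)
          rw [Finset.card_sdiff_of_subset he.1, h3, he.2]
        rw [Finset.sum_congr rfl h4, Finset.sum_const, Finset.card_powersetCard, h3, smul_eq_mul]
        conv_rhs => rw [aa]

end Aux

theorem aa_zero_of_lt (N : ℕ) : ∀ k : ℕ, N < 3 * k → aa N k = 0 := by
  induction N using Nat.strong_induction_on with
  | _ N ih =>
    intro k hk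
    rcases N with _ | N
    · rcases k with _ | k
      · omega
      · simp [aa]
    · rcases k with _ | k
      · omega
      · rw [aa, ih N (by omega) (k + 1) (by omega)]
        by_cases hN : N < 2
        · rw [Nat.choose_eq_zero_of_lt hN]
          simp
        · rw [ih (N - 2) (by omega) k (by omega)]
          simp

theorem aa_eq_S3 (n : ℕ) : ∀ k : ℕ, aa (n + 2 * k) k = S3 n k := by
  induction n with
  | zero =>
    intro k
    rcases k with _ | k
    · simp [aa, S3]
    · rw [aa_zero_of_lt _ _ (by omega)]
      simp [S3]
  | succ n ih =>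
    intro k
    rcases k with _ | k
    · simp [aa, S3]
    · have h1 : n + 1 + 2 * (k + 1) = (n + 2 * k + 2) + 1 := by ring
      rw [h1, aa, S3]
      have h2 : n + 2 * k + 2 - 2 = n + 2 * k := by omega
      have h3 : n + 2 * k + 2 = n + 2 * (k + 1) := by ring
      rw [h2, ih k]
      congr 2
      rw [h3, ih (k + 1)]

theorem ncard_parts (n k : ℕ) : (Parts n k).ncard = S3 n k := by
  have hinj : Function.Injective
      (fun p : Finpartition (Finset.univ : Finset (Fin (n + 2 * k))) => p.parts) := by
    intro p q h
    exact Finpartition.ext h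
  have h1 : (fun p : Finpartition (Finset.univ : Finset (Fin (n + 2 * k))) => p.parts) ''
      (Parts n k) = (Fam (Finset.univ : Finset (Fin (n + 2 * k))) k : Set _) := by
    ext F
    rw [Set.mem_image, Finset.mem_coe, mem_Fam]
    constructor
    · rintro ⟨p, ⟨hp1, hp2⟩, rfl⟩
      refine ⟨hp1, hp2, ?_, ?_⟩
      · intro B hB C hC hBC
        exact p.disjoint hB hC hBC
      · intro y
        constructor
        · intro hy
          exact p.exists_mem hy
        · intro _
          exact Finset.mem_univ _
    · rintro ⟨h1, h2, h3, h4⟩
      refine ⟨⟨F, ?_, ?_, ?_⟩, ⟨h1, h2⟩, rfl⟩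
      · rw [Finset.supIndep_iff_pairwiseDisjoint]
        intro B hB C hC hBC
        exact h3 B hB C hC hBC
      · ext y
        rw [Finset.mem_sup]
        simp only [id]
        exact (h4 y).symm
      · intro h
        have := h2 _ h
        simp at this
  rw [← Set.ncard_image_of_injective _ hinj, h1, Set.ncard_coe_finset,
    card_Fam (n + 2 * k) _ k (by simp), aa_eq_S3]

end ST3
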