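import Pool.Agent.Helper2.ST.NC
import Pool.Agent.Helper2.ST.B02c
import Pool.Agent.Helper2.ST.B04
import Pool.Agent.Helper22.SCE.M31

/-!
# ST-Bridge: `ST3` and `SCE` use the same functions on `P`
-/

namespace ST3

open Complex

theorem bridge_ww {z : ℂ} (hz : z ∈ P) : SCE.ww z ≠ 0 := by
  intro hw
  have h0 := P_ne_zero hz
  have h1 := GG1_closed z
  have h2 : exp z * SCE.ww z = z ^ 2 * GG 1 z := by
    rw [h1, SCE.ww, Complex.exp_neg]
    have := exp_ne_zero z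
    field_simp
    ring
  rw [hw, mul_zero] at h2
  exact mul_ne_zero (pow_ne_zero 2 h0) (P_GG1_ne hz) h2.symm

theorem bridge_hh {z : ℂ} (hz : z ∈ P) (b : ℝ) : hh z b = SCE.hh z b := by
  have h0 := P_ne_zero hz
  have hG := P_GG1_ne hz
  rw [← SCE.bridge h0 (bridge_ww hz) b]
  unfold hh
  have ht : z * exp ((b : ℂ) * I) ≠ 0 := mul_ne_zero h0 (exp_ne_zero _)
  have e0 : GG 0 z = (exp z - 1 - z - z ^ 2 / 2) / z ^ 2 := by
    rw [eq_div_iff (pow_ne_zero 2 h0), ← GG0_closed z]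
    ring
  have e1 : GG 0 (z * exp (b * I)) = (exp (z * exp (b * I)) - 1 - z * exp (b * I) -
      (z * exp (b * I)) ^ 2 / 2) / (z * exp (b * I)) ^ 2 := by
    rw [eq_div_iff (pow_ne_zero 2 ht), ← GG0_closed]
    ring
  have e2 : GG 1 z = ((z - 2) * exp z + z + 2) / z ^ 2 := by
    rw [eq_div_iff (pow_ne_zero 2 h0)]
    linear_combination GG1_closed z
  rw [e0, e1, e2]

theorem bridge_kap {z : ℂ} (hz : z ∈ P) : kap z = SCE.kap z := by
  have h0 := P_ne_zero hz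
  have hG := P_GG1_ne hz
  have hw := bridge_ww hz
  unfold kap SCE.kap
  rw [div_eq_div_iff hG hw]
  have h1 := GG1_closed z
  have h2 := GG2_closed z
  have hz2 : z ^ 2 ≠ 0 := pow_ne_zero 2 h0
  have hE : exp z * exp (-z) = 1 := by rw [← exp_add, add_neg_cancel, exp_zero]
  apply mul_left_cancel₀ hz2
  rw [SCE.ww]
  have e1 : z ^ 2 * (GG 2 z * (z - 2 + (z + 2) * exp (-z))) =
      (z ^ 2 * GG 2 z) * (z - 2 + (z + 2) * exp (-z)) := by ring
  have e2 : z ^ 2 * ((z ^ 2 - 3 * z + 4 - (z + 4) * exp (-z)) * GG 1 z) =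
      (z ^ 2 - 3 * z + 4 - (z + 4) * exp (-z)) * (z ^ 2 * GG 1 z) := by ring
  rw [e1, e2, h1, h2]
  linear_combination z ^ 3 * hE

/-- the norm of `J` is at most `1` if the exponent has nonpositive real part -/
theorem bridge_crude (n : ℕ) {z : ℂ} (hz : z ∈ P)
    (h : ∀ b : ℝ, |b| ≤ Real.pi → (SCE.hh z b).re ≤ 0) : ‖J n z‖ ≤ 1 := by
  have h0 := P_ne_zero hz
  have hG := P_GG1_ne hz
  have hpi := Real.pi_pos
  rw [J_circle n h0 hG, norm_smul]
  have h1 : ‖∫ b in (-Real.pi)..Real.pi, exp ((n : ℂ) * hh z b)‖ ≤ 1 * |Real.pi - -Real.pi| := by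
    refine intervalIntegral.norm_integral_le_of_norm_le_const fun b hb => ?_
    rw [Set.uIoc_of_le (by linarith)] at hb
    rw [Complex.norm_exp, bridge_hh hz]
    have h2 : ((n : ℂ) * SCE.hh z b).re = (n : ℝ) * (SCE.hh z b).re := by
      simp
    rw [h2]
    have h3 := h b (abs_le.2 ⟨hb.1.le, hb.2⟩)
    have h4 : (n : ℝ) * (SCE.hh z b).re ≤ 0 :=
      mul_nonpos_of_nonneg_of_nonpos (Nat.cast_nonneg n) h3
    calc Real.exp ((n : ℝ) * (SCE.hh z b).re) ≤ Real.exp 0 := Real.exp_le_exp.2 h4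
      _ = 1 := Real.exp_zero
  rw [one_mul, abs_of_pos (by linarith)] at h1
  rw [Real.norm_of_nonneg (by positivity)]
  calc 1 / (2 * Real.pi) * ‖∫ b in (-Real.pi)..Real.pi, exp ((n : ℂ) * hh z b)‖
      ≤ 1 / (2 * Real.pi) * (Real.pi - -Real.pi) := by
        apply mul_le_mul_of_nonneg_left h1 (by positivity)
    _ = 1 := by field_simp; ring

/-- the product of the two square roots -/
theorem bridge_sqrt {n : ℕ} (hn : 0 < n) {κ : ℂ} (hk : 0 < κ.re) :
    (2 * (Real.pi : ℂ) * (n : ℂ) * κ) ^ (1 / 2 : ℂ) *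
      ((2 * Real.pi / (((n : ℝ) : ℂ) * κ) : ℂ)) ^ (1 / 2 : ℂ) = 2 * Real.pi := by
  have hpi := Real.pi_pos
  have hnR : (0 : ℝ) < n := by exact_mod_cast hn
  have hk0 : κ ≠ 0 := by
    rintro rfl
    simp at hk
  have harg : κ.arg ≠ Real.pi := by
    intro h
    rw [Complex.arg_eq_pi_iff] at h
    linarith [h.1]
  have hnC : (n : ℂ) ≠ 0 := by exact_mod_cast hn.ne'
  have e1 : (2 * (Real.pi : ℂ) * (n : ℂ) * κ) = ((2 * Real.pi * n : ℝ) : ℂ) * κ := by
    push_cast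
    ring
  have e2 : (2 * Real.pi / (((n : ℝ) : ℂ) * κ) : ℂ) = ((2 * Real.pi / n : ℝ) : ℂ) * κ⁻¹ := by
    push_cast
    field_simp
  have hp1 : 0 < 2 * Real.pi * n := by positivity
  have hp2 : 0 < 2 * Real.pi / n := by positivity
  rw [e1, e2, Complex.cpow_def_of_ne_zero
    (mul_ne_zero (by exact_mod_cast hp1.ne') hk0), Complex.cpow_def_of_ne_zero
    (mul_ne_zero (by exact_mod_cast hp2.ne') (inv_ne_zero hk0)), ← exp_add,
    Complex.log_ofReal_mul hp1 hk0, Complex.log_ofReal_mul hp2 (inv_ne_zero hk0),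
    Complex.log_inv _ harg]
  have e3 : Real.log (2 * Real.pi * n) + Real.log (2 * Real.pi / n) =
      2 * Real.log (2 * Real.pi) := by
    rw [Real.log_mul (by positivity) (by positivity), Real.log_div (by positivity) (by positivity)]
    ring
  have e4 : ((Real.log (2 * Real.pi * n) : ℂ) + log κ) * (1 / 2) +
      ((Real.log (2 * Real.pi / n) : ℂ) + -log κ) * (1 / 2) = (Real.log (2 * Real.pi) : ℂ) := by
    have : ((Real.log (2 * Real.pi * n) : ℂ) + (Real.log (2 * Real.pi / n) : ℂ)) =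
        ((2 * Real.log (2 * Real.pi) : ℝ) : ℂ) := by
      rw [← e3]
      push_cast
      rfl
    push_cast at this
    linear_combination (1 / 2 : ℂ) * this
  rw [e4, ← Complex.ofReal_exp, Real.exp_log (by positivity)]
  push_cast
  ring

/-- from the integral estimate to the estimate of `J` -/
theorem bridge_sharp {n : ℕ} (hn : 0 < n) {z : ℂ} (hz : z ∈ P)
    (h : ‖(∫ b in (-Real.pi)..Real.pi, exp (((n : ℝ) : ℂ) * SCE.hh z b))
        - ((2 * Real.pi / (((n : ℝ) : ℂ) * SCE.kap z) : ℂ)) ^ (1 / 2 : ℂ)‖ ≤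
      1 / 4 * ‖((2 * Real.pi / (((n : ℝ) : ℂ) * SCE.kap z) : ℂ)) ^ (1 / 2 : ℂ)‖) :
    ‖J n z * (2 * (Real.pi : ℂ) * (n : ℂ) * kap z) ^ (1 / 2 : ℂ) - 1‖ ≤ 1 / 4 := by
  have h0 := P_ne_zero hz
  have hG := P_GG1_ne hz
  have hpi := Real.pi_pos
  have hk := kap_re hz
  have hs := bridge_sqrt hn (κ := kap z) (by linarith)
  rw [← bridge_kap hz] at h
  have hI : (∫ b in (-Real.pi)..Real.pi, exp (((n : ℝ) : ℂ) * SCE.hh z b)) =
      ∫ b in (-Real.pi)..Real.pi, exp ((n : ℂ) * hh z b) := by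
    refine intervalIntegral.integral_congr fun b _ => ?_
    simp only [bridge_hh hz, Complex.ofReal_natCast]
  rw [hI] at h
  rw [J_circle n h0 hG, Complex.real_smul]
  set Y := ((2 * Real.pi / (((n : ℝ) : ℂ) * kap z) : ℂ)) ^ (1 / 2 : ℂ) with hY
  set X := (2 * (Real.pi : ℂ) * (n : ℂ) * kap z) ^ (1 / 2 : ℂ) with hX
  set A := ∫ b in (-Real.pi)..Real.pi, exp ((n : ℂ) * hh z b) with hA
  have hpiC : (Real.pi : ℂ) ≠ 0 := by exact_mod_cast hpi.ne'
  have e1 : ((1 / (2 * Real.pi) : ℝ) : ℂ) * A * X - 1 =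
      ((1 / (2 * Real.pi) : ℝ) : ℂ) * (X * (A - Y)) := by
    have : X * (A - Y) = X * A - 2 * Real.pi := by rw [mul_sub, hs]
    rw [this]
    push_cast
    field_simp
  rw [e1, norm_mul, norm_mul, Complex.norm_real, Real.norm_of_nonneg (by positivity)]
  have h2 : ‖X‖ * ‖Y‖ = 2 * Real.pi := by
    rw [← norm_mul, hs, norm_mul, Complex.norm_real, Real.norm_of_nonneg hpi.le]
    norm_num
  calc 1 / (2 * Real.pi) * (‖X‖ * ‖A - Y‖)
      ≤ 1 / (2 * Real.pi) * (‖X‖ * (1 / 4 * ‖Y‖)) := by gcongr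
    _ = 1 / (2 * Real.pi) * (1 / 4 * (‖X‖ * ‖Y‖)) := by ring
    _ = 1 / 4 := by rw [h2]; field_simp

end ST3
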