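import Mathlib

/-!
Zeros of the third-order Stirling subset polynomials (MP_3942cb_co): definitions.

`S3 n k` is the number of partitions of a set with `n + 2k` elements into `k` blocks of size at
least three, given by its recursion; `s n` is the row polynomial.
`GG j z = sum_{m >= 1} m^j z^m / (m+2)!`; `g = GG 0`, `G = GG 1`, `kap = GG 2 / GG 1`,
`VV = kap + 2 - z` (this equals `1 + 2 g / G`).
-/

namespace ST3

open Complex

/-- third-order Stirling subset numbers, by their recursion -/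
def S3 : ℕ → ℕ → ℕ
  | 0, 0 => 1
  | 0, _ + 1 => 0
  | _ + 1, 0 => 0
  | n + 1, k + 1 => (k + 1) * S3 n (k + 1) + (n + 2 * k + 2).choose 2 * S3 n k

/-- the third-order Stirling subset polynomial -/
noncomputable def s (n : ℕ) (x : ℂ) : ℂ :=
  ∑ k ∈ Finset.range (n + 1), (S3 n k : ℂ) * x ^ k

/-- normalised coefficients -/
noncomputable def d (n k : ℕ) : ℝ := (S3 n k : ℝ) / ((n + 2 * k).factorial : ℝ)

/-- the polynomial `q_n(v) = [t^n] exp (v g(t))` -/
noncomputable def q (n : ℕ) (v : ℂ) : ℂ :=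
  ∑ k ∈ Finset.range (n + 1), (d n k : ℂ) * v ^ k

/-- `GG j z = sum_{m >= 1} m^j z^m / (m+2)!` -/
noncomputable def GG (j : ℕ) (z : ℂ) : ℂ :=
  ∑' m : ℕ, ((m : ℂ) + 1) ^ j * z ^ (m + 1) / ((m + 3).factorial : ℂ)

/-- `kappa = z G' / G` -/
noncomputable def kap (z : ℂ) : ℂ := GG 2 z / GG 1 z

/-- `V = 1 + 2 g / G = kappa + 2 - z` -/
noncomputable def VV (z : ℂ) : ℂ := kap z + 2 - z

/-- `theta kappa = z kappa'`, by the Riccati equation -/
noncomputable def tk (z : ℂ) : ℂ := 2 + z + (z - 1) * kap z - kap z ^ 2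

/-- the derivative of `V` with respect to `w = - log G` -/
noncomputable def V1 (z : ℂ) : ℂ := (z - tk z) / kap z

/-- the second derivative of `V` with respect to `w` -/
noncomputable def V2 (z : ℂ) : ℂ := V1 z - 2 * tk z / kap z ^ 3

/-- the even function `M`, `G = (z/6) e^{z/2} M` -/
noncomputable def MM (z : ℂ) : ℂ :=
  (3 / 2 : ℂ) * ∫ u in (0 : ℝ)..1, ((1 - u ^ 2 : ℝ) : ℂ) * Complex.cosh ((u : ℂ) * z / 2)

/-- `F = - log G` on the region `P` -/
noncomputable def F (z : ℂ) : ℂ :=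
  -(Complex.log z - (Real.log 6 : ℂ) + z / 2 + Complex.log (MM z))

/-- the convex region in the lower half plane which carries the saddles -/
def P : Set ℂ :=
  {z | z.im < 0 ∧ z.im < z.re ∧ -(3 / 8) < z.re ∧ -(127 / 80) - 9 / 10 * z.re < z.im ∧
    -(5 / 3) - 7 / 12 * z.re < z.im ∧ -(33 / 16) - 3 / 16 * z.re < z.im ∧ -(21 / 8) < z.im}

/-- the closed symmetric region on which the numerical facts are proved -/
def Q : Set ℂ :=
  {z | -(3 / 8) ≤ z.re ∧ |z.im| ≤ 127 / 80 + 9 / 10 * z.re ∧ |z.im| ≤ 5 / 3 + 7 / 12 * z.re ∧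
    |z.im| ≤ 33 / 16 + 3 / 16 * z.re ∧ |z.im| ≤ 21 / 8}

/-- the angle bounding the strip -/
noncomputable def om1 : ℝ := Complex.arg (-15 + 16 * Complex.I)

/-- the strip of admissible `w = log (v/n)` -/
def S : Set ℂ := {w | 0 < w.im ∧ w.im < om1}

/-- the normalised remainder integral: `q_n(n/G) = e^{n g/G} z^{-n} J_n(z)` -/
noncomputable def J (n : ℕ) (z : ℂ) : ℂ :=
  q n ((n : ℂ) / GG 1 z) * Complex.exp (-(n : ℂ) * GG 0 z / GG 1 z) * z ^ n

end ST3
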