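import Pool.Agent.Helper2.ST.G5

/-!
# ST-E1: the saddle point

PROOF. Let `T = {w : Im zeta <= Im w <= Im zeta + 2 arctan(393/1000)}`. It is closed and convex, and
contained in `S`: `0 < Im zeta` and `pi/2 + 2 arctan(393/1000) < om1` (`angle_lt`: `om1` is the argument of
`-15+16i`, i.e. `pi/2 + arctan(15/16)`, and `2 arctan(.393) = arctan(2*.393/(1-.393^2)) =
arctan(.92957..) < arctan(.9375)`).
`Phi(w) = zeta + 2 log (VV (Zf w))` maps `T` into `T`: `Im log V = arg V` and `0 < Im V <= .393 Re V`,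
`Re V >= 1` (`VV_im_pos'`, `VV_im_le`, `VV_re`). Its derivative is `2 V1/V`, of norm `<= 26/50 < 1`
(`VZ_hasDerivAt`, `V1_le`), so `Phi` is Lipschitz with constant `13/25` on the convex set `T`
(`Convex.norm_image_sub_le_of_norm_hasDerivWithin_le`). Banach: `ContractingWith.exists_fixedPoint'`.
-/

namespace ST3

open Complex

private theorem om1_eq : om1 = Real.pi / 2 + Real.arctan (15 / 16) := by
  have hpi := Real.pi_pos
  have h1 := Real.arctan_lt_pi_div_two (15 / 16)
  have h2 := Real.arctan_pos.2 (show (0 : ℝ) < 15 / 16 by norm_num)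
  set θ : ℝ := Real.pi / 2 + Real.arctan (15 / 16) with hθ
  set r : ℝ := √(1 + (15 / 16) ^ 2) with hr
  have hr0 : 0 < r := Real.sqrt_pos.2 (by norm_num)
  have hc : Real.cos θ = -(15 / 16 / r) := by
    rw [hθ, add_comm, Real.cos_add_pi_div_two, Real.sin_arctan]
  have hs : Real.sin θ = 1 / r := by
    rw [hθ, add_comm, Real.sin_add_pi_div_two, Real.cos_arctan]
  have h3 := Complex.arg_mul_cos_add_sin_mul_I (r := 16 * r) (θ := θ) (by positivity)
    ⟨by linarith, by linarith⟩
  rw [← h3]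
  unfold om1
  congr 1
  rw [← Complex.ofReal_cos, ← Complex.ofReal_sin, hc, hs]
  have hr1 : (r : ℂ) ≠ 0 := by exact_mod_cast hr0.ne'
  push_cast
  field_simp

theorem angle_lt : Real.pi / 2 + 2 * Real.arctan (393 / 1000) < om1 := by
  rw [om1_eq, Real.two_mul_arctan (by norm_num) (by norm_num)]
  have h : Real.arctan (2 * (393 / 1000) / (1 - (393 / 1000) ^ 2)) < Real.arctan (15 / 16) :=
    Real.arctan_strictMono (by norm_num)
  linarith

theorem arg_VV {z : ℂ} (hz : z ∈ P) :
    0 < (Complex.log (VV z)).im ∧ (Complex.log (VV z)).im ≤ Real.arctan (393 / 1000) := by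
  have h1 := VV_re hz
  have h2 := VV_im_pos' hz
  have h3 := VV_im_le hz
  have hre : 0 < (VV z).re := by linarith
  rw [Complex.log_im]
  have h4 := abs_lt.1 (Complex.abs_arg_lt_pi_div_two_iff.2 (Or.inl hre))
  have h5 : Real.arctan ((VV z).im / (VV z).re) = Complex.arg (VV z) := by
    rw [← Complex.tan_arg, Real.arctan_tan h4.1 h4.2]
  rw [← h5]
  refine ⟨Real.arctan_pos.2 (div_pos h2 hre), Real.arctan_mono ?_⟩
  rw [div_le_iff₀ hre]
  exact (le_abs_self _).trans h3

theorem saddle {ζ : ℂ} (h0 : 0 < ζ.im) (h1 : ζ.im ≤ Real.pi / 2) :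
    ∃ w ∈ S, w = ζ + 2 * Complex.log (VV (Zf w)) := by
  set T : Set ℂ := {w | ζ.im ≤ w.im ∧ w.im ≤ ζ.im + 2 * Real.arctan (393 / 1000)} with hT
  have hTS : T ⊆ S := fun w hw => ⟨by linarith [hw.1], by linarith [hw.2, angle_lt]⟩
  have hTc : IsClosed T :=
    (isClosed_le continuous_const Complex.continuous_im).inter
      (isClosed_le Complex.continuous_im continuous_const)
  have hTconv : Convex ℝ T := by
    have e : T = Complex.imCLM ⁻¹' (Set.Icc ζ.im (ζ.im + 2 * Real.arctan (393 / 1000))) := by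
      ext w
      simp [hT]
    rw [e]
    exact (convex_Icc _ _).linear_preimage (Complex.imCLM : ℂ →ₗ[ℝ] ℝ)
  have hmaps : Set.MapsTo (fun w => ζ + 2 * Complex.log (VV (Zf w))) T T := by
    intro w hw
    have h2 := arg_VV (Zf_mem (hTS hw))
    show ζ.im ≤ (ζ + 2 * Complex.log (VV (Zf w))).im ∧
      (ζ + 2 * Complex.log (VV (Zf w))).im ≤ ζ.im + 2 * Real.arctan (393 / 1000)
    have h3 : (ζ + 2 * Complex.log (VV (Zf w))).im = ζ.im + 2 * (Complex.log (VV (Zf w))).im := by
      simp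
    rw [h3]
    constructor <;> linarith [h2.1, h2.2]
  have hder : ∀ w ∈ T, HasDerivWithinAt (fun w => ζ + 2 * Complex.log (VV (Zf w)))
      (2 * (V1 (Zf w) / VV (Zf w))) T w := by
    intro w hw
    have hP := Zf_mem (hTS hw)
    have hsl : VV (Zf w) ∈ slitPlane := Or.inl (by linarith [VV_re hP])
    exact (((VZ_hasDerivAt (hTS hw)).clog hsl).const_mul 2 |>.const_add ζ).hasDerivWithinAt
  have hbd : ∀ w ∈ T, ‖2 * (V1 (Zf w) / VV (Zf w))‖ ≤ 13 / 25 := by
    intro w hw
    have hP := Zf_mem (hTS hw)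
    have h2 := V1_le hP
    have h3 : 0 < ‖VV (Zf w)‖ := by
      have := Complex.re_le_norm (VV (Zf w))
      linarith [VV_re hP]
    rw [norm_mul, norm_div]
    have h4 : ‖V1 (Zf w)‖ / ‖VV (Zf w)‖ ≤ 13 / 50 := by
      rw [div_le_iff₀ h3]
      exact h2
    have h5 : ‖(2 : ℂ)‖ = 2 := by simp
    rw [h5]
    linarith
  have hcontr : ContractingWith (13 / 25) (hmaps.restrict _ T T) := by
    refine ⟨by rw [← NNReal.coe_lt_coe]; norm_num, ?_⟩
    refine LipschitzWith.of_dist_le_mul ?_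
    intro x y
    have h2 := hTconv.norm_image_sub_le_of_norm_hasDerivWithin_le hder hbd y.2 x.2
    rw [Subtype.dist_eq, Subtype.dist_eq, dist_eq_norm, dist_eq_norm]
    simpa using h2
  obtain ⟨w, hw, hfix, -⟩ := hcontr.exists_fixedPoint' hTc.isComplete hmaps (x := ζ)
    ⟨le_rfl, by
      have := Real.arctan_pos.2 (show (0 : ℝ) < 393 / 1000 by norm_num)
      linarith⟩ (edist_ne_top _ _)
  exact ⟨w, hTS hw, hfix.symm⟩

end ST3
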