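import Mathlib

/-!
# ST-L4: the core of the Laplace integral

PROOF. `int_R e^{-n beta t^2/4} dt = (4 pi/(n beta))^{1/2}` (`integral_gaussian_complex`). The difference
is `int_{|t|<=1/4} e^{-n beta t^2/4} (e^E (1+theta) - 1) dt - int_{|t|>1/4} e^{-n beta t^2/4} dt`, with
`E = n (B + beta t^2/4) + t/2 + lam`, `|E| <= n C |t|^3 + (7/8)|t|`.
`|e^E (1+theta) - 1| <= 1/3 + (4/3) |E| e^{|E|}`, and for `|t| <= 1/4`:
`|E| e^{|E|} <= (n C |t|^3 + (7/8)|t|) e^{7/32} e^{n C t^2/4}`. With `a = n(b-C)/4`: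
`int_R |t|^3 e^{-a t^2} = 1/a^2`, `int_R |t| e^{-a t^2} = 1/a`, which gives
`(n C 16/(n^2 (b-C)^2) + (7/8) 4/(n(b-C))) = (1/n)(16 C/(b-C)^2 + (7/2)/(b-C))`.
`int_R e^{-n b t^2/4}/3 = (1/3) sqrt(4 pi/(n b))`. The Gaussian tail:
`2 int_{1/4}^oo e^{-n b t^2/4} dt <= 2 int_{1/4}^oo 4t e^{-n b t^2/4} dt = (16/(n b)) e^{-n b/64}`.
-/

namespace ST3

open Complex MeasureTheory

private theorem mom1 {a : ℝ} (ha : 0 < a) : Integrable (fun t : ℝ => |t| * Real.exp (-a * t ^ 2)) ∧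
    ∫ t : ℝ, |t| * Real.exp (-a * t ^ 2) = 1 / a := by
  constructor
  · have h := (integrable_rpow_mul_exp_neg_mul_sq ha (s := 1) (by norm_num)).norm
    refine h.congr (Filter.Eventually.of_forall fun t => ?_)
    simp only [Real.rpow_one, norm_mul, Real.norm_eq_abs, Real.abs_exp]
  · have h1 : (fun t : ℝ => |t| * Real.exp (-a * t ^ 2)) =
        fun t => (fun s : ℝ => s * Real.exp (-a * s ^ 2)) |t| := by
      funext t
      simp only [sq_abs]
    rw [h1, integral_comp_abs (f := fun s : ℝ => s * Real.exp (-a * s ^ 2))]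
    have h2 := _root_.integral_rpow_mul_exp_neg_mul_rpow (p := 2) (q := 1) (b := a) (by norm_num)
      (by norm_num) ha
    have h3 : ∫ x in Set.Ioi (0 : ℝ), x * Real.exp (-a * x ^ 2) =
        ∫ x in Set.Ioi (0 : ℝ), x ^ (1 : ℝ) * Real.exp (-a * x ^ (2 : ℝ)) := by
      refine setIntegral_congr_fun measurableSet_Ioi fun x _ => ?_
      simp only [Real.rpow_one, Real.rpow_two]
    rw [h3, h2]
    norm_num
    rw [Real.rpow_neg_one]
    ring

private theorem mom3 {a : ℝ} (ha : 0 < a) : Integrable (fun t : ℝ => |t| ^ 3 * Real.exp (-a * t ^ 2)) ∧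
    ∫ t : ℝ, |t| ^ 3 * Real.exp (-a * t ^ 2) = 1 / a ^ 2 := by
  constructor
  · have h := (integrable_rpow_mul_exp_neg_mul_sq ha (s := 3) (by norm_num)).norm
    refine h.congr (Filter.Eventually.of_forall fun t => ?_)
    have h1 : t ^ (3 : ℝ) = t ^ 3 := by exact_mod_cast Real.rpow_natCast t 3
    simp only [h1, norm_mul, norm_pow, Real.norm_eq_abs, Real.abs_exp]
  · have h1 : (fun t : ℝ => |t| ^ 3 * Real.exp (-a * t ^ 2)) =
        fun t => (fun s : ℝ => s ^ 3 * Real.exp (-a * s ^ 2)) |t| := by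
      funext t
      simp only [sq_abs]
    rw [h1, integral_comp_abs (f := fun s : ℝ => s ^ 3 * Real.exp (-a * s ^ 2))]
    have h2 := _root_.integral_rpow_mul_exp_neg_mul_rpow (p := 2) (q := 3) (b := a) (by norm_num)
      (by norm_num) ha
    have h3 : ∫ x in Set.Ioi (0 : ℝ), x ^ 3 * Real.exp (-a * x ^ 2) =
        ∫ x in Set.Ioi (0 : ℝ), x ^ (3 : ℝ) * Real.exp (-a * x ^ (2 : ℝ)) := by
      refine setIntegral_congr_fun measurableSet_Ioi fun x _ => ?_
      have h4 : x ^ (3 : ℝ) = x ^ 3 := by exact_mod_cast Real.rpow_natCast x 3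
      simp only [h4, Real.rpow_two]
    rw [h3, h2]
    have h5 : a ^ (-((3 : ℝ) + 1) / 2) = 1 / a ^ 2 := by
      have h6 : (-((3 : ℝ) + 1) / 2) = -((2 : ℕ) : ℝ) := by norm_num
      rw [h6, Real.rpow_neg ha.le, Real.rpow_natCast, one_div]
    have h7 : Real.Gamma (((3 : ℝ) + 1) / 2) = 1 := by
      have h8 : ((3 : ℝ) + 1) / 2 = 2 := by norm_num
      rw [h8, Real.Gamma_two]
    rw [h5, h7]
    ring

private theorem tail_gauss {c : ℝ} (hc : 0 < c) :
    ∫ t in (Set.Icc (-(1 / 4) : ℝ) (1 / 4))ᶜ, Real.exp (-c * t ^ 2) ≤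
      4 / c * Real.exp (-(c / 16)) := by
  have hm : MeasurableSet ((Set.Icc (-(1 / 4) : ℝ) (1 / 4))ᶜ) := measurableSet_Icc.compl
  have hI : ∫ x in Set.Ioi (1 / 4 : ℝ), (4 * x) * Real.exp (-c * x ^ 2) =
      2 / c * Real.exp (-(c / 16)) := by
    have h1 := integral_Ioi_of_hasDerivAt_of_nonneg (a := (1 / 4 : ℝ)) (l := 0)
      (g := fun x => -(2 / c) * Real.exp (-c * x ^ 2))
      (g' := fun x => (4 * x) * Real.exp (-c * x ^ 2)) (by
        exact (by fun_prop : Continuous fun x : ℝ => -(2 / c) * Real.exp (-c * x ^ 2)).continuousWithinAt) (by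
        intro x _
        have h2 : HasDerivAt (fun x : ℝ => -c * x ^ 2) (-c * (2 * x)) x := by
          have := (hasDerivAt_pow 2 x).const_mul (-c)
          simpa using this
        have h3 := (h2.exp).const_mul (-(2 / c))
        have h4 : (4 * x) * Real.exp (-c * x ^ 2) =
            -(2 / c) * (Real.exp (-c * x ^ 2) * (-c * (2 * x))) := by
          have hcc : c ≠ 0 := hc.ne'
          have h5 : (2 / c) * c = 2 := by field_simp
          linear_combination (2 * x * Real.exp (-c * x ^ 2)) * (-h5)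
        show HasDerivAt _ ((4 * x) * Real.exp (-c * x ^ 2)) x
        rw [h4]
        exact h3) (by
        intro x hx
        have : (0 : ℝ) < x := lt_trans (by norm_num) hx
        positivity) (by
        have h2 : Filter.Tendsto (fun x : ℝ => -c * x ^ 2) Filter.atTop Filter.atBot := by
          have h3 : Filter.Tendsto (fun x : ℝ => c * x ^ 2) Filter.atTop Filter.atTop :=
            (Filter.tendsto_pow_atTop (by norm_num)).const_mul_atTop hc
          have h4 := Filter.tendsto_neg_atTop_atBot.comp h3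
          refine h4.congr fun x => ?_
          simp only [Function.comp_apply]
          ring
        have h5 := (Real.tendsto_exp_atBot.comp h2).const_mul (-(2 / c))
        simpa using h5)
    rw [h1]
    have h6 : -c * (1 / 4 : ℝ) ^ 2 = -(c / 16) := by ring
    rw [h6]
    ring
  have hle : ∫ t in (Set.Icc (-(1 / 4) : ℝ) (1 / 4))ᶜ, Real.exp (-c * t ^ 2) ≤
      ∫ t in (Set.Icc (-(1 / 4) : ℝ) (1 / 4))ᶜ, 4 * (|t| * Real.exp (-c * t ^ 2)) := by
    refine setIntegral_mono_on (integrable_exp_neg_mul_sq hc).integrableOn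
      ((mom1 hc).1.const_mul 4).integrableOn hm fun t ht => ?_
    rw [Set.mem_compl_iff, Set.mem_Icc, ← abs_le, not_le] at ht
    have he : 0 < Real.exp (-c * t ^ 2) := Real.exp_pos _
    nlinarith
  refine hle.trans (le_of_eq ?_)
  rw [← integral_indicator hm]
  have h1 : (Set.Icc (-(1 / 4) : ℝ) (1 / 4))ᶜ.indicator (fun t => 4 * (|t| * Real.exp (-c * t ^ 2))) =
      fun t => (Set.Ioi (1 / 4 : ℝ)).indicator (fun s => (4 * s) * Real.exp (-c * s ^ 2)) |t| := by
    funext t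
    by_cases ht : t ∈ (Set.Icc (-(1 / 4) : ℝ) (1 / 4))ᶜ
    · have ht' : |t| ∈ Set.Ioi (1 / 4 : ℝ) := by
        rw [Set.mem_compl_iff, Set.mem_Icc, ← abs_le, not_le] at ht
        exact ht
      rw [Set.indicator_of_mem ht, Set.indicator_of_mem ht', sq_abs]
      ring
    · have ht' : |t| ∉ Set.Ioi (1 / 4 : ℝ) := by
        rw [Set.notMem_compl_iff, Set.mem_Icc, ← abs_le] at ht
        exact not_lt.2 ht
      rw [Set.indicator_of_notMem ht, Set.indicator_of_notMem ht']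
  rw [h1, integral_comp_abs
    (f := fun t => (Set.Ioi (1 / 4 : ℝ)).indicator (fun s => (4 * s) * Real.exp (-c * s ^ 2)) t),
    setIntegral_indicator measurableSet_Ioi]
  have h2 : Set.Ioi (0 : ℝ) ∩ Set.Ioi (1 / 4) = Set.Ioi (1 / 4) := by
    rw [Set.Ioi_inter_Ioi]
    norm_num
  rw [h2, hI]
  ring

theorem lap_core (n : ℕ) (hn : 1 ≤ n) (β : ℂ) (C : ℝ) (hC : 0 ≤ C) (hbC : C < β.re)
    (B j lam th : ℝ → ℂ) (hBc : Continuous B) (hjc : Continuous j)
    (hB : ∀ t : ℝ, |t| ≤ 1 / 4 → ‖B t + β * (t : ℂ) ^ 2 / 4‖ ≤ C * |t| ^ 3)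
    (hj : ∀ t : ℝ, |t| ≤ 1 / 4 → j t = exp (lam t) * (1 + th t))
    (hlam : ∀ t : ℝ, |t| ≤ 1 / 4 → ‖lam t‖ ≤ 3 / 8 * |t|)
    (hth : ∀ t : ℝ, |t| ≤ 1 / 4 → ‖th t‖ ≤ 1 / 3) :
    ‖(∫ t in (-(1 / 4) : ℝ)..(1 / 4), exp ((n : ℂ) * B t + (t : ℂ) / 2) * j t) -
        (4 * (Real.pi : ℂ) / ((n : ℂ) * β)) ^ (1 / 2 : ℂ)‖ ≤
      1 / 3 * Real.sqrt (4 * Real.pi / ((n : ℝ) * β.re)) +
      4 / 3 * Real.exp (7 / 32) / (n : ℝ) * (16 * C / (β.re - C) ^ 2 + 7 / 2 / (β.re - C)) +
      16 / ((n : ℝ) * β.re) * Real.exp (-((n : ℝ) * β.re / 64)) := by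
  have hn0 : (0 : ℝ) < n := by exact_mod_cast hn
  set b := β.re with hb
  have hb0 : 0 < b := lt_of_le_of_lt hC hbC
  set c : ℝ := n * b / 4 with hc
  have hc0 : 0 < c := by positivity
  set a : ℝ := n * (b - C) / 4 with ha
  have hbC' : 0 < b - C := sub_pos.2 hbC
  have ha0 : 0 < a := by positivity
  set β' : ℂ := (n : ℂ) * β / 4 with hβ'
  have hβre : β'.re = c := by
    have h1 : β' = (((n : ℝ) / 4 : ℝ) : ℂ) * β := by
      rw [hβ']
      push_cast
      ring
    rw [h1, Complex.re_ofReal_mul, hc]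
    ring
  have hβre0 : 0 < β'.re := by rw [hβre]; exact hc0
  set G : ℝ → ℂ := fun t => exp (-β' * (t : ℂ) ^ 2) with hG
  have hGn : ∀ t : ℝ, ‖G t‖ = Real.exp (-c * t ^ 2) := by
    intro t
    rw [hG]
    simp only
    rw [Complex.norm_exp]
    congr 1
    have h1 : -β' * (t : ℂ) ^ 2 = ((t ^ 2 : ℝ) : ℂ) * (-β') := by
      push_cast
      ring
    rw [h1, Complex.re_ofReal_mul, Complex.neg_re, hβre]
    ring
  have hGi : Integrable G := integrable_cexp_neg_mul_sq hβre0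
  have hGint : ∫ t : ℝ, G t = (4 * (Real.pi : ℂ) / ((n : ℂ) * β)) ^ (1 / 2 : ℂ) := by
    rw [hG, integral_gaussian_complex hβre0]
    congr 1
    have hβ0 : β ≠ 0 := by
      intro h0
      rw [hb, h0, Complex.zero_re] at hb0
      exact lt_irrefl _ hb0
    have hnc : (n : ℂ) ≠ 0 := by exact_mod_cast hn0.ne'
    rw [hβ']
    field_simp
  set F : ℝ → ℂ := fun t => exp ((n : ℂ) * B t + (t : ℂ) / 2) * j t with hF
  have hFc : Continuous F := by
    rw [hF]
    fun_prop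
  have hGc : Continuous G := by
    rw [hG]
    fun_prop
  set I : Set ℝ := Set.Icc (-(1 / 4)) (1 / 4) with hI
  have hIm : MeasurableSet I := measurableSet_Icc
  have hFI : IntegrableOn F I := hFc.continuousOn.integrableOn_compact isCompact_Icc
  have hFeq : (∫ t in (-(1 / 4) : ℝ)..(1 / 4), exp ((n : ℂ) * B t + (t : ℂ) / 2) * j t) =
      ∫ t in I, F t := by
    rw [intervalIntegral.integral_of_le (by norm_num), ← integral_Icc_eq_integral_Ioc]
  set H : ℝ → ℝ := fun t => 1 / 3 * Real.exp (-c * t ^ 2) + 4 / 3 * Real.exp (7 / 32) *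
    (n * C * (|t| ^ 3 * Real.exp (-a * t ^ 2)) + 7 / 8 * (|t| * Real.exp (-a * t ^ 2))) with hH
  have hHi : Integrable H := by
    refine Integrable.add ((integrable_exp_neg_mul_sq hc0).const_mul _) ?_
    refine Integrable.const_mul ?_ _
    exact ((mom3 ha0).1.const_mul _).add ((mom1 ha0).1.const_mul _)
  have hH0 : ∀ t, 0 ≤ H t := by
    intro t
    rw [hH]
    simp only
    positivity
  have hpt : ∀ t ∈ I, ‖F t - G t‖ ≤ H t := by
    intro t ht
    have ht' : |t| ≤ 1 / 4 := abs_le.2 ht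
    have ht0 : 0 ≤ |t| := abs_nonneg t
    set E : ℂ := (n : ℂ) * (B t + β * (t : ℂ) ^ 2 / 4) + (t : ℂ) / 2 + lam t with hE
    have hFE : F t - G t = G t * (exp E * (1 + th t) - 1) := by
      rw [hF, hG]
      simp only
      rw [hj t ht', mul_sub, mul_one, ← mul_assoc, ← mul_assoc, ← Complex.exp_add,
        ← Complex.exp_add]
      congr 3
      rw [hE, hβ']
      ring
    have hEn : ‖E‖ ≤ n * C * |t| ^ 3 + 7 / 8 * |t| := by
      calc ‖E‖ ≤ ‖(n : ℂ) * (B t + β * (t : ℂ) ^ 2 / 4)‖ + ‖(t : ℂ) / 2‖ + ‖lam t‖ :=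
            (norm_add_le _ _).trans (add_le_add (norm_add_le _ _) le_rfl)
        _ ≤ n * (C * |t| ^ 3) + |t| / 2 + 3 / 8 * |t| := by
            refine add_le_add (add_le_add ?_ ?_) (hlam t ht')
            · rw [norm_mul, Complex.norm_natCast]
              exact mul_le_mul_of_nonneg_left (hB t ht') hn0.le
            · rw [norm_div, Complex.norm_real, Real.norm_eq_abs]
              norm_num
        _ = _ := by ring
    have hEn2 : ‖E‖ ≤ n * C * t ^ 2 / 4 + 7 / 32 := by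
      refine hEn.trans ?_
      have h1 : |t| ^ 3 ≤ t ^ 2 / 4 := by
        rw [← sq_abs t]
        nlinarith [sq_nonneg |t|]
      have h2 : n * C * |t| ^ 3 ≤ n * C * (t ^ 2 / 4) :=
        mul_le_mul_of_nonneg_left h1 (by positivity)
      linarith
    have hexp : ‖exp E - 1‖ ≤ ‖E‖ * Real.exp ‖E‖ := by
      have h1 := Complex.norm_exp_sub_sum_le_norm_mul_exp E 1
      simpa using h1
    have h1 : ‖exp E * (1 + th t) - 1‖ ≤ 4 / 3 * (‖E‖ * Real.exp ‖E‖) + 1 / 3 := by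
      have e1 : exp E * (1 + th t) - 1 = (exp E - 1) * (1 + th t) + th t := by ring
      rw [e1]
      refine (norm_add_le _ _).trans (add_le_add ?_ (hth t ht'))
      rw [norm_mul]
      have e2 : ‖1 + th t‖ ≤ 4 / 3 := by
        refine (norm_add_le _ _).trans ?_
        rw [norm_one]
        linarith [hth t ht']
      calc ‖exp E - 1‖ * ‖1 + th t‖ ≤ (‖E‖ * Real.exp ‖E‖) * (4 / 3) :=
            mul_le_mul hexp e2 (norm_nonneg _) (by positivity)
        _ = _ := by ring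
    have h2 : ‖E‖ * Real.exp ‖E‖ ≤ (n * C * |t| ^ 3 + 7 / 8 * |t|) *
        (Real.exp (7 / 32) * Real.exp (n * C * t ^ 2 / 4)) := by
      rw [← Real.exp_add]
      refine mul_le_mul hEn (Real.exp_le_exp.2 ?_) (Real.exp_pos _).le (by positivity)
      linarith
    rw [hFE, norm_mul, hGn]
    have h3 : Real.exp (-c * t ^ 2) * Real.exp (n * C * t ^ 2 / 4) = Real.exp (-a * t ^ 2) := by
      rw [← Real.exp_add]
      congr 1
      rw [hc, ha]
      ring
    calc Real.exp (-c * t ^ 2) * ‖exp E * (1 + th t) - 1‖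
        ≤ Real.exp (-c * t ^ 2) * (4 / 3 * ((n * C * |t| ^ 3 + 7 / 8 * |t|) *
          (Real.exp (7 / 32) * Real.exp (n * C * t ^ 2 / 4))) + 1 / 3) := by
          refine mul_le_mul_of_nonneg_left ?_ (Real.exp_pos _).le
          linarith
      _ = 1 / 3 * Real.exp (-c * t ^ 2) + 4 / 3 * Real.exp (7 / 32) *
          ((n * C * |t| ^ 3 + 7 / 8 * |t|) *
            (Real.exp (-c * t ^ 2) * Real.exp (n * C * t ^ 2 / 4))) := by ring
      _ = H t := by
          rw [h3, hH]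
          ring
  have hHint : ∫ t, H t = 1 / 3 * Real.sqrt (4 * Real.pi / ((n : ℝ) * b)) +
      4 / 3 * Real.exp (7 / 32) / (n : ℝ) * (16 * C / (b - C) ^ 2 + 7 / 2 / (b - C)) := by
    have I1 : Integrable (fun t : ℝ => 1 / 3 * Real.exp (-c * t ^ 2)) :=
      (integrable_exp_neg_mul_sq hc0).const_mul _
    have I2 : Integrable (fun t : ℝ => n * C * (|t| ^ 3 * Real.exp (-a * t ^ 2))) :=
      (mom3 ha0).1.const_mul _
    have I3 : Integrable (fun t : ℝ => 7 / 8 * (|t| * Real.exp (-a * t ^ 2))) :=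
      (mom1 ha0).1.const_mul _
    have I23 : Integrable (fun t : ℝ => n * C * (|t| ^ 3 * Real.exp (-a * t ^ 2)) +
      7 / 8 * (|t| * Real.exp (-a * t ^ 2))) := I2.add I3
    have s1 : ∫ t, H t = (∫ t : ℝ, 1 / 3 * Real.exp (-c * t ^ 2)) +
        ∫ t : ℝ, 4 / 3 * Real.exp (7 / 32) * (n * C * (|t| ^ 3 * Real.exp (-a * t ^ 2)) +
          7 / 8 * (|t| * Real.exp (-a * t ^ 2))) := integral_add I1 (I23.const_mul _)
    have s2 : (∫ t : ℝ, (n * C * (|t| ^ 3 * Real.exp (-a * t ^ 2)) +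
          7 / 8 * (|t| * Real.exp (-a * t ^ 2)))) =
        (∫ t : ℝ, n * C * (|t| ^ 3 * Real.exp (-a * t ^ 2))) +
          ∫ t : ℝ, 7 / 8 * (|t| * Real.exp (-a * t ^ 2)) := integral_add I2 I3
    rw [s1, integral_const_mul, integral_const_mul, s2,
      integral_const_mul, integral_const_mul, (mom3 ha0).2, (mom1 ha0).2, integral_gaussian]
    have e1 : Real.pi / c = 4 * Real.pi / ((n : ℝ) * b) := by
      rw [hc]
      field_simp
    rw [e1]
    congr 1
    rw [ha]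
    field_simp
    ring
  rw [hFeq, ← hGint, ← integral_add_compl hIm hGi]
  have hsplit : (∫ t in I, F t) - ((∫ t in I, G t) + ∫ t in Iᶜ, G t) =
      (∫ t in I, (F t - G t)) - ∫ t in Iᶜ, G t := by
    rw [integral_sub hFI hGi.integrableOn]
    ring
  rw [hsplit]
  have h1 : ‖∫ t in I, (F t - G t)‖ ≤ ∫ t, H t := by
    calc ‖∫ t in I, (F t - G t)‖ ≤ ∫ t in I, ‖F t - G t‖ := norm_integral_le_integral_norm _
      _ ≤ ∫ t in I, H t :=
          setIntegral_mono_on (hFI.sub hGi.integrableOn).norm hHi.integrableOn hIm hpt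
      _ ≤ ∫ t, H t := setIntegral_le_integral hHi (Filter.Eventually.of_forall hH0)
  have h2 : ‖∫ t in Iᶜ, G t‖ ≤ 16 / ((n : ℝ) * b) * Real.exp (-((n : ℝ) * b / 64)) := by
    calc ‖∫ t in Iᶜ, G t‖ ≤ ∫ t in Iᶜ, ‖G t‖ := norm_integral_le_integral_norm _
      _ = ∫ t in Iᶜ, Real.exp (-c * t ^ 2) := by simp_rw [hGn]
      _ ≤ 4 / c * Real.exp (-(c / 16)) := tail_gauss hc0
      _ = 16 / ((n : ℝ) * b) * Real.exp (-((n : ℝ) * b / 64)) := by
          have e1 : 4 / c = 16 / ((n : ℝ) * b) := by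
            rw [hc]
            field_simp
            ring
          have e2 : -(c / 16) = -((n : ℝ) * b / 64) := by
            rw [hc]
            ring
          rw [e1, e2]
  calc ‖(∫ t in I, (F t - G t)) - ∫ t in Iᶜ, G t‖
      ≤ ‖∫ t in I, (F t - G t)‖ + ‖∫ t in Iᶜ, G t‖ := norm_sub_le _ _
    _ ≤ _ := by
        rw [hHint] at h1
        exact add_le_add h1 h2

end ST3
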