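import Mathlib

/-!
# ST-L5: the numerical inequality

All terms multiplied by `sqrt(n b'/(4 pi))`, `b' <= (7/5) b` (case 1), `b' <= (6/5) b` (case 2); the sum
is at most `.8156` (case 1, attained at `n = 1000`, `b = .55`), `.5106` (case 2, `b = .49`).
PROOF in case 1, `C = 911/5000`: `b - C >= b (1 - C/.55) = .66872 b`.
* first term: `(1/3) sqrt(7/5) <= .39442`;
* second: `(4/3) e^{7/32} <= 1.6595`; `sqrt b (16 C/(b-C)^2 + 3.5/(b-C)) <= 16 C/(.66872^2 b^{1.5}) +
  3.5/(.66872 b^{.5}) <= 15.99 + 7.06 = 23.05`; times `sqrt(1.4/(4 pi n)) <= .010556` (`n = 1000`): `<= .4038`;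
* third: `(16/(n b)) sqrt(1.4 n b/(4 pi)) e^{-n b/64} <= .001`;
* fourth: `(8/3) e^{.35}/(.026 n) sqrt(1.4 n b/(4 pi)) e^{-.66872 n b/64} <= .0038` (decreasing in `n b`);
* fifth: `2 sqrt(2 pi) n^{3/4} e^{.2}/(n/25 - 1/2) * sqrt(1.4 n b/(4 pi)) *
  e^{-n (.66872 b/64 + .0039)} <= .0141` (at `n = 1000`; `n^{3/4} sqrt(n)/(n/25-1/2) <=
  (1000/39.5) n^{1/4}`, and `n^{1/4} e^{-.0096 n}` is decreasing, use
  `n^{1/4} <= n^{1/4}...`, e.g. `n^{3/4} <= n/1000^{1/4}` and `x e^{-c x}` is decreasing for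
  `x >= 1/c`, or `e^{-c n} = e^{-1000c} e^{-c(n-1000)} <= e^{-1000 c}/(1 + c (n - 1000))`).
Case 2 (`C = 261/5000`): `b - C >= .89346 b`: `(1/3) sqrt(6/5) <= .3652`; second
`<= 1.6595 * (.8352/(.79827*.343) + 3.5/(.89346*.7)) * .009773 <= .1407`; the others are smaller than
in case 1 (at `b = .49` the exponent is `.89346*.49 = .4378 >= .66872*.55 = .3678`).
-/

namespace ST3

private theorem e732 : Real.exp (7 / 32) ≤ 12447 / 10000 := by
  have h := Real.exp_bound' (show (0 : ℝ) ≤ 7 / 32 by norm_num) (by norm_num) (n := 5) (by norm_num)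
  simp only [Finset.sum_range_succ, Finset.sum_range_zero, Nat.factorial] at h
  norm_num at h
  linarith

private theorem e720 : Real.exp (7 / 20) ≤ 142 / 100 := by
  have h := Real.exp_bound' (show (0 : ℝ) ≤ 7 / 20 by norm_num) (by norm_num) (n := 5) (by norm_num)
  simp only [Finset.sum_range_succ, Finset.sum_range_zero, Nat.factorial] at h
  norm_num at h
  linarith

private theorem e15 : Real.exp (1 / 5) ≤ 12215 / 10000 := by
  have h := Real.exp_bound' (show (0 : ℝ) ≤ 1 / 5 by norm_num) (by norm_num) (n := 5) (by norm_num)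
  simp only [Finset.sum_range_succ, Finset.sum_range_zero, Nat.factorial] at h
  norm_num at h
  linarith

private theorem e39 {y : ℝ} (hy : 39 / 10 ≤ y) : Real.exp (-y) ≤ 21 / 1000 := by
  have h1 : Real.exp (39 / 10) = Real.exp 1 ^ 3 * Real.exp (9 / 10) := by
    rw [← Real.exp_nat_mul, ← Real.exp_add]
    norm_num
  have h2 : (2.45 : ℝ) ≤ Real.exp (9 / 10) := by
    have h3 := Real.sum_le_exp_of_nonneg (show (0 : ℝ) ≤ 9 / 10 by norm_num) 5
    simp only [Finset.sum_range_succ, Finset.sum_range_zero, Nat.factorial] at h3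
    norm_num at h3
    norm_num
    linarith
  have h3 : (2.718 : ℝ) ^ 3 ≤ Real.exp 1 ^ 3 := by
    have := Real.exp_one_gt_d9
    exact pow_le_pow_left₀ (by norm_num) (by linarith) 3
  have h4 : (48 : ℝ) ≤ Real.exp (39 / 10) := by
    rw [h1]
    calc (48 : ℝ) ≤ 2.718 ^ 3 * 2.45 := by norm_num
      _ ≤ _ := mul_le_mul h3 h2 (by norm_num) (by positivity)
  have h5 : Real.exp (39 / 10) ≤ Real.exp y := Real.exp_le_exp.mpr hy
  rw [Real.exp_neg, inv_eq_one_div, div_le_iff₀ (Real.exp_pos _)]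
  linarith

private theorem e7 {y : ℝ} (hy : 7 ≤ y) : Real.exp (-y) ≤ 1 / 1000 := by
  have h1 : Real.exp 7 = Real.exp 1 ^ 7 := by
    rw [← Real.exp_nat_mul]
    norm_num
  have h3 : (2.718 : ℝ) ^ 7 ≤ Real.exp 1 ^ 7 := by
    have := Real.exp_one_gt_d9
    exact pow_le_pow_left₀ (by norm_num) (by linarith) 7
  have h4 : (1000 : ℝ) ≤ Real.exp 7 := by
    rw [h1]
    refine le_trans ?_ h3
    norm_num
  have h5 : Real.exp 7 ≤ Real.exp y := Real.exp_le_exp.mpr hy
  rw [Real.exp_neg, inv_eq_one_div, div_le_iff₀ (Real.exp_pos _)]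
  linarith

private theorem eW {x w : ℝ} (hw : 2213 / 100 ≤ w) (hx : 104 / 10000 * w ^ 2 ≤ x) :
    Real.exp (-x) * w ≤ 56 / 100 := by
  have hx0 : 0 ≤ x := by nlinarith
  have h1 : 1 + x + x ^ 2 / 2 + x ^ 3 / 6 ≤ Real.exp x := by
    have h3 := Real.sum_le_exp_of_nonneg hx0 4
    simp only [Finset.sum_range_succ, Finset.sum_range_zero, Nat.factorial] at h3
    norm_num at h3
    linarith
  have h2 : 23 / 100 * w ≤ x := by nlinarith
  have h3 : 509 / 100 ≤ x := by nlinarith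
  have h4 : w ≤ 56 / 100 * Real.exp x := by
    have h5 : 509 / 100 * x ≤ x ^ 2 := by nlinarith
    have h6 : 259 / 10 * x ≤ x ^ 3 := by
      have h7 : (509 / 100) ^ 2 * x ≤ x ^ 2 * x := by
        apply mul_le_mul_of_nonneg_right _ hx0
        exact pow_le_pow_left₀ (by norm_num) h3 2
      nlinarith
    linarith
  rw [Real.exp_neg, inv_mul_eq_div, div_le_iff₀ (Real.exp_pos _)]
  exact h4

private theorem n34 {N : ℝ} (hN : 1000 ≤ N) : N ^ (3 / 4 : ℝ) ≤ N / (562 / 100) := by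
  have hN0 : 0 < N := by linarith
  have h1 : N ^ (3 / 4 : ℝ) * N ^ (1 / 4 : ℝ) = N := by
    rw [← Real.rpow_add hN0]
    norm_num
  have h2 : (N ^ (1 / 4 : ℝ)) ^ 4 = N := by
    rw [← Real.rpow_natCast, ← Real.rpow_mul hN0.le]
    norm_num
  have h3 : 562 / 100 ≤ N ^ (1 / 4 : ℝ) := by
    by_contra hcon
    push Not at hcon
    have h4 : (N ^ (1 / 4 : ℝ)) ^ 4 < (562 / 100) ^ 4 :=
      pow_lt_pow_left₀ hcon (Real.rpow_nonneg hN0.le _) (by norm_num)
    rw [h2] at h4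
    norm_num at h4
    linarith
  rw [le_div_iff₀ (by norm_num)]
  have h4 : 0 ≤ N ^ (3 / 4 : ℝ) := Real.rpow_nonneg hN0.le _
  nlinarith

theorem lap_numeric (n : ℕ) (hn : 1000 ≤ n) (b b' C : ℝ)
    (h : (11 / 20 ≤ b ∧ b' ≤ 7 / 5 * b ∧ C = 911 / 5000) ∨
      (49 / 100 ≤ b ∧ b' ≤ 6 / 5 * b ∧ C = 261 / 5000)) (hb' : b ≤ b') :
    1 / 3 * Real.sqrt (4 * Real.pi / ((n : ℝ) * b)) +
      4 / 3 * Real.exp (7 / 32) / (n : ℝ) * (16 * C / (b - C) ^ 2 + 7 / 2 / (b - C)) +
      16 / ((n : ℝ) * b) * Real.exp (-((n : ℝ) * b / 64)) +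
      2 * (4 / 3 * Real.exp (7 / 20) * Real.exp (-((n : ℝ) * (b - C) / 64)) /
        (13 / 500 * (n : ℝ))) +
      2 * (Real.sqrt (2 * Real.pi) * (n : ℝ) ^ (3 / 4 : ℝ) * Real.exp (1 / 5) *
        Real.exp (-((n : ℝ) * ((b - C) / 64 + 39 / 10000))) / ((n : ℝ) / 25 - 1 / 2)) <
    Real.sqrt (4 * Real.pi / ((n : ℝ) * b')) := by
  have hN : (1000 : ℝ) ≤ n := by exact_mod_cast hn
  set N : ℝ := (n : ℝ) with hNdef
  have hN0 : 0 < N := by linarith
  have hpi1 := Real.pi_gt_d2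
  have hpi2 := Real.pi_lt_d4
  have hpi0 := Real.pi_pos
  have hb : 49 / 100 ≤ b := by
    rcases h with ⟨h1, _⟩ | ⟨h1, _⟩ <;> linarith
  have hb0 : 0 < b := by linarith
  have hb'0 : 0 < b' := by linarith
  have hb2 : b' ≤ 7 / 5 * b := by
    rcases h with ⟨_, h1, _⟩ | ⟨_, h1, _⟩ <;> linarith
  have hC0 : 0 < C := by
    rcases h with ⟨_, _, h1⟩ | ⟨_, _, h1⟩ <;> rw [h1] <;> norm_num
  have hC : 66872 / 100000 * b ≤ b - C := by
    rcases h with ⟨h0, _, h1⟩ | ⟨h0, _, h1⟩ <;> rw [h1] <;> linarith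
  have hbC : 0 < b - C := by linarith
  set r := Real.sqrt b with hr
  set ν := Real.sqrt N with hν
  have hr2 : r ^ 2 = b := Real.sq_sqrt hb0.le
  have hν2 : ν ^ 2 = N := Real.sq_sqrt hN0.le
  have hr0 : 0 < r := Real.sqrt_pos.mpr hb0
  have hν0 : 0 < ν := Real.sqrt_pos.mpr hN0
  have hν1 : 3162 / 100 ≤ ν := by
    apply Real.le_sqrt_of_sq_le
    norm_num
    linarith
  set w := r * ν with hw
  have hw0 : 0 < w := by positivity
  have hw2 : w ^ 2 = N * b := by
    rw [hw, mul_pow, hr2, hν2, mul_comm]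
  have hNb : 490 ≤ N * b := by nlinarith
  have hw1 : 2213 / 100 ≤ w := by
    by_contra hcon
    push Not at hcon
    have : w ^ 2 < (2213 / 100) ^ 2 := pow_lt_pow_left₀ hcon hw0.le (by norm_num)
    rw [hw2] at this
    norm_num at this
    linarith
  set s := Real.sqrt (4 * Real.pi / (N * b)) with hs
  set X := Real.sqrt (4 * Real.pi / (N * b')) with hX
  have hX0 : 0 < X := Real.sqrt_pos.mpr (by positivity)
  have hsw : 354 / 100 / w ≤ s := by
    apply Real.le_sqrt_of_sq_le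
    rw [div_pow, hw2]
    apply div_le_div_of_nonneg_right _ (by positivity)
    norm_num
    linarith
  have hsX : s ≤ 11833 / 10000 * X := by
    apply Real.sqrt_le_iff.mpr
    refine ⟨by positivity, ?_⟩
    rw [mul_pow, Real.sq_sqrt (by positivity), mul_div_assoc', div_le_div_iff₀ (by positivity)
      (by positivity)]
    have h1 : N * b' ≤ (11833 / 10000) ^ 2 * (N * b) := by
      have : b' ≤ (11833 / 10000) ^ 2 * b := by
        norm_num
        linarith
      nlinarith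
    nlinarith
  have hs0 : 0 < s := lt_of_lt_of_le (by positivity) hsw
  -- the second term
  have hΦ : (16 * C / (b - C) ^ 2 + 7 / 2 / (b - C)) * r ≤ 231 / 10 := by
    have e1 : 16 * C / (b - C) ^ 2 * r ≤ 16 * C / (66872 / 100000) ^ 2 * (1 / r) ^ 3 := by
      have e2 : 16 * C / (b - C) ^ 2 ≤ 16 * C / (66872 / 100000 * r ^ 2) ^ 2 := by
        rw [hr2]
        gcongr
      calc 16 * C / (b - C) ^ 2 * r ≤ 16 * C / (66872 / 100000 * r ^ 2) ^ 2 * r := by gcongr
        _ = _ := by field_simp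
    have e3 : 7 / 2 / (b - C) * r ≤ 7 / 2 / (66872 / 100000) * (1 / r) := by
      have e2 : 7 / 2 / (b - C) ≤ 7 / 2 / (66872 / 100000 * r ^ 2) := by
        rw [hr2]
        gcongr
      calc 7 / 2 / (b - C) * r ≤ 7 / 2 / (66872 / 100000 * r ^ 2) * r := by gcongr
        _ = _ := by field_simp
    rw [add_mul]
    rcases h with ⟨h0, _, h1⟩ | ⟨h0, _, h1⟩
    · have e4 : 7416 / 10000 ≤ r := by
        apply Real.le_sqrt_of_sq_le
        norm_num
        linarith
      have e5 : 1 / r ≤ 134844 / 100000 := by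
        rw [div_le_iff₀ hr0]
        linarith
      have e6 : (1 / r) ^ 3 ≤ (134844 / 100000) ^ 3 :=
        pow_le_pow_left₀ (by positivity) e5 3
      rw [h1] at e1 e3 ⊢
      norm_num at e1 e3 e5 e6 ⊢
      linarith
    · have e4 : 7 / 10 ≤ r := by
        apply Real.le_sqrt_of_sq_le
        norm_num
        linarith
      have e5 : 1 / r ≤ 142858 / 100000 := by
        rw [div_le_iff₀ hr0]
        linarith
      have e6 : (1 / r) ^ 3 ≤ (142858 / 100000) ^ 3 :=
        pow_le_pow_left₀ (by positivity) e5 3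
      rw [h1] at e1 e3 ⊢
      norm_num at e1 e3 e5 e6 ⊢
      linarith
  set Φ := 16 * C / (b - C) ^ 2 + 7 / 2 / (b - C) with hΦdef
  have hΦ0 : 0 < Φ := by positivity
  have hT2 : 4 / 3 * Real.exp (7 / 32) / N * Φ ≤ 36 / 100 * s := by
    refine le_trans ?_ (mul_le_mul_of_nonneg_left hsw (by norm_num))
    rw [show (36 / 100 * (354 / 100 / w) : ℝ) = 36 / 100 * (354 / 100) / w by ring, le_div_iff₀ hw0]
    have e1 : 4 / 3 * Real.exp (7 / 32) / N * Φ * w =
        4 / 3 * Real.exp (7 / 32) * (Φ * r) / ν := by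
      rw [← hν2, hw]
      field_simp
    rw [e1, div_le_iff₀ hν0]
    have e2 : Real.exp (7 / 32) * (Φ * r) ≤ 12447 / 10000 * (231 / 10) :=
      mul_le_mul e732 hΦ (by positivity) (by norm_num)
    nlinarith
  -- the third term
  have hT3 : 16 / (N * b) * Real.exp (-(N * b / 64)) ≤ 1 / 1000 * s := by
    refine le_trans ?_ (mul_le_mul_of_nonneg_left hsw (by norm_num))
    rw [show (1 / 1000 * (354 / 100 / w) : ℝ) = 1 / 1000 * (354 / 100) / w by ring, le_div_iff₀ hw0]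
    have e1 : Real.exp (-(N * b / 64)) ≤ 1 / 1000 := e7 (by linarith)
    have e2 : 16 / (N * b) * Real.exp (-(N * b / 64)) * w =
        16 * Real.exp (-(N * b / 64)) / w := by
      rw [← hw2]
      field_simp
    rw [e2, div_le_iff₀ hw0]
    nlinarith
  -- the fourth term
  have hF : Real.exp (-(N * (b - C) / 64)) * w ≤ 56 / 100 := by
    apply eW hw1
    rw [hw2]
    nlinarith
  set F := Real.exp (-(N * (b - C) / 64)) with hFdef
  have hF0 : 0 < F := Real.exp_pos _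
  have hT4 : 2 * (4 / 3 * Real.exp (7 / 20) * F / (13 / 500 * N)) ≤ 3 / 100 * s := by
    refine le_trans ?_ (mul_le_mul_of_nonneg_left hsw (by norm_num))
    rw [show (3 / 100 * (354 / 100 / w) : ℝ) = 3 / 100 * (354 / 100) / w by ring, le_div_iff₀ hw0]
    have e1 : 2 * (4 / 3 * Real.exp (7 / 20) * F / (13 / 500 * N)) * w =
        2 * (4 / 3) * (Real.exp (7 / 20) * (F * w)) / (13 / 500 * N) := by ring
    rw [e1, div_le_iff₀ (by positivity)]
    have e2 : Real.exp (7 / 20) * (F * w) ≤ 142 / 100 * (56 / 100) :=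
      mul_le_mul e720 hF (by positivity) (by norm_num)
    nlinarith
  -- the fifth term
  have hT5 : 2 * (Real.sqrt (2 * Real.pi) * N ^ (3 / 4 : ℝ) * Real.exp (1 / 5) *
        Real.exp (-(N * ((b - C) / 64 + 39 / 10000))) / (N / 25 - 1 / 2)) ≤ 1 / 10 * s := by
    refine le_trans ?_ (mul_le_mul_of_nonneg_left hsw (by norm_num))
    rw [show (1 / 10 * (354 / 100 / w) : ℝ) = 1 / 10 * (354 / 100) / w by ring, le_div_iff₀ hw0]
    have e1 : Real.exp (-(N * ((b - C) / 64 + 39 / 10000))) =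
        F * Real.exp (-(39 / 10000 * N)) := by
      rw [hFdef, ← Real.exp_add]
      congr 1
      ring
    have e2 : Real.exp (-(39 / 10000 * N)) ≤ 21 / 1000 := e39 (by linarith)
    have e3 : Real.sqrt (2 * Real.pi) ≤ 25067 / 10000 := by
      rw [Real.sqrt_le_left (by norm_num)]
      norm_num
      linarith
    have e4 : 395 / 10000 * N ≤ N / 25 - 1 / 2 := by linarith
    have e5 := n34 hN
    have e6 : 0 < N / 25 - 1 / 2 := by linarith
    rw [e1]
    have e7 : 2 * (Real.sqrt (2 * Real.pi) * N ^ (3 / 4 : ℝ) * Real.exp (1 / 5) *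
        (F * Real.exp (-(39 / 10000 * N))) / (N / 25 - 1 / 2)) * w =
        2 * (Real.sqrt (2 * Real.pi) * N ^ (3 / 4 : ℝ) * Real.exp (1 / 5) *
        ((F * w) * Real.exp (-(39 / 10000 * N)))) / (N / 25 - 1 / 2) := by ring
    rw [e7, div_le_iff₀ e6]
    have hn34 : 0 ≤ N ^ (3 / 4 : ℝ) := Real.rpow_nonneg hN0.le _
    have e8 : Real.sqrt (2 * Real.pi) * N ^ (3 / 4 : ℝ) * Real.exp (1 / 5) *
        ((F * w) * Real.exp (-(39 / 10000 * N))) ≤
        25067 / 10000 * (N / (562 / 100)) * (12215 / 10000) * (56 / 100 * (21 / 1000)) := by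
      have := e15
      gcongr
    nlinarith
  have hsum : 1 / 3 * s + 4 / 3 * Real.exp (7 / 32) / N * Φ +
      16 / (N * b) * Real.exp (-(N * b / 64)) +
      2 * (4 / 3 * Real.exp (7 / 20) * F / (13 / 500 * N)) +
      2 * (Real.sqrt (2 * Real.pi) * N ^ (3 / 4 : ℝ) * Real.exp (1 / 5) *
        Real.exp (-(N * ((b - C) / 64 + 39 / 10000))) / (N / 25 - 1 / 2)) ≤
      8244 / 10000 * s := by
    linarith
  refine lt_of_le_of_lt hsum ?_
  linarith

end ST3
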