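import Pool.Agent.Helper2.ST.L2

/-!
# ST-L6: the tails of the Laplace integral

PROOFS. For `t >= 1/4` (and `-t`): `|e^{nB + t/2} j|`.
* `1/4 <= |t| <= 2/5`: `|j| <= (4/3) e^{(3/8)|t|}`, `Re B(t) <= -(b-C)/64 - (13/500)(|t| - 1/4)`
  (`Re B(+-1/4) <= -b/64 + C/64` from the cubic bound), `e^{(3/8)|t| + t/2} <= e^{7/20}`;
  `int_{1/4}^{2/5} e^{-(13/500) n (t-1/4)} dt <= 1/((13/500) n)`.
* `|t| >= 2/5`: `Re B(+-2/5) <= -(b-C)/64 - (13/500)(3/20) = -(b-C)/64 - 39/10000`,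
  `Re B(t) <= Re B(+-2/5) - (1/25)(|t| - 2/5)`, `e^{t/2} <= e^{1/5} e^{(|t|-2/5)/2}`,
  `|j| <= Jmax`; the integral of `e^{-(n/25 - 1/2)(t - 2/5)}` over `t >= 2/5` is `1/(n/25 - 1/2)`.
-/

namespace ST3

open Complex MeasureTheory

private lemma l6_exp {a c : ℝ} (ha : 0 < a) :
    IntegrableOn (fun t : ℝ => Real.exp (-(a * (t - c)))) (Set.Ioi c) ∧
      ∫ t in Set.Ioi c, Real.exp (-(a * (t - c))) = 1 / a := by
  have e : (fun t : ℝ => Real.exp (-(a * (t - c)))) =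
      fun t : ℝ => Real.exp (a * c) * Real.exp (-a * t) := by
    funext t
    rw [← Real.exp_add]
    congr 1
    ring
  rw [e]
  refine ⟨(integrableOn_exp_mul_Ioi (by linarith) c).const_mul _, ?_⟩
  rw [integral_const_mul, integral_exp_mul_Ioi (by linarith)]
  have h1 : Real.exp (a * c) * Real.exp (-a * c) = 1 := by
    rw [← Real.exp_add, show a * c + -a * c = 0 by ring, Real.exp_zero]
  calc Real.exp (a * c) * (-Real.exp (-a * c) / -a) =
        (Real.exp (a * c) * Real.exp (-a * c)) / a := by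
        field_simp
    _ = 1 / a := by rw [h1]

private lemma l6_tail {F : ℝ → ℂ} (hF : Continuous F) {c d K1 K2 a1 a2 : ℝ} (hcd : c ≤ d)
    (ha1 : 0 < a1) (ha2 : 0 < a2) (hK1 : 0 ≤ K1)
    (h1 : ∀ t, c ≤ t → t ≤ d → ‖F t‖ ≤ K1 * Real.exp (-(a1 * (t - c))))
    (h2 : ∀ t, d ≤ t → ‖F t‖ ≤ K2 * Real.exp (-(a2 * (t - d)))) :
    IntegrableOn F (Set.Ioi c) ∧ ‖∫ t in Set.Ioi c, F t‖ ≤ K1 / a1 + K2 / a2 := by
  obtain ⟨hi1, he1⟩ := l6_exp (c := c) ha1
  obtain ⟨hi2, he2⟩ := l6_exp (c := d) ha2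
  have hi1' : IntegrableOn (fun t => K1 * Real.exp (-(a1 * (t - c)))) (Set.Ioi c) :=
    hi1.const_mul K1
  have hi2' : IntegrableOn (fun t => K2 * Real.exp (-(a2 * (t - d)))) (Set.Ioi d) :=
    hi2.const_mul K2
  have hFd : IntegrableOn F (Set.Ioi d) := by
    refine Integrable.mono' hi2' hF.aestronglyMeasurable ?_
    exact (ae_restrict_iff' measurableSet_Ioi).mpr (Filter.Eventually.of_forall fun t ht =>
      h2 t (le_of_lt ht))
  have hFc : IntegrableOn F (Set.Ioc c d) :=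
    (hF.integrableOn_Icc).mono_set Set.Ioc_subset_Icc_self
  have hun : Set.Ioi c = Set.Ioc c d ∪ Set.Ioi d := (Set.Ioc_union_Ioi_eq_Ioi hcd).symm
  have hFi : IntegrableOn F (Set.Ioi c) := by
    rw [hun]
    exact hFc.union hFd
  refine ⟨hFi, ?_⟩
  have hsplit : ∫ t in Set.Ioi c, F t = (∫ t in Set.Ioc c d, F t) + ∫ t in Set.Ioi d, F t := by
    rw [hun]
    refine setIntegral_union ?_ measurableSet_Ioi hFc hFd
    rw [Set.disjoint_left]
    intro x hx hx'
    exact absurd hx.2 (not_le.mpr hx')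
  have hn1 : ‖∫ t in Set.Ioc c d, F t‖ ≤ K1 / a1 := by
    calc ‖∫ t in Set.Ioc c d, F t‖ ≤ ∫ t in Set.Ioc c d, K1 * Real.exp (-(a1 * (t - c))) := by
          refine norm_integral_le_of_norm_le
            (hi1'.mono_set (fun x hx => hx.1)) ?_
          exact (ae_restrict_iff' measurableSet_Ioc).mpr (Filter.Eventually.of_forall fun t ht =>
            h1 t (le_of_lt ht.1) ht.2)
      _ ≤ ∫ t in Set.Ioi c, K1 * Real.exp (-(a1 * (t - c))) := by
          refine setIntegral_mono_set hi1' ?_ ?_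
          · exact Filter.Eventually.of_forall fun t => by
              show 0 ≤ K1 * Real.exp (-(a1 * (t - c)))
              positivity
          · exact Filter.Eventually.of_forall fun t ht => ht.1
      _ = K1 / a1 := by
          rw [integral_const_mul, he1]
          ring
  have hn2 : ‖∫ t in Set.Ioi d, F t‖ ≤ K2 / a2 := by
    calc ‖∫ t in Set.Ioi d, F t‖ ≤ ∫ t in Set.Ioi d, K2 * Real.exp (-(a2 * (t - d))) := by
          refine norm_integral_le_of_norm_le hi2' ?_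
          exact (ae_restrict_iff' measurableSet_Ioi).mpr (Filter.Eventually.of_forall fun t ht =>
            h2 t (le_of_lt ht))
      _ = K2 / a2 := by
          rw [integral_const_mul, he2]
          ring
  rw [hsplit]
  exact (norm_add_le _ _).trans (add_le_add hn1 hn2)

theorem lap_tails (n : ℕ) (hn : 1000 ≤ n) (V V' B j : ℝ → ℂ) (hV : ∀ t, HasDerivAt V (V' t) t)
    (h1 : ∀ t, ‖V' t‖ ≤ 13 / 50 * ‖V t‖) (h2 : ∀ t, |(V t).im| ≤ 393 / 1000 * (V t).re)
    (h3 : ∀ t, 1 ≤ (V t).re)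
    (hB : ∀ t, HasDerivAt B ((V t - V 0 * exp ((t : ℂ) / 2)) / 2) t)
    (hjc : Continuous j) (b C Jmax : ℝ)
    (hb1 : (B (1 / 4)).re ≤ -((b - C) / 64)) (hb2 : (B (-(1 / 4))).re ≤ -((b - C) / 64))
    (hj1 : ∀ t : ℝ, |t| ≤ 2 / 5 → ‖j t‖ ≤ 4 / 3 * Real.exp (3 / 8 * |t|))
    (hj2 : ∀ t : ℝ, ‖j t‖ ≤ Jmax) :
    Integrable (fun t : ℝ => exp ((n : ℂ) * B t + (t : ℂ) / 2) * j t) ∧
    ‖(∫ t : ℝ, exp ((n : ℂ) * B t + (t : ℂ) / 2) * j t) -
        ∫ t in (-(1 / 4) : ℝ)..(1 / 4), exp ((n : ℂ) * B t + (t : ℂ) / 2) * j t‖ ≤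
      2 * (4 / 3 * Real.exp (7 / 20) * Real.exp (-((n : ℝ) * (b - C) / 64)) /
        (13 / 500 * (n : ℝ))) +
      2 * (Jmax * Real.exp (1 / 5) *
        Real.exp (-((n : ℝ) * ((b - C) / 64 + 39 / 10000))) / ((n : ℝ) / 25 - 1 / 2)) := by
  have hn' : (1000 : ℝ) ≤ n := by exact_mod_cast hn
  have hn0 : (0 : ℝ) < n := by linarith
  obtain ⟨d1, d2, d3, d4⟩ := lap_decay V V' B hV h1 h2 h3 hB
  have hBc : Continuous B := continuous_iff_continuousAt.mpr fun t => (hB t).continuousAt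
  obtain ⟨F, hF⟩ : ∃ F : ℝ → ℂ, F = fun t : ℝ => exp ((n : ℂ) * B t + (t : ℂ) / 2) * j t := ⟨_, rfl⟩
  have hFc : Continuous F := by
    rw [hF]
    refine Continuous.mul ?_ hjc
    refine Complex.continuous_exp.comp ?_
    exact (continuous_const.mul hBc).add (Complex.continuous_ofReal.div_const _)
  have hnorm : ∀ t, ‖F t‖ = Real.exp ((n : ℝ) * (B t).re + t / 2) * ‖j t‖ := by
    intro t
    rw [hF]
    simp only
    rw [norm_mul, Complex.norm_exp]
    congr 2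
    have e1 : ((n : ℂ) * B t).re = (n : ℝ) * (B t).re := by
      rw [← Complex.ofReal_natCast, Complex.re_ofReal_mul]
    have e2 : ((t : ℂ) / 2).re = t / 2 := by
      rw [show ((t : ℂ) / 2) = ((t / 2 : ℝ) : ℂ) by push_cast; ring, Complex.ofReal_re]
    rw [Complex.add_re, e1, e2]
  have hJ0 : 0 ≤ Jmax := (norm_nonneg _).trans (hj2 0)
  obtain ⟨K1, hK1⟩ : ∃ K1 : ℝ, K1 = 4 / 3 * Real.exp (7 / 20) *
    Real.exp (-((n : ℝ) * (b - C) / 64)) := ⟨_, rfl⟩
  obtain ⟨K2, hK2⟩ : ∃ K2 : ℝ, K2 = Jmax * Real.exp (1 / 5) *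
    Real.exp (-((n : ℝ) * ((b - C) / 64 + 39 / 10000))) := ⟨_, rfl⟩
  have hK10 : 0 ≤ K1 := by
    rw [hK1]
    positivity
  have hK20 : 0 ≤ K2 := by
    rw [hK2]
    positivity
  -- a general bound: if `(B s).re` decays and `s / 2 ≤ t / 2`
  have gen1 : ∀ t s : ℝ, 1 / 4 ≤ t → t ≤ 2 / 5 → |s| = t → s ≤ t →
      (B s).re ≤ -((b - C) / 64) - 13 / 500 * (t - 1 / 4) →
      ‖F s‖ ≤ K1 * Real.exp (-(13 / 500 * (n : ℝ) * (t - 1 / 4))) := by
    intro t s ht1 ht2 hs hst hBs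
    rw [hnorm]
    have hj := hj1 s (by rw [hs]; exact ht2)
    rw [hs] at hj
    calc Real.exp ((n : ℝ) * (B s).re + s / 2) * ‖j s‖
        ≤ Real.exp ((n : ℝ) * (-((b - C) / 64) - 13 / 500 * (t - 1 / 4)) + t / 2) *
          (4 / 3 * Real.exp (3 / 8 * t)) := by
          refine mul_le_mul ?_ hj (norm_nonneg _) (Real.exp_pos _).le
          apply Real.exp_le_exp.mpr
          have := mul_le_mul_of_nonneg_left hBs hn0.le
          linarith
      _ = 4 / 3 * Real.exp ((n : ℝ) * (-((b - C) / 64) - 13 / 500 * (t - 1 / 4)) + t / 2 +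
          3 / 8 * t) := by
          rw [Real.exp_add (_ + _) (3 / 8 * t)]
          ring
      _ ≤ 4 / 3 * Real.exp (7 / 20 + -((n : ℝ) * (b - C) / 64) +
          -(13 / 500 * (n : ℝ) * (t - 1 / 4))) := by
          refine mul_le_mul_of_nonneg_left ?_ (by norm_num)
          apply Real.exp_le_exp.mpr
          linarith
      _ = K1 * Real.exp (-(13 / 500 * (n : ℝ) * (t - 1 / 4))) := by
          rw [hK1, Real.exp_add, Real.exp_add]
          ring
  have gen2 : ∀ t s : ℝ, 2 / 5 ≤ t → s ≤ t →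
      (B s).re ≤ -((b - C) / 64 + 39 / 10000) - 1 / 25 * (t - 2 / 5) →
      ‖F s‖ ≤ K2 * Real.exp (-(((n : ℝ) / 25 - 1 / 2) * (t - 2 / 5))) := by
    intro t s ht hst hBs
    rw [hnorm]
    calc Real.exp ((n : ℝ) * (B s).re + s / 2) * ‖j s‖
        ≤ Real.exp ((n : ℝ) * (-((b - C) / 64 + 39 / 10000) - 1 / 25 * (t - 2 / 5)) + t / 2) *
          Jmax := by
          refine mul_le_mul ?_ (hj2 s) (norm_nonneg _) (Real.exp_pos _).le
          apply Real.exp_le_exp.mpr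
          have := mul_le_mul_of_nonneg_left hBs hn0.le
          linarith
      _ = Jmax * Real.exp (1 / 5 + -((n : ℝ) * ((b - C) / 64 + 39 / 10000)) +
          -(((n : ℝ) / 25 - 1 / 2) * (t - 2 / 5))) := by
          rw [mul_comm]
          congr 2
          ring
      _ = K2 * Real.exp (-(((n : ℝ) / 25 - 1 / 2) * (t - 2 / 5))) := by
          rw [hK2, Real.exp_add, Real.exp_add]
          ring
  have ha1 : 0 < 13 / 500 * (n : ℝ) := by positivity
  have ha2 : 0 < (n : ℝ) / 25 - 1 / 2 := by linarith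
  have hB1 : (B (2 / 5)).re ≤ -((b - C) / 64 + 39 / 10000) := by
    have := d1 (2 / 5) (by norm_num)
    linarith
  have hB2 : (B (-(2 / 5))).re ≤ -((b - C) / 64 + 39 / 10000) := by
    have := d3 (2 / 5) (by norm_num)
    linarith
  obtain ⟨hR, hRn⟩ := l6_tail hFc (c := 1 / 4) (d := 2 / 5) (K1 := K1) (K2 := K2) (by norm_num)
    ha1 ha2 hK10
    (fun t ht1 ht2 => gen1 t t ht1 ht2 (abs_of_nonneg (by linarith)) le_rfl (by
      have := d1 t ht1
      linarith))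
    (fun t ht => gen2 t t ht le_rfl (by
      have := d2 t ht
      linarith))
  obtain ⟨hL, hLn⟩ := l6_tail (F := fun t => F (-t)) (hFc.comp continuous_neg) (c := 1 / 4)
    (d := 2 / 5) (K1 := K1) (K2 := K2) (by norm_num) ha1 ha2 hK10
    (fun t ht1 ht2 => gen1 t (-t) ht1 ht2 (by rw [abs_neg]; exact abs_of_nonneg (by linarith))
      (by linarith) (by
      have := d3 t ht1
      linarith))
    (fun t ht => gen2 t (-t) ht (by linarith) (by
      have := d4 t ht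
      linarith))
  have hL' : IntegrableOn F (Set.Iic (-(1 / 4))) ∧
      ∫ t in Set.Iic (-(1 / 4)), F t = ∫ t in Set.Ioi (1 / 4), F (-t) := by
    constructor
    · rw [integrableOn_Iic_iff_integrableOn_Iio]
      have h5 := (Measure.measurePreserving_neg (volume : Measure ℝ)).integrableOn_comp_preimage
        (Homeomorph.neg ℝ).measurableEmbedding (f := F) (s := Set.Iio (-(1 / 4)))
      rw [← h5]
      have h6 : (Neg.neg ⁻¹' Set.Iio (-(1 / 4)) : Set ℝ) = Set.Ioi (1 / 4) := by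
        ext x
        simp
      rw [h6]
      exact hL
    · rw [integral_comp_neg_Ioi]
  have hFi : Integrable F := by
    have hM : IntegrableOn F (Set.Icc (-(1 / 4)) (1 / 4)) := hFc.integrableOn_Icc
    have hU : (Set.univ : Set ℝ) = (Set.Iic (-(1 / 4)) ∪ Set.Icc (-(1 / 4)) (1 / 4)) ∪
        Set.Ioi (1 / 4) := by
      ext x
      simp only [Set.mem_univ, Set.mem_union, Set.mem_Iic, Set.mem_Icc, Set.mem_Ioi, true_iff]
      rcases le_total x (-(1 / 4)) with h | h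
      · exact Or.inl (Or.inl h)
      · rcases le_or_gt x (1 / 4) with h' | h'
        · exact Or.inl (Or.inr ⟨h, h'⟩)
        · exact Or.inr h'
    rw [← integrableOn_univ, hU]
    exact (hL'.1.union hM).union hR
  have hsplit : (∫ t : ℝ, F t) - ∫ t in (-(1 / 4) : ℝ)..(1 / 4), F t =
      (∫ t in Set.Iic (-(1 / 4)), F t) + ∫ t in Set.Ioi (1 / 4), F t := by
    have e1 : (∫ t in Set.Iic (1 / 4), F t) + ∫ t in Set.Ioi (1 / 4), F t = ∫ t : ℝ, F t :=
      intervalIntegral.integral_Iic_add_Ioi hFi.integrableOn hFi.integrableOn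
    have e2 : (∫ t in Set.Iic (1 / 4), F t) - ∫ t in Set.Iic (-(1 / 4)), F t =
        ∫ t in (-(1 / 4) : ℝ)..(1 / 4), F t :=
      intervalIntegral.integral_Iic_sub_Iic hFi.integrableOn hFi.integrableOn
    rw [← e1, ← e2]
    ring
  rw [show (fun t : ℝ => exp ((n : ℂ) * B t + (t : ℂ) / 2) * j t) = F from hF.symm]
  refine ⟨hFi, ?_⟩
  have hgoal : ‖(∫ t : ℝ, F t) - ∫ t in (-(1 / 4) : ℝ)..(1 / 4), F t‖ ≤
      2 * (K1 / (13 / 500 * (n : ℝ))) + 2 * (K2 / ((n : ℝ) / 25 - 1 / 2)) := by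
    rw [hsplit, hL'.2]
    refine (norm_add_le _ _).trans ?_
    linarith
  rw [hK1, hK2] at hgoal
  exact hgoal

end ST3
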