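import Pool.Agent.Helper2.ST.L3
import Pool.Agent.Helper2.ST.L4
import Pool.Agent.Helper2.ST.L5
import Pool.Agent.Helper2.ST.L6

/-!
# ST-L7: the Laplace integral does not vanish

PROOF. Let `j t = Jf t * (2 pi n K(0))^{1/2}`. For `|t| <= 2/5`: `Jf t (2 pi n K(t))^{1/2} = 1 + th(t)`,
`|th| <= 1/3`; `(2 pi n K)^{1/2} = exp((log(2 pi n) + log K)/2)` (`Re K > 0`), so
`j t = exp(lam t) (1 + th t)` with `lam t = -(log K(t) - log K(0))/2`, and `log K` has derivative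
`K'/K` of norm `<= 3/4`, so `|lam t| <= (3/8)|t|`. (For `|t| > 2/5` define `lam`, `th` arbitrarily.)
`|j| <= (2 pi n |K(0)|)^{1/2} <= sqrt(2 pi) n^{3/4}` because `|K(0)| <= sqrt n`. With
`beta = V(0)/2 - V'(0)`, `b = Re beta`, `b' = |beta|`, `C = 911/5000` (case 1; `lap_cubic` with `A = 5/4`,
`W = 33/10` gives `(1.25 + 3.3*.2835)/12 = .18213 <= C`) or `C = 261/5000` (case 2; `A = 1/5`, `W = 3/2`:
`(.2 + 1.5*.2835)/12 = .05211 <= C`). Then `lap_core`, `lap_tails` (`Jmax = sqrt(2 pi) n^{3/4}`;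
`Re B(+-1/4) <= -b/64 + C/64` from the cubic bound) and `lap_numeric`:
`|int - (4 pi/(n beta))^{1/2}| < |(4 pi/(n beta))^{1/2}| = sqrt(4 pi/(n |beta|))`, so the integral with
`j` is not zero, and it is `(2 pi n K(0))^{1/2}` times the integral with `Jf`.
-/

namespace ST3

open Complex MeasureTheory

theorem laplace (n : ℕ) (hn : 1000 ≤ n) (V V' V'' K K' B Jf : ℝ → ℂ)
    (hV : ∀ t, HasDerivAt V (V' t) t) (hV' : ∀ t, HasDerivAt V' (V'' t) t)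
    (h1 : ∀ t, ‖V' t‖ ≤ 13 / 50 * ‖V t‖) (h2 : ∀ t, |(V t).im| ≤ 393 / 1000 * (V t).re)
    (h3 : ∀ t, 1 ≤ (V t).re)
    (hK : ∀ t, HasDerivAt K (K' t) t) (hK' : ∀ t, ‖K' t‖ ≤ 3 / 4 * ‖K t‖)
    (hKre : ∀ t, 0 < (K t).re) (hK0 : ‖K 0‖ ≤ Real.sqrt n)
    (hB : ∀ t, HasDerivAt B ((V t - V 0 * exp ((t : ℂ) / 2)) / 2) t) (hB0 : B 0 = 0)
    (hJc : Continuous Jf) (hJ1 : ∀ t, ‖Jf t‖ ≤ 1)
    (hJ : ∀ t : ℝ, |t| ≤ 2 / 5 →
      ‖Jf t * (2 * (Real.pi : ℂ) * (n : ℂ) * K t) ^ (1 / 2 : ℂ) - 1‖ ≤ 1 / 3)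
    (hcase : (11 / 20 ≤ (V 0 / 2 - V' 0).re ∧ ‖V 0 / 2 - V' 0‖ ≤ 7 / 5 * (V 0 / 2 - V' 0).re ∧
        ‖V 0‖ ≤ 33 / 10 ∧ ∀ t : ℝ, |t| ≤ 1 / 4 → ‖V'' t‖ ≤ 5 / 4) ∨
      (49 / 100 ≤ (V 0 / 2 - V' 0).re ∧ ‖V 0 / 2 - V' 0‖ ≤ 6 / 5 * (V 0 / 2 - V' 0).re ∧
        ‖V 0‖ ≤ 3 / 2 ∧ ∀ t : ℝ, |t| ≤ 1 / 4 → ‖V'' t‖ ≤ 1 / 5)) :
    ∫ t : ℝ, exp ((n : ℂ) * B t + (t : ℂ) / 2) * Jf t ≠ 0 := by
  have hn' : (1000 : ℝ) ≤ n := by exact_mod_cast hn
  have hn0 : (0 : ℝ) < n := by linarith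
  have hpi := Real.pi_pos
  set β : ℂ := V 0 / 2 - V' 0 with hβ
  -- the cubic bound
  obtain ⟨C, hC0, hCb, hcub, hnum⟩ : ∃ C : ℝ, 0 ≤ C ∧ C < β.re ∧
      (∀ t : ℝ, |t| ≤ 1 / 4 → ‖B t + β * (t : ℂ) ^ 2 / 4‖ ≤ C * |t| ^ 3) ∧
      ((11 / 20 ≤ β.re ∧ ‖β‖ ≤ 7 / 5 * β.re ∧ C = 911 / 5000) ∨
      (49 / 100 ≤ β.re ∧ ‖β‖ ≤ 6 / 5 * β.re ∧ C = 261 / 5000)) := by
    rcases hcase with ⟨c1, c2, c3, c4⟩ | ⟨c1, c2, c3, c4⟩
    · refine ⟨911 / 5000, by norm_num, by linarith, fun t ht => ?_, Or.inl ⟨c1, c2, rfl⟩⟩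
      refine (lap_cubic V V' V'' B hV hV' (5 / 4) (33 / 10) c4 c3 hB hB0 ht).trans ?_
      apply mul_le_mul_of_nonneg_right _ (by positivity)
      norm_num
    · refine ⟨261 / 5000, by norm_num, by linarith, fun t ht => ?_, Or.inr ⟨c1, c2, rfl⟩⟩
      refine (lap_cubic V V' V'' B hV hV' (1 / 5) (3 / 2) c4 c3 hB hB0 ht).trans ?_
      apply mul_le_mul_of_nonneg_right _ (by positivity)
      norm_num
  have hKne : ∀ t, K t ≠ 0 := by
    intro t h0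
    have := hKre t
    rw [h0] at this
    simp at this
  have hKslit : ∀ t, K t ∈ slitPlane := fun t => Or.inl (hKre t)
  -- the normalising constant
  have hcp : ∀ t, (2 * (Real.pi : ℂ) * (n : ℂ) * K t) ^ (1 / 2 : ℂ) =
      exp (((Real.log (2 * Real.pi * n) : ℝ) : ℂ) / 2 + log (K t) / 2) := by
    intro t
    have e1 : 2 * (Real.pi : ℂ) * (n : ℂ) * K t = ((2 * Real.pi * n : ℝ) : ℂ) * K t := by
      push_cast
      ring
    have hne : ((2 * Real.pi * n : ℝ) : ℂ) * K t ≠ 0 :=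
      mul_ne_zero (by
        rw [Complex.ofReal_ne_zero]
        positivity) (hKne t)
    rw [e1, Complex.cpow_def_of_ne_zero hne, Complex.log_ofReal_mul (by positivity) (hKne t)]
    congr 1
    ring
  set c0 : ℂ := (2 * (Real.pi : ℂ) * (n : ℂ) * K 0) ^ (1 / 2 : ℂ) with hc0
  set j : ℝ → ℂ := fun t => Jf t * c0 with hj
  set lam : ℝ → ℂ := fun t => -((log (K t) - log (K 0)) / 2) with hlam
  set th : ℝ → ℂ := fun t => Jf t * (2 * (Real.pi : ℂ) * (n : ℂ) * K t) ^ (1 / 2 : ℂ) - 1 with hth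
  have hlamb : ∀ t : ℝ, ‖lam t‖ ≤ 3 / 8 * |t| := by
    intro t
    have hd : ∀ s, HasDerivAt (fun s => log (K s)) (K' s / K s) s := fun s =>
      (hK s).clog_real (hKslit s)
    have h := Convex.norm_image_sub_le_of_norm_deriv_le (f := fun s => log (K s)) (C := 3 / 4)
      (s := Set.univ) (x := 0) (y := t) (fun s _ => (hd s).differentiableAt) (fun s _ => by
        rw [(hd s).deriv, norm_div, div_le_iff₀ (norm_pos_iff.2 (hKne s))]
        exact hK' s) convex_univ (Set.mem_univ _) (Set.mem_univ _)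
    rw [sub_zero, Real.norm_eq_abs] at h
    rw [hlam]
    simp only
    rw [norm_neg, norm_div, Complex.norm_ofNat]
    linarith
  have hjeq : ∀ t, j t = exp (lam t) * (1 + th t) := by
    intro t
    rw [hj, hth]
    simp only
    have e1 : 1 + (Jf t * (2 * (Real.pi : ℂ) * (n : ℂ) * K t) ^ (1 / 2 : ℂ) - 1) =
        Jf t * (2 * (Real.pi : ℂ) * (n : ℂ) * K t) ^ (1 / 2 : ℂ) := by ring
    rw [e1, hc0, hcp t, hcp 0]
    have e2 : exp (lam t) * (Jf t * exp (((Real.log (2 * Real.pi * n) : ℝ) : ℂ) / 2 +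
        log (K t) / 2)) = Jf t * (exp (lam t) * exp (((Real.log (2 * Real.pi * n) : ℝ) : ℂ) / 2 +
        log (K t) / 2)) := by ring
    rw [e2, ← Complex.exp_add]
    congr 2
    rw [hlam]
    ring
  have hthb : ∀ t : ℝ, |t| ≤ 2 / 5 → ‖th t‖ ≤ 1 / 3 := fun t ht => hJ t ht
  have hBc : Continuous B := continuous_iff_continuousAt.mpr fun t => (hB t).continuousAt
  have hjc : Continuous j := hJc.mul continuous_const
  -- the norm of the constant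
  have hc0n : ‖c0‖ ≤ Real.sqrt (2 * Real.pi) * (n : ℝ) ^ (3 / 4 : ℝ) := by
    have e0 : (1 / 2 : ℂ) = ((1 / 2 : ℝ) : ℂ) := by norm_num
    rw [hc0, e0, Complex.norm_cpow_real]
    have e1 : ‖2 * (Real.pi : ℂ) * (n : ℂ) * K 0‖ = 2 * Real.pi * n * ‖K 0‖ := by
      rw [norm_mul, norm_mul, norm_mul, Complex.norm_ofNat, Complex.norm_natCast,
        Complex.norm_real, Real.norm_eq_abs, abs_of_pos hpi]
    rw [e1]
    have e2 : 2 * Real.pi * n * ‖K 0‖ ≤ 2 * Real.pi * (n : ℝ) ^ (3 / 2 : ℝ) := by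
      have e3 : (n : ℝ) ^ (3 / 2 : ℝ) = n * Real.sqrt n := by
        rw [Real.sqrt_eq_rpow, show (3 / 2 : ℝ) = 1 + 1 / 2 by norm_num, Real.rpow_add hn0,
          Real.rpow_one]
      rw [e3, ← mul_assoc]
      exact mul_le_mul_of_nonneg_left hK0 (by positivity)
    calc (2 * Real.pi * n * ‖K 0‖) ^ (1 / 2 : ℝ)
        ≤ (2 * Real.pi * (n : ℝ) ^ (3 / 2 : ℝ)) ^ (1 / 2 : ℝ) :=
          Real.rpow_le_rpow (by positivity) e2 (by norm_num)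
      _ = (2 * Real.pi) ^ (1 / 2 : ℝ) * ((n : ℝ) ^ (3 / 2 : ℝ)) ^ (1 / 2 : ℝ) :=
          Real.mul_rpow (by positivity) (by positivity)
      _ = Real.sqrt (2 * Real.pi) * (n : ℝ) ^ (3 / 4 : ℝ) := by
          rw [Real.sqrt_eq_rpow, ← Real.rpow_mul hn0.le]
          norm_num
  have hj1 : ∀ t : ℝ, |t| ≤ 2 / 5 → ‖j t‖ ≤ 4 / 3 * Real.exp (3 / 8 * |t|) := by
    intro t ht
    rw [hjeq t, norm_mul]
    have e1 : ‖exp (lam t)‖ ≤ Real.exp (3 / 8 * |t|) := by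
      rw [Complex.norm_exp]
      apply Real.exp_le_exp.2
      exact ((Complex.re_le_norm _).trans (hlamb t))
    have e2 : ‖1 + th t‖ ≤ 4 / 3 := by
      refine (norm_add_le _ _).trans ?_
      rw [norm_one]
      linarith [hthb t ht]
    calc ‖exp (lam t)‖ * ‖1 + th t‖ ≤ Real.exp (3 / 8 * |t|) * (4 / 3) :=
          mul_le_mul e1 e2 (norm_nonneg _) (Real.exp_pos _).le
      _ = _ := by ring
  have hj2 : ∀ t : ℝ, ‖j t‖ ≤ Real.sqrt (2 * Real.pi) * (n : ℝ) ^ (3 / 4 : ℝ) := by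
    intro t
    rw [hj]
    simp only
    rw [norm_mul]
    calc ‖Jf t‖ * ‖c0‖ ≤ 1 * ‖c0‖ := mul_le_mul_of_nonneg_right (hJ1 t) (norm_nonneg _)
      _ ≤ _ := by rw [one_mul]; exact hc0n
  -- the values at the end points
  have hend : ∀ t : ℝ, |t| = 1 / 4 → (B t).re ≤ -((β.re - C) / 64) := by
    intro t ht
    have e1 := hcub t ht.le
    have e2 : (B t + β * (t : ℂ) ^ 2 / 4).re ≤ C * |t| ^ 3 := (Complex.re_le_norm _).trans e1
    have e3 : (t : ℂ) ^ 2 = (((1 / 16 : ℝ)) : ℂ) := by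
      rw [← Complex.ofReal_pow, ← sq_abs, ht]
      norm_num
    rw [e3, ht] at e2
    have e4 : (B t + β * (((1 / 16 : ℝ)) : ℂ) / 4).re = (B t).re + β.re / 64 := by
      have : β * (((1 / 16 : ℝ)) : ℂ) / 4 = ((1 / 64 : ℝ) : ℂ) * β := by
        push_cast
        ring
      rw [this, Complex.add_re, Complex.re_ofReal_mul]
      ring
    rw [e4] at e2
    have e5 : C * (1 / 4 : ℝ) ^ 3 = C / 64 := by ring
    rw [e5] at e2
    linarith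
  have hcore := lap_core n (by omega) β C hC0 hCb B j lam th hBc hjc hcub
    (fun t _ => hjeq t) (fun t _ => hlamb t) (fun t ht => hthb t (by linarith))
  obtain ⟨hint, htail⟩ := lap_tails n hn V V' B j hV h1 h2 h3 hB hjc β.re C
    (Real.sqrt (2 * Real.pi) * (n : ℝ) ^ (3 / 4 : ℝ))
    (hend (1 / 4) (by rw [abs_of_pos (by norm_num)]))
    (hend (-(1 / 4)) (by rw [abs_neg, abs_of_pos (by norm_num)])) hj1 hj2
  have hnumr := lap_numeric n hn β.re ‖β‖ C hnum (Complex.re_le_norm β)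
  -- the norm of the main term
  have hG : ‖(4 * (Real.pi : ℂ) / ((n : ℂ) * β)) ^ (1 / 2 : ℂ)‖ =
      Real.sqrt (4 * Real.pi / ((n : ℝ) * ‖β‖)) := by
    have e0 : (1 / 2 : ℂ) = ((1 / 2 : ℝ) : ℂ) := by norm_num
    rw [e0, Complex.norm_cpow_real, Real.sqrt_eq_rpow]
    congr 1
    rw [norm_div, norm_mul, norm_mul, Complex.norm_ofNat, Complex.norm_natCast,
      Complex.norm_real, Real.norm_eq_abs, abs_of_pos hpi]
  intro hzero
  have hz : ∫ t : ℝ, exp ((n : ℂ) * B t + (t : ℂ) / 2) * j t = 0 := by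
    have e1 : (fun t : ℝ => exp ((n : ℂ) * B t + (t : ℂ) / 2) * j t) =
        fun t : ℝ => (exp ((n : ℂ) * B t + (t : ℂ) / 2) * Jf t) * c0 := by
      funext t
      rw [hj]
      ring
    rw [e1, integral_mul_const, hzero, zero_mul]
  rw [hz] at htail
  rw [← hG] at hnumr
  set G := (4 * (Real.pi : ℂ) / ((n : ℂ) * β)) ^ (1 / 2 : ℂ) with hGdef
  set I0 := ∫ t in (-(1 / 4) : ℝ)..(1 / 4), exp ((n : ℂ) * B t + (t : ℂ) / 2) * j t with hI0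
  have h5 : ‖G‖ ≤ ‖I0 - G‖ + ‖0 - I0‖ := by
    have e1 : -G = (I0 - G) + (0 - I0) := by ring
    calc ‖G‖ = ‖-G‖ := (norm_neg G).symm
      _ = ‖(I0 - G) + (0 - I0)‖ := by rw [e1]
      _ ≤ _ := norm_add_le _ _
  linarith

end ST3
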