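import Pool.Agent.Helper2.ST.NC
import Pool.Agent.Helper2.ST.B04
import Pool.Agent.Helper22.SCE.M29
import Pool.Agent.Helper22.SCE.M30
import Pool.Agent.Helper22.SCE.M31
import Pool.Agent.Helper2.ST.Bridge

/-!
# ST-M1: transfer of the estimates of `SCE` (helper22) for `|z| >= 8`

PROOF. Let `z in P`, `|z| >= 8`. `P` gives `Im z < 0`, `Im z > -21/8`, `Re z > -3/8`, hence
`Re z >= 7.5 > 0` (`Re z^2 >= 64 - 6.9`). `SCE.zz_of` gives `SCE.Par |z| (Re z) (-Im z)` and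
`SCE.zz (Re z) (-Im z) = z`.
* `hh_eq`: `ST3.hh z b = SCE.hh z b`: `SCE.bridge` with the closed forms `GG0_closed`, `GG1_closed`
  (divide by `t^2`, `t = z e^{ib} != 0`); `SCE.ww z != 0` because `z^2 GG 1 z = e^z ww z` and
  `GG 1 z != 0` (`P_GG1_ne`).
* `kap_eq`: `ST3.kap z = SCE.kap z`: quotient of `GG2_closed`, `GG1_closed`, multiply by `e^{-z}`.
* crude: `J_circle` and `SCE.re_hh_nonpos`: `|e^{n hh}| <= 1`.
* sharp: `SCE.sharp` (with the real number `n`): `J = (1/2pi) int`, and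
  `J (2 pi n kap)^{1/2} - 1 = (1/2pi) (2 pi n kap)^{1/2} (int - (2pi/(n kap))^{1/2})`, because
  `(2 pi n kap)^{1/2} (2 pi/(n kap))^{1/2} = 2 pi` (`Re kap > 0`); the norm is `<= 1/4 <= 1/3`.
-/

namespace ST3

open Complex

theorem hh_eq {z : ℂ} (hz : z ∈ P) (h8 : 8 ≤ ‖z‖) (b : ℝ) : hh z b = SCE.hh z b := by
  have _ := h8
  exact bridge_hh hz b

theorem kap_eq {z : ℂ} (hz : z ∈ P) : kap z = SCE.kap z := bridge_kap hz

private theorem m1_par {z : ℂ} (hz : z ∈ P) (h8 : 8 ≤ ‖z‖) :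
    SCE.Par ‖z‖ z.re (-z.im) ∧ SCE.zz z.re (-z.im) = z := by
  have him : z.im < 0 := hz.1
  have him2 : -(21 / 8) < z.im := hz.2.2.2.2.2.2
  have hre : -(3 / 8) < z.re := hz.2.2.1
  have hre0 : 0 < z.re := by
    by_contra hcon
    push Not at hcon
    have e1 : ‖z‖ ^ 2 = z.re ^ 2 + z.im ^ 2 := by
      rw [Complex.sq_norm, Complex.normSq_apply]
      ring
    nlinarith
  exact SCE.zz_of h8 him.le him2.le hre0

theorem J_big_crude (n : ℕ) {z : ℂ} (hz : z ∈ P) (h8 : 8 ≤ ‖z‖) : ‖J n z‖ ≤ 1 := by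
  obtain ⟨hp, hzz⟩ := m1_par hz h8
  refine bridge_crude n hz fun b hb => ?_
  have := SCE.re_hh_nonpos hp hb
  rwa [hzz] at this

theorem J_big_sharp (n : ℕ) (hn : 1000 ≤ n) {z : ℂ} (hz : z ∈ P) (h8 : 8 ≤ ‖z‖)
    (him : -(9 / 4) ≤ z.im) (hR : ‖z‖ ≤ 2 / 3 * Real.sqrt n + 7 / 2) :
    ‖J n z * (2 * (Real.pi : ℂ) * (n : ℂ) * kap z) ^ (1 / 2 : ℂ) - 1‖ ≤ 1 / 3 := by
  obtain ⟨hp, hzz⟩ := m1_par hz h8
  have hsh := SCE.sharp (n := (n : ℝ)) hp (by linarith) (by exact_mod_cast hn) hR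
  rw [hzz] at hsh
  have := bridge_sharp (by omega) hz hsh
  linarith

end ST3
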