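import Pool.Agent.Helper2.ST.G5
import Pool.Agent.Helper2.ST.B05

/-!
# ST-M3: the phase `BB` and the integral formula at the saddle

PROOFS. `w + t in S` for real `t` (`add_mem_S`).
* `BB_hasDerivAt`: derivative `-V e^{t/2}/2 + 1/2 + V1(z)/2 - Z'/Z` with `Z'/Z = -1/kap`,
  `V1 = VV - 1 - 2/kap` (`V1_eq`), total `(VV(z) - V e^{t/2})/2`. (`Zf` values lie in `slitPlane`, `P_slit`.)
* `s_eq`: `s_ray` with `r = n V`, `V = VV (Zf w)`, `Re r > 0`. `x r^2 e^t = n e^{w+t} =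
  n / GG 1 z`, `z = Zf (w+t)` (`GG1_Zf`). By the definition of `J` (and `z != 0`):
  `q n (n/GG 1 z) = J n z * exp (n GG 0 z/GG 1 z) * (z^n)^{-1}`, `GG 0 z/GG 1 z = (VV z - 1)/2` (`VV_eq`),
  `(z^n)^{-1} = exp (-n log z)`. The integrand of `s_ray` is
  `exp (-n V e^{t/2}) (n V)^{n+1} e^{(n+1)t/2} exp (n (VV z - 1)/2) exp (-n log z) J n z`, which equals
  the constant `exp(-n V) (n V)^{n+1} exp(n (V-1)/2) exp(-n log (Zf w))` times
  `exp (n BB w t + t/2) J n z`.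
-/

namespace ST3

open Complex MeasureTheory

/-- the phase along the ray through the saddle `w` -/
noncomputable def BB (w : ℂ) (t : ℝ) : ℂ :=
  -(VV (Zf w)) * (exp ((t : ℂ) / 2) - 1) + (t : ℂ) / 2 + (VV (Zf (w + t)) - VV (Zf w)) / 2 -
    (Complex.log (Zf (w + t)) - Complex.log (Zf w))

theorem BB_zero (w : ℂ) : BB w 0 = 0 := by
  simp [BB]

private theorem m3_path (w : ℂ) (t : ℝ) : HasDerivAt (fun t : ℝ => w + (t : ℂ)) 1 t :=
  (Complex.ofRealCLM.hasDerivAt (x := t)).const_add w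

theorem BB_hasDerivAt {w : ℂ} (hw : w ∈ S) (t : ℝ) :
    HasDerivAt (BB w) ((VV (Zf (w + t)) - VV (Zf (w + (0 : ℝ))) * exp ((t : ℂ) / 2)) / 2) t := by
  have hwt := add_mem_S hw t
  have hz := Zf_mem hwt
  have hz0 := P_ne_zero hz
  have hk := kap_ne hz
  have h0 : HasDerivAt (fun t : ℝ => (t : ℂ)) 1 t := Complex.ofRealCLM.hasDerivAt
  have hp := m3_path w t
  have h1 : HasDerivAt (fun t : ℝ => exp ((t : ℂ) / 2)) (exp ((t : ℂ) / 2) * (1 / 2)) t :=
    (h0.div_const 2).cexp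
  have h2 : HasDerivAt (fun t : ℝ => VV (Zf (w + t))) (V1 (Zf (w + t)) * 1) t :=
    HasDerivAt.comp (h₂ := fun w => VV (Zf w)) (h := fun t : ℝ => w + (t : ℂ)) t
      (VZ_hasDerivAt hwt) hp
  have h3 : HasDerivAt (fun t : ℝ => Zf (w + t)) (-(Zf (w + t)) / kap (Zf (w + t)) * 1) t :=
    HasDerivAt.comp (h₂ := Zf) (h := fun t : ℝ => w + (t : ℂ)) t (Zf_hasDerivAt hwt) hp
  have h4 : HasDerivAt (fun t : ℝ => Complex.log (Zf (w + t)))
      (-(Zf (w + t)) / kap (Zf (w + t)) * 1 / Zf (w + t)) t := h3.clog_real (P_slit hz)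
  have h5 : HasDerivAt (BB w) _ t :=
    ((((h1.sub_const 1).const_mul (-(VV (Zf w)))).add (h0.div_const 2)).add
      ((h2.sub_const (VV (Zf w))).div_const 2)).sub (h4.sub_const (Complex.log (Zf w)))
  refine h5.congr_deriv ?_
  rw [V1_eq hk]
  have h6 : w + ((0 : ℝ) : ℂ) = w := by simp
  rw [h6]
  field_simp
  ring

theorem J_path_continuous (n : ℕ) {w : ℂ} (hw : w ∈ S) :
    Continuous (fun t : ℝ => J n (Zf (w + t))) := by
  have hZ : Continuous (fun t : ℝ => Zf (w + t)) := by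
    rw [continuous_iff_continuousAt]
    intro t
    exact (HasDerivAt.comp (h₂ := Zf) (h := fun t : ℝ => w + (t : ℂ)) t
      (Zf_hasDerivAt (add_mem_S hw t)) (m3_path w t)).continuousAt
  have h0 : Continuous (fun t : ℝ => GG 0 (Zf (w + t))) :=
    (GG_differentiable 0).continuous.comp hZ
  have h1 : Continuous (fun t : ℝ => GG 1 (Zf (w + t))) :=
    (GG_differentiable 1).continuous.comp hZ
  have hne : ∀ t : ℝ, GG 1 (Zf (w + t)) ≠ 0 := fun t => P_GG1_ne (Zf_mem (add_mem_S hw t))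
  have hq : Continuous (q n) := by
    unfold q
    fun_prop
  unfold J
  exact ((hq.comp (continuous_const.div h1 hne)).mul
    (((continuous_const.mul h0).div h1 hne).cexp)).mul (hZ.pow n)

theorem s_eq (n : ℕ) (hn : 1 ≤ n) (x : ℂ) {w : ℂ} (hw : w ∈ S)
    (hx : (n : ℂ) * exp w = x * ((n : ℂ) * VV (Zf w)) ^ 2) :
    s n x = (1 / 2 : ℂ) * (exp (-((n : ℂ) * VV (Zf w))) * ((n : ℂ) * VV (Zf w)) ^ (n + 1) *
      exp ((n : ℂ) * (VV (Zf w) - 1) / 2) * exp (-((n : ℂ) * Complex.log (Zf w)))) *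
      ∫ t : ℝ, exp ((n : ℂ) * BB w t + (t : ℂ) / 2) * J n (Zf (w + t)) := by
  have hzw := Zf_mem hw
  have hr : 0 < ((n : ℂ) * VV (Zf w)).re := by
    have h1 := VV_re hzw
    have h2 : (1 : ℝ) ≤ n := by exact_mod_cast hn
    have h3 : ((n : ℂ) * VV (Zf w)).re = (n : ℝ) * (VV (Zf w)).re := by simp
    rw [h3]
    positivity
  rw [s_ray n x hr, mul_assoc (1 / 2 : ℂ)]
  refine congrArg (fun a : ℂ => (1 / 2 : ℂ) * a) ?_
  rw [← integral_const_mul]
  refine congrArg (fun f : ℝ → ℂ => ∫ t : ℝ, f t) (funext fun t => ?_)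
  show exp (-((n : ℂ) * VV (Zf w)) * exp ((t : ℂ) / 2)) *
      ((n : ℂ) * VV (Zf w) * exp ((t : ℂ) / 2)) ^ (n + 1) *
      q n (x * ((n : ℂ) * VV (Zf w)) ^ 2 * exp (t : ℂ)) =
    (exp (-((n : ℂ) * VV (Zf w))) * ((n : ℂ) * VV (Zf w)) ^ (n + 1) *
      exp ((n : ℂ) * (VV (Zf w) - 1) / 2) * exp (-((n : ℂ) * Complex.log (Zf w)))) *
      (exp ((n : ℂ) * BB w t + (t : ℂ) / 2) * J n (Zf (w + t)))
  have hwt := add_mem_S hw t
  have hz := Zf_mem hwt
  have hz0 := P_ne_zero hz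
  have hG := P_GG1_ne hz
  have hGe := GG1_Zf hwt
  have hV := VV_eq hG
  have hlog := Complex.exp_log hz0
  have hx2 : x * ((n : ℂ) * VV (Zf w)) ^ 2 * exp (t : ℂ) = (n : ℂ) / GG 1 (Zf (w + t)) := by
    rw [← hx, hGe, exp_neg, div_inv_eq_mul, mul_assoc, ← exp_add]
  rw [hx2]
  have hBB : BB w t = -(VV (Zf w)) * (exp ((t : ℂ) / 2) - 1) + (t : ℂ) / 2 +
      (VV (Zf (w + t)) - VV (Zf w)) / 2 -
      (Complex.log (Zf (w + t)) - Complex.log (Zf w)) := rfl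
  generalize Zf (w + t) = z at *
  generalize hVV : VV (Zf w) = V at *
  generalize hLL : Complex.log (Zf w) = L at *
  generalize hLz : Complex.log z = Lz at *
  have hzn : z ^ n = exp ((n : ℂ) * Lz) := by
    rw [Complex.exp_nat_mul, hlog]
  have hq : q n ((n : ℂ) / GG 1 z) = J n z * exp ((n : ℂ) * GG 0 z / GG 1 z) *
      exp (-((n : ℂ) * Lz)) := by
    unfold J
    rw [hzn]
    have h1 : exp (-(n : ℂ) * GG 0 z / GG 1 z) * exp ((n : ℂ) * GG 0 z / GG 1 z) = 1 := by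
      rw [← exp_add, ← exp_zero]
      congr 1
      ring
    have h2 : exp ((n : ℂ) * Lz) * exp (-((n : ℂ) * Lz)) = 1 := by
      rw [← exp_add, ← exp_zero]
      congr 1
      ring
    linear_combination (-(q n ((n : ℂ) / GG 1 z)) * (exp ((n : ℂ) * Lz) *
      exp (-((n : ℂ) * Lz)))) * h1 - q n ((n : ℂ) / GG 1 z) * h2
  have hE : exp ((t : ℂ) / 2) ^ (n + 1) = exp (((n : ℂ) + 1) * ((t : ℂ) / 2)) := by
    rw [← Complex.exp_nat_mul]
    push_cast
    rfl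
  rw [hq, mul_pow, hE]
  have hmain : exp (-((n : ℂ) * V) * exp ((t : ℂ) / 2)) * exp (((n : ℂ) + 1) * ((t : ℂ) / 2)) *
      (exp ((n : ℂ) * GG 0 z / GG 1 z) * exp (-((n : ℂ) * Lz))) =
      exp (-((n : ℂ) * V)) * exp ((n : ℂ) * (V - 1) / 2) * exp (-((n : ℂ) * L)) *
        exp ((n : ℂ) * BB w t + (t : ℂ) / 2) := by
    simp only [← exp_add]
    congr 1
    rw [hBB, hV]
    field_simp
    ring
  linear_combination (((n : ℂ) * V) ^ (n + 1) * J n z) * hmain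

end ST3
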