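import Mathlib

/-!
# ST-M5: the threshold inequality (real)

Let `s = sqrt n >= 31.62`, `k` the largest integer with `81 (k+1)^2 <= 196 n`, i.e.
`k + 1 <= (14/9) s < k + 2`. The margin of the logarithmic inequality is `>= .28`
(attained at `n = 1033`, `k = 48`).
PROOF. The right side increases with `rho` (`rho >= 3`: derivative of `rho + log(rho - 2.01) - 2 log rho`
is `1 + 1/(rho-2.01) - 2/rho > 0`), so let `rho = (2/3) s + 5/2`. Taking logarithms, with
`log((k+1)/k) <= (1/k + 1/(k+1))/2` (trapezoid bound of `1/x`; `1/x` is convex) and `K = k + 1/2`: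
`(n+2k) log((k+1)/k) <= (n + 2k) K/(K^2 - 1/4) <= n/K + 2 + n/(4 K (K^2-1/4)) <= n/K + 2.004`
(`(2k) K/(k(k+1)) = 2K/(k+1) <= 2`). It is enough that
`.0002 + log(k+1) + n/K + 2.004 <= log n + rho - .15 + log((rho - 2.01)/rho^2)`. Since
`K >= (14/9)s - 3/2`: `n/K <= s^2/((14/9)s - 3/2) = (9/14) s + (9/14)(27/28) + small <=
(9/14)s + .62 + .6/s*...`: exactly `s^2/((14/9)s - 3/2) = (9/14)s/(1 - (27/28)/s)`, at `s = 31.62` it is
`20.97`. And `log n - log(k+1) >= log((9/14) s)`, `(9/14) s (rho - 2.01)/rho^2 >= .788` at `s = 31.62`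
(`rho = 23.58`), increasing in `s`. So the difference is at least
`(2/3)s + 2.5 - .15 - 2.0042 - 20.97 - .24 + ...`: at `s = 31.62`: `21.08 + .3458 - 20.97 - .238 = .217 > 0`
and it increases with `s` (`2/3 > 9/14`, and the other terms are monotone).
-/

namespace ST3

/-- monotonicity in `ρ` -/
theorem threshold_mono (a b : ℝ) (ha : 3 ≤ a) (hab : a ≤ b) :
    Real.exp (a - 3 / 20) * (a - 201 / 100) / a ^ 2 ≤
      Real.exp (b - 3 / 20) * (b - 201 / 100) / b ^ 2 := by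
  have hb : 3 ≤ b := ha.trans hab
  have ha0 : (0 : ℝ) < a := by linarith
  have hb0 : (0 : ℝ) < b := by linarith
  rw [div_le_div_iff₀ (by positivity) (by positivity)]
  have e1 : Real.exp (b - 3 / 20) = Real.exp (a - 3 / 20) * Real.exp (b - a) := by
    rw [← Real.exp_add]; congr 1; ring
  have e2 : Real.exp (b - a) = Real.exp ((b - a) / 2) ^ 2 := by
    rw [← Real.exp_nat_mul]; congr 1; push_cast; ring
  have e3 : 1 + (b - a) / 2 ≤ Real.exp ((b - a) / 2) := by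
    have := Real.add_one_le_exp ((b - a) / 2); linarith
  have e4 : b / a ≤ 1 + (b - a) / 2 := by
    rw [div_le_iff₀ ha0]
    nlinarith
  have e5 : (b / a) ^ 2 ≤ Real.exp (b - a) := by
    rw [e2]
    exact pow_le_pow_left₀ (by positivity) (e4.trans e3) 2
  have e6 : b ^ 2 ≤ Real.exp (b - a) * a ^ 2 := by
    rw [div_pow, div_le_iff₀ (by positivity)] at e5
    exact e5
  rw [e1]
  have hE : 0 < Real.exp (a - 3 / 20) := Real.exp_pos _
  have h7 : (a - 201 / 100) * b ^ 2 ≤ (b - 201 / 100) * (Real.exp (b - a) * a ^ 2) :=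
    mul_le_mul (by linarith) e6 (by positivity) (by linarith)
  calc Real.exp (a - 3 / 20) * (a - 201 / 100) * b ^ 2
      = Real.exp (a - 3 / 20) * ((a - 201 / 100) * b ^ 2) := by ring
    _ ≤ Real.exp (a - 3 / 20) * ((b - 201 / 100) * (Real.exp (b - a) * a ^ 2)) :=
        mul_le_mul_of_nonneg_left h7 hE.le
    _ = _ := by ring

theorem threshold (n k : ℕ) (hn : 1000 ≤ n) (h1 : 81 * (k + 1) ^ 2 ≤ 196 * n)
    (h2 : 196 * n < 81 * (k + 2) ^ 2) (ρ : ℝ) (hρ : 2 / 3 * Real.sqrt n + 5 / 2 ≤ ρ) :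
    10000 / 9999 * ((k : ℝ) + 1) * (((k : ℝ) + 1) / (k : ℝ)) ^ (n + 2 * k) ≤
      (n : ℝ) * (Real.exp (ρ - 3 / 20) * (ρ - 201 / 100) / ρ ^ 2) := by
  have hnR : (1000 : ℝ) ≤ (n : ℝ) := by exact_mod_cast hn
  have h1R : 81 * ((k : ℝ) + 1) ^ 2 ≤ 196 * (n : ℝ) := by exact_mod_cast h1
  have h2R : 196 * (n : ℝ) < 81 * ((k : ℝ) + 2) ^ 2 := by exact_mod_cast h2
  have hs2 : Real.sqrt n ^ 2 = (n : ℝ) := Real.sq_sqrt (by positivity)
  have hs : (3162 / 100 : ℝ) ≤ Real.sqrt n := by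
    apply Real.le_sqrt_of_sq_le
    norm_num
    linarith
  generalize Real.sqrt n = s at *
  have hk0 : (0 : ℝ) ≤ (k : ℝ) := Nat.cast_nonneg k
  have hk1 : 9 * ((k : ℝ) + 1) ≤ 14 * s := by
    by_contra hcon
    push_neg at hcon
    nlinarith
  have hk2 : 14 * s < 9 * ((k : ℝ) + 2) := by
    by_contra hcon
    push_neg at hcon
    nlinarith
  have hkpos : (0 : ℝ) < (k : ℝ) := by linarith
  -- the logarithm
  have hy : 0 < ((k : ℝ) + 1) / (k : ℝ) := by positivity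
  have hlog : Real.log (((k : ℝ) + 1) / (k : ℝ)) ≤ (2 * (k : ℝ) + 1) / (2 * (k : ℝ) * ((k : ℝ) + 1)) := by
    have hl0 : 0 ≤ Real.log (((k : ℝ) + 1) / (k : ℝ)) := by
      apply Real.log_nonneg
      rw [le_div_iff₀ hkpos]; linarith
    have h3 := Real.self_le_sinh_iff.2 hl0
    rw [Real.sinh_log hy] at h3
    refine h3.trans (le_of_eq ?_)
    field_simp
    ring
  -- the polynomial inequality
  have hP : (n : ℝ) * (2 * (k : ℝ) + 1) ≤ (2 / 3 * s + 7 / 100) * (2 * (k : ℝ) * ((k : ℝ) + 1)) := by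
    rw [← hs2]
    obtain ⟨x, hx⟩ : ∃ x : ℝ, (k : ℝ) = 14 / 9 * s - 2 + x := ⟨(k : ℝ) - (14 / 9 * s - 2), by ring⟩
    have hx0 : 0 ≤ x := by linarith
    rw [hx]
    have q1 : 0 ≤ 576132 / 10000000 * s ^ 3 - 144173 / 100000 * s ^ 2 + s := by
      have : 0 ≤ s ^ 2 * (576132 / 10000000 * s - 144173 / 100000) := by
        apply mul_nonneg (by positivity)
        linarith
      nlinarith
    have q2 : 0 ≤ x * (s ^ 2 - 3 * s) := by
      apply mul_nonneg hx0
      nlinarith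
    have q3 : 0 ≤ x ^ 2 * s := by positivity
    have q4 : 0 ≤ x * s := by positivity
    have q5 : 0 ≤ s ^ 3 := by positivity
    have q6 : 0 ≤ s ^ 2 := by positivity
    have q7 : 0 ≤ x ^ 2 := by positivity
    nlinarith
  have hL : ((n + 2 * k : ℕ) : ℝ) * Real.log (((k : ℝ) + 1) / (k : ℝ)) ≤ 2 / 3 * s + 207 / 100 := by
    have h4 : ((n + 2 * k : ℕ) : ℝ) * Real.log (((k : ℝ) + 1) / (k : ℝ)) ≤
        ((n : ℝ) + 2 * k) * ((2 * (k : ℝ) + 1) / (2 * (k : ℝ) * ((k : ℝ) + 1))) := by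
      push_cast
      exact mul_le_mul_of_nonneg_left hlog (by positivity)
    refine h4.trans ?_
    rw [mul_div_assoc', div_le_iff₀ (by positivity)]
    nlinarith
  have hpow : (((k : ℝ) + 1) / (k : ℝ)) ^ (n + 2 * k) ≤ Real.exp (2 / 3 * s + 207 / 100) := by
    have h5 : (((k : ℝ) + 1) / (k : ℝ)) ^ (n + 2 * k) =
        Real.exp (((n + 2 * k : ℕ) : ℝ) * Real.log (((k : ℝ) + 1) / (k : ℝ))) := by
      rw [Real.exp_nat_mul, Real.exp_log hy]
    rw [h5]
    exact Real.exp_le_exp.2 hL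
  have hs0 : 0 < s := by linarith
  have hmono := threshold_mono (2 / 3 * s + 5 / 2) ρ (by linarith) hρ
  have hE : Real.exp (2 / 3 * s + 207 / 100) ≤
      Real.exp (2 / 3 * s + 5 / 2 - 3 / 20) * (100 / 128) := by
    have h6 : Real.exp (2 / 3 * s + 5 / 2 - 3 / 20) =
        Real.exp (2 / 3 * s + 207 / 100) * Real.exp (28 / 100) := by
      rw [← Real.exp_add]; congr 1; ring
    have h7 : (128 / 100 : ℝ) ≤ Real.exp (28 / 100) := by
      have := Real.add_one_le_exp (28 / 100 : ℝ)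
      norm_num at this ⊢
      linarith
    rw [h6]
    have h8 : 0 < Real.exp (2 / 3 * s + 207 / 100) := Real.exp_pos _
    nlinarith
  have hB : 10000 / 9999 * (14 / 9) * (100 / 128) * (2 / 3 * s + 5 / 2) ^ 2 ≤
      s * (2 / 3 * s + 5 / 2 - 201 / 100) := by
    nlinarith
  have hE0 : 0 < Real.exp (2 / 3 * s + 5 / 2 - 3 / 20) := Real.exp_pos _
  calc 10000 / 9999 * ((k : ℝ) + 1) * (((k : ℝ) + 1) / (k : ℝ)) ^ (n + 2 * k)
      ≤ 10000 / 9999 * (14 / 9 * s) * (Real.exp (2 / 3 * s + 5 / 2 - 3 / 20) * (100 / 128)) := by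
        apply mul_le_mul _ (hpow.trans hE) (by positivity) (by positivity)
        linarith
    _ = s * Real.exp (2 / 3 * s + 5 / 2 - 3 / 20) * (10000 / 9999 * (14 / 9) * (100 / 128)) := by ring
    _ ≤ s ^ 2 * (Real.exp (2 / 3 * s + 5 / 2 - 3 / 20) * (2 / 3 * s + 5 / 2 - 201 / 100) /
          (2 / 3 * s + 5 / 2) ^ 2) := by
        rw [← mul_div_assoc (s ^ 2), le_div_iff₀ (by positivity)]
        have h9 : 0 < s * Real.exp (2 / 3 * s + 5 / 2 - 3 / 20) := by positivity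
        calc s * Real.exp (2 / 3 * s + 5 / 2 - 3 / 20) * (10000 / 9999 * (14 / 9) * (100 / 128)) *
              (2 / 3 * s + 5 / 2) ^ 2
            = s * Real.exp (2 / 3 * s + 5 / 2 - 3 / 20) *
              (10000 / 9999 * (14 / 9) * (100 / 128) * (2 / 3 * s + 5 / 2) ^ 2) := by ring
          _ ≤ s * Real.exp (2 / 3 * s + 5 / 2 - 3 / 20) * (s * (2 / 3 * s + 5 / 2 - 201 / 100)) :=
              mul_le_mul_of_nonneg_left hB h9.le
          _ = _ := by ring
    _ ≤ s ^ 2 * (Real.exp (ρ - 3 / 20) * (ρ - 201 / 100) / ρ ^ 2) :=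
        mul_le_mul_of_nonneg_left hmono (by positivity)
    _ = (n : ℝ) * (Real.exp (ρ - 3 / 20) * (ρ - 201 / 100) / ρ ^ 2) := by rw [hs2]

end ST3
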