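import Pool.Agent.Helper2.ST.B01

/-!
# ST-R04: log-concavity of the rows

PROOF. Induction on `n`. Let `a_k = S3 n k` be row `n`, `A_k = S3 (n+1) k = k a_k + g_k a_{k-1}` for
`k >= 1`, `g_k = C(n+2k, 2) = N(N-1)/2` with `N = n + 2k`, and `A_0 = 0`. For `k >= 2` (for `k = 1`
`A_0 = 0`):
`A_k^2 - A_{k-1} A_{k+1} = (k a_k + g_k a_{k-1})^2 - ((k-1) a_{k-1} + g_{k-1} a_{k-2})
((k+1) a_{k+1} + g_{k+1} a_k)`. Use `a_{k-1} a_{k+1} <= a_k^2`, `a_{k-2} a_k <= a_{k-1}^2` and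
`a_{k-2} a_{k+1} <= a_{k-1} a_k` (from the other two if `a_{k-1}, a_k > 0`; otherwise `a_{k-2} = 0` or
`a_{k+1} = 0`, since `a_j > 0` exactly for `1 <= j <= n`, or `n = 0`). The difference is at least
`1 * a_k^2 + (2 k g_k - (k-1) g_{k+1} - (k+1) g_{k-1}) a_k a_{k-1} + (g_k^2 - g_{k-1} g_{k+1}) a_{k-1}^2`
and `2 k g_k - (k-1) g_{k+1} - (k+1) g_{k-1} = 4 n + 4 k - 2 >= 0`,
`4 (g_k^2 - g_{k-1} g_{k+1}) = N^2 (N-1)^2 - (N-2)(N-3)(N+2)(N+1) = 8 N^2 - 8 N - 12 >= 0` (`N >= 2`).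
-/

namespace ST3

private theorem r04_alg (n j a0 a1 a2 a3 : ℝ) (hn : 0 ≤ n) (hj : 0 ≤ j) (h0 : 0 ≤ a0) (h1 : 0 ≤ a1)
    (h2 : 0 ≤ a2) (h3 : 0 ≤ a3) (h02 : a0 * a2 ≤ a1 ^ 2) (h13 : a1 * a3 ≤ a2 ^ 2)
    (h03 : a0 * a3 ≤ a1 * a2) :
    ((j + 1) * a1 + (n + 2 * j + 2) * (n + 2 * j + 1) / 2 * a0) *
      ((j + 3) * a3 + (n + 2 * j + 6) * (n + 2 * j + 5) / 2 * a2) ≤
    ((j + 2) * a2 + (n + 2 * j + 4) * (n + 2 * j + 3) / 2 * a1) ^ 2 := by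
  have e1 : (j + 1) * (j + 3) * (a1 * a3) ≤ (j + 1) * (j + 3) * a2 ^ 2 :=
    mul_le_mul_of_nonneg_left h13 (by positivity)
  have e2 : (n + 2 * j + 2) * (n + 2 * j + 1) / 2 * ((n + 2 * j + 6) * (n + 2 * j + 5) / 2) *
      (a0 * a2) ≤ (n + 2 * j + 2) * (n + 2 * j + 1) / 2 * ((n + 2 * j + 6) * (n + 2 * j + 5) / 2) *
      a1 ^ 2 := mul_le_mul_of_nonneg_left h02 (by positivity)
  have e3 : (n + 2 * j + 2) * (n + 2 * j + 1) / 2 * (j + 3) * (a0 * a3) ≤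
      (n + 2 * j + 2) * (n + 2 * j + 1) / 2 * (j + 3) * (a1 * a2) :=
    mul_le_mul_of_nonneg_left h03 (by positivity)
  have e4 : 0 ≤ (4 * n + 4 * j + 6) * (a1 * a2) := by positivity
  have e5 : 0 ≤ (8 * (n + 2 * j + 4) ^ 2 - 8 * (n + 2 * j + 4) - 12) / 4 * a1 ^ 2 := by
    apply mul_nonneg _ (sq_nonneg _)
    nlinarith [mul_nonneg hn hj, sq_nonneg n, sq_nonneg j]
  have e6 : 0 ≤ a2 ^ 2 := sq_nonneg _
  have e7 : ((j + 2) * a2 + (n + 2 * j + 4) * (n + 2 * j + 3) / 2 * a1) ^ 2 -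
      ((j + 1) * a1 + (n + 2 * j + 2) * (n + 2 * j + 1) / 2 * a0) *
      ((j + 3) * a3 + (n + 2 * j + 6) * (n + 2 * j + 5) / 2 * a2) =
      ((j + 1) * (j + 3) * a2 ^ 2 - (j + 1) * (j + 3) * (a1 * a3)) +
      ((n + 2 * j + 2) * (n + 2 * j + 1) / 2 * ((n + 2 * j + 6) * (n + 2 * j + 5) / 2) * a1 ^ 2 -
        (n + 2 * j + 2) * (n + 2 * j + 1) / 2 * ((n + 2 * j + 6) * (n + 2 * j + 5) / 2) *
          (a0 * a2)) +
      ((n + 2 * j + 2) * (n + 2 * j + 1) / 2 * (j + 3) * (a1 * a2) -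
        (n + 2 * j + 2) * (n + 2 * j + 1) / 2 * (j + 3) * (a0 * a3)) +
      (4 * n + 4 * j + 6) * (a1 * a2) +
      (8 * (n + 2 * j + 4) ^ 2 - 8 * (n + 2 * j + 4) - 12) / 4 * a1 ^ 2 + a2 ^ 2 := by
    ring
  linarith

theorem S3_logconcave (n k : ℕ) : S3 n k * S3 n (k + 2) ≤ S3 n (k + 1) ^ 2 := by
  induction n generalizing k with
  | zero =>
    rw [S3_eq_zero (n := 0) (k := k + 2) (by omega)]
    simp
  | succ n ih =>
    rcases Nat.eq_zero_or_pos k with hk | hk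
    · subst hk
      rw [S3_zero_right (by omega)]
      simp
    · obtain ⟨j, rfl⟩ : ∃ j, k = j + 1 := ⟨k - 1, by omega⟩
      have hA : ∀ i, S3 (n + 1) (i + 1) = (i + 1) * S3 n (i + 1) +
          (n + 2 * i + 2).choose 2 * S3 n i := by
        intro i
        rw [S3]
      have c : ∀ N : ℕ, (((N + 2).choose 2 : ℕ) : ℝ) = ((N : ℝ) + 2) * ((N : ℝ) + 1) / 2 := by
        intro N
        rw [Nat.cast_choose_two]
        push_cast
        ring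
      have e1 : ((S3 (n + 1) (j + 1) : ℕ) : ℝ) = ((j : ℝ) + 1) * (S3 n (j + 1) : ℝ) +
          ((n : ℝ) + 2 * j + 2) * ((n : ℝ) + 2 * j + 1) / 2 * (S3 n j : ℝ) := by
        rw [hA j]
        have := c (n + 2 * j)
        push_cast at this ⊢
        rw [this]
      have e2 : ((S3 (n + 1) (j + 1 + 1) : ℕ) : ℝ) = ((j : ℝ) + 2) * (S3 n (j + 2) : ℝ) +
          ((n : ℝ) + 2 * j + 4) * ((n : ℝ) + 2 * j + 3) / 2 * (S3 n (j + 1) : ℝ) := by
        rw [hA (j + 1)]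
        have := c (n + 2 * (j + 1))
        push_cast at this ⊢
        rw [this]
        ring
      have e3 : ((S3 (n + 1) (j + 1 + 2) : ℕ) : ℝ) = ((j : ℝ) + 3) * (S3 n (j + 3) : ℝ) +
          ((n : ℝ) + 2 * j + 6) * ((n : ℝ) + 2 * j + 5) / 2 * (S3 n (j + 2) : ℝ) := by
        rw [show j + 1 + 2 = (j + 2) + 1 from rfl, hA (j + 2)]
        have := c (n + 2 * (j + 2))
        push_cast at this ⊢
        rw [this]
        ring
      have h02 : (S3 n j : ℝ) * (S3 n (j + 2) : ℝ) ≤ (S3 n (j + 1) : ℝ) ^ 2 := by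
        exact_mod_cast ih j
      have h13 : (S3 n (j + 1) : ℝ) * (S3 n (j + 3) : ℝ) ≤ (S3 n (j + 2) : ℝ) ^ 2 := by
        exact_mod_cast ih (j + 1)
      have h03 : (S3 n j : ℝ) * (S3 n (j + 3) : ℝ) ≤ (S3 n (j + 1) : ℝ) * (S3 n (j + 2) : ℝ) := by
        by_cases hb : j + 2 ≤ n
        · have p1 : 0 < (S3 n (j + 1) : ℝ) := by exact_mod_cast S3_pos (by omega) (by omega)
          have p2 : 0 < (S3 n (j + 2) : ℝ) := by exact_mod_cast S3_pos (by omega) hb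
          have q1 : 0 ≤ (S3 n j : ℝ) * (S3 n (j + 2) : ℝ) := by positivity
          have q2 : 0 ≤ (S3 n (j + 1) : ℝ) * (S3 n (j + 3) : ℝ) := by positivity
          have q3 := mul_le_mul h02 h13 q2 (by positivity)
          have q4 : ((S3 n j : ℝ) * (S3 n (j + 3) : ℝ)) * ((S3 n (j + 1) : ℝ) * (S3 n (j + 2) : ℝ)) ≤
              ((S3 n (j + 1) : ℝ) * (S3 n (j + 2) : ℝ)) * ((S3 n (j + 1) : ℝ) * (S3 n (j + 2) : ℝ)) := by
            nlinarith [q3]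
          exact le_of_mul_le_mul_right q4 (by positivity)
        · rw [S3_eq_zero (n := n) (k := j + 3) (by omega)]
          simp only [Nat.cast_zero, mul_zero]
          positivity
      have key := r04_alg (n : ℝ) (j : ℝ) (S3 n j : ℝ) (S3 n (j + 1) : ℝ) (S3 n (j + 2) : ℝ)
        (S3 n (j + 3) : ℝ) (by positivity) (by positivity) (by positivity) (by positivity)
        (by positivity) (by positivity) h02 h13 h03
      rw [← e1, ← e2, ← e3] at key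
      exact_mod_cast key

end ST3
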