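import Mathlib

/-!
# ST-R05: a dominance lemma in the right half plane

PROOF. Put `T_j = a_{k+j} |x|^j / a_k` (`j` an integer, `0` outside the range), `x = |x| e^{i phi}`,
`c = cos phi in [0,1]`, `B_j = T_j + T_{-j}`. `Re (sum_j a_j x^j / (a_k x^k)) = 1 + sum_{j>=1} B_j cos(j phi)`
(real part of `T_j e^{i j phi}`). Use `cos phi = c`, `cos 2phi = 2c^2-1`,
`cos 3phi = 4c^3-3c >= -3c`, `cos 4phi = 8c^4-8c^2+1 >= 1 - 8c^2`,
`cos 5phi = c (16c^4-20c^2+5) >= -(5/4) c`, `cos(j phi) >= -1` for `j >= 6`. So the real part is at least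
`1 - B_2 + B_4 - sum_{j>=6} B_j + c^2 (2 B_2 - 8 B_4) + c (B_1 - 3 B_3 - (5/4) B_5)`.
-/

namespace ST3

open Finset ComplexConjugate

lemma side_tail (T : ℕ → ℝ) (hr : ∀ j, T (j + 5) ≤ 1 / 3 * T (j + 4)) (hn : ∀ j, 0 ≤ T j) (M : ℕ) :
    ∑ i ∈ range M, T (i + 6) ≤ 1 / 6 * T 4 - 1 / 2 * T (M + 5) := by
  induction M with
  | zero =>
    have := hr 0
    simp at this ⊢
    linarith
  | succ M ih =>
    rw [sum_range_succ]
    have h1 := hr (M + 1)
    have e1 : M + 1 + 5 = M + 6 := by ring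
    have e2 : M + 1 + 4 = M + 5 := by ring
    rw [e1, e2] at h1
    have e3 : M + 1 + 5 = M + 6 := by ring
    rw [e3]
    linarith

lemma side (T C : ℕ → ℝ) (c : ℝ) (hc : 0 ≤ c) (hc1 : c ≤ 1) (C0 : C 0 = 1) (C1 : C 1 = c)
    (Crec : ∀ j, C (j + 2) = 2 * c * C (j + 1) - C j) (Cm : ∀ j, -1 ≤ C j)
    (T0 : T 0 = 1) (T1 : T 1 ≤ 1) (Tn : ∀ j, 0 ≤ T j) (Tz : ∀ j, T j = 0 → T (j + 1) = 0)
    (q1 : T 2 ≤ 25 / 37 * T 1 ^ 2) (q2 : T 1 * T 3 ≤ 20 / 29 * T 2 ^ 2)
    (q3 : T 2 * T 4 ≤ 7 / 10 * T 3 ^ 2) (q : ∀ j, T j * T (j + 2) ≤ T (j + 1) ^ 2) (M : ℕ) :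
    1 - T 2 ≤ ∑ i ∈ range (M + 6), T i * C i := by
  -- ratio steps
  have step : ∀ (j : ℕ) (κ e : ℝ), 0 ≤ κ → 0 ≤ e → T j * T (j + 2) ≤ κ * T (j + 1) ^ 2 →
      T (j + 1) ≤ e * T j → T (j + 2) ≤ κ * e * T (j + 1) := by
    intro j κ e hκ he h1 h2
    rcases eq_or_lt_of_le (Tn j) with h0 | h0
    · have h3 := Tz j h0.symm
      have h4 := Tz (j + 1) h3
      rw [show j + 2 = j + 1 + 1 by ring, h4, h3]; simp
    · have h3 : T j * T (j + 2) ≤ T j * (κ * e * T (j + 1)) := by
        calc T j * T (j + 2) ≤ κ * T (j + 1) ^ 2 := h1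
          _ = κ * (T (j + 1) * T (j + 1)) := by ring
          _ ≤ κ * ((e * T j) * T (j + 1)) := by
              apply mul_le_mul_of_nonneg_left _ hκ
              exact mul_le_mul_of_nonneg_right h2 (Tn _)
          _ = T j * (κ * e * T (j + 1)) := by ring
      exact le_of_mul_le_mul_left h3 h0
  have t1 := Tn 1
  have r1 : T 2 ≤ 25 / 37 * T 1 := by nlinarith
  have r2 : T 3 ≤ 20 / 29 * (25 / 37) * T 2 := step 1 _ _ (by norm_num) (by norm_num) q2 r1
  have r3 : T 4 ≤ 7 / 10 * (20 / 29 * (25 / 37)) * T 3 :=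
    step 2 _ _ (by norm_num) (by norm_num) q3 r2
  have r4 : ∀ j, T (j + 4) ≤ 7 / 10 * (20 / 29 * (25 / 37)) * T (j + 3) := by
    intro j
    induction j with
    | zero => exact r3
    | succ j ih =>
      have h := step (j + 3) 1 (7 / 10 * (20 / 29 * (25 / 37))) (by norm_num) (by norm_num)
        (by have := q (j + 3); simpa using this) ih
      rw [one_mul] at h
      exact h
  have r5 : ∀ j, T (j + 5) ≤ 1 / 3 * T (j + 4) := by
    intro j
    have h := r4 (j + 1)
    have h0 := Tn (j + 4)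
    have e1 : j + 1 + 4 = j + 5 := by ring
    have e2 : j + 1 + 3 = j + 4 := by ring
    rw [e1, e2] at h
    nlinarith
  have hT := side_tail T r5 Tn M
  have h5 := Tn (M + 5)
  have ht4 := Tn 4
  have ht2 := Tn 2
  have ht3 := Tn 3
  have ht5 := Tn 5
  have hr5 := r4 1
  simp only [show 1 + 4 = 5 by norm_num, show 1 + 3 = 4 by norm_num] at hr5
  -- the sum
  have hsum : ∑ i ∈ range (M + 6), T i * C i =
      ∑ i ∈ range M, T (i + 6) * C (i + 6) + ∑ i ∈ range 6, T i * C i := by
    rw [add_comm M 6, sum_range_add]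
    rw [add_comm]
    congr 1
    apply sum_congr rfl
    intro i _
    rw [add_comm 6 i]
  have hlow : -∑ i ∈ range M, T (i + 6) ≤ ∑ i ∈ range M, T (i + 6) * C (i + 6) := by
    rw [← sum_neg_distrib]
    apply sum_le_sum
    intro i _
    nlinarith [Cm (i + 6), Tn (i + 6)]
  have C2 : C 2 = 2 * c ^ 2 - 1 := by rw [Crec 0, C0]; simp only [zero_add, C1]; ring
  have C3 : C 3 = 4 * c ^ 3 - 3 * c := by
    have := Crec 1
    simp only [show 1 + 2 = 3 by norm_num, show 1 + 1 = 2 by norm_num] at this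
    rw [this, C2, C1]; ring
  have C4 : C 4 = 8 * c ^ 4 - 8 * c ^ 2 + 1 := by
    have := Crec 2
    simp only [show 2 + 2 = 4 by norm_num, show 2 + 1 = 3 by norm_num] at this
    rw [this, C2, C3]; ring
  have C5 : C 5 = 16 * c ^ 5 - 20 * c ^ 3 + 5 * c := by
    have := Crec 3
    simp only [show 3 + 2 = 5 by norm_num, show 3 + 1 = 4 by norm_num] at this
    rw [this, C3, C4]; ring
  rw [hsum]
  simp only [sum_range_succ, sum_range_zero, C0, C1, C2, C3, C4, C5, T0]
  have b3 : -3 * c * T 3 ≤ T 3 * (4 * c ^ 3 - 3 * c) := by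
    have : 0 ≤ T 3 * c ^ 3 := mul_nonneg ht3 (pow_nonneg hc 3)
    nlinarith
  have b4 : (1 - 8 * c ^ 2) * T 4 ≤ T 4 * (8 * c ^ 4 - 8 * c ^ 2 + 1) := by
    have : 0 ≤ T 4 * c ^ 4 := mul_nonneg ht4 (pow_nonneg hc 4)
    nlinarith
  have b5 : -(5 / 4) * c * T 5 ≤ T 5 * (16 * c ^ 5 - 20 * c ^ 3 + 5 * c) := by
    have : 0 ≤ T 5 * c * (4 * c ^ 2 - 5 / 2) ^ 2 := by positivity
    nlinarith
  have b1 : 0 ≤ c * (T 1 - 3 * T 3 - 5 / 4 * T 5) := by
    apply mul_nonneg hc
    nlinarith
  have b2 : 0 ≤ c ^ 2 * (2 * T 2 - 8 * T 4) := by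
    apply mul_nonneg (by positivity)
    nlinarith
  nlinarith

theorem sum_ne_zero_of_ratio (a : ℕ → ℝ) (N k : ℕ) (h0 : a 0 = 0)
    (hpos : ∀ j, 1 ≤ j → j ≤ N → 0 < a j) (hzero : ∀ j, N < j → a j = 0)
    (hk1 : 1 ≤ k) (hkN : k ≤ N)
    (hlc : ∀ j, a j * a (j + 2) ≤ a (j + 1) ^ 2)
    (hR : ∀ j, 1 ≤ j → j ≤ k + 1 → a (j - 1) * a (j + 1) ≤ 25 / 37 * a j ^ 2)
    (hR2 : a (k + 1) * a (k + 3) ≤ 20 / 29 * a (k + 2) ^ 2)
    (hR3 : a (k + 2) * a (k + 4) ≤ 7 / 10 * a (k + 3) ^ 2)
    (x : ℂ) (hx : 0 ≤ x.re) (hx0 : x ≠ 0)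
    (hl : a (k - 1) ≤ ‖x‖ * a k) (hr : ‖x‖ * a (k + 1) ≤ a k) :
    ∑ j ∈ Finset.range (N + 1), (a j : ℂ) * x ^ j ≠ 0 := by
  have hrpos : 0 < ‖x‖ := norm_pos_iff.mpr hx0
  set r : ℝ := ‖x‖ with hrdef
  have hak : 0 < a k := hpos k hk1 hkN
  have hnn : ∀ j, 0 ≤ a j := by
    intro j
    rcases Nat.eq_zero_or_pos j with h | h
    · rw [h, h0]
    · rcases le_or_gt j N with h' | h'
      · exact (hpos j h h').le
      · rw [hzero j h']
  -- unit vector
  set u : ℂ := x / (r : ℂ) with hu
  have hrC : (r : ℂ) ≠ 0 := by exact_mod_cast hrpos.ne'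
  have hxu : x = r * u := by rw [hu]; field_simp
  have hun : ‖u‖ = 1 := by
    rw [hu, norm_div, Complex.norm_real, Real.norm_of_nonneg hrpos.le, ← hrdef]
    exact div_self hrpos.ne'
  have huu : u * conj u = 1 := by
    rw [Complex.mul_conj, Complex.normSq_eq_norm_sq, hun]; simp
  have hure : 0 ≤ u.re := by
    rw [hu, Complex.div_ofReal_re]
    exact div_nonneg hx hrpos.le
  have hure1 : u.re ≤ 1 := by
    have := Complex.abs_re_le_norm u
    rw [hun] at this
    exact (abs_le.mp this).2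
  -- normalised coefficients
  set b : ℕ → ℝ := fun j => a j * r ^ j / (a k * r ^ k) with hb
  set D : ℝ := a k * r ^ k with hD
  have hDpos : 0 < D := by positivity
  have hbn : ∀ j, 0 ≤ b j := fun j => div_nonneg (mul_nonneg (hnn j) (pow_nonneg hrpos.le _)) hDpos.le
  have hbk : b k = 1 := by simp only [hb]; exact div_self hDpos.ne'
  set C : ℕ → ℝ := fun j => (u ^ j).re with hC
  have hC0 : C 0 = 1 := by simp [hC]
  have hC1 : C 1 = u.re := by simp [hC]
  have hCm : ∀ j, -1 ≤ C j := by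
    intro j
    have := Complex.abs_re_le_norm (u ^ j)
    rw [norm_pow, hun, one_pow] at this
    exact (abs_le.mp this).1
  have hsq : u.re ^ 2 + u.im ^ 2 = 1 := by
    have := Complex.sq_norm u
    rw [hun, Complex.normSq_apply] at this
    nlinarith
  have hCrec : ∀ j, C (j + 2) = 2 * u.re * C (j + 1) - C j := by
    intro j
    simp only [hC, pow_succ, Complex.mul_re, Complex.mul_im]
    have h1 : u.im ^ 2 = 1 - u.re ^ 2 := by linarith
    ring_nf
    rw [h1]
    ring
  -- ratio inequalities for b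
  have key : ∀ (i j : ℕ) (κ : ℝ), a i * a (i + 2) ≤ κ * a (i + 1) ^ 2 →
      b i * b (i + 2) ≤ κ * b (i + 1) ^ 2 := by
    intro i j κ h
    simp only [hb]
    rw [div_mul_div_comm, div_pow, ← mul_div_assoc, sq D]
    apply div_le_div_of_nonneg_right _ (by positivity)
    calc a i * r ^ i * (a (i + 2) * r ^ (i + 2)) = (a i * a (i + 2)) * (r ^ (i + 1)) ^ 2 := by ring
      _ ≤ (κ * a (i + 1) ^ 2) * (r ^ (i + 1)) ^ 2 :=
          mul_le_mul_of_nonneg_right h (by positivity)
      _ = κ * (a (i + 1) * r ^ (i + 1)) ^ 2 := by ring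
  have hbz : ∀ j, a j = 0 → b j = 0 := by intro j h; simp [hb, h]
  have hbz' : ∀ j, b j = 0 → a j = 0 := by
    intro j h
    simp only [hb] at h
    rcases div_eq_zero_iff.mp h with h | h
    · rcases mul_eq_zero.mp h with h | h
      · exact h
      · exact absurd h (by positivity)
    · exact absurd h hDpos.ne'
  -- right side
  set Tp : ℕ → ℝ := fun i => b (k + i) with hTp
  set Tm : ℕ → ℝ := fun i => b (k - i) with hTm
  have sR : ∀ M, 1 - Tp 2 ≤ ∑ i ∈ range (M + 6), Tp i * C i := by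
    intro M
    apply side Tp C u.re hure hure1 hC0 hC1 hCrec hCm
    · simp [hTp, hbk]
    · simp only [hTp, hb]
      rw [div_le_one hDpos, hD, pow_succ]
      calc a (k + 1) * (r ^ k * r) = (r * a (k + 1)) * r ^ k := by ring
        _ ≤ a k * r ^ k := mul_le_mul_of_nonneg_right hr (by positivity)
    · intro j; exact hbn _
    · intro j h
      simp only [hTp] at h ⊢
      have h1 := hbz' _ h
      apply hbz
      apply hzero
      by_contra hcon
      push Not at hcon
      have := hpos (k + j) (by omega) (by omega)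
      linarith
    · have := key k 0 (25 / 37) (by have := hR (k + 1) (by omega) le_rfl; simpa using this)
      rw [hbk, one_mul] at this
      exact this
    · exact key (k + 1) 0 (20 / 29) hR2
    · exact key (k + 2) 0 (7 / 10) hR3
    · intro j
      have := key (k + j) 0 1 (by rw [one_mul]; exact hlc _)
      rw [one_mul] at this
      exact this
  have sL : ∀ M, 1 - Tm 2 ≤ ∑ i ∈ range (M + 6), Tm i * C i := by
    intro M
    have hq : ∀ j, Tm j * Tm (j + 2) ≤ 25 / 37 * Tm (j + 1) ^ 2 := by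
      intro j
      simp only [hTm]
      rcases le_or_gt k (j + 2) with h | h
      · rw [show k - (j + 2) = 0 by omega, hbz 0 h0, mul_zero]
        positivity
      · have h1 := key (k - (j + 2)) 0 (25 / 37) (by
          have := hR (k - (j + 2) + 1) (by omega) (by omega)
          simpa using this)
        rw [show k - (j + 2) + 2 = k - j by omega, show k - (j + 2) + 1 = k - (j + 1) by omega] at h1
        rw [mul_comm]
        exact h1
    apply side Tm C u.re hure hure1 hC0 hC1 hCrec hCm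
    · simp [hTm, hbk]
    · simp only [hTm, hb]
      rw [div_le_one hDpos, hD]
      obtain ⟨l, rfl⟩ : ∃ l, k = l + 1 := ⟨k - 1, by omega⟩
      simp only [Nat.add_sub_cancel] at hl ⊢
      calc a l * r ^ l ≤ (r * a (l + 1)) * r ^ l := mul_le_mul_of_nonneg_right hl (by positivity)
        _ = a (l + 1) * r ^ (l + 1) := by ring
    · intro j; exact hbn _
    · intro j h
      simp only [hTm] at h ⊢
      have h1 := hbz' _ h
      have : k - j = 0 := by
        by_contra hcon
        have := hpos (k - j) (by omega) (by omega)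
        linarith
      rw [show k - (j + 1) = 0 by omega]
      exact hbz 0 h0
    · have := hq 0
      have e : Tm 0 = 1 := by simp [hTm, hbk]
      rw [e, one_mul] at this
      exact this
    · have := hq 1
      nlinarith [sq_nonneg (Tm 2)]
    · have := hq 2
      nlinarith [sq_nonneg (Tm 3)]
    · intro j
      have := hq j
      nlinarith [sq_nonneg (Tm (j + 1))]
  -- B_2 < 1
  have hB2 : Tp 2 + Tm 2 < 1 := by
    have p1 : Tp 1 ≤ 1 := by
      simp only [hTp, hb]
      rw [div_le_one hDpos, hD, pow_succ]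
      calc a (k + 1) * (r ^ k * r) = (r * a (k + 1)) * r ^ k := by ring
        _ ≤ a k * r ^ k := mul_le_mul_of_nonneg_right hr (by positivity)
    have m1 : Tm 1 ≤ 1 := by
      simp only [hTm, hb]
      rw [div_le_one hDpos, hD]
      obtain ⟨l, hl'⟩ : ∃ l, k = l + 1 := ⟨k - 1, by omega⟩
      have hl2 := hl
      rw [hl'] at hl2 ⊢
      simp only [Nat.add_sub_cancel] at hl2 ⊢
      calc a l * r ^ l ≤ (r * a (l + 1)) * r ^ l := mul_le_mul_of_nonneg_right hl2 (by positivity)
        _ = a (l + 1) * r ^ (l + 1) := by ring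
    have pm : Tm 1 * Tp 1 ≤ 25 / 37 := by
      have := key (k - 1) 0 (25 / 37) (by
        have := hR (k - 1 + 1) (by omega) (by omega)
        simpa using this)
      rw [show k - 1 + 2 = k + 1 by omega, show k - 1 + 1 = k by omega, hbk] at this
      simpa [hTm, hTp] using this
    have p2 : Tp 2 ≤ 25 / 37 * Tp 1 ^ 2 := by
      have := key k 0 (25 / 37) (by have := hR (k + 1) (by omega) le_rfl; simpa using this)
      rw [hbk, one_mul] at this
      exact this
    have m2 : Tm 2 ≤ 25 / 37 * Tm 1 ^ 2 := by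
      simp only [hTm]
      rcases le_or_gt k 2 with h | h
      · rw [show k - 2 = 0 by omega, hbz 0 h0]
        positivity
      · have h1 := key (k - 2) 0 (25 / 37) (by
          have := hR (k - 2 + 1) (by omega) (by omega)
          simpa using this)
        rw [show k - 2 + 2 = k by omega, show k - 2 + 1 = k - 1 by omega, hbk, mul_one] at h1
        exact h1
    have np : 0 ≤ Tp 1 := hbn _
    have nm : 0 ≤ Tm 1 := hbn _
    have e1 : Tp 1 ^ 2 + Tm 1 ^ 2 ≤ 1 + (25 / 37) ^ 2 := by
      have h1 : 0 ≤ (1 - Tp 1 ^ 2) * (1 - Tm 1 ^ 2) := by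
        apply mul_nonneg <;> nlinarith
      have h2 : (Tm 1 * Tp 1) ^ 2 ≤ (25 / 37) ^ 2 := by
        apply pow_le_pow_left₀ (by positivity) pm
      nlinarith
    nlinarith
  -- real part
  intro hsum
  have hre : (∑ j ∈ range (N + 1), (b j : ℂ) * (u ^ j * conj u ^ k)).re = 0 := by
    have : ∑ j ∈ range (N + 1), (b j : ℂ) * (u ^ j * conj u ^ k) = 0 := by
      have e : ∀ j ∈ range (N + 1), (b j : ℂ) * (u ^ j * conj u ^ k) =
          (conj u ^ k / D) * ((a j : ℂ) * x ^ j) := by
        intro j _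
        simp only [hb]
        push_cast
        rw [hxu, mul_pow]
        ring
      rw [sum_congr rfl e, ← mul_sum, hsum, mul_zero]
    rw [this]; simp
  have hterm : ∀ j, (u ^ j * conj u ^ k).re = C ((j - k) + (k - j)) := by
    intro j
    rcases le_total k j with h | h
    · obtain ⟨l, rfl⟩ : ∃ l, j = k + l := ⟨j - k, by omega⟩
      rw [show (k + l - k) + (k - (k + l)) = l by omega, pow_add]
      have : u ^ k * u ^ l * conj u ^ k = u ^ l := by
        calc u ^ k * u ^ l * conj u ^ k = (u * conj u) ^ k * u ^ l := by rw [mul_pow]; ring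
          _ = u ^ l := by rw [huu, one_pow, one_mul]
      rw [this]
    · obtain ⟨l, hl'⟩ : ∃ l, k = j + l := ⟨k - j, by omega⟩
      rw [hl', show (j - (j + l)) + (j + l - j) = l by omega, pow_add]
      have : u ^ j * (conj u ^ j * conj u ^ l) = conj (u ^ l) := by
        calc u ^ j * (conj u ^ j * conj u ^ l) = (u * conj u) ^ j * conj u ^ l := by
              rw [mul_pow]; ring
          _ = conj (u ^ l) := by rw [huu, one_pow, one_mul, map_pow]
      rw [this, Complex.conj_re]
  have hre2 : ∑ j ∈ range (N + 1), b j * C ((j - k) + (k - j)) = 0 := by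
    rw [← hre, Complex.re_sum]
    apply sum_congr rfl
    intro j _
    rw [Complex.re_ofReal_mul, hterm]
  have hsplit : ∑ j ∈ range (N + 1), b j * C ((j - k) + (k - j)) =
      ∑ i ∈ range (N + 1 + 6), Tp i * C i + ∑ i ∈ range (N + 1 + 6), Tm i * C i - 1 := by
    have h1 : ∑ j ∈ range (N + 1), b j * C ((j - k) + (k - j)) =
        ∑ j ∈ range k, b j * C ((j - k) + (k - j)) +
        ∑ j ∈ Ico k (N + 1), b j * C ((j - k) + (k - j)) := by
      rw [sum_range_add_sum_Ico _ (by omega)]
    have h2 : ∑ j ∈ Ico k (N + 1), b j * C ((j - k) + (k - j)) =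
        ∑ i ∈ range (N + 1 + 6), Tp i * C i := by
      rw [sum_Ico_eq_sum_range]
      have : ∑ i ∈ range (N + 1 - k), b (k + i) * C ((k + i - k) + (k - (k + i))) =
          ∑ i ∈ range (N + 1 - k), Tp i * C i := by
        apply sum_congr rfl
        intro i _
        rw [show (k + i - k) + (k - (k + i)) = i by omega]
      rw [this]
      apply sum_subset
      · intro i hi
        simp only [mem_range] at hi ⊢
        omega
      · intro i _ hi
        simp only [mem_range, not_lt] at hi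
        have : Tp i = 0 := hbz _ (hzero _ (by omega))
        rw [this, zero_mul]
    have h3 : ∑ j ∈ range k, b j * C ((j - k) + (k - j)) =
        ∑ i ∈ range (N + 1 + 6), Tm i * C i - 1 := by
      have e1 : ∑ j ∈ range k, b j * C ((j - k) + (k - j)) = ∑ i ∈ range k, Tm (i + 1) * C (i + 1) := by
        rw [← sum_range_reflect]
        apply sum_congr rfl
        intro i hi
        simp only [mem_range] at hi
        rw [show (k - 1 - i - k) + (k - (k - 1 - i)) = i + 1 by omega]
        simp only [hTm]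
        rw [show k - 1 - i = k - (i + 1) by omega]
      have e2 : ∑ i ∈ range (N + 1 + 6), Tm i * C i =
          ∑ i ∈ range (N + 6), Tm (i + 1) * C (i + 1) + 1 := by
        rw [show N + 1 + 6 = (N + 6) + 1 by ring, sum_range_succ']
        congr 1
        rw [hC0]
        simp [hTm, hbk]
      rw [e1, e2, add_sub_cancel_right]
      apply sum_subset
      · intro i hi
        simp only [mem_range] at hi ⊢
        omega
      · intro i _ hi
        simp only [mem_range, not_lt] at hi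
        have : Tm (i + 1) = 0 := by
          simp only [hTm]
          rw [show k - (i + 1) = 0 by omega]
          exact hbz 0 h0
        rw [this, zero_mul]
    rw [h1, h2, h3]
    ring
  rw [hsplit] at hre2
  have := sR (N + 1)
  have := sL (N + 1)
  linarith

end ST3
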