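import Pool.Agent.Helper2.ST.R03
import Pool.Agent.Helper2.ST.R04
import Pool.Agent.Helper2.ST.R05

/-!
# ST-R06: no zeros for small `|x|`

PROOFS.
* `small_of_ratio`: let `a_j = S3 n j`; `a_0 = 0`, `a_j > 0` iff `1 <= j <= n`. Let `k'` be the
  smallest index `>= 1` with `|x| a_{k'+1} <= a_{k'}`; `k' <= k`, `k' <= n` by `n >= 1000` and
  `81 (k+1)^2 <= 196 n` (so `k + 4 <= n`), and `a_{k'-1} <= |x| a_{k'}` by minimality (or
  `a_0 = 0`). Apply `sum_ne_zero_of_ratio`: the ratio bounds come from `ratio_gen` with `L_148` for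
  `2 <= j <= k'+1` (`81 j^2 <= 81 (k+1)^2 <= 196 n`), `L_145` for `j = k'+2`, `L_143` for
  `j = k'+3`; for `j = 1` the left side is `0`.
* `small_x`: `a_k/a_{k+1} >= (1-eta) (k^N/k!) (k+1)!/(k+1)^(N+2) = (1-eta) (k/(k+1))^N/(k+1)`,
  `N = n+2k`, by `S3_ge`, `eta_le`, `S3_le`.
-/

namespace ST3

theorem small_of_ratio (n k : ℕ) (hn : 1000 ≤ n) (hk : 1 ≤ k) (h : 81 * (k + 1) ^ 2 ≤ 196 * n)
    (x : ℂ) (hx : 0 ≤ x.re) (hx0 : x ≠ 0) (hr : ‖x‖ * (S3 n (k + 1) : ℝ) ≤ (S3 n k : ℝ)) :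
    s n x ≠ 0 := by
  classical
  have hex : ∃ j, 1 ≤ j ∧ ‖x‖ * (S3 n (j + 1) : ℝ) ≤ (S3 n j : ℝ) := ⟨k, hk, hr⟩
  have hspec := Nat.find_spec hex
  have hmin := fun m => Nat.find_min hex (m := m)
  have hle : Nat.find hex ≤ k := Nat.find_min' hex ⟨hk, hr⟩
  set l := Nat.find hex with hl
  have hkn : k + 4 ≤ n := by
    by_contra hcon
    have h1 : n - 2 ≤ k + 1 := by omega
    have h2 : 81 * (n - 2) ^ 2 ≤ 196 * n := le_trans (by gcongr) h
    obtain ⟨m, rfl⟩ : ∃ m, n = m + 2 := ⟨n - 2, by omega⟩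
    rw [Nat.add_sub_cancel] at h2
    have h3 : 998 * m ≤ m ^ 2 := by
      rw [pow_two]
      exact Nat.mul_le_mul_right _ (by omega)
    have h4 : m ^ 2 * 81 = 81 * m ^ 2 := by ring
    generalize m ^ 2 = q at *
    omega
  have hlk : 81 * (l + 1) ^ 2 ≤ 196 * n := le_trans (by gcongr) h
  have hnn : ∀ j, (0 : ℝ) ≤ (S3 n j : ℝ) := fun j => Nat.cast_nonneg _
  have step : ∀ (j : ℕ) (c : ℝ), 0 < c → 2 ≤ j → 81 * (j - 2) ^ 2 ≤ 196 * n →
      c ≤ Real.exp ((n : ℝ) / (j : ℝ) ^ 2 + 2 / (j : ℝ)) *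
        (((j : ℝ) - 1) ^ 2 / ((j : ℝ) * ((j : ℝ) + 1))) * (9998 / 10000) →
      (S3 n (j - 1) : ℝ) * (S3 n (j + 1) : ℝ) ≤ c⁻¹ * (S3 n j : ℝ) ^ 2 := by
    intro j c hc hj h1 h2
    have h3 := ratio_gen n j hn hj h1
    have h4 : (S3 n (j - 1) : ℝ) * (S3 n (j + 1) : ℝ) * c ≤ (S3 n j : ℝ) ^ 2 :=
      le_trans (mul_le_mul_of_nonneg_left h2 (mul_nonneg (hnn _) (hnn _))) h3
    rw [inv_mul_eq_div, le_div_iff₀ hc]
    exact h4
  have hmain := sum_ne_zero_of_ratio (fun j => (S3 n j : ℝ)) n l ?_ ?_ ?_ hspec.1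
    (le_trans hle (by omega)) ?_ ?_ ?_ ?_ x hx hx0 ?_ hspec.2
  · unfold s
    refine fun hz => hmain ?_
    rw [← hz]
    refine Finset.sum_congr rfl fun j _ => ?_
    rw [Complex.ofReal_natCast]
  · rw [S3_zero_right (by omega)]
    norm_num
  · intro j h1 h2
    exact_mod_cast S3_pos h1 h2
  · intro j h1
    rw [S3_eq_zero h1]
    norm_num
  · intro j
    exact_mod_cast S3_logconcave n j
  · intro j h1 h2
    rcases Nat.lt_or_ge j 2 with h3 | h3
    · have : j = 1 := by omega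
      subst this
      simp only [Nat.sub_self]
      rw [S3_zero_right (by omega)]
      have := sq_nonneg ((S3 n 1 : ℝ))
      norm_num
    · have h4 : 81 * j ^ 2 ≤ 196 * n := le_trans (by gcongr) hlk
      have h5 : 81 * (j - 2) ^ 2 ≤ 196 * n :=
        le_trans (Nat.mul_le_mul_left _ (Nat.pow_le_pow_left (Nat.sub_le _ _) 2)) h4
      have h6 := step j (37 / 25) (by norm_num) h3 h5 (L_148 n j hn h3 h4)
      have e : ((37 : ℝ) / 25)⁻¹ = 25 / 37 := by norm_num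
      rw [e] at h6
      exact h6
  · have h4 : 81 * (l + 2 - 1) ^ 2 ≤ 196 * n := hlk
    have h5 : 81 * (l + 2 - 2) ^ 2 ≤ 196 * n :=
      le_trans (Nat.mul_le_mul_left _ (Nat.pow_le_pow_left (by omega) 2)) hlk
    have h6 := step (l + 2) (29 / 20) (by norm_num) (by omega) h5
      (L_145 n (l + 2) hn (by omega) h4)
    have e : ((29 : ℝ) / 20)⁻¹ = 20 / 29 := by norm_num
    rw [e] at h6
    exact h6
  · have h4 : 81 * (l + 3 - 2) ^ 2 ≤ 196 * n := hlk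
    have h6 := step (l + 3) (10 / 7) (by norm_num) (by omega) h4
      (L_143 n (l + 3) hn (by omega) h4)
    have e : ((10 : ℝ) / 7)⁻¹ = 7 / 10 := by norm_num
    rw [e] at h6
    exact h6
  · rcases Nat.lt_or_ge l 2 with h3 | h3
    · have h4 : l - 1 = 0 := by omega
      rw [h4, S3_zero_right (by omega)]
      have := hnn l
      have := norm_nonneg x
      push_cast
      positivity
    · have h4 := hmin (l - 1) (by omega)
      push Not at h4
      have h5 := h4 (by omega)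
      rw [show l - 1 + 1 = l by omega] at h5
      exact h5.le

theorem small_x (n k : ℕ) (hn : 1000 ≤ n) (hk : 1 ≤ k) (h : 81 * (k + 1) ^ 2 ≤ 196 * n)
    (x : ℂ) (hx : 0 ≤ x.re) (hx0 : x ≠ 0)
    (hr : ‖x‖ ≤ 9999 / 10000 * ((k : ℝ) / ((k : ℝ) + 1)) ^ (n + 2 * k) / ((k : ℝ) + 1)) :
    s n x ≠ 0 := by
  apply small_of_ratio n k hn hk h x hx hx0
  have h1 := S3_le n (k + 1)
  have h2 := S3_ge n k hk
  have h3 := eta_le n k hn hk
    (le_trans (Nat.mul_le_mul_left _ (Nat.pow_le_pow_left (by omega) 2)) h)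
  have hK0 : (0 : ℝ) ≤ (k : ℝ) := Nat.cast_nonneg _
  have hf : (0 : ℝ) < (k.factorial : ℝ) := by exact_mod_cast Nat.factorial_pos k
  have hK1 : (0 : ℝ) < (k : ℝ) + 1 := by linarith
  calc ‖x‖ * (S3 n (k + 1) : ℝ)
      ≤ (9999 / 10000 * ((k : ℝ) / ((k : ℝ) + 1)) ^ (n + 2 * k) / ((k : ℝ) + 1)) *
        (((k + 1 : ℕ) : ℝ) ^ (n + 2 * (k + 1)) / ((k + 1).factorial : ℝ)) := by
        apply mul_le_mul hr h1 (Nat.cast_nonneg _) (by positivity)
    _ = (k : ℝ) ^ (n + 2 * k) / (k.factorial : ℝ) * (9999 / 10000) := by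
        rw [Nat.factorial_succ]
        push_cast
        rw [div_pow, show n + 2 * (k + 1) = n + 2 * k + 2 by ring, pow_add ((k : ℝ) + 1)]
        field_simp
        ring
    _ ≤ (k : ℝ) ^ (n + 2 * k) / (k.factorial : ℝ) * (1 - eta n k) := by
        apply mul_le_mul_of_nonneg_left _ (by positivity)
        linarith
    _ ≤ (S3 n k : ℝ) := h2

end ST3
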