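import Pool.Agent.Helper2.ST.M4
import Pool.Agent.Helper2.ST.M5
import Pool.Agent.Helper2.ST.R06

/-!
# ST-M6: a zero forces the saddle into `|z| <= (2/3) sqrt n + 5/2`

PROOF. Let `z = Zf w in P`, and suppose `|z| > (2/3) sqrt n + 5/2 >= 23`. Let `k` be the largest integer
with `81 (k+1)^2 <= 196 n` (`k >= 40`). From `n e^w = x (n VV z)^2` and `GG 1 z = e^{-w}`:
`|x| = 1/(n |VV z|^2 |GG 1 z|)`. `|VV z| >= 1` (`VV_re`). `z in St 7`: `|Im z| <= 21/8`, `Re z > 0`, and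
`|z| - Re z = (Im z)^2/(|z| + Re z) <= 6.9/46 = 3/20`. `X18`: `|GG 1 z| >= e^{Re z} (|z| - 2.01)/|z|^2 >=
e^{|z| - 3/20} (|z| - 2.01)/|z|^2`. By `threshold`:
`1/|x| >= n |GG 1 z| >= (10000/9999) (k+1) ((k+1)/k)^{n+2k}`, so
`|x| <= (9999/10000) (k/(k+1))^{n+2k}/(k+1)` and `small_x` gives `s n x != 0`.
-/

namespace ST3

open Complex

theorem saddle_norm_le (n : ℕ) (hn : 1000 ≤ n) (x : ℂ) (hx : 0 ≤ x.re) (hx0 : x ≠ 0)
    (hs : s n x = 0) {w : ℂ} (hw : w ∈ S)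
    (hxw : (n : ℂ) * exp w = x * ((n : ℂ) * VV (Zf w)) ^ 2) :
    ‖Zf w‖ ≤ 2 / 3 * Real.sqrt n + 5 / 2 := by
  by_contra hcon
  push Not at hcon
  have hz := Zf_mem hw
  have hG := GG1_Zf hw
  set z : ℂ := Zf w with hzdef
  have hnR : (1000 : ℝ) ≤ (n : ℝ) := by exact_mod_cast hn
  have hn0 : (0 : ℝ) < (n : ℝ) := by linarith
  have hsq : (316 / 10 : ℝ) ≤ Real.sqrt n := by
    apply Real.le_sqrt_of_sq_le
    norm_num
    linarith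
  have hz23 : (235 / 10 : ℝ) < ‖z‖ := by linarith
  have him : |z.im| ≤ 21 / 8 := P_im_lt hz
  have hre0 : -(3 / 8) < z.re := hz.2.2.1
  have hsum : ‖z‖ ^ 2 = z.re ^ 2 + z.im ^ 2 := by
    rw [Complex.sq_norm, Complex.normSq_apply]
    ring
  have him2 : z.im ^ 2 ≤ (21 / 8) ^ 2 := by
    rw [← sq_abs z.im]
    exact pow_le_pow_left₀ (abs_nonneg _) him 2
  have hre20 : 20 ≤ z.re := by
    by_contra hlt
    push Not at hlt
    nlinarith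
  have hre : ‖z‖ - 3 / 20 ≤ z.re := by
    by_contra hlt
    push Not at hlt
    nlinarith
  have hSt : z ∈ St 7 := ⟨by linarith, him⟩
  have hX := X18 hSt
  -- the index `k`
  obtain ⟨k, hk1, hk2, hk48⟩ : ∃ k : ℕ, 81 * (k + 1) ^ 2 ≤ 196 * n ∧
      196 * n < 81 * (k + 2) ^ 2 ∧ 1 ≤ k := by
    have h1 : Nat.sqrt (196 * n / 81) ^ 2 ≤ 196 * n / 81 := Nat.sqrt_le' _
    have h2 : 196 * n / 81 < (Nat.sqrt (196 * n / 81) + 1) ^ 2 := Nat.lt_succ_sqrt' _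
    have h3 : 2 ≤ Nat.sqrt (196 * n / 81) := by
      rw [Nat.le_sqrt']
      omega
    obtain ⟨k, hk⟩ : ∃ k, Nat.sqrt (196 * n / 81) = k + 1 :=
      ⟨Nat.sqrt (196 * n / 81) - 1, by omega⟩
    rw [hk] at h1 h2 h3
    refine ⟨k, ?_, ?_, by omega⟩
    · generalize (k + 1) ^ 2 = a at *
      omega
    · have : k + 1 + 1 = k + 2 := rfl
      rw [this] at h2
      generalize (k + 2) ^ 2 = a at *
      omega
  have hth := threshold n k hn hk1 hk2 ‖z‖ hcon.le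
  have hkR : (1 : ℝ) ≤ (k : ℝ) := by exact_mod_cast hk48
  set B : ℝ := 10000 / 9999 * ((k : ℝ) + 1) * (((k : ℝ) + 1) / (k : ℝ)) ^ (n + 2 * k) with hB
  have hB0 : 0 < B := by positivity
  have hGB : B ≤ (n : ℝ) * ‖GG 1 z‖ := by
    refine hth.trans (mul_le_mul_of_nonneg_left (le_trans ?_ hX) hn0.le)
    have h5 : Real.exp (‖z‖ - 3 / 20) ≤ Real.exp z.re := Real.exp_le_exp.2 hre
    have h6 : 0 ≤ ‖z‖ - 201 / 100 := by linarith
    gcongr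
  have hV : 1 ≤ ‖VV z‖ := (VV_re hz).trans ((le_abs_self _).trans (Complex.abs_re_le_norm _))
  have hGn : ‖GG 1 z‖ * ‖Complex.exp w‖ = 1 := by
    rw [hG, ← norm_mul, ← Complex.exp_add, neg_add_cancel, Complex.exp_zero, norm_one]
  have hGpos : 0 < ‖GG 1 z‖ := by
    rcases (norm_nonneg (GG 1 z)).lt_or_eq with h | h
    · exact h
    · rw [← h, zero_mul] at hGn
      norm_num at hGn
  have hnorm : (n : ℝ) * ‖Complex.exp w‖ = ‖x‖ * ((n : ℝ) * ‖VV z‖) ^ 2 := by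
    have h7 := congrArg norm hxw
    rw [norm_mul, norm_mul, norm_pow, norm_mul, Complex.norm_natCast] at h7
    exact h7
  have hxB : ‖x‖ * B ≤ 1 := by
    have h8 : ‖x‖ * ((n : ℝ) * ‖GG 1 z‖) * ‖VV z‖ ^ 2 = 1 := by
      have h9 : (n : ℝ) * (‖x‖ * ((n : ℝ) * ‖GG 1 z‖) * ‖VV z‖ ^ 2) = (n : ℝ) * 1 := by
        calc (n : ℝ) * (‖x‖ * ((n : ℝ) * ‖GG 1 z‖) * ‖VV z‖ ^ 2)
            = (‖x‖ * ((n : ℝ) * ‖VV z‖) ^ 2) * ‖GG 1 z‖ := by ring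
          _ = ((n : ℝ) * ‖Complex.exp w‖) * ‖GG 1 z‖ := by rw [hnorm]
          _ = (n : ℝ) * (‖GG 1 z‖ * ‖Complex.exp w‖) := by ring
          _ = (n : ℝ) * 1 := by rw [hGn]
      exact mul_left_cancel₀ hn0.ne' h9
    have h10 : 1 ≤ ‖VV z‖ ^ 2 := one_le_pow₀ hV
    have h11 : 0 ≤ ‖x‖ * ((n : ℝ) * ‖GG 1 z‖) := by positivity
    calc ‖x‖ * B ≤ ‖x‖ * ((n : ℝ) * ‖GG 1 z‖) := mul_le_mul_of_nonneg_left hGB (norm_nonneg _)
      _ ≤ ‖x‖ * ((n : ℝ) * ‖GG 1 z‖) * ‖VV z‖ ^ 2 := le_mul_of_one_le_right h11 h10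
      _ = 1 := h8
  refine small_x n k hn hk48 hk1 x hx hx0 ?_ hs
  have hinv : 9999 / 10000 * ((k : ℝ) / ((k : ℝ) + 1)) ^ (n + 2 * k) / ((k : ℝ) + 1) * B = 1 := by
    rw [hB]
    have h12 : ((k : ℝ) / ((k : ℝ) + 1)) ^ (n + 2 * k) *
        (((k : ℝ) + 1) / (k : ℝ)) ^ (n + 2 * k) = 1 := by
      rw [← mul_pow]
      have : (k : ℝ) / ((k : ℝ) + 1) * (((k : ℝ) + 1) / (k : ℝ)) = 1 := by
        field_simp
      rw [this, one_pow]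
    have h13 : (k : ℝ) + 1 ≠ 0 := by positivity
    generalize ((k : ℝ) / ((k : ℝ) + 1)) ^ (n + 2 * k) = a at *
    generalize (((k : ℝ) + 1) / (k : ℝ)) ^ (n + 2 * k) = b at *
    calc 9999 / 10000 * a / ((k : ℝ) + 1) * (10000 / 9999 * ((k : ℝ) + 1) * b)
        = (a * b) * (((k : ℝ) + 1) / ((k : ℝ) + 1)) := by ring
      _ = 1 := by rw [h12, div_self h13, one_mul]
  refine le_of_mul_le_mul_right ?_ hB0
  rw [hinv]
  exact hxB

end ST3
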