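import Pool.Agent.Helper2.ST.NC
import Pool.Agent.Helper2.ST.Bridge
import Pool.Agent.Helper8.STR.E04

/-!
# ST-Ring: the middle ring (block of helper8)
-/

namespace ST3

open Complex

theorem ring_J (n : ℕ) (hn : 1000 ≤ n) {z : ℂ} (hz : z ∈ P) (h1 : 9 / 2 ≤ ‖z‖) (h2 : ‖z‖ ≤ 8) :
    ‖J n z * (2 * (Real.pi : ℂ) * (n : ℂ) * kap z) ^ (1 / 2 : ℂ) - 1‖ ≤ 1 / 3 ∧ ‖J n z‖ ≤ 1 := by
  have him : z.im < 0 := hz.1
  have him2 : -(21 / 8) < z.im := hz.2.2.2.2.2.2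
  have hre : -(3 / 8) < z.re := hz.2.2.1
  have hre0 : 0 < z.re := by
    by_contra hcon
    push Not at hcon
    have e1 : ‖z‖ ^ 2 = z.re ^ 2 + z.im ^ 2 := by
      rw [Complex.sq_norm, Complex.normSq_apply]
      ring
    nlinarith
  obtain ⟨hRg, hzz⟩ := STR.rg_of h1 h2 him.le him2.le hre0
  have hcr : ∀ b : ℝ, |b| ≤ Real.pi → (SCE.hh z b).re ≤ 0 := by
    intro b hb
    have := STR.re_hh_nonpos hRg hb
    rwa [hzz] at this
  refine ⟨?_, bridge_crude n hz hcr⟩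
  have hsh := STR.sharp (n := (n : ℝ)) hRg (by exact_mod_cast hn)
  rw [hzz] at hsh
  have := bridge_sharp (by omega) hz hsh
  linarith

end ST3
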