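import Pool.Agent.Helper2.ST.JA8
import Pool.Agent.Helper2.ST.Ring
import Pool.Agent.Helper2.ST.M1
import Pool.Agent.Helper2.ST.M3
import Pool.Agent.Helper2.ST.M6
import Pool.Agent.Helper2.ST.L7

/-!
# ST-M7: no zeros in the right half plane for `n >= 1000`

PROOFS.
* `J_crude`: cases `|z| <= 9/2` (`J_small_crude`), `9/2 <= |z| <= 8` (`ring_J`), `8 <= |z|` (`J_big_crude`).
* `J_sharp`: `J_small_sharp`, `ring_J`, `J_big_sharp`.
* `upper`: `x` with `Im x > 0`, `Re x >= 0`. Suppose `s n x = 0`. `zeta = log (n x)`, `Im zeta = arg x in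
  (0, pi/2]`, `exp zeta = n x`. `saddle` gives `w in S`, `w = zeta + 2 log V_0`, `V_0 = VV (Zf w)`;
  `n e^w = n (n x) V_0^2 = x (n V_0)^2`. `s_eq`, and all factors except the integral are nonzero
  (`Re V_0 >= 1`). Apply `laplace` with `V t = VV (Zf (w+t))`, `V' t = V1 (Zf (w+t))`,
  `V'' t = V2 (Zf (w+t))`, `K t = kap (Zf (w+t))`, `K' t = -tk/kap`, `B = BB w`,
  `Jf t = J n (Zf (w+t))` (chain rule with the real variable: `HasDerivAt.comp_ofReal`, `VZ_hasDerivAt`,
  `V1Z_hasDerivAt`, `kZ_hasDerivAt`, `add_mem_S`). The bounds: `V1_le`, `VV_im_le`, `VV_re`, `tk_le`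
  (`|K'| = |tk|/|kap| <= (3/4)|kap|`), `kap_re`. `|K 0| <= sqrt n`: `kap = VV - 2 + z`,
  `|kap| <= |z| + 5.3`; if `Re z >= 7`: `X1`: `|kap| <= |z| <= (2/3) sqrt n + 5/2 <= sqrt n`; otherwise
  `|z| <= 7.5`, `|kap| <= 13 <= sqrt n`. `J_crude` for `hJ1` (`F (Zf w) = w in S`), `J_sharp` for `hJ`:
  `|Zf (w+t)| <= (2/3) sqrt n + 7/2` (if `|Zf (w+t)| < 8` trivial, else `path_a` and `saddle_norm_le`),
  `path_im`. `hcase`: `Re Zf w <= 8`: first alternative by `N7`, `VV_norm`, `V2_le`; `Re Zf w >= 8`: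
  second by `X7`, `X6`, `path_b` and `X3`.
* `nonzero_big`: `Im x = 0`: `x > 0` real, `s n x > 0` (`S3_pos`, the term `k = 1`). `Im x < 0`: conjugate,
  `s n (conj x) = conj (s n x)`.
-/

namespace ST3

open Complex

theorem J_crude (n : ℕ) (hn : 1000 ≤ n) {z : ℂ} (hz : z ∈ P) (hF : F z ∈ S) : ‖J n z‖ ≤ 1 := by
  rcases le_total ‖z‖ (9 / 2) with h | h
  · exact J_small_crude n hz hF h
  · rcases le_total ‖z‖ 8 with h8 | h8
    · exact (ring_J n hn hz h h8).2
    · exact J_big_crude n hz h8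

theorem J_sharp (n : ℕ) (hn : 1000 ≤ n) {z : ℂ} (hz : z ∈ P) (hF : F z ∈ S)
    (him : 8 ≤ ‖z‖ → -(9 / 4) ≤ z.im) (hR : ‖z‖ ≤ 2 / 3 * Real.sqrt n + 7 / 2) :
    ‖J n z * (2 * (Real.pi : ℂ) * (n : ℂ) * kap z) ^ (1 / 2 : ℂ) - 1‖ ≤ 1 / 3 := by
  rcases le_total ‖z‖ (9 / 2) with h | h
  · exact J_small_sharp n hn hz hF h
  · rcases le_total ‖z‖ 8 with h8 | h8
    · exact (ring_J n hn hz h h8).1
    · exact J_big_sharp n hn hz h8 (him h8) hR

private theorem m7_real {f : ℂ → ℂ} {f' : ℂ} {w : ℂ} {t : ℝ} (h : HasDerivAt f f' (w + (t : ℂ))) :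
    HasDerivAt (fun t : ℝ => f (w + (t : ℂ))) f' t :=
  HasDerivAt.comp_ofReal (HasDerivAt.comp_const_add w (t : ℂ) h)

private theorem m7_kap {z : ℂ} (hz : z ∈ P) {n : ℕ} (hn : 1000 ≤ n)
    (h : ‖z‖ ≤ 2 / 3 * Real.sqrt n + 5 / 2) : ‖kap z‖ ≤ Real.sqrt n := by
  have hs : (31 : ℝ) ≤ Real.sqrt n := by
    apply Real.le_sqrt_of_sq_le
    have : (1000 : ℝ) ≤ n := by exact_mod_cast hn
    linarith
  have him := P_im_lt hz
  rcases le_total 7 z.re with h7 | h7
  · have := (X1 (z := z) ⟨h7, him⟩).2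
    linarith
  · have h1 : kap z = VV z - 2 + z := by
      unfold VV
      ring
    have h2 : ‖kap z‖ ≤ ‖VV z‖ + 2 + ‖z‖ := by
      rw [h1]
      refine (norm_add_le _ _).trans ?_
      have := norm_sub_le (VV z) 2
      rw [Complex.norm_ofNat] at this
      linarith
    have h3 := VV_norm hz
    have h4 : ‖z‖ ≤ |z.re| + |z.im| := Complex.norm_le_abs_re_add_abs_im z
    have h5 : |z.re| ≤ 7 := by
      rw [abs_le]
      have := hz.2.2.1
      constructor <;> linarith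
    linarith

theorem upper (n : ℕ) (hn : 1000 ≤ n) (x : ℂ) (hx : 0 ≤ x.re) (him : 0 < x.im) : s n x ≠ 0 := by
  intro hs
  have hn0 : (0 : ℝ) < n := by
    have : 0 < n := by omega
    exact_mod_cast this
  have hnC : (n : ℂ) ≠ 0 := by
    have : n ≠ 0 := by omega
    exact_mod_cast this
  have hx0 : x ≠ 0 := by
    intro h
    rw [h] at him
    simp at him
  have hs31 : (31 : ℝ) ≤ Real.sqrt n := by
    apply Real.le_sqrt_of_sq_le
    have : (1000 : ℝ) ≤ n := by exact_mod_cast hn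
    linarith
  obtain ⟨ζ, hζ⟩ : ∃ ζ : ℂ, ζ = Complex.log ((n : ℂ) * x) := ⟨_, rfl⟩
  have hnx : (n : ℂ) * x ≠ 0 := mul_ne_zero hnC hx0
  have hexp : exp ζ = (n : ℂ) * x := by rw [hζ, Complex.exp_log hnx]
  have hzim : ζ.im = Complex.arg x := by
    rw [hζ, Complex.log_im, show (n : ℂ) = ((n : ℝ) : ℂ) by simp, Complex.arg_real_mul x hn0]
  have h0 : 0 < ζ.im := by
    rw [hzim]
    refine lt_of_le_of_ne (Complex.arg_nonneg_iff.2 him.le) fun h => ?_
    have := (Complex.arg_eq_zero_iff.1 h.symm).2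
    linarith
  have h1 : ζ.im ≤ Real.pi / 2 := by
    rw [hzim]
    exact (le_abs_self _).trans (Complex.abs_arg_le_pi_div_two_iff.2 hx)
  obtain ⟨w, hw, hfix⟩ := saddle h0 h1
  have hz := Zf_mem hw
  have hVne : VV (Zf w) ≠ 0 := by
    intro h
    have := VV_re hz
    rw [h] at this
    norm_num at this
  have hxw : (n : ℂ) * exp w = x * ((n : ℂ) * VV (Zf w)) ^ 2 := by
    have h2 : exp w = (n : ℂ) * x * VV (Zf w) ^ 2 := by
      have h3 : exp w = exp (ζ + 2 * Complex.log (VV (Zf w))) := by rw [← hfix]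
      rw [h3, Complex.exp_add, hexp]
      congr 1
      rw [show (2 : ℂ) * Complex.log (VV (Zf w)) = ((2 : ℕ) : ℂ) * Complex.log (VV (Zf w)) by
        push_cast; rfl, Complex.exp_nat_mul, Complex.exp_log hVne]
    rw [h2]
    ring
  have hnorm := saddle_norm_le n hn x hx hx0 hs hw hxw
  have hseq := s_eq n (by omega) x hw hxw
  rw [hs] at hseq
  have hmem : ∀ t : ℝ, Zf (w + t) ∈ P := fun t => Zf_mem (add_mem_S hw t)
  have hFm : ∀ t : ℝ, F (Zf (w + t)) ∈ S := fun t => by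
    rw [F_Zf (add_mem_S hw t)]
    exact add_mem_S hw t
  have hw0 : w + ((0 : ℝ) : ℂ) = w := by simp
  have hlap := laplace n hn (fun t : ℝ => VV (Zf (w + t))) (fun t : ℝ => V1 (Zf (w + t)))
    (fun t : ℝ => V2 (Zf (w + t))) (fun t : ℝ => kap (Zf (w + t)))
    (fun t : ℝ => -(tk (Zf (w + t))) / kap (Zf (w + t))) (BB w) (fun t : ℝ => J n (Zf (w + t)))
    (fun t => m7_real (VZ_hasDerivAt (add_mem_S hw t)))
    (fun t => m7_real (V1Z_hasDerivAt (add_mem_S hw t)))
    (fun t => V1_le (hmem t)) (fun t => VV_im_le (hmem t)) (fun t => VV_re (hmem t))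
    (fun t => m7_real (kZ_hasDerivAt (add_mem_S hw t)))
    (fun t => by
      have h2 := tk_le (hmem t)
      have h3 : 0 < ‖kap (Zf (w + t))‖ := norm_pos_iff.2 (kap_ne (hmem t))
      rw [norm_div, norm_neg, div_le_iff₀ h3]
      calc ‖tk (Zf (w + t))‖ ≤ 3 / 4 * ‖kap (Zf (w + t))‖ ^ 2 := h2
        _ = _ := by ring)
    (fun t => by
      have := kap_re (hmem t)
      linarith)
    (by
      simp only [hw0]
      exact m7_kap hz hn hnorm)
    (fun t => BB_hasDerivAt hw t) (BB_zero w) (J_path_continuous n hw)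
    (fun t => J_crude n hn (hmem t) (hFm t))
    (fun t ht => by
      refine J_sharp n hn (hmem t) (hFm t) (fun h8 => path_im hw h1 hfix ht h8) ?_
      rcases le_total 8 ‖Zf (w + t)‖ with h8 | h8
      · have h2 := (path_a hw ht h8).1
        have h3 := norm_le_norm_add_norm_sub' (Zf (w + t)) (Zf w)
        linarith
      · linarith)
    (by
      simp only [hw0]
      rcases le_total (Zf w).re 8 with h8 | h8
      · left
        obtain ⟨a1, a2⟩ := N7 (closure_P_subset_Q (subset_closure hz)) (P_ne_zero hz) h8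
        exact ⟨a1, a2, VV_norm hz, fun t _ => V2_le (hmem t)⟩
      · right
        have hst : Zf w ∈ St 8 := ⟨h8, P_im_lt hz⟩
        obtain ⟨a1, a2⟩ := X7 hst
        refine ⟨a1, a2, (X6 hst).2, fun t ht => ?_⟩
        exact X3 ⟨path_b hw h8 (by linarith), P_im_lt (hmem t)⟩)
  have hne : (1 / 2 : ℂ) * (exp (-((n : ℂ) * VV (Zf w))) * ((n : ℂ) * VV (Zf w)) ^ (n + 1) *
      exp ((n : ℂ) * (VV (Zf w) - 1) / 2) * exp (-((n : ℂ) * Complex.log (Zf w)))) ≠ 0 :=
    mul_ne_zero (by norm_num) (mul_ne_zero (mul_ne_zero (mul_ne_zero (Complex.exp_ne_zero _)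
      (pow_ne_zero _ (mul_ne_zero hnC hVne))) (Complex.exp_ne_zero _)) (Complex.exp_ne_zero _))
  exact mul_ne_zero hne hlap hseq.symm

private theorem m7_conj (n : ℕ) (x : ℂ) : s n (starRingEnd ℂ x) = starRingEnd ℂ (s n x) := by
  unfold s
  rw [map_sum]
  refine Finset.sum_congr rfl fun k _ => ?_
  rw [map_mul, map_pow, map_natCast]

theorem nonzero_big (n : ℕ) (hn : 1000 ≤ n) (x : ℂ) (hx : 0 ≤ x.re) (hx0 : x ≠ 0) :
    s n x ≠ 0 := by
  rcases lt_trichotomy x.im 0 with h | h | h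
  · intro hs
    have h1 := upper n hn (starRingEnd ℂ x) (by rwa [Complex.conj_re])
      (by rw [Complex.conj_im]; linarith)
    apply h1
    rw [m7_conj, hs, map_zero]
  · have hr : 0 < x.re := by
      refine lt_of_le_of_ne hx fun h1 => hx0 ?_
      apply Complex.ext
      · rw [← h1, Complex.zero_re]
      · rw [h, Complex.zero_im]
    have hxr : x = ((x.re : ℝ) : ℂ) := by
      apply Complex.ext
      · rw [Complex.ofReal_re]
      · rw [Complex.ofReal_im, h]
    have h2 : s n x = ((∑ k ∈ Finset.range (n + 1), (S3 n k : ℝ) * x.re ^ k : ℝ) : ℂ) := by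
      rw [hxr]
      unfold s
      push_cast
      rw [Complex.ofReal_re]
    rw [h2]
    have h3 : 0 < ∑ k ∈ Finset.range (n + 1), (S3 n k : ℝ) * x.re ^ k := by
      apply Finset.sum_pos'
      · intro k _
        positivity
      · refine ⟨1, Finset.mem_range.2 (by omega), ?_⟩
        have h4 : 0 < S3 n 1 := S3_pos le_rfl (by omega)
        have h5 : (0 : ℝ) < S3 n 1 := by exact_mod_cast h4
        positivity
    exact_mod_cast h3.ne'
  · exact upper n hn x hx h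

end ST3
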