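import Pool.Agent.Helper2.ST.Small
import Pool.Agent.Helper2.ST.M7
import Pool.Agent.Helper2.ST.B06

/-!
# The zeros of the third-order Stirling subset polynomials
-/

namespace ST3

/-- no zeros in the closed right half plane except `0` -/
theorem s_ne_zero (n : ℕ) (x : ℂ) (hx : 0 ≤ x.re) (hx0 : x ≠ 0) : s n x ≠ 0 := by
  rcases Nat.eq_zero_or_pos n with rfl | h1
  · simp [s, S3]
  · rcases lt_or_ge n 1000 with h2 | h2
    · exact small n h1 h2 x hx hx0
    · exact nonzero_big n h2 x hx hx0

end ST3
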