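import Pool.Agent.Helper2.ST.Defs

/-!
# ST-G1: a general injectivity lemma; geometry of `P`

PROOFS.
* `injOn_of_re_pos`: for `a != b` in the convex set `U` put `phi(t) = c (f (a + t(b-a)))/(b-a)`,
  `phi'(t) = c f'(a+t(b-a))` has positive real part on `[0,1]`, so `Re phi` is strictly increasing and
  `f a != f b`.
* `P_convex`, `P_isOpen`: `P` is a finite intersection of open half planes.
* `closure_P_subset`: the closed half planes contain the closure.
* `closure_P_slit`: if `z` lies in the closure and `z != 0` then `Im z <= 0`, `Im z <= Re z`; if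
  `Im z = 0` then `Re z >= 0`, hence `Re z > 0`.
* `P_subset_Q`, `closure_P_subset_Q`: compare the inequalities.
-/

namespace ST3

open Complex

theorem injOn_of_re_pos {U : Set ℂ} (hU : Convex ℝ U) (f f' : ℂ → ℂ) (c : ℂ)
    (hd : ∀ z ∈ U, HasDerivAt f (f' z) z) (hpos : ∀ z ∈ U, 0 < (c * f' z).re) :
    Set.InjOn f U := by
  intro a ha b hb hab
  by_contra hne
  have hba : b - a ≠ 0 := sub_ne_zero.2 (Ne.symm hne)
  have hseg : ∀ t ∈ Set.Icc (0 : ℝ) 1, a + (t : ℂ) * (b - a) ∈ U := by
    intro t ht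
    have h1 := hU ha hb (sub_nonneg.2 ht.2) ht.1 (by ring)
    have h2 : (1 - t) • a + t • b = a + (t : ℂ) * (b - a) := by
      rw [Complex.real_smul, Complex.real_smul]
      push_cast
      ring
    rwa [h2] at h1
  have hder : ∀ t ∈ Set.Icc (0 : ℝ) 1,
      HasDerivAt (fun t : ℝ => (c * f (a + (t : ℂ) * (b - a)) / (b - a)).re)
        ((c * f' (a + (t : ℂ) * (b - a))).re) t := by
    intro t ht
    have h1 : HasDerivAt (fun t : ℂ => a + t * (b - a)) (b - a) (t : ℂ) := by
      simpa using ((hasDerivAt_id (t : ℂ)).mul_const (b - a)).const_add a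
    have h2 : HasDerivAt (fun t : ℂ => f (a + t * (b - a)))
        (f' (a + (t : ℂ) * (b - a)) * (b - a)) (t : ℂ) :=
      HasDerivAt.comp (t : ℂ) (hd _ (hseg t ht)) h1
    have h3 : HasDerivAt (fun t : ℂ => c * f (a + t * (b - a)) / (b - a))
        (c * (f' (a + (t : ℂ) * (b - a)) * (b - a)) / (b - a)) (t : ℂ) :=
      (h2.const_mul c).div_const (b - a)
    have h4 : c * (f' (a + (t : ℂ) * (b - a)) * (b - a)) / (b - a) =
        c * f' (a + (t : ℂ) * (b - a)) := by
      field_simp
    rw [h4] at h3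
    exact h3.real_of_complex
  have hmono : StrictMonoOn (fun t : ℝ => (c * f (a + (t : ℂ) * (b - a)) / (b - a)).re)
      (Set.Icc (0 : ℝ) 1) := by
    apply strictMonoOn_of_deriv_pos (convex_Icc 0 1)
    · intro t ht
      exact (hder t ht).continuousAt.continuousWithinAt
    · intro t ht
      rw [interior_Icc] at ht
      have ht' : t ∈ Set.Icc (0 : ℝ) 1 := ⟨ht.1.le, ht.2.le⟩
      rw [(hder t ht').deriv]
      exact hpos _ (hseg t ht')
  have h5 := hmono (Set.left_mem_Icc.2 zero_le_one) (Set.right_mem_Icc.2 zero_le_one) zero_lt_one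
  simp only [Complex.ofReal_zero, zero_mul, add_zero, Complex.ofReal_one, one_mul,
    add_sub_cancel] at h5
  rw [hab] at h5
  exact lt_irrefl _ h5

theorem g1_half (α β γ : ℝ) : Convex ℝ {z : ℂ | γ < α * z.re + β * z.im} := by
  apply convex_halfSpace_gt
  constructor
  · intro x y
    simp only [Complex.add_re, Complex.add_im]
    ring
  · intro r x
    simp only [Complex.real_smul, Complex.mul_re, Complex.mul_im, Complex.ofReal_re,
      Complex.ofReal_im, smul_eq_mul]
    ring

theorem P_convex : Convex ℝ P := by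
  have h := (g1_half 0 (-1) 0).inter ((g1_half 1 (-1) 0).inter ((g1_half 1 0 (-(3 / 8))).inter
    ((g1_half (9 / 10) 1 (-(127 / 80))).inter ((g1_half (7 / 12) 1 (-(5 / 3))).inter
    ((g1_half (3 / 16) 1 (-(33 / 16))).inter (g1_half 0 1 (-(21 / 8))))))))
  convert h using 1
  ext z
  simp only [P, Set.mem_ofPred_eq, Set.mem_inter_iff]
  constructor
  · rintro ⟨h1, h2, h3, h4, h5, h6, h7⟩
    refine ⟨?_, ?_, ?_, ?_, ?_, ?_, ?_⟩ <;> linarith
  · rintro ⟨h1, h2, h3, h4, h5, h6, h7⟩
    refine ⟨?_, ?_, ?_, ?_, ?_, ?_, ?_⟩ <;> linarith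

theorem P_isOpen : IsOpen P := by
  have hre := Complex.continuous_re
  have him := Complex.continuous_im
  refine (isOpen_lt him continuous_const).and ((isOpen_lt him hre).and
    ((isOpen_lt continuous_const hre).and ((isOpen_lt ?_ him).and
    ((isOpen_lt ?_ him).and ((isOpen_lt ?_ him).and (isOpen_lt continuous_const him))))))
  all_goals exact continuous_const.sub (continuous_const.mul hre)

theorem closure_P_subset : closure P ⊆
    {z | z.im ≤ 0 ∧ z.im ≤ z.re ∧ -(3 / 8) ≤ z.re ∧ -(127 / 80) - 9 / 10 * z.re ≤ z.im ∧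
    -(5 / 3) - 7 / 12 * z.re ≤ z.im ∧ -(33 / 16) - 3 / 16 * z.re ≤ z.im ∧ -(21 / 8) ≤ z.im} := by
  have hre := Complex.continuous_re
  have him := Complex.continuous_im
  apply closure_minimal
  · rintro z ⟨h1, h2, h3, h4, h5, h6, h7⟩
    exact ⟨h1.le, h2.le, h3.le, h4.le, h5.le, h6.le, h7.le⟩
  · refine (isClosed_le him continuous_const).inter ((isClosed_le him hre).inter
      ((isClosed_le continuous_const hre).inter ((isClosed_le ?_ him).inter
      ((isClosed_le ?_ him).inter ((isClosed_le ?_ him).inter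
      (isClosed_le continuous_const him))))))
    all_goals exact continuous_const.sub (continuous_const.mul hre)

theorem closure_P_slit {z : ℂ} (hz : z ∈ closure P) (h0 : z ≠ 0) : z ∈ slitPlane := by
  obtain ⟨h1, h2, -⟩ := closure_P_subset hz
  rw [Complex.mem_slitPlane_iff]
  by_cases him : z.im = 0
  · left
    rw [him] at h2
    refine lt_of_le_of_ne h2 fun h => h0 ?_
    apply Complex.ext
    · rw [← h, Complex.zero_re]
    · rw [him, Complex.zero_im]
  · right
    exact him

theorem closure_P_subset_Q : closure P ⊆ Q := by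
  intro z hz
  obtain ⟨h1, h2, h3, h4, h5, h6, h7⟩ := closure_P_subset hz
  have h8 : |z.im| = -z.im := abs_of_nonpos h1
  refine ⟨h3, ?_, ?_, ?_, ?_⟩ <;> rw [h8] <;> linarith

theorem Q_im_lt {z : ℂ} (hz : z ∈ Q) : |z.im| < Real.pi := by
  obtain ⟨-, -, -, -, h⟩ := hz
  have := Real.pi_gt_d2
  linarith

end ST3
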