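import Pool.Agent.Helper2.ST.B03

/-!
# ST-G2: the function `F`

PROOFS. `MM z` has positive real part for `|Im z| <= pi` (`MM_re_pos`), so `log (MM z)` is
differentiable at `z` when `|Im z| < pi`... (for `|Im z| <= pi` too, `MM` is entire and `slitPlane` is
open). `G = (z/6) e^{z/2} M` (`GG1_eq_MM`), so `G'/G = 1/z + 1/2 + M'/M` and `kap = z G'/G`
(`GG_hasDerivAt 1`). Hence `F' = -(1/z + 1/2 + M'/M) = -kap/z`.
`exp (-F z) = z * (1/6) * exp (z/2) * MM z`.
-/

namespace ST3

open Complex

theorem F_hasDerivAt {z : ℂ} (hz : z ∈ slitPlane) (h : |z.im| ≤ Real.pi) :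
    HasDerivAt F (-(kap z) / z) z := by
  have hz0 : z ≠ 0 := slitPlane_ne_zero hz
  have hM := MM_re_pos h
  have hM0 : MM z ≠ 0 := by
    intro h0
    rw [h0] at hM
    simp at hM
  have hMs : MM z ∈ slitPlane := Or.inl hM
  have hMd : HasDerivAt MM (deriv MM z) z := (MM_differentiable z).hasDerivAt
  -- the derivative of F
  have h1 : HasDerivAt F (-(1 / z + 1 / 2 + deriv MM z / MM z)) z := by
    have h2 : HasDerivAt (fun w : ℂ => Complex.log w) (1 / z) z := by
      rw [one_div]
      exact Complex.hasDerivAt_log hz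
    have h3 : HasDerivAt (fun w : ℂ => Complex.log (MM w)) (deriv MM z / MM z) z := by
      exact hMd.clog hMs
    have h4 : HasDerivAt (fun w : ℂ => w / 2) (1 / 2) z := (hasDerivAt_id z).div_const 2
    have h5 : HasDerivAt (fun w : ℂ => -(Complex.log w - (Real.log 6 : ℂ) + w / 2 + Complex.log (MM w)))
        (-(1 / z + 1 / 2 + deriv MM z / MM z)) z :=
      (((h2.sub_const (Real.log 6 : ℂ)).add h4).add h3).neg
    exact h5
  -- the derivative of G
  have h6 : HasDerivAt (GG 1) (1 / 6 * exp (z / 2) * MM z + z / 6 * (exp (z / 2) * (1 / 2)) * MM z +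
      z / 6 * exp (z / 2) * deriv MM z) z := by
    have h7 : HasDerivAt (fun w : ℂ => w / 6) (1 / 6) z := (hasDerivAt_id z).div_const 6
    have h8 : HasDerivAt (fun w : ℂ => exp (w / 2)) (exp (z / 2) * (1 / 2)) z :=
      ((hasDerivAt_id z).div_const 2).cexp
    have h9 := (h7.mul h8).mul hMd
    have h10 : GG 1 = (fun w : ℂ => w / 6) * (fun w : ℂ => exp (w / 2)) * MM := by
      funext w
      simpa using GG1_eq_MM w
    rw [h10]
    refine h9.congr_deriv ?_
    simp only [Pi.mul_apply]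
    ring
  have h7 := h6.unique (GG_hasDerivAt 1 hz0)
  refine h1.congr_deriv ?_
  have h8 : GG 2 z = z * (1 / 6 * exp (z / 2) * MM z + z / 6 * (exp (z / 2) * (1 / 2)) * MM z +
      z / 6 * exp (z / 2) * deriv MM z) := by
    rw [h7]
    field_simp
  have he : exp (z / 2) ≠ 0 := exp_ne_zero _
  unfold kap
  rw [h8, GG1_eq_MM z]
  field_simp

theorem exp_neg_F {z : ℂ} (hz : z ≠ 0) (h : |z.im| ≤ Real.pi) : exp (-(F z)) = GG 1 z := by
  have hM := MM_re_pos h
  have hM0 : MM z ≠ 0 := by
    intro h0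
    rw [h0] at hM
    simp at hM
  have h6 : exp ((Real.log 6 : ℝ) : ℂ) = 6 := by
    rw [← Complex.ofReal_exp, Real.exp_log (by norm_num)]
    norm_num
  unfold F
  rw [neg_neg, Complex.exp_add, Complex.exp_add, Complex.exp_sub, Complex.exp_log hz,
    Complex.exp_log hM0, h6, GG1_eq_MM z]

end ST3
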