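import Pool.Agent.Helper2.ST.NC
import Pool.Agent.Helper2.ST.G2

/-!
# ST-G3: injectivity, barrier and properness of `F` on `P`

PROOFS.
* `F_injOn`: `injOn_of_re_pos` with `c = -(6 - 13 I)`, `f' = -kap/z` (`inj_re`, `P_convex`).
* `om1_mem`: `om1 = arg(-15+16i)`, `Re < 0 < Im`, so `pi/2 < om1 < pi`
  (`Complex.abs_arg_lt_pi_div_two_iff`, `Complex.arg_lt_pi_iff`).
* `barrier`: let `w = F z in S`, `omega = Im w`; `GG 1 z = e^{-w}` has argument `-omega`. If `Im z < 0`:
  `(-15+16i) GG 1 z = |-15+16i| e^{-Re w} e^{i(om1 - omega)}` has imaginary part of the sign of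
  `sin(om1 - omega) > 0`, against `barrier_GG`. If `Im z = 0` (`closure_P_subset` gives `Im z <= 0`): then
  `z` is real and (by `closure_P_slit`) positive, `GG 1 z` is a positive real number
  (`GG_re_pos`, `GG_ofReal`), while `sin omega > 0`: contradiction.
* `bounded_of_GG1`: for `z in P` with `Re z >= 7` use `X18`: `e^{X}(|z|-2.01)/|z|^2 <= C` bounds `X`
  (`|z| <= X+1`, `|z| - 2.01 >= |z|/2`...); otherwise `|z| <= 8`.
-/

namespace ST3

open Complex

theorem F_injOn : Set.InjOn F P := by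
  have hpi := Real.pi_gt_d2
  refine injOn_of_re_pos P_convex F (fun z => -(kap z) / z) (-(6 - 13 * I)) (fun z hz => ?_)
    (fun z hz => ?_)
  · exact F_hasDerivAt (P_slit hz) ((P_im_lt hz).trans (by linarith))
  · have h := inj_re hz
    have e : -(6 - 13 * I) * (-(kap z) / z) = (6 - 13 * I) * (kap z / z) := by ring
    rw [e]
    exact h

theorem om1_mem : Real.pi / 2 < om1 ∧ om1 < Real.pi := by
  have hre : ((-15 : ℂ) + 16 * I).re = -15 := by simp
  have him : ((-15 : ℂ) + 16 * I).im = 16 := by simp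
  unfold om1
  constructor
  · have h1 : ¬ |arg (-15 + 16 * I)| ≤ Real.pi / 2 := by
      rw [Complex.abs_arg_le_pi_div_two_iff, hre]
      norm_num
    have h2 : 0 ≤ arg (-15 + 16 * I) := by
      rw [Complex.arg_nonneg_iff, him]
      norm_num
    rw [abs_of_nonneg h2] at h1
    exact not_le.1 h1
  · rw [Complex.arg_lt_pi_iff]
    right
    rw [him]
    norm_num

theorem barrier {z : ℂ} (hz : z ∈ closure P) (hP : z ∉ P) (h0 : z ≠ 0) : F z ∉ S := by
  rintro ⟨hw1, hw2⟩
  obtain ⟨hom1, hom2⟩ := om1_mem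
  have hpi := Real.pi_pos
  have hlt := Q_im_lt (closure_P_subset_Q hz)
  have hexp := exp_neg_F h0 hlt.le
  have him := (closure_P_subset hz).1
  rcases him.lt_or_eq with him | him
  · have hb := barrier_GG hz hP him
    rw [← hexp] at hb
    have hpol : ((-15 : ℂ) + 16 * I) = (‖(-15 : ℂ) + 16 * I‖ : ℂ) * exp ((om1 : ℂ) * I) :=
      (Complex.norm_mul_exp_arg_mul_I _).symm
    have e1 : ((-15 : ℂ) + 16 * I) * exp (-(F z)) =
        ((‖(-15 : ℂ) + 16 * I‖ : ℝ) : ℂ) * exp ((om1 : ℂ) * I + -(F z)) := by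
      rw [Complex.exp_add, ← mul_assoc]
      exact congrArg (· * exp (-(F z))) hpol
    rw [e1, Complex.im_ofReal_mul, Complex.exp_im] at hb
    have e2 : ((om1 : ℂ) * I + -(F z)).im = om1 - (F z).im := by
      simp
      ring
    rw [e2] at hb
    have hs : 0 < Real.sin (om1 - (F z).im) :=
      Real.sin_pos_of_pos_of_lt_pi (by linarith) (by linarith)
    have hn : 0 < ‖(-15 : ℂ) + 16 * I‖ := by
      rw [norm_pos_iff]
      intro h
      have := congrArg Complex.im h
      simp at this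
    have hE := Real.exp_pos ((om1 : ℂ) * I + -(F z)).re
    have := mul_pos hn (mul_pos hE hs)
    linarith
  · have hslit := closure_P_slit hz h0
    rw [Complex.mem_slitPlane_iff] at hslit
    have hzr : z = ((z.re : ℝ) : ℂ) := by
      apply Complex.ext
      · simp
      · simp [him]
    have hG : (GG 1 z).im = 0 := by
      rw [hzr, GG_ofReal]
      exact Complex.ofReal_im _
    rw [← hexp, Complex.exp_im] at hG
    have e2 : (-(F z)).im = -(F z).im := by simp
    rw [e2, Real.sin_neg] at hG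
    have hs : 0 < Real.sin (F z).im :=
      Real.sin_pos_of_pos_of_lt_pi hw1 (by linarith)
    have := mul_pos (Real.exp_pos (-(F z)).re) hs
    linarith

theorem bounded_of_GG1 (C : ℝ) : ∃ R : ℝ, ∀ z ∈ P, ‖GG 1 z‖ ≤ C → ‖z‖ ≤ R := by
  refine ⟨max 10 (16 * C), fun z hz hC => ?_⟩
  have him := P_im_lt hz
  have hre : -(3 / 8) < z.re := hz.2.2.1
  have hn := Complex.norm_le_abs_re_add_abs_im z
  rcases le_or_gt z.re 7 with h7 | h7
  · refine le_trans ?_ (le_max_left _ _)
    have : |z.re| ≤ 7 := by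
      rw [abs_le]
      constructor <;> linarith
    linarith
  · refine le_trans ?_ (le_max_right _ _)
    have hX := X18 (z := z) ⟨h7.le, him⟩
    have hzn : z.re ≤ ‖z‖ := Complex.re_le_norm z
    rw [abs_of_nonneg (by linarith : 0 ≤ z.re)] at hn
    have hz2 : ‖z‖ ≤ 2 * z.re := by linarith
    have hzpos : 0 < ‖z‖ := by linarith
    have hq := Real.quadratic_le_exp_of_nonneg (by linarith : 0 ≤ z.re)
    have hexp : z.re ^ 2 / 2 ≤ Real.exp z.re := by
      linarith
    have h1 := hX.trans hC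
    rw [div_le_iff₀ (by positivity)] at h1
    have h2 : z.re ^ 2 / 2 * (‖z‖ / 2) ≤ C * ‖z‖ ^ 2 := by
      refine le_trans ?_ h1
      apply mul_le_mul hexp _ (by positivity) (by positivity)
      linarith
    have hCpos : 0 ≤ C := (norm_nonneg _).trans hC
    have h3 : z.re ^ 2 ≤ 4 * C * ‖z‖ := by
      have h4 : z.re ^ 2 * ‖z‖ ≤ 4 * C * ‖z‖ * ‖z‖ := by nlinarith
      exact le_of_mul_le_mul_right h4 hzpos
    have h5 : z.re ^ 2 ≤ 8 * C * z.re := by nlinarith
    have h6 : z.re ≤ 8 * C := by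
      have h7' : z.re * z.re ≤ 8 * C * z.re := by nlinarith
      exact le_of_mul_le_mul_right h7' (by linarith)
    linarith

end ST3
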