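import Pool.Agent.Helper2.ST.G3

/-!
# ST-G4: `F` maps `P` onto a set containing the strip `S`

PROOF. Let `T = {w in S : exists z in P, F z = w}`.
* `S` is convex, hence preconnected; open in the plane.
* `T` is open: at `z in P` the derivative `-kap/z` is not zero and `F` is analytic near `z`
  (differentiable on the open set `P`), so `F` maps neighbourhoods to neighbourhoods
  (`HasStrictDerivAt.map_nhds_eq` or the open mapping theorem).
* `T` is relatively closed in `S`: let `w_m -> w in S`, `w_m = F z_m`, `z_m in P`. Then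
  `|GG 1 z_m| = e^{-Re w_m}` is bounded, so `z_m` is bounded (`bounded_of_GG1`); a subsequence
  converges to `z in closure P`. `|GG 1 z| = e^{-Re w} > 0` (continuity of `GG 1`), so `z != 0`
  (`GG_zero`). `F` is continuous at `z` (`closure_P_slit`, `Q_im_lt`, `F_hasDerivAt`), so `F z = w in S`.
  By `barrier`, `z in P`.
* `T` is not empty: `F 1` is real (`MM 1` is real positive; or: `GG 1 1 > 0`), `F' (1) = - kap 1` is a
  negative real number, `y -> Im F(1 - i y)` has derivative `Re kap 1 > 0` at `y = 0` and value `0`, so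
  for small `y > 0` one has `0 < Im F(1 - iy) < om1`, and `1 - iy in P`.
* Hence `T = S` (`IsPreconnected.subset_of_closure_inter_subset` or a clopen argument).
-/

namespace ST3

open Complex

theorem S_isOpen : IsOpen S := by
  have h1 : S = {w : ℂ | 0 < w.im} ∩ {w : ℂ | w.im < om1} := rfl
  rw [h1]
  exact (isOpen_lt continuous_const Complex.continuous_im).inter
    (isOpen_lt Complex.continuous_im continuous_const)

theorem S_convex : Convex ℝ S := by
  have h1 : S = {w : ℂ | 0 < w.im} ∩ {w : ℂ | w.im < om1} := rfl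
  rw [h1]
  exact (convex_halfSpace_im_gt 0).inter (convex_halfSpace_im_lt om1)

private theorem g4_im {z : ℂ} (hz : z ∈ P) : |z.im| ≤ Real.pi := by
  have h1 := P_im_lt hz
  have h2 := Real.pi_gt_three
  linarith

private theorem g4_open : IsOpen (F '' P) := by
  rw [isOpen_iff_mem_nhds]
  rintro _ ⟨z, hz, rfl⟩
  have hd : DifferentiableOn ℂ F P := fun y hy =>
    (F_hasDerivAt (P_slit hy) (g4_im hy)).differentiableAt.differentiableWithinAt
  have ha : AnalyticAt ℂ F z := hd.analyticAt (P_isOpen.mem_nhds hz)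
  have hs := ha.hasStrictDerivAt
  rw [(F_hasDerivAt (P_slit hz) (g4_im hz)).deriv] at hs
  have hne : -(kap z) / z ≠ 0 :=
    div_ne_zero (neg_ne_zero.2 (kap_ne hz)) (P_ne_zero hz)
  rw [← hs.map_nhds_eq hne]
  exact Filter.image_mem_map (P_isOpen.mem_nhds hz)

private theorem g4_closed : closure (F '' P) ∩ S ⊆ F '' P := by
  rintro w ⟨hw, hwS⟩
  obtain ⟨x, hx, hxw⟩ := mem_closure_iff_seq_limit.1 hw
  choose z hz hzx using hx
  have h1 : ∀ n, GG 1 (z n) = exp (-(x n)) := by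
    intro n
    rw [← hzx n, exp_neg_F (P_ne_zero (hz n)) (g4_im (hz n))]
  have h2 : Filter.Tendsto (fun n => GG 1 (z n)) Filter.atTop (nhds (exp (-w))) := by
    have h3 : (fun n => GG 1 (z n)) = fun n => exp (-(x n)) := funext h1
    rw [h3]
    exact (Complex.continuous_exp.tendsto _).comp hxw.neg
  obtain ⟨C, hC⟩ : ∃ C : ℝ, ∀ n, ‖GG 1 (z n)‖ ≤ C := by
    obtain ⟨C, hC⟩ := h2.norm.bddAbove_range
    exact ⟨C, fun n => hC ⟨n, rfl⟩⟩
  obtain ⟨R, hR⟩ := bounded_of_GG1 C
  have h4 : ∀ n, z n ∈ Metric.closedBall (0 : ℂ) R := fun n =>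
    mem_closedBall_zero_iff.2 (hR (z n) (hz n) (hC n))
  obtain ⟨y, _, φ, hφ, hy⟩ := (isCompact_closedBall (0 : ℂ) R).tendsto_subseq h4
  have hyP : y ∈ closure P := mem_closure_of_tendsto hy (Filter.Eventually.of_forall fun n => hz _)
  have h5 : Filter.Tendsto (fun n => GG 1 (z (φ n))) Filter.atTop (nhds (GG 1 y)) :=
    ((GG_differentiable 1).continuous.tendsto y).comp hy
  have h6 : GG 1 y = exp (-w) := tendsto_nhds_unique h5 (h2.comp hφ.tendsto_atTop)
  have hy0 : y ≠ 0 := by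
    intro h0
    rw [h0, GG_zero] at h6
    exact Complex.exp_ne_zero _ h6.symm
  have h7 : ContinuousAt F y :=
    (F_hasDerivAt (closure_P_slit hyP hy0) (Q_im_lt (closure_P_subset_Q hyP)).le).continuousAt
  have h8 : Filter.Tendsto (fun n => F (z (φ n))) Filter.atTop (nhds (F y)) := h7.tendsto.comp hy
  have h9 : Filter.Tendsto (fun n => F (z (φ n))) Filter.atTop (nhds w) := by
    have h10 : (fun n => F (z (φ n))) = fun n => x (φ n) := funext fun n => hzx _
    rw [h10]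
    exact hxw.comp hφ.tendsto_atTop
  have h11 : F y = w := tendsto_nhds_unique h8 h9
  refine ⟨y, ?_, h11⟩
  by_contra hyn
  exact barrier hyP hyn hy0 (h11 ▸ hwS)

private theorem g4_nonempty : (S ∩ F '' P).Nonempty := by
  have hG : ∀ j : ℕ, ∃ r : ℝ, 0 < r ∧ GG j 1 = (r : ℂ) := by
    intro j
    have h1 := GG_ofReal j 1
    have h2 := GG_re_pos j (r := 1) one_pos
    rw [Complex.ofReal_one] at h1 h2
    refine ⟨(GG j 1).re, h2, ?_⟩
    rw [h1, Complex.ofReal_re]
  obtain ⟨r1, hr1, hg1⟩ := hG 1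
  obtain ⟨r2, hr2, hg2⟩ := hG 2
  have hk : kap 1 = ((r2 / r1 : ℝ) : ℂ) := by
    unfold kap
    rw [hg1, hg2]
    push_cast
    rfl
  have hM : MM 1 = ((r1 * 6 / Real.exp (1 / 2) : ℝ) : ℂ) := by
    have h1 := GG1_eq_MM 1
    rw [hg1] at h1
    have h2 : exp (1 / 2) = ((Real.exp (1 / 2) : ℝ) : ℂ) := by
      push_cast
      rfl
    have h3 : ((Real.exp (1 / 2) : ℝ) : ℂ) ≠ 0 := by
      exact_mod_cast (Real.exp_pos _).ne'
    rw [h2] at h1
    push_cast at h1 h3 ⊢
    rw [h1]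
    field_simp
  have hF1 : (F 1).im = 0 := by
    unfold F
    rw [hM, ← Complex.ofReal_log (by positivity), Complex.log_one]
    have h4 : (0 - ((Real.log 6 : ℝ) : ℂ) + 1 / 2 +
        ((Real.log (r1 * 6 / Real.exp (1 / 2)) : ℝ) : ℂ)) =
        ((0 - Real.log 6 + 1 / 2 + Real.log (r1 * 6 / Real.exp (1 / 2)) : ℝ) : ℂ) := by
      push_cast
      ring
    rw [h4, Complex.neg_im, Complex.ofReal_im, neg_zero]
  have h1s : (1 : ℂ) ∈ slitPlane := Complex.one_mem_slitPlane
  have hd : HasDerivAt F (-(kap 1) / 1) 1 := F_hasDerivAt h1s (by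
    rw [Complex.one_im, abs_zero]
    exact Real.pi_pos.le)
  have hin : HasDerivAt (fun y : ℝ => 1 - (y : ℂ) * I) (-I) 0 := by
    have h5 : HasDerivAt (fun y : ℝ => (y : ℂ)) 1 0 := Complex.ofRealCLM.hasDerivAt
    have h6 := (h5.mul_const I).const_sub 1
    rw [one_mul] at h6
    exact h6
  have hd' : HasDerivAt F (-(kap 1) / 1) ((fun y : ℝ => 1 - (y : ℂ) * I) 0) := by
    have h7 : (fun y : ℝ => 1 - (y : ℂ) * I) 0 = 1 := by simp
    rw [h7]
    exact hd
  have hcomp := hd'.comp (0 : ℝ) hin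
  have him : HasDerivAt (fun y : ℝ => (F (1 - (y : ℂ) * I)).im) (r2 / r1) 0 := by
    have h8 := Complex.imCLM.hasFDerivAt.comp_hasDerivAt (0 : ℝ) hcomp
    have h9 : Complex.imCLM (-(kap 1) / 1 * -I) = r2 / r1 := by
      rw [hk, div_one, neg_mul_neg, Complex.imCLM_apply, Complex.im_ofReal_mul, Complex.I_im,
        mul_one]
    rw [h9] at h8
    exact h8
  have hr : 0 < r2 / r1 := by positivity
  have hf0 : (F (1 - ((0 : ℝ) : ℂ) * I)).im = 0 := by
    rw [Complex.ofReal_zero, zero_mul, sub_zero]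
    exact hF1
  have hsl := hasDerivAt_iff_tendsto_slope.1 him
  have hev1 : ∀ᶠ y : ℝ in nhdsWithin (0 : ℝ) (Set.Ioi 0), 0 < (F (1 - (y : ℂ) * I)).im := by
    have h10 : ∀ᶠ y : ℝ in nhdsWithin (0 : ℝ) {0}ᶜ,
        0 < slope (fun y : ℝ => (F (1 - (y : ℂ) * I)).im) 0 y := hsl.eventually_const_lt hr
    have h11 : nhdsWithin (0 : ℝ) (Set.Ioi 0) ≤ nhdsWithin (0 : ℝ) {0}ᶜ :=
      nhdsWithin_mono _ fun y hy => ne_of_gt hy
    filter_upwards [h11 h10, self_mem_nhdsWithin] with y hy1 hy2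
    have hy0 : 0 < y := hy2
    rw [slope_def_field, hf0, sub_zero, sub_zero] at hy1
    exact (div_pos_iff_of_pos_right hy0).1 hy1
  have hom := om1_mem
  have hom0 : 0 < om1 := lt_trans (by positivity) hom.1
  have hev2 : ∀ᶠ y : ℝ in nhdsWithin (0 : ℝ) (Set.Ioi 0), (F (1 - (y : ℂ) * I)).im < om1 := by
    have h12 := him.continuousAt.tendsto
    rw [hf0] at h12
    exact (h12.eventually_lt_const hom0).filter_mono nhdsWithin_le_nhds
  have hev3 : ∀ᶠ y : ℝ in nhdsWithin (0 : ℝ) (Set.Ioi 0), y < 1 / 2 :=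
    (eventually_lt_nhds (by norm_num)).filter_mono nhdsWithin_le_nhds
  obtain ⟨y, ⟨⟨hy1, hy2⟩, hy3⟩, hy4⟩ :=
    (((hev1.and hev2).and hev3).and self_mem_nhdsWithin).exists
  have hy0 : 0 < y := hy4
  refine ⟨F (1 - (y : ℂ) * I), ⟨hy1, hy2⟩, 1 - (y : ℂ) * I, ?_, rfl⟩
  have hre : (1 - (y : ℂ) * I).re = 1 := by simp
  have himm : (1 - (y : ℂ) * I).im = -y := by simp
  refine ⟨?_, ?_, ?_, ?_, ?_, ?_, ?_⟩ <;> (first | rw [hre, himm] | rw [himm] | rw [hre]) <;>
    linarith

theorem F_surj {w : ℂ} (hw : w ∈ S) : ∃ z ∈ P, F z = w := by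
  have h1 := S_convex.isPreconnected.subset_of_closure_inter_subset g4_open g4_nonempty g4_closed
  exact h1 hw

end ST3
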