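import Pool.Agent.Helper2.ST.G4

/-!
# ST-G5: the inverse `Zf : S -> P`

PROOFS. `Zf` is well defined by `F_surj`; `Zf_F` by `F_injOn`. Continuity of `Zf` at `w in S`: if `U` is a
neighbourhood of `Zf w` inside `P`, then `F '' U` is a neighbourhood of `w`
(`HasStrictDerivAt.map_nhds_eq`, derivative `-kap/z != 0`; or `AnalyticAt`), and for `w'` in it
`Zf w' in U` by injectivity. Then `HasDerivAt.of_local_left_inverse`:
`Zf' (w) = (-(kap z)/z)^{-1} = -z/kap z`, `z = Zf w`.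
The chain rule with `VV_hasDerivAt`, `V1_hasDerivAt`, `kap_hasDerivAt` gives the other derivatives:
`((tk - z)/z) (-z/kap) = V1`, `(-(kap V2)/z)(-z/kap) = V2`, `(tk/z)(-z/kap) = -tk/kap`.
-/

namespace ST3

open Complex

open Classical in
/-- the inverse of `F` -/
noncomputable def Zf (w : ℂ) : ℂ := if h : ∃ z ∈ P, F z = w then h.choose else 0

theorem Zf_mem {w : ℂ} (hw : w ∈ S) : Zf w ∈ P := by
  have h := F_surj hw
  unfold Zf
  rw [dif_pos h]
  exact h.choose_spec.1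

theorem F_Zf {w : ℂ} (hw : w ∈ S) : F (Zf w) = w := by
  have h := F_surj hw
  unfold Zf
  rw [dif_pos h]
  exact h.choose_spec.2

private theorem P_im_pi {z : ℂ} (hz : z ∈ P) : |z.im| ≤ Real.pi := by
  have h1 := P_im_lt hz
  have h2 := Real.pi_gt_d2
  linarith

theorem GG1_Zf {w : ℂ} (hw : w ∈ S) : GG 1 (Zf w) = exp (-w) := by
  have hz := Zf_mem hw
  rw [← exp_neg_F (P_ne_zero hz) (P_im_pi hz), F_Zf hw]

theorem Zf_F {z : ℂ} (hz : z ∈ P) : Zf (F z) = z := by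
  have h : ∃ z' ∈ P, F z' = F z := ⟨z, hz, rfl⟩
  unfold Zf
  rw [dif_pos h]
  exact F_injOn h.choose_spec.1 hz h.choose_spec.2

theorem Zf_hasDerivAt {w : ℂ} (hw : w ∈ S) : HasDerivAt Zf (-(Zf w) / kap (Zf w)) w := by
  have hz := Zf_mem hw
  have hP : P ∈ nhds (Zf w) := P_isOpen.mem_nhds hz
  have hd : HasDerivAt F (-(kap (Zf w)) / Zf w) (Zf w) := F_hasDerivAt (P_slit hz) (P_im_pi hz)
  have hD : DifferentiableOn ℂ F P := fun x hx =>
    (F_hasDerivAt (P_slit hx) (P_im_pi hx)).differentiableAt.differentiableWithinAt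
  have hs : HasStrictDerivAt F (-(kap (Zf w)) / Zf w) (Zf w) := by
    have h1 := (hD.analyticAt hP).hasStrictDerivAt
    rwa [hd.deriv] at h1
  have hne : -(kap (Zf w)) / Zf w ≠ 0 := div_ne_zero (neg_ne_zero.2 (kap_ne hz)) (P_ne_zero hz)
  have hl : ∀ᶠ x in nhds (Zf w), Zf (F x) = x := by
    filter_upwards [hP] with x hx using Zf_F hx
  have h2 := (hs.to_local_left_inverse hne hl).hasDerivAt
  rw [F_Zf hw] at h2
  refine h2.congr_deriv ?_
  rw [inv_div, div_neg, neg_div]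

theorem VZ_hasDerivAt {w : ℂ} (hw : w ∈ S) :
    HasDerivAt (fun w => VV (Zf w)) (V1 (Zf w)) w := by
  have hz := Zf_mem hw
  have h0 := P_ne_zero hz
  have hk := kap_ne hz
  have h := HasDerivAt.comp w (VV_hasDerivAt h0 (P_GG1_ne hz)) (Zf_hasDerivAt hw)
  refine h.congr_deriv ?_
  unfold V1
  field_simp
  ring

theorem V1Z_hasDerivAt {w : ℂ} (hw : w ∈ S) :
    HasDerivAt (fun w => V1 (Zf w)) (V2 (Zf w)) w := by
  have hz := Zf_mem hw
  have h0 := P_ne_zero hz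
  have hk := kap_ne hz
  have h := HasDerivAt.comp w (V1_hasDerivAt h0 (P_GG1_ne hz) hk) (Zf_hasDerivAt hw)
  refine h.congr_deriv ?_
  generalize V2 (Zf w) = V
  field_simp

theorem kZ_hasDerivAt {w : ℂ} (hw : w ∈ S) :
    HasDerivAt (fun w => kap (Zf w)) (-(tk (Zf w)) / kap (Zf w)) w := by
  have hz := Zf_mem hw
  have h0 := P_ne_zero hz
  have hk := kap_ne hz
  have h := HasDerivAt.comp w (kap_hasDerivAt h0 (P_GG1_ne hz)) (Zf_hasDerivAt hw)
  refine h.congr_deriv ?_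
  field_simp

theorem add_mem_S {w : ℂ} (hw : w ∈ S) (δ : ℝ) : w + (δ : ℂ) ∈ S := by
  unfold S at hw ⊢
  simpa using hw

end ST3
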