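import Mathlib

/-!
# ST-JA1: a unimodality lemma

PROOF. If `Th b <= pi` then `0 <= Th <= pi` on `[0,b]` (monotone), `sin Th >= 0`, so `f` is nondecreasing on
`[0,b]` and `f b0 <= f b`. If `Th b >= pi` then `pi <= Th <= 2 pi` on `[b,B]`, `sin Th <= 0`, `f` is
nonincreasing on `[b,B]` and `f B <= f b`.
-/

namespace ST3

theorem uni (f Θ r : ℝ → ℝ) (B : ℝ)
    (hf : ∀ b ∈ Set.Icc 0 B, HasDerivAt f (r b * Real.sin (Θ b)) b)
    (hr : ∀ b ∈ Set.Icc 0 B, 0 ≤ r b) (hΘ : MonotoneOn Θ (Set.Icc 0 B)) (h0 : 0 ≤ Θ 0)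
    (hB : Θ B ≤ 2 * Real.pi) {b0 b : ℝ} (hb0 : 0 ≤ b0) (hb : b0 ≤ b) (hbB : b ≤ B) :
    min (f b0) (f B) ≤ f b := by
  have hb' : 0 ≤ b := hb0.trans hb
  have hB0 : 0 ≤ B := hb'.trans hbB
  rcases le_total (Θ b) Real.pi with hc | hc
  · refine (min_le_left _ _).trans ?_
    have hsub : Set.Icc 0 b ⊆ Set.Icc 0 B := Set.Icc_subset_Icc le_rfl hbB
    have hm : MonotoneOn f (Set.Icc 0 b) := by
      refine monotoneOn_of_deriv_nonneg (convex_Icc _ _)
        (fun x hx => (hf x (hsub hx)).continuousAt.continuousWithinAt)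
        (fun x hx => (hf x (hsub (interior_subset hx))).differentiableAt.differentiableWithinAt) ?_
      intro x hx
      have hx' := interior_subset hx
      rw [(hf x (hsub hx')).deriv]
      refine mul_nonneg (hr x (hsub hx')) (Real.sin_nonneg_of_nonneg_of_le_pi ?_ ?_)
      · exact h0.trans (hΘ ⟨le_rfl, hB0⟩ (hsub hx') hx'.1)
      · exact (hΘ (hsub hx') ⟨hb', hbB⟩ hx'.2).trans hc
    exact hm ⟨hb0, hb⟩ ⟨hb', le_rfl⟩ hb
  · refine (min_le_right _ _).trans ?_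
    have hsub : Set.Icc b B ⊆ Set.Icc 0 B := Set.Icc_subset_Icc hb' le_rfl
    have hm : AntitoneOn f (Set.Icc b B) := by
      refine antitoneOn_of_deriv_nonpos (convex_Icc _ _)
        (fun x hx => (hf x (hsub hx)).continuousAt.continuousWithinAt)
        (fun x hx => (hf x (hsub (interior_subset hx))).differentiableAt.differentiableWithinAt) ?_
      intro x hx
      have hx' := interior_subset hx
      rw [(hf x (hsub hx')).deriv]
      have h1 : Real.pi ≤ Θ x := hc.trans (hΘ ⟨hb', hbB⟩ (hsub hx') hx'.1)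
      have h2 : Θ x ≤ 2 * Real.pi := (hΘ (hsub hx') ⟨hB0, le_rfl⟩ hx'.2).trans hB
      have h3 : Real.sin (Θ x) ≤ 0 := by
        have h4 : 0 ≤ Real.sin (Θ x - Real.pi) :=
          Real.sin_nonneg_of_nonneg_of_le_pi (by linarith) (by linarith)
        rw [Real.sin_sub_pi] at h4
        linarith
      exact mul_nonpos_of_nonneg_of_nonpos (hr x (hsub hx')) h3
    exact hm ⟨le_rfl, hbB⟩ ⟨hbB, le_rfl⟩ hbB

end ST3
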