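import Pool.Agent.Helper2.ST.Defs
import Pool.Agent.Helper76.BN.Final

/-!
# ST-NF: the numerical facts on `Q`, `Re z <= 8` (block N, helper76)

All are proved by first order Taylor models on a quadtree of squares covering the lower half of `Q`,
`Re z <= 8`, with kernel evaluation (`Pool/Agent/Helper76/BN`), and by conjugation. True extrema in
brackets.
-/

namespace ST3

open Complex

/-- [.741] -/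
theorem N1 {z : ℂ} (hz : z ∈ Q) (h0 : z ≠ 0) (h8 : z.re ≤ 8) : 7 / 10 ≤ (kap z).re := by
  exact (BN.FA_all hz h0 h8).1

/-- [.2418] -/
theorem N2 {z : ℂ} (hz : z ∈ Q) (h0 : z ≠ 0) (h8 : z.re ≤ 8) : ‖V1 z‖ ≤ 13 / 50 * ‖VV z‖ := by
  exact (BN.FA_all hz h0 h8).2.1

/-- [1.131] -/
theorem N3 {z : ℂ} (hz : z ∈ Q) (h0 : z ≠ 0) (h8 : z.re ≤ 8) : ‖V2 z‖ ≤ 5 / 4 := by
  exact (BN.FA_all hz h0 h8).2.2.1

/-- [.3856] -/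
theorem N4 {z : ℂ} (hz : z ∈ Q) (h0 : z ≠ 0) (h8 : z.re ≤ 8) :
    |(VV z).im| ≤ 393 / 1000 * (VV z).re := by
  exact (BN.FA_all hz h0 h8).2.2.2.1

/-- [1.28 and 3.195] -/
theorem N6 {z : ℂ} (hz : z ∈ Q) (h0 : z ≠ 0) (h8 : z.re ≤ 8) :
    1 ≤ (VV z).re ∧ ‖VV z‖ ≤ 33 / 10 := by
  exact (BN.FA_all hz h0 h8).2.2.2.2.1

/-- [.583 and 1.353] -/
theorem N7 {z : ℂ} (hz : z ∈ Q) (h0 : z ≠ 0) (h8 : z.re ≤ 8) :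
    11 / 20 ≤ (VV z / 2 - V1 z).re ∧ ‖VV z / 2 - V1 z‖ ≤ 7 / 5 * (VV z / 2 - V1 z).re := by
  exact (BN.FA_all hz h0 h8).2.2.2.2.2.1

/-- [.706] -/
theorem N8 {z : ℂ} (hz : z ∈ Q) (h0 : z ≠ 0) (h8 : z.re ≤ 8) :
    ‖tk z‖ ≤ 3 / 4 * ‖kap z‖ ^ 2 := by
  exact (BN.FA_all hz h0 h8).2.2.2.2.2.2.1

/-- [1.5754] -/
theorem N9 {z : ℂ} (hz : z ∈ Q) (h0 : z ≠ 0) (h8 : z.re ≤ 8) :
    ‖2 + z + (z - 1) * kap z‖ ≤ 17 / 10 * ‖kap z‖ ^ 2 := by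
  exact (BN.FA_all hz h0 h8).2.2.2.2.2.2.2.1

/-- [.6899] -/
theorem N10 {z : ℂ} (hz : z ∈ Q) (h0 : z ≠ 0) (h8 : z.re ≤ 8) :
    67 / 100 * ‖kap z‖ ≤ (kap z).re := by
  exact (BN.FA_all hz h0 h8).2.2.2.2.2.2.2.2

/-- [29.76]; here `GG 4 |z|` is a positive real number -/
theorem N11 {z : ℂ} (hz : z ∈ Q) (h0 : z ≠ 0) (h9 : ‖z‖ ≤ 9 / 2) :
    (GG 4 (‖z‖ : ℂ)).re * ‖GG 1 z‖ ≤ 31 * ‖GG 2 z‖ ^ 2 := by
  exact (BN.FC_all hz h0 ((Complex.re_le_norm z).trans (h9.trans (by norm_num)))).1 h9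

/-- [.01994] -/
theorem N12 {z : ℂ} (hz : z ∈ Q) (h0 : z ≠ 0) (h8 : z.re ≤ 8) :
    9 / 500 ≤ ((GG 0 z - GG 0 (z * exp ((1 / 4 : ℝ) * I))) / GG 1 z).re ∧
    9 / 500 ≤ ((GG 0 z - GG 0 (z * exp (-(1 / 4 : ℝ) * I))) / GG 1 z).re := by
  exact (BN.FC_all hz h0 h8).2.1

/-- normalised margin 35 percent -/
theorem N13 {z : ℂ} (hz : z ∈ P) (h8 : z.re ≤ 8) : 0 < ((6 - 13 * I) * (kap z / z)).re := by
  exact BN.N13_lower ⟨hz, h8⟩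

/-- the barrier; the angle margin is 1.28 degrees -/
theorem N14 {z : ℂ} (hz : z ∈ closure P) (hP : z ∉ P) (him : z.im < 0) (h8 : z.re ≤ 8) :
    ((-15 + 16 * I) * GG 1 z).im < 0 := by
  exact (BN.N14_all hz hP him h8).2

theorem ne_zero_of_re {z : ℂ} (h : 0 < z.re) : z ≠ 0 := by
  intro h0; rw [h0] at h; simp at h

/-- [.117, .063, .106] -/
theorem N18 {z : ℂ} (hz : z ∈ Q) (h8 : z.re ≤ 8) :
    (1 ≤ z.re → 661 / 5000 * ‖z‖ / ‖GG 1 z‖ + 1 / 50 ≤ (GG 0 z / GG 1 z).re) ∧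
    (17 / 10 ≤ z.re → 1 / 6 * ‖z‖ / ‖GG 1 z‖ + 1 / 50 ≤ (GG 0 z / GG 1 z).re) ∧
    (3 ≤ z.re → 19 / 100 * ‖z‖ / ‖GG 1 z‖ + 1 / 50 ≤ (GG 0 z / GG 1 z).re) := by
  refine ⟨fun h => ?_, fun h => ?_, fun h => ?_⟩
  · exact (BN.FC_all hz (ne_zero_of_re (by linarith)) h8).2.2.1 h
  · exact (BN.FC_all hz (ne_zero_of_re (by linarith)) h8).2.2.2.1 h
  · exact (BN.FC_all hz (ne_zero_of_re (by linarith)) h8).2.2.2.2 h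

end ST3
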