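import Pool.Agent.Helper2.ST.NX0

/-!
# ST-NX2: facts for `Re z >= 8`, `|Im z| <= 21/8`, part 2

Write `nu = VV z - 1 = 2/(z-2) + eta`, `|eta| <= 0.0053` (`nu8`), `kap = z - 1 + nu` (`kap_nu`),
`V1 = nu - 2/kap` (`V1_eq`), `tk = 2 + z - kap nu` (ring), `|nu| <= 2/6 + .0053 <= 0.339`,
`|Im nu| <= 2*2.625/(36+6.9) + .0053 <= 0.128` (`Im (2/(z-2)) = -2 Im z/|z-2|^2`; its size is
`2y/((X-2)^2+y^2)`, increasing in `y <= 21/8` and decreasing in `X`),
`Re nu >= 2(X-2)/|z-2|^2 - .0053`, and this is nonnegative only for `X <= 370`; use in general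
`Re nu >= -.0053`, and for `X <= 100` `Re nu > 0`.
CAUTION for `X6` (`1 <= Re VV`): one needs `Re nu >= 0` for all `X >= 8`, so the decay of `eta` is
needed: `|eta| <= |z^2+2z+2| e^{-X}/|D| + 2|z+2|e^{-X}/(|D||z-2|)`, and
`2(X-2)/|z-2|^2 >= 1/(X-2)` while `|eta| <= (X+2)^2 e^{-X}` (use the formulas of NX0 again).
* `X2`: `|V1| = |kap nu - 2|/|kap| <= (|z-2| .0053 + |nu| + |nu|^2)/|kap| <= .006 + .454/6.6 <= .075`
  and `|VV| >= Re VV >= .99`.
* `X4`: `|Im VV| = |Im nu| <= .128 <= .393 * .99`.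
* `X6`: `|VV| <= 1.339`.
* `X8`: `|tk| <= |z| + |V1||kap| + ... `: `tk = 2 + z - kap nu = z - (kap nu - 2)`, so
  `|tk| <= |z| + .075 |kap|`, `|z| <= 1.2 |kap|`, `|kap| >= 6.6`: `|tk|/|kap|^2 <= 1.275/6.6 <= .2`.
-/

namespace ST3

open Complex

private theorem nx2_norm2 {z : ℂ} (hz : z ∈ St 8) : 6 ≤ ‖z - 2‖ := by
  have h1 := (le_abs_self _).trans (Complex.abs_re_le_norm (z - 2))
  have h2 : (z - 2).re = z.re - 2 := by simp
  rw [h2] at h1
  have := hz.1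
  linarith

private theorem nx2_inv {z : ℂ} (hz : z ∈ St 8) : ‖2 / (z - 2)‖ ≤ 1 / 3 := by
  have h1 := nx2_norm2 hz
  rw [norm_div, Complex.norm_ofNat, div_le_iff₀ (by linarith)]
  linarith

private theorem nx2_nu {z : ℂ} (hz : z ∈ St 8) : ‖VV z - 1‖ ≤ 3387 / 10000 := by
  have h1 := nx2_inv hz
  have h2 := nu8 hz
  have h3 := norm_add_le (VV z - 1 - 2 / (z - 2)) (2 / (z - 2))
  rw [sub_add_cancel] at h3
  linarith

/-- the exact form of the deviation -/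
private theorem nx2_exact {z : ℂ} (hz : z ∈ St 8) :
    exp z * (z - 2) + z + 2 ≠ 0 ∧
    VV z - 1 = 2 / (z - 2) - z ^ 3 / ((exp z * (z - 2) + z + 2) * (z - 2)) := by
  have h7 : z ∈ St 7 := ⟨by have := hz.1; linarith, hz.2⟩
  have hG := GG1_ne_St h7
  have h6 := nx2_norm2 hz
  have hz2 : z - 2 ≠ 0 := by
    intro h
    rw [h, norm_zero] at h6
    linarith
  have hz0 : z ≠ 0 := by
    rintro rfl
    have := hz.1
    simp at this
    linarith
  have h1 := GG1_closed z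
  have h2 := GG2_closed z
  have hD : exp z * (z - 2) + z + 2 ≠ 0 := by
    rw [← h1]
    exact mul_ne_zero (pow_ne_zero 2 hz0) hG
  refine ⟨hD, ?_⟩
  have h3 : kap z = (exp z * (z ^ 2 - 3 * z + 4) - z - 4) / (exp z * (z - 2) + z + 2) := by
    unfold kap
    rw [← h1, ← h2]
    field_simp
  have h4 : VV z - 1 = (exp z * (z ^ 2 - 3 * z + 4) - z - 4) / (exp z * (z - 2) + z + 2) + 1 - z := by
    unfold VV
    rw [h3]
    ring
  rw [h4]
  field_simp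
  ring

private theorem nx2_re {z : ℂ} (hz : z ∈ St 8) : 0 ≤ (VV z - 1).re := by
  obtain ⟨hD, hE⟩ := nx2_exact hz
  have h6 := nx2_norm2 hz
  obtain ⟨hX, hY⟩ := hz
  have hX0 : 0 < z.re := by linarith
  have hnz : ‖z - 2‖ ^ 2 = (z.re - 2) ^ 2 + z.im ^ 2 := by
    rw [← Complex.normSq_eq_norm_sq]
    simp [Complex.normSq_apply]
    ring
  have hre : (2 / (z - 2)).re = 2 * (z.re - 2) / ‖z - 2‖ ^ 2 := by
    rw [← Complex.normSq_eq_norm_sq, Complex.div_re]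
    simp
  have hexp : z.re ^ 4 / 24 ≤ Real.exp z.re := by
    have := Real.pow_div_factorial_le_exp z.re hX0.le 4
    norm_num [Nat.factorial] at this
    linarith
  have hY2 : z.im ^ 2 ≤ 441 / 64 := by
    have := abs_nonneg z.im
    rw [← sq_abs]
    nlinarith
  have hzn : ‖z‖ ≤ z.re + 1 / 2 := by
    apply le_of_sq_le_sq _ (by linarith)
    rw [← Complex.normSq_eq_norm_sq, Complex.normSq_apply]
    nlinarith
  have hz2n : ‖z + 2‖ ≤ z.re + 5 / 2 := by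
    have := norm_add_le z 2
    rw [Complex.norm_ofNat] at this
    linarith
  have hX4 : z.re ^ 4 = z.re ^ 2 * z.re ^ 2 := by ring
  have hXX : 64 ≤ z.re ^ 2 := by nlinarith
  have hDn : Real.exp z.re * ‖z - 2‖ / 2 ≤ ‖exp z * (z - 2) + z + 2‖ := by
    have h1 := norm_sub_le (exp z * (z - 2) + (z + 2)) (z + 2)
    rw [add_sub_cancel_right, norm_mul, Complex.norm_exp, ← add_assoc] at h1
    have h2 : 2 * ‖z + 2‖ ≤ Real.exp z.re * ‖z - 2‖ := by
      calc 2 * ‖z + 2‖ ≤ 2 * (z.re + 5 / 2) := by linarith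
        _ ≤ z.re ^ 4 / 24 * 6 := by rw [hX4]; nlinarith
        _ ≤ Real.exp z.re * ‖z - 2‖ := mul_le_mul hexp h6 (by norm_num) (Real.exp_pos _).le
    linarith
  have hn2 : 0 < ‖z - 2‖ := by linarith
  have hep := Real.exp_pos z.re
  have h8 : ‖z ^ 3 / ((exp z * (z - 2) + z + 2) * (z - 2))‖ ≤ 2 * (z.re - 2) / ‖z - 2‖ ^ 2 := by
    rw [norm_div, norm_pow, norm_mul]
    rw [div_le_div_iff₀ (mul_pos (norm_pos_iff.2 hD) hn2) (by positivity)]
    have h9 : ‖z‖ ^ 3 ≤ (z.re - 2) * Real.exp z.re := by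
      calc ‖z‖ ^ 3 ≤ (z.re + 1 / 2) ^ 3 := pow_le_pow_left₀ (norm_nonneg _) hzn 3
        _ ≤ (z.re - 2) * (z.re ^ 4 / 24) := by
          have h10 : z.re + 1 / 2 ≤ 17 / 16 * z.re := by linarith
          have h11 : (z.re + 1 / 2) ^ 3 ≤ (17 / 16 * z.re) ^ 3 :=
            pow_le_pow_left₀ (by linarith) h10 3
          have h12 : 0 ≤ z.re ^ 3 := by positivity
          nlinarith
        _ ≤ _ := mul_le_mul_of_nonneg_left hexp (by linarith)
    calc ‖z‖ ^ 3 * ‖z - 2‖ ^ 2 ≤ ((z.re - 2) * Real.exp z.re) * ‖z - 2‖ ^ 2 :=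
          mul_le_mul_of_nonneg_right h9 (by positivity)
      _ = 2 * (z.re - 2) * (Real.exp z.re * ‖z - 2‖ / 2 * ‖z - 2‖) := by ring
      _ ≤ 2 * (z.re - 2) * (‖exp z * (z - 2) + z + 2‖ * ‖z - 2‖) := by
          apply mul_le_mul_of_nonneg_left _ (by linarith)
          exact mul_le_mul_of_nonneg_right hDn hn2.le
  rw [hE, Complex.sub_re, hre]
  have h10 := (le_abs_self _).trans
    (Complex.abs_re_le_norm (z ^ 3 / ((exp z * (z - 2) + z + 2) * (z - 2))))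
  linarith

private theorem nx2_VV {z : ℂ} (hz : z ∈ St 8) : 1 ≤ (VV z).re := by
  have h := nx2_re hz
  rw [Complex.sub_re, Complex.one_re] at h
  linarith

private theorem nx2_kap {z : ℂ} (hz : z ∈ St 8) : 7 ≤ ‖kap z‖ := by
  have h := nx2_re hz
  have h1 := (le_abs_self _).trans (Complex.abs_re_le_norm (kap z))
  rw [kap_nu z, Complex.add_re, Complex.sub_re, Complex.one_re, ← kap_nu z] at h1
  have := hz.1
  linarith

private theorem nx2_z2 {z : ℂ} (hz : z ∈ St 8) : ‖z - 2‖ ≤ ‖kap z‖ + 13387 / 10000 := by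
  have h1 : z - 2 = kap z - (1 + (VV z - 1)) := by
    rw [kap_nu z]; ring
  have h2 := nx2_nu hz
  have h3 := norm_add_le (1 : ℂ) (VV z - 1)
  rw [norm_one] at h3
  rw [h1]
  have h4 := norm_sub_le (kap z) (1 + (VV z - 1))
  linarith

private theorem nx2_V1 {z : ℂ} (hz : z ∈ St 8) : ‖kap z * (VV z - 1) - 2‖ ≤ 8 / 100 * ‖kap z‖ := by
  have h6 := nx2_norm2 hz
  have hz2 : z - 2 ≠ 0 := by
    intro h
    rw [h, norm_zero] at h6
    linarith
  have h1 : kap z * (VV z - 1) - 2 =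
      (z - 2) * (VV z - 1 - 2 / (z - 2)) + (VV z - 1) + (VV z - 1) ^ 2 := by
    rw [mul_sub (z - 2), mul_div_cancel₀ _ hz2, kap_nu z]
    ring
  have h2 := nx2_nu hz
  have h3 := nu8 hz
  have h4 := nx2_z2 hz
  have h5 := nx2_kap hz
  have h7 : ‖(z - 2) * (VV z - 1 - 2 / (z - 2))‖ ≤ ‖z - 2‖ * (53 / 10000) := by
    rw [norm_mul]
    exact mul_le_mul_of_nonneg_left h3 (norm_nonneg _)
  have h8 : ‖(VV z - 1) ^ 2‖ ≤ (3387 / 10000) ^ 2 := by
    rw [norm_pow]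
    exact pow_le_pow_left₀ (norm_nonneg _) h2 2
  have h9 := norm_add_le ((z - 2) * (VV z - 1 - 2 / (z - 2)) + (VV z - 1)) ((VV z - 1) ^ 2)
  have h10 := norm_add_le ((z - 2) * (VV z - 1 - 2 / (z - 2))) (VV z - 1)
  rw [h1]
  linarith

private theorem nx2_kap0 {z : ℂ} (hz : z ∈ St 8) : kap z ≠ 0 := by
  intro h
  have := nx2_kap hz
  rw [h, norm_zero] at this
  linarith

theorem X2 {z : ℂ} (hz : z ∈ St 8) : ‖V1 z‖ ≤ 13 / 50 * ‖VV z‖ := by
  have hk := nx2_kap0 hz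
  have h1 : V1 z = (kap z * (VV z - 1) - 2) / kap z := by
    rw [V1_eq hk]
    field_simp
  have h2 := nx2_V1 hz
  have h3 : ‖V1 z‖ ≤ 8 / 100 := by
    rw [h1, norm_div, div_le_iff₀ (norm_pos_iff.2 hk)]
    exact h2
  have h4 := (nx2_VV hz).trans ((le_abs_self _).trans (Complex.abs_re_le_norm (VV z)))
  linarith

theorem X4 {z : ℂ} (hz : z ∈ St 8) : |(VV z).im| ≤ 393 / 1000 * (VV z).re := by
  have h1 := nx2_VV hz
  have h2 := (Complex.abs_im_le_norm _).trans (nu8 hz)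
  have h3 : (VV z - 1 - 2 / (z - 2)).im = (VV z).im + 2 * z.im / ((z.re - 2) ^ 2 + z.im ^ 2) := by
    rw [Complex.sub_im, Complex.sub_im, Complex.one_im, Complex.div_im]
    simp [Complex.normSq_apply]
    ring
  rw [h3] at h2
  obtain ⟨hX, hY⟩ := hz
  have h4 : |2 * z.im / ((z.re - 2) ^ 2 + z.im ^ 2)| ≤ 1225 / 10000 := by
    have hpos : 0 < (z.re - 2) ^ 2 + z.im ^ 2 := by nlinarith [sq_nonneg z.im]
    rw [abs_div, abs_of_pos hpos, abs_mul, abs_two, div_le_iff₀ hpos]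
    have h5 := abs_nonneg z.im
    have h6 : z.im ^ 2 = |z.im| ^ 2 := (sq_abs _).symm
    rw [h6]
    have h7 : 36 ≤ (z.re - 2) ^ 2 := by nlinarith
    nlinarith [mul_nonneg (sub_nonneg.2 hY) (sub_nonneg.2 hY), mul_nonneg h5 (sub_nonneg.2 hY)]
  have h5 : |(VV z).im| ≤ 53 / 10000 + 1225 / 10000 := by
    have h6 := abs_sub ((VV z).im + 2 * z.im / ((z.re - 2) ^ 2 + z.im ^ 2))
      (2 * z.im / ((z.re - 2) ^ 2 + z.im ^ 2))
    rw [add_sub_cancel_right] at h6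
    linarith
  linarith

theorem X6 {z : ℂ} (hz : z ∈ St 8) : 1 ≤ (VV z).re ∧ ‖VV z‖ ≤ 3 / 2 := by
  refine ⟨nx2_VV hz, ?_⟩
  have h1 := nx2_nu hz
  have h2 := norm_add_le (VV z - 1) 1
  rw [sub_add_cancel, norm_one] at h2
  linarith

theorem X8 {z : ℂ} (hz : z ∈ St 8) : ‖tk z‖ ≤ 3 / 4 * ‖kap z‖ ^ 2 := by
  have h1 : tk z = z - 2 + 2 - (kap z * (VV z - 1) - 2) := by
    unfold tk VV
    ring
  have h2 := nx2_V1 hz
  have h3 := nx2_z2 hz
  have h4 := nx2_kap hz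
  have h5 := norm_sub_le (z - 2 + 2) (kap z * (VV z - 1) - 2)
  have h6 := norm_add_le (z - 2) (2 : ℂ)
  rw [Complex.norm_ofNat] at h6
  rw [h1]
  nlinarith

end ST3
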