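import Pool.Agent.Helper2.ST.NX0

/-!
# ST-NX3: facts for `Re z >= 8`, `|Im z| <= 21/8`, part 3

Notation as in NX2: `nu = VV z - 1 = 2/(z-2) + eta`, `|eta| <= 0.0053`, `kap = z - 1 + nu`,
`V1 = nu - 2/kap`.
* `X7`: `beta = VV/2 - V1 = 1/2 - nu/2 + 2/kap = 1/2 + 1/kap - V1/2`. `Re (1/kap) > 0` (`Re kap > 0`),
  more precisely `Re (1/kap) >= .85/|kap|`, and
  `|V1|/2 <= 1/2 (.0053*1.05 + (|nu| + |nu|^2)/|kap|)`, `|nu| <= .339`, `|nu| + |nu|^2 <= .455`, so
  `Re beta - 1/2 >= (.85 - .23)/|kap| - .0028 >= -.0028`; and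
  `|beta - 1/2| <= 1/|kap| + |V1|/2 <= .152 + .038 = .19`, `|Im beta| <= .19`:
  `|beta| <= Re beta + (Im beta)^2/(2 Re beta) <= Re beta (1 + .0361/(2*.247)) <= 1.08 Re beta`.
* `X13`: `kap/z = 1 + (nu - 1)/z`, `|nu - 1| <= 1.339`, `|z| >= 8`:
  `Re ((6-13i) kap/z) >= 6 - 14.32*1.339/8 >= 3.6`.
* `X14`: `Re z = X >= 8`, `Im z = -21/8`: `z^2 GG 1 z = e^z D`, `D = z - 2 + (z+2) e^{-z}` (see NX0),
  so `|z|^4 e^{-X} GG 1 z = e^{-21 i/8} D conj(z)^2`, `|(z+2) e^{-z}| <= 10.9 e^{-8} < .0037`. One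
  needs the signs of `Re` and of `Im((-15+16i) .)` of `e^{-21i/8} (z-2) conj(z)^2` with
  `z = X - 21i/8` (with a margin for the small term); these are cubic polynomials in `X` with
  coefficients containing `cos(21/8) in (-.8697,-.8696)`, `sin(21/8) in (.4936,.4937)`
  (`Real.cos_bound`, or `pi - 21/8 = .51659..` and Taylor bounds). The angle of the product is
  `-(21/8 + arctan(2.625/(X-2)) - 2 arctan(2.625/X))`, between `-150.4` and `-137.6` degrees, while
  one has to stay between `-133.2` and `-270` (mod 360).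
-/

namespace ST3

open Complex

private lemma basic8 {z : ℂ} (hz : z ∈ St 8) :
    6 ≤ ‖z - 2‖ ∧ ‖VV z - 1‖ ≤ 339 / 1000 ∧ 6661 / 1000 ≤ (kap z).re ∧ |(kap z).im| ≤ 297 / 100 := by
  obtain ⟨h8, hy⟩ := hz
  have h1 : 6 ≤ ‖z - 2‖ := by
    have h2 : (z - 2).re ≤ ‖z - 2‖ := Complex.re_le_norm _
    have h3 : (z - 2).re = z.re - 2 := by simp
    linarith
  have h2 : ‖(2 : ℂ) / (z - 2)‖ ≤ 1 / 3 := by
    rw [norm_div, Complex.norm_two, div_le_div_iff₀ (by linarith) (by norm_num)]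
    linarith
  have h3 := nu8 (z := z) ⟨h8, hy⟩
  have h4 : ‖VV z - 1‖ ≤ 339 / 1000 := by
    have e : VV z - 1 = (VV z - 1 - 2 / (z - 2)) + 2 / (z - 2) := by ring
    rw [e]
    refine (norm_add_le _ _).trans ?_
    linarith
  have h5 := Complex.abs_re_le_norm (VV z - 1)
  have h6 := Complex.abs_im_le_norm (VV z - 1)
  have h7 := abs_le.mp (h5.trans h4)
  have h9 := abs_le.mp (h6.trans h4)
  have hy' := abs_le.mp hy
  refine ⟨h1, h4, ?_, ?_⟩
  · rw [kap_nu z]
    have : (z - 1 + (VV z - 1)).re = z.re - 1 + (VV z - 1).re := by simp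
    rw [this]
    linarith [h7.1]
  · rw [kap_nu z]
    have : (z - 1 + (VV z - 1)).im = z.im + (VV z - 1).im := by simp
    rw [this, abs_le]
    constructor <;> linarith [h9.1, h9.2, hy'.1, hy'.2]

theorem X7 {z : ℂ} (hz : z ∈ St 8) :
    49 / 100 ≤ (VV z / 2 - V1 z).re ∧ ‖VV z / 2 - V1 z‖ ≤ 6 / 5 * (VV z / 2 - V1 z).re := by
  obtain ⟨h6, hnu, hkre, hkim⟩ := basic8 hz
  have h3 := nu8 hz
  have hz2 : z - 2 ≠ 0 := by
    intro h
    rw [h, norm_zero] at h6
    norm_num at h6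
  have hk0 : kap z ≠ 0 := by
    intro h
    rw [h] at hkre
    norm_num at hkre
  set k : ℂ := kap z with hk
  set r : ℝ := ‖k‖ with hr
  have hkr : 6661 / 1000 ≤ r := hkre.trans (Complex.re_le_norm _)
  have hr0 : 0 < r := by linarith
  have hV1 : V1 z = ((z - 2) * (VV z - 1 - 2 / (z - 2)) + (VV z - 1) + (VV z - 1) ^ 2) / k := by
    rw [V1_eq hk0]
    have h1 := kap_nu z
    rw [← hk] at h1
    have e1 : (z - 2) * (VV z - 1 - 2 / (z - 2)) = (z - 2) * (VV z - 1) - 2 := by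
      field_simp
    have e2 : (VV z - 1 - 2 / k) * k = (VV z - 1) * k - 2 := by
      rw [sub_mul, div_mul_cancel₀ _ hk0]
    rw [e1, eq_div_iff hk0, e2]
    linear_combination (VV z - 1) * h1
  have hzk : ‖z - 2‖ ≤ r * (1052 / 1000) := by
    have e1 : ‖z - 2‖ ≤ ‖z - 1‖ := by
      rw [Complex.norm_def, Complex.norm_def]
      apply Real.sqrt_le_sqrt
      rw [Complex.normSq_apply, Complex.normSq_apply]
      have h8 := hz.1
      simp only [Complex.sub_re, Complex.sub_im, Complex.re_ofNat, Complex.im_ofNat,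
        Complex.one_re, Complex.one_im]
      nlinarith
    have e2 : ‖z - 1‖ ≤ r + 339 / 1000 := by
      have e3 : z - 1 = k - (VV z - 1) := by
        rw [hk, kap_nu z]
        ring
      rw [e3]
      exact (norm_sub_le _ _).trans (by linarith)
    nlinarith
  have hV1n : ‖V1 z‖ ≤ 56 / 10000 + (454 / 1000) / r := by
    rw [hV1, norm_div, ← hr, div_le_iff₀ hr0]
    have e1 : ‖(z - 2) * (VV z - 1 - 2 / (z - 2)) + (VV z - 1) + (VV z - 1) ^ 2‖ ≤
        ‖z - 2‖ * (53 / 10000) + 339 / 1000 + (339 / 1000) ^ 2 := by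
      refine (norm_add₃_le).trans ?_
      rw [norm_mul, norm_pow]
      have := mul_le_mul_of_nonneg_left h3 (norm_nonneg (z - 2))
      have := pow_le_pow_left₀ (norm_nonneg _) hnu 2
      linarith
    have e2 : (56 / 10000 + 454 / 1000 / r) * r = 56 / 10000 * r + 454 / 1000 := by
      field_simp
    rw [e2]
    refine e1.trans ?_
    nlinarith
  have hbeta : VV z / 2 - V1 z = 1 / 2 + (1 / k - V1 z / 2) := by
    rw [V1_eq hk0, ← hk]
    ring
  have hinv : ‖1 / k‖ = 1 / r := by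
    rw [norm_div, norm_one]
  have hinv' : 1 / r ≤ 151 / 1000 := by
    rw [div_le_iff₀ hr0]
    linarith
  have hV1h : ‖V1 z / 2‖ ≤ 28 / 10000 + (227 / 1000) / r := by
    rw [norm_div, Complex.norm_two]
    calc ‖V1 z‖ / 2 ≤ (56 / 10000 + (454 / 1000) / r) / 2 := by linarith
      _ = 28 / 10000 + (227 / 1000) / r := by ring
  have hkre1 : (1 / k).re = k.re / r ^ 2 := by
    rw [one_div, Complex.inv_re, Complex.normSq_eq_norm_sq]
  have hkk : r ≤ 3 / 2 * k.re := by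
    have := Complex.norm_le_abs_re_add_abs_im k
    rw [abs_of_nonneg (by linarith : 0 ≤ k.re)] at this
    linarith
  have hre1 : 2 / 3 / r ≤ (1 / k).re := by
    rw [hkre1, div_le_div_iff₀ hr0 (by positivity)]
    nlinarith
  have hV1re := Complex.abs_re_le_norm (V1 z / 2)
  have hV1re' := abs_le.mp (hV1re.trans hV1h)
  have hquot : 227 / 1000 / r ≤ 2 / 3 / r := by
    apply div_le_div_of_nonneg_right _ hr0.le
    norm_num
  have hre : 497 / 1000 ≤ (VV z / 2 - V1 z).re := by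
    rw [hbeta]
    have e1 : ((1 : ℂ) / 2 + (1 / k - V1 z / 2)).re = 1 / 2 + ((1 / k).re - (V1 z / 2).re) := by
      rw [Complex.add_re, Complex.sub_re]
      norm_num
    rw [e1]
    linarith [hV1re'.2]
  have him : |(VV z / 2 - V1 z).im| ≤ 19 / 100 := by
    rw [hbeta]
    have e1 : ((1 : ℂ) / 2 + (1 / k - V1 z / 2)).im = (1 / k - V1 z / 2).im := by
      rw [Complex.add_im]
      norm_num
    rw [e1]
    have e2 : (227 / 1000) / r ≤ 35 / 1000 := by
      rw [div_le_iff₀ hr0]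
      linarith
    refine (Complex.abs_im_le_norm _).trans ((norm_sub_le _ _).trans ?_)
    rw [hinv]
    linarith
  refine ⟨by linarith, ?_⟩
  set β : ℂ := VV z / 2 - V1 z with hβ
  have hβ0 : 0 ≤ 6 / 5 * β.re := by linarith
  rw [Complex.norm_def]
  apply Real.sqrt_le_iff.mpr
  refine ⟨hβ0, ?_⟩
  rw [Complex.normSq_apply]
  have h1 := abs_le.mp him
  nlinarith [h1.1, h1.2]

theorem X13 {z : ℂ} (hz : z ∈ St 8) : 0 < ((6 - 13 * I) * (kap z / z)).re := by
  obtain ⟨h6, hnu, hkre, hkim⟩ := basic8 hz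
  have h8 := hz.1
  have hz0 : z ≠ 0 := by
    intro h
    rw [h] at h8
    norm_num at h8
  have hzn : 8 ≤ ‖z‖ := h8.trans (Complex.re_le_norm z)
  have e1 : (6 - 13 * I) * (kap z / z) = (6 - 13 * I) + (6 - 13 * I) * ((VV z - 1 - 1) / z) := by
    rw [kap_nu z]
    field_simp
    ring
  rw [e1, Complex.add_re]
  have e2 : ((6 : ℂ) - 13 * I).re = 6 := by simp
  rw [e2]
  have h1 : ‖(6 - 13 * I) * ((VV z - 1 - 1) / z)‖ ≤ 19 * ((339 / 1000 + 1) / 8) := by
    rw [norm_mul, norm_div]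
    have e3 : ‖(6 : ℂ) - 13 * I‖ ≤ 19 := by
      refine (norm_sub_le _ _).trans ?_
      rw [norm_mul, Complex.norm_I]
      norm_num
    have e4 : ‖VV z - 1 - 1‖ ≤ 339 / 1000 + 1 := by
      refine (norm_sub_le _ _).trans ?_
      rw [norm_one]
      linarith
    apply mul_le_mul e3 _ (by positivity) (by norm_num)
    exact div_le_div₀ (by norm_num) e4 (by norm_num) hzn
  have h2 := (Complex.abs_re_le_norm _).trans h1
  have h3 := (abs_le.mp h2).1
  norm_num at h3 ⊢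
  linarith

private lemma trig : -(871 / 1000) ≤ Real.cos (21 / 8) ∧ Real.cos (21 / 8) ≤ -(862 / 1000) ∧
    489 / 1000 ≤ Real.sin (21 / 8) ∧ Real.sin (21 / 8) ≤ 498 / 1000 := by
  have hp1 := Real.pi_gt_d4
  have hp2 := Real.pi_lt_d4
  set δ : ℝ := Real.pi - 21 / 8 with hδ
  have hd1 : 5165 / 10000 ≤ δ := by rw [hδ]; norm_num at hp1 ⊢; linarith
  have hd2 : δ ≤ 5166 / 10000 := by rw [hδ]; norm_num at hp2 ⊢; linarith
  have hc : Real.cos (21 / 8) = -Real.cos δ := by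
    rw [hδ, Real.cos_pi_sub]
    ring
  have hs : Real.sin (21 / 8) = Real.sin δ := by
    rw [hδ, Real.sin_pi_sub]
  have habs : |δ| ≤ 1 := by
    rw [abs_le]
    constructor <;> linarith
  have hδ0 : 0 ≤ δ := by linarith
  have h1 := Real.cos_bound habs
  have h2 := Real.sin_bound habs
  rw [abs_of_nonneg hδ0] at h1 h2
  have h3 := abs_le.mp h1
  have h4 := abs_le.mp h2
  have a2 : δ ^ 2 ≤ (5166 / 10000) ^ 2 := pow_le_pow_left₀ hδ0 hd2 2
  have a2' : (5165 / 10000) ^ 2 ≤ δ ^ 2 := pow_le_pow_left₀ (by norm_num) hd1 2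
  have a3 : δ ^ 3 ≤ (5166 / 10000) ^ 3 := pow_le_pow_left₀ hδ0 hd2 3
  have a3' : (5165 / 10000) ^ 3 ≤ δ ^ 3 := pow_le_pow_left₀ (by norm_num) hd1 3
  have a4 : δ ^ 4 ≤ (5166 / 10000) ^ 4 := pow_le_pow_left₀ hδ0 hd2 4
  have a5 : δ ^ 5 ≤ (5166 / 10000) ^ 5 := pow_le_pow_left₀ hδ0 hd2 5
  rw [hc, hs]
  norm_num at a2 a2' a3 a3' a4 a5 ⊢
  refine ⟨?_, ?_, ?_, ?_⟩ <;> linarith [h3.1, h3.2, h4.1, h4.2]

theorem X14 {z : ℂ} (h8 : 8 ≤ z.re) (him : z.im = -(21 / 8)) :
    (GG 1 z).re < 0 ∧ ((-15 + 16 * I) * GG 1 z).im < 0 := by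
  obtain ⟨hc1, hc2, hs1, hs2⟩ := trig
  have hcl := GG1_closed z
  set X : ℝ := z.re with hX
  set c : ℝ := Real.cos (21 / 8) with hc
  set s : ℝ := Real.sin (21 / 8) with hs
  set E : ℝ := Real.exp X with hE
  have hE1 : 256 ≤ E := by
    have h1 : (2 : ℝ) ^ 8 ≤ Real.exp 1 ^ 8 := by
      apply pow_le_pow_left₀ (by norm_num)
      have := Real.exp_one_gt_d9
      linarith
    have h2 : Real.exp 1 ^ 8 = Real.exp 8 := by
      rw [← Real.exp_nat_mul]
      norm_num
    have h3 : Real.exp 8 ≤ E := Real.exp_le_exp.mpr h8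
    rw [h2] at h1
    norm_num at h1
    linarith
  have hre := congrArg Complex.re hcl
  have him' := congrArg Complex.im hcl
  have ez : (exp z).re = E * c := by
    rw [Complex.exp_re, him, Real.cos_neg]
  have ez' : (exp z).im = -(E * s) := by
    rw [Complex.exp_im, him, Real.sin_neg]
    ring
  have er : (z ^ 2 * GG 1 z).re = (X ^ 2 - (21 / 8) ^ 2) * (GG 1 z).re + 2 * X * (21 / 8) * (GG 1 z).im := by
    rw [pow_two, Complex.mul_re, Complex.mul_re, Complex.mul_im, him, ← hX]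
    ring
  have ei : (z ^ 2 * GG 1 z).im = (X ^ 2 - (21 / 8) ^ 2) * (GG 1 z).im - 2 * X * (21 / 8) * (GG 1 z).re := by
    rw [pow_two, Complex.mul_im, Complex.mul_re, Complex.mul_im, him, ← hX]
    ring
  have fr : (exp z * (z - 2) + z + 2).re = E * c * (X - 2) - E * s * (21 / 8) + X + 2 := by
    rw [Complex.add_re, Complex.add_re, Complex.mul_re, ez, ez', Complex.sub_re, Complex.sub_im, him,
      ← hX]
    simp only [Complex.re_ofNat, Complex.im_ofNat]
    ring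
  have fi : (exp z * (z - 2) + z + 2).im = -(E * c * (21 / 8)) - E * s * (X - 2) - 21 / 8 := by
    rw [Complex.add_im, Complex.add_im, Complex.mul_im, ez, ez', Complex.sub_re, Complex.sub_im, him,
      ← hX]
    simp only [Complex.re_ofNat, Complex.im_ofNat]
    ring
  rw [er, fr] at hre
  rw [ei, fi] at him'
  set p : ℝ := (GG 1 z).re with hp
  set q : ℝ := (GG 1 z).im with hq
  set A : ℝ := X ^ 3 - 2 * X ^ 2 + X * (21 / 8) ^ 2 + 2 * (21 / 8) ^ 2 with hA
  set B : ℝ := 21 / 8 * (X ^ 2 - 4 * X + (21 / 8) ^ 2) with hB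
  set A' : ℝ := X ^ 3 + 2 * X ^ 2 + X * (21 / 8) ^ 2 - 2 * (21 / 8) ^ 2 with hA'
  set B' : ℝ := 21 / 8 * (X ^ 2 + 4 * X + (21 / 8) ^ 2) with hB'
  have hP : (X ^ 2 + (21 / 8) ^ 2) ^ 2 * p = E * (c * A + s * B) + A' := by
    rw [hA, hB, hA']
    linear_combination (X ^ 2 - (21 / 8) ^ 2) * hre - 2 * X * (21 / 8) * him'
  have hQ : (X ^ 2 + (21 / 8) ^ 2) ^ 2 * q = E * (c * B - s * A) + B' := by
    rw [hA, hB, hB']
    linear_combination (X ^ 2 - (21 / 8) ^ 2) * him' + 2 * X * (21 / 8) * hre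
  have ht : 0 ≤ X - 8 := by linarith
  have ht2 : 0 ≤ (X - 8) ^ 2 := by positivity
  have ht3 : 0 ≤ (X - 8) ^ 3 := by positivity
  have hApos : 0 < A := by
    rw [hA]
    nlinarith
  have hBpos : 0 < B := by
    rw [hB]
    nlinarith
  have hB'pos : 0 < B' := by
    rw [hB']
    positivity
  have hAA' : A' < 16 * A := by
    rw [hA, hA']
    nlinarith
  have hBA : 2105 * B ≤ 529 * A * (100 / 100) + 0 := by
    rw [hA, hB]
    nlinarith
  have hAE : 256 * A ≤ E * A := mul_le_mul_of_nonneg_right hE1 hApos.le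
  have hEpos : 0 < E := by linarith
  have hpos : 0 < (X ^ 2 + (21 / 8) ^ 2) ^ 2 := by positivity
  constructor
  · have h1 : c * A + s * B ≤ -(1 / 2 * A) := by
      have e1 : c * A ≤ -(862 / 1000) * A := mul_le_mul_of_nonneg_right hc2 hApos.le
      have e2 : s * B ≤ 498 / 1000 * B := mul_le_mul_of_nonneg_right hs2 hBpos.le
      linarith
    have h2 : E * (c * A + s * B) ≤ E * (-(1 / 2 * A)) := mul_le_mul_of_nonneg_left h1 hEpos.le
    have h3 : (X ^ 2 + (21 / 8) ^ 2) ^ 2 * p < 0 := by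
      rw [hP]
      nlinarith
    by_contra hcon
    push Not at hcon
    have := mul_nonneg hpos.le hcon
    linarith
  · have e0 : ((-15 + 16 * I) * GG 1 z).im = 16 * p - 15 * q := by
      rw [Complex.mul_im, ← hp, ← hq]
      simp
      ring
    rw [e0]
    have h1 : 16 * (c * A + s * B) - 15 * (c * B - s * A) ≤ -A := by
      have e1 : (16 * c + 15 * s) * A ≤ (-(632 / 100)) * A := by
        apply mul_le_mul_of_nonneg_right _ hApos.le
        linarith
      have e2 : (16 * s - 15 * c) * B ≤ (2105 / 100) * B := by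
        apply mul_le_mul_of_nonneg_right _ hBpos.le
        linarith
      nlinarith
    have h2 : E * (16 * (c * A + s * B) - 15 * (c * B - s * A)) ≤ E * (-A) :=
      mul_le_mul_of_nonneg_left h1 hEpos.le
    have h3 : (X ^ 2 + (21 / 8) ^ 2) ^ 2 * (16 * p - 15 * q) < 0 := by
      have e3 : (X ^ 2 + (21 / 8) ^ 2) ^ 2 * (16 * p - 15 * q) =
          E * (16 * (c * A + s * B) - 15 * (c * B - s * A)) + 16 * A' - 15 * B' := by
        linear_combination 16 * hP - 15 * hQ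
      rw [e3]
      nlinarith
    by_contra hcon
    push Not at hcon
    have := mul_nonneg hpos.le hcon
    linarith

end ST3
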