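import Pool.Agent.Helper2.ST.NX0

/-!
# ST-NX4: more facts for `Re z >= 7`, `|Im z| <= 21/8`

Notation as in NX0: `D = z - 2 + (z+2) e^{-z}`, `z^2 GG 1 z = e^z D`, `nu = VV z - 1 = 2/(z-2) + eta`,
`|eta| <= 0.0151`.
* `X15`: `|Im nu| <= 2|Im z|/|z-2|^2 + .0151 <= 5.25/31.89 + .0151 <= .1798` (`X=7`; in general
  `2y/((X-2)^2+y^2)` is increasing in `y <= 21/8` and decreasing in `X`) and
  `Re nu >= 2(X-2)/|z-2|^2 - .0151`; need `|Im nu| <= .14 (1 + Re nu)`: it suffices that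
  `2y + .0303*((X-2)^2+y^2)/2*... `; i.e. with `u = X-2 >= 5`, `0 <= y <= 21/8`:
  `2y/(u^2+y^2) + .0151 <= .14 (1 + 2u/(u^2+y^2) - .0151)`, i.e.
  `2y - .28 u <= (.14*.9849 - .0151)(u^2+y^2) = .12278 (u^2+y^2)`. At `u=5, y=2.625`:
  `3.85 <= 3.91`. True for all `u >= 5` (the right side minus the left side increases in `u` and
  decreases in `y` on the range).
* `X16`: `z = X + iy`, `-21/8 <= y <= -9/4`, `X >= 15/2`: `|z|^4 e^{-X} GG 1 z = e^{iy} D conj(z)^2`. The angle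
  of `e^{iy}(z-2)conj(z)^2` is `-(|y| + arctan(|y|/(X-2)) - 2 arctan(|y|/X))`, between `-151` and
  `-117.5` degrees, and `arg(-2+7i) = 105.9` degrees, so the angle of the product is between `-45.1`
  and `-11.6` degrees: the imaginary part is negative with a margin; the term `(z+2)e^{-z}` in `D` has
  relative size `<= 10.2 e^{-7.5}/5.9 <= .001`. Proof without arctan: with
  `e^{iy} = cos y + i sin y` one can write `e^{iy} (-2+7i) = |..| e^{i(y + a)}`, and the remaining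
  factor `(z-2) conj(z)^2` has argument between `0` and `+22` degrees... (`2 arctan(|y|/X) -
  arctan(|y|/(X-2))`, which is `>= 0` and `<= .25`). So: `y + a` with `a = arg(-2+7i) in (1.848, 1.850)`
  lies between `-.777` and `-.4`, plus something in `[0, .25]`: total in `[-.777, -.15]`.
* `X17`: `z = kap + 1 - nu`, `|1 - nu| <= 1 + .4151`, `|kap| >= 5`.
* `X18`: `|D| >= |z| - 2 - |z+2| e^{-X} >= |z| - 2.0087`.
-/

namespace ST3

open Complex

theorem nx4_inv {z : ℂ} :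
    (2 / (z - 2)).re = 2 * (z.re - 2) / ((z.re - 2) ^ 2 + z.im ^ 2) ∧
    (2 / (z - 2)).im = -(2 * z.im) / ((z.re - 2) ^ 2 + z.im ^ 2) := by
  have hn : Complex.normSq (z - 2) = (z.re - 2) ^ 2 + z.im ^ 2 := by
    rw [Complex.normSq_apply]
    simp
    ring
  have hre2 : (z - 2).re = z.re - 2 := by simp
  have him2 : (z - 2).im = z.im := by simp
  constructor
  · rw [Complex.div_re, hn, hre2, him2]
    simp
  · rw [Complex.div_im, hn, hre2, him2]
    simp
    ring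

theorem X15 {z : ℂ} (hz : z ∈ St 7) : |(VV z).im| ≤ 7 / 50 * (VV z).re := by
  obtain ⟨h1, h2⟩ := hz
  have hnu := nu7 ⟨h1, h2⟩
  obtain ⟨hre, him⟩ := nx4_inv (z := z)
  set η : ℂ := VV z - 1 - 2 / (z - 2) with hη
  have hV : VV z = 1 + 2 / (z - 2) + η := by rw [hη]; ring
  set u : ℝ := z.re - 2 with hu
  set N : ℝ := u ^ 2 + z.im ^ 2 with hN
  have hu5 : 5 ≤ u := by linarith
  have hN0 : 0 < N := by positivity
  have hVre : (VV z).re = 1 + 2 * u / N + η.re := by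
    rw [hV, Complex.add_re, Complex.add_re, hre, Complex.one_re]
  have hVim : (VV z).im = -(2 * z.im) / N + η.im := by
    rw [hV, Complex.add_im, Complex.add_im, him, Complex.one_im, zero_add]
  have hηre := (Complex.abs_re_le_norm η).trans hnu
  have hηim := (Complex.abs_im_le_norm η).trans hnu
  have h3 : |(VV z).im| ≤ 2 * |z.im| / N + 151 / 10000 := by
    rw [hVim]
    refine (abs_add_le _ _).trans (add_le_add (le_of_eq ?_) hηim)
    rw [abs_div, abs_neg, abs_mul, abs_of_pos hN0, abs_two]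
  have h4 : 1 + 2 * u / N - 151 / 10000 ≤ (VV z).re := by
    rw [hVre]
    have := neg_le_of_abs_le hηre
    linarith
  refine h3.trans (le_trans ?_ (mul_le_mul_of_nonneg_left h4 (by norm_num)))
  have h5 : 2 * |z.im| / N + 151 / 10000 ≤ 7 / 50 * (1 + 2 * u / N - 151 / 10000) ↔
      0 ≤ (7 / 50 * (1 - 151 / 10000) - 151 / 10000) * N + 7 / 50 * (2 * u) - 2 * |z.im| := by
    have e : 7 / 50 * (1 + 2 * u / N - 151 / 10000) - (2 * |z.im| / N + 151 / 10000) =
        ((7 / 50 * (1 - 151 / 10000) - 151 / 10000) * N + 7 / 50 * (2 * u) - 2 * |z.im|) / N := by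
      field_simp
      ring
    rw [← sub_nonneg, e]
    constructor
    · intro h
      by_contra hcon
      push Not at hcon
      have := div_neg_of_neg_of_pos hcon hN0
      linarith
    · intro h
      exact div_nonneg h hN0.le
  rw [h5]
  have h6 : z.im ^ 2 = |z.im| ^ 2 := (sq_abs _).symm
  rw [hN, h6]
  set y : ℝ := |z.im| with hy
  have hy0 : 0 ≤ y := abs_nonneg _
  nlinarith [sq_nonneg (u - 5), sq_nonneg (21 / 8 - y)]

theorem X17 {z : ℂ} (hz : z ∈ St 7) : ‖z‖ ≤ 13 / 10 * ‖kap z‖ := by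
  have hnu := nu7 hz
  obtain ⟨h1, h2⟩ := hz
  have hz7 : 7 ≤ ‖z‖ := by
    have h3 := Complex.abs_re_le_norm z
    have h4 := le_abs_self z.re
    linarith
  have hz5 : 5 ≤ ‖z - 2‖ := by
    have h3 := Complex.abs_re_le_norm (z - 2)
    have h4 := le_abs_self (z - 2).re
    have h5 : (z - 2).re = z.re - 2 := by simp
    rw [h5] at h3 h4
    linarith
  have h3 : ‖VV z - 1‖ ≤ 2 / 5 + 151 / 10000 := by
    have h4 : VV z - 1 = 2 / (z - 2) + (VV z - 1 - 2 / (z - 2)) := by ring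
    rw [h4]
    refine (norm_add_le _ _).trans (add_le_add ?_ hnu)
    rw [norm_div]
    have h5 : ‖(2 : ℂ)‖ = 2 := by simp
    rw [h5]
    exact div_le_div_of_nonneg_left (by norm_num) (by norm_num) hz5
  have h4 : ‖z‖ ≤ ‖kap z‖ + 1 + ‖VV z - 1‖ := by
    have h5 : z = kap z + 1 - (VV z - 1) := by
      have := kap_nu z
      rw [this]
      ring
    calc ‖z‖ = ‖kap z + 1 - (VV z - 1)‖ := by rw [← h5]
      _ ≤ ‖kap z + 1‖ + ‖VV z - 1‖ := norm_sub_le _ _
      _ ≤ ‖kap z‖ + 1 + ‖VV z - 1‖ := by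
          have := norm_add_le (kap z) 1
          rw [norm_one] at this
          linarith
  linarith

theorem nx4_b {z : ℂ} (hz : z ∈ St 7) : ‖(z + 2) * exp (-z)‖ ≤ 87 / 10000 := by
  obtain ⟨_, h2, _⟩ := nx_bounds (r := 1 / 2) (le_refl (7 : ℝ)) hz.1 hz.2 (by norm_num)
    (by norm_num) nx_exp7
  refine h2.trans ?_
  norm_num

theorem X18 {z : ℂ} (hz : z ∈ St 7) :
    Real.exp z.re * (‖z‖ - 201 / 100) / ‖z‖ ^ 2 ≤ ‖GG 1 z‖ := by
  obtain ⟨h0, _, _⟩ := nx_seven hz
  have hn : 0 < ‖z‖ := norm_pos_iff.2 h0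
  have h1 := congrArg norm (nx_GG1 z)
  rw [norm_mul, norm_mul, norm_pow, Complex.norm_exp] at h1
  have h2 : ‖z‖ - 201 / 100 ≤ ‖nxD z‖ := by
    have h3 : ‖z‖ ≤ ‖nxD z‖ + 2 + ‖(z + 2) * exp (-z)‖ := by
      have h4 : z = nxD z + 2 - (z + 2) * exp (-z) := by unfold nxD; ring
      calc ‖z‖ = ‖nxD z + 2 - (z + 2) * exp (-z)‖ := by rw [← h4]
        _ ≤ ‖nxD z + 2‖ + ‖(z + 2) * exp (-z)‖ := norm_sub_le _ _
        _ ≤ _ := by
            have := norm_add_le (nxD z) 2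
            have h5 : ‖(2 : ℂ)‖ = 2 := by simp
            linarith
    have := nx4_b hz
    linarith
  rw [div_le_iff₀ (by positivity), mul_comm ‖GG 1 z‖, h1]
  exact mul_le_mul_of_nonneg_left h2 (Real.exp_pos _).le

theorem nx4_cos : Real.cos (9 / 4) ≤ -(4 / 7) := by
  have h1 := Real.cos_bound (x := 9 / 16) (by rw [abs_of_pos] <;> norm_num)
  rw [abs_le] at h1
  obtain ⟨_, h2⟩ := h1
  have h3 : Real.cos (9 / 8) = 2 * Real.cos (9 / 16) ^ 2 - 1 := by
    rw [← Real.cos_two_mul]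
    congr 1
    norm_num
  have h4 : Real.cos (9 / 4) = 2 * Real.cos (9 / 8) ^ 2 - 1 := by
    rw [← Real.cos_two_mul]
    congr 1
    norm_num
  have hpi := Real.pi_gt_three
  have h5 : 0 ≤ Real.cos (9 / 8) := Real.cos_nonneg_of_mem_Icc ⟨by linarith, by linarith⟩
  have h6 : 0 ≤ Real.cos (9 / 16) := Real.cos_nonneg_of_mem_Icc ⟨by linarith, by linarith⟩
  have h7 : Real.cos (9 / 16) ≤ 8472 / 10000 := by
    have h8 : |(9 / 16 : ℝ)| ^ 4 * (5 / 96) ≤ 53 / 10000 := by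
      rw [abs_of_pos (by norm_num)]
      norm_num
    have h9 : (1 : ℝ) - (9 / 16) ^ 2 / 2 ≤ 8419 / 10000 := by norm_num
    linarith
  have h8 : Real.cos (9 / 8) ≤ 4356 / 10000 := by
    rw [h3]
    nlinarith
  rw [h4]
  nlinarith

theorem X16 {z : ℂ} (h7 : 15 / 2 ≤ z.re) (h1 : -(21 / 8) ≤ z.im) (h2 : z.im ≤ -(9 / 4)) :
    ((-2 + 7 * I) * GG 1 z).im < 0 := by
  have hst : z ∈ St 7 := ⟨by linarith, by rw [abs_le]; constructor <;> linarith⟩
  obtain ⟨h0, _, _⟩ := nx_seven hst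
  have hb := nx4_b hst
  set X : ℝ := z.re with hX
  obtain ⟨s, hs⟩ : ∃ s : ℝ, z.im = -s := ⟨-z.im, by ring⟩
  have hs1 : 9 / 4 ≤ s := by linarith
  have hs2 : s ≤ 21 / 8 := by linarith
  have hpi := Real.pi_gt_three
  have hcos : Real.cos s ≤ -(4 / 7) :=
    (Real.cos_le_cos_of_nonneg_of_le_pi (by norm_num) (by linarith) hs1).trans nx4_cos
  have hsin : Real.sin s ≤ 1 := Real.sin_le_one s
  have hcs : Real.cos s ^ 2 + Real.sin s ^ 2 = 1 := Real.cos_sq_add_sin_sq s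
  set a : ℝ := -2 * Real.cos s + 7 * Real.sin s with ha
  set b : ℝ := 7 * Real.cos s + 2 * Real.sin s with hbdef
  have hab : a ^ 2 + b ^ 2 = 53 := by
    rw [ha, hbdef]
    linear_combination 53 * hcs
  have ha1 : a ≤ 729 / 100 := by nlinarith [sq_nonneg b]
  have hb1 : b ≤ -2 := by rw [hbdef]; linarith
  -- the rotation factor
  set ρ : ℂ := (-2 + 7 * I) * (((Real.cos s : ℝ) : ℂ) - ((Real.sin s : ℝ) : ℂ) * I) with hρ
  have hρre : ρ.re = a := by
    rw [hρ, ha]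
    generalize Real.cos s = c
    generalize Real.sin s = d
    simp
  have hρim : ρ.im = b := by
    rw [hρ, hbdef]
    generalize Real.cos s = c
    generalize Real.sin s = d
    simp
    ring
  have hρn : ‖ρ‖ ≤ 729 / 100 := by
    have h3 : ‖ρ‖ ^ 2 = 53 := by
      rw [Complex.sq_norm, Complex.normSq_apply, hρre, hρim]
      linarith
    nlinarith [norm_nonneg ρ]
  have hexp : exp z = ((Real.exp X : ℝ) : ℂ) *
      (((Real.cos s : ℝ) : ℂ) - ((Real.sin s : ℝ) : ℂ) * I) := by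
    rw [Complex.exp_eq_exp_re_mul_sin_add_cos, hs]
    rw [Complex.ofReal_neg, Complex.cos_neg, Complex.sin_neg, Complex.ofReal_exp,
      Complex.ofReal_cos, Complex.ofReal_sin]
    ring
  set W : ℂ := ρ * nxD z * (starRingEnd ℂ z) ^ 2 with hW
  have hzz : z * starRingEnd ℂ z = ((Complex.normSq z : ℝ) : ℂ) := Complex.mul_conj z
  have hmain : ((-2 + 7 * I) * GG 1 z) * (((Complex.normSq z) ^ 2 : ℝ) : ℂ) =
      ((Real.exp X : ℝ) : ℂ) * W := by
    have h3 := nx_GG1 z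
    have h4 : (((Complex.normSq z) ^ 2 : ℝ) : ℂ) = z ^ 2 * (starRingEnd ℂ z) ^ 2 := by
      push_cast
      rw [← hzz]
      ring
    rw [h4, hW, hρ]
    calc (-2 + 7 * I) * GG 1 z * (z ^ 2 * (starRingEnd ℂ z) ^ 2)
        = (-2 + 7 * I) * (z ^ 2 * GG 1 z) * (starRingEnd ℂ z) ^ 2 := by ring
      _ = (-2 + 7 * I) * (exp z * nxD z) * (starRingEnd ℂ z) ^ 2 := by rw [h3]
      _ = _ := by rw [hexp]; ring
  have hmain2 : ((-2 + 7 * I) * GG 1 z).im * (Complex.normSq z) ^ 2 = Real.exp X * W.im := by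
    have h3 := congrArg Complex.im hmain
    rw [Complex.im_mul_ofReal, Complex.im_ofReal_mul] at h3
    exact h3
  have hns : 0 < Complex.normSq z := Complex.normSq_pos.2 h0
  have hWneg : W.im < 0 := by
    have h3 : W = ρ * ((z - 2) * (starRingEnd ℂ z) ^ 2) +
        ρ * ((z + 2) * exp (-z)) * (starRingEnd ℂ z) ^ 2 := by
      rw [hW]
      unfold nxD
      ring
    have hzn : ‖z‖ ^ 2 = X ^ 2 + s ^ 2 := by
      rw [Complex.sq_norm, Complex.normSq_apply, hs]
      ring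
    have h4 : (ρ * ((z + 2) * exp (-z)) * (starRingEnd ℂ z) ^ 2).im ≤
        729 / 100 * (87 / 10000) * (X ^ 2 + s ^ 2) := by
      refine (le_abs_self _).trans ((Complex.abs_im_le_norm _).trans ?_)
      rw [norm_mul, norm_mul, norm_pow, Complex.norm_conj, hzn]
      apply mul_le_mul_of_nonneg_right _ (by positivity)
      exact mul_le_mul hρn hb (norm_nonneg _) (by norm_num)
    have hre : ((z - 2) * (starRingEnd ℂ z) ^ 2).re = X ^ 2 * (X - 2) + s ^ 2 * (X + 2) := by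
      simp only [pow_two, Complex.mul_re, Complex.mul_im, Complex.sub_re, Complex.sub_im,
        Complex.conj_re, Complex.conj_im, Complex.re_ofNat, Complex.im_ofNat, hs]
      ring
    have him : ((z - 2) * (starRingEnd ℂ z) ^ 2).im = s * (X ^ 2 - 4 * X + s ^ 2) := by
      simp only [pow_two, Complex.mul_re, Complex.mul_im, Complex.sub_re, Complex.sub_im,
        Complex.conj_re, Complex.conj_im, Complex.re_ofNat, Complex.im_ofNat, hs]
      ring
    have h5 : (ρ * ((z - 2) * (starRingEnd ℂ z) ^ 2)).im =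
        a * (s * (X ^ 2 - 4 * X + s ^ 2)) + b * (X ^ 2 * (X - 2) + s ^ 2 * (X + 2)) := by
      rw [Complex.mul_im, hρre, hρim, hre, him]
    rw [h3, Complex.add_im, h5]
    have hs0 : 0 ≤ s := by linarith
    have hT0 : 0 ≤ s * (X ^ 2 - 4 * X + s ^ 2) := by
      apply mul_nonneg hs0
      nlinarith
    have hR0 : 0 ≤ X ^ 2 * (X - 2) + s ^ 2 * (X + 2) := by
      have h8 : 0 ≤ X - 2 := by linarith
      have h9 : 0 ≤ X + 2 := by linarith
      positivity
    have hs3 : s ^ 2 ≤ (21 / 8) ^ 2 := by nlinarith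
    have hs4 : (9 / 4) ^ 2 ≤ s ^ 2 := by nlinarith
    have h6 : a * (s * (X ^ 2 - 4 * X + s ^ 2)) ≤
        729 / 100 * (21 / 8 * (X ^ 2 - 4 * X + (21 / 8) ^ 2)) := by
      refine (mul_le_mul_of_nonneg_right ha1 hT0).trans ?_
      apply mul_le_mul_of_nonneg_left _ (by norm_num)
      apply mul_le_mul hs2 (by linarith) (by nlinarith) (by norm_num)
    have h7' : b * (X ^ 2 * (X - 2) + s ^ 2 * (X + 2)) ≤
        -2 * (X ^ 2 * (X - 2) + (9 / 4) ^ 2 * (X + 2)) := by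
      refine (mul_le_mul_of_nonneg_right hb1 hR0).trans ?_
      have h8 : (9 / 4) ^ 2 * (X + 2) ≤ s ^ 2 * (X + 2) :=
        mul_le_mul_of_nonneg_right hs4 (by linarith)
      linarith
    have h8 : 729 / 100 * (87 / 10000) * (X ^ 2 + s ^ 2) ≤
        729 / 100 * (87 / 10000) * (X ^ 2 + (21 / 8) ^ 2) := by
      apply mul_le_mul_of_nonneg_left _ (by norm_num)
      linarith
    obtain ⟨t, ht⟩ : ∃ t : ℝ, X = 15 / 2 + t := ⟨X - 15 / 2, by ring⟩
    have ht0 : 0 ≤ t := by linarith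
    have h9 : 729 / 100 * (21 / 8 * (X ^ 2 - 4 * X + (21 / 8) ^ 2)) +
        -2 * (X ^ 2 * (X - 2) + (9 / 4) ^ 2 * (X + 2)) +
        729 / 100 * (87 / 10000) * (X ^ 2 + (21 / 8) ^ 2) < 0 := by
      rw [ht]
      nlinarith [mul_nonneg ht0 ht0, mul_nonneg ht0 (mul_nonneg ht0 ht0)]
    linarith
  have h3 : ((-2 + 7 * I) * GG 1 z).im * (Complex.normSq z) ^ 2 < 0 := by
    rw [hmain2]
    exact mul_neg_of_pos_of_neg (Real.exp_pos _) hWneg
  by_contra hcon
  push Not at hcon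
  have := mul_nonneg hcon (by positivity : (0 : ℝ) ≤ (Complex.normSq z) ^ 2)
  linarith

end ST3
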