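import Pool.Agent.Helper2.ST.G1
import Pool.Agent.Helper2.ST.NF
import Pool.Agent.Helper2.ST.NX
import Pool.Agent.Helper2.ST.NX4

/-!
# ST-NC: the facts on `P`, combined

PROOFS. `P` is contained in `Q` (`closure_P_subset_Q`); `z in P` has `Im z < 0`, so `z != 0`; for
`Re z <= 8` use NF, for `Re z >= 8` use NX (`z in St 8`).
`P_GG1_ne`: `GG1_ne_zero` with `Q_im_lt`.
`barrier_GG`: if `z in closure P`, `z not in P`, `Im z < 0`, `Re z >= 8` then `Im z = -21/8`, because the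
other inequalities of `P` are strict for `Re z >= 8`, `Im z >= -21/8` (`closure_P_subset`).
-/

namespace ST3

open Complex

private theorem nc_Q {z : ℂ} (hz : z ∈ P) : z ∈ Q := closure_P_subset_Q (subset_closure hz)

private theorem nc_im {z : ℂ} (hz : z ∈ P) : -(21 / 8) < z.im ∧ z.im < 0 :=
  ⟨hz.2.2.2.2.2.2, hz.1⟩

private theorem nc_St {z : ℂ} (hz : z ∈ P) (h : ¬ z.re ≤ 8) : z ∈ St 8 := by
  obtain ⟨h1, h2⟩ := nc_im hz
  refine ⟨by linarith, ?_⟩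
  rw [abs_le]
  constructor <;> linarith

private theorem nc_St7 {z : ℂ} (hz : z ∈ St 8) : z ∈ St 7 := ⟨by linarith [hz.1], hz.2⟩

theorem P_ne_zero {z : ℂ} (hz : z ∈ P) : z ≠ 0 := by
  rintro rfl
  have := (nc_im hz).2
  simp at this

theorem P_slit {z : ℂ} (hz : z ∈ P) : z ∈ slitPlane := by
  exact closure_P_slit (subset_closure hz) (P_ne_zero hz)

theorem P_im_lt {z : ℂ} (hz : z ∈ P) : |z.im| ≤ 21 / 8 := by
  obtain ⟨h1, h2⟩ := nc_im hz
  rw [abs_le]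
  constructor <;> linarith

theorem P_GG1_ne {z : ℂ} (hz : z ∈ P) : GG 1 z ≠ 0 := by
  exact GG1_ne_zero (P_ne_zero hz) (Q_im_lt (nc_Q hz)).le

theorem kap_re {z : ℂ} (hz : z ∈ P) : 7 / 10 ≤ (kap z).re := by
  by_cases h : z.re ≤ 8
  · exact N1 (nc_Q hz) (P_ne_zero hz) h
  · have := (X1 (nc_St7 (nc_St hz h))).1
    linarith

theorem kap_ne {z : ℂ} (hz : z ∈ P) : kap z ≠ 0 := by
  intro h
  have h1 := kap_re hz
  rw [h, Complex.zero_re] at h1
  linarith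

theorem V1_le {z : ℂ} (hz : z ∈ P) : ‖V1 z‖ ≤ 13 / 50 * ‖VV z‖ := by
  by_cases h : z.re ≤ 8
  · exact N2 (nc_Q hz) (P_ne_zero hz) h
  · exact X2 (nc_St hz h)

theorem V2_le {z : ℂ} (hz : z ∈ P) : ‖V2 z‖ ≤ 5 / 4 := by
  by_cases h : z.re ≤ 8
  · exact N3 (nc_Q hz) (P_ne_zero hz) h
  · have := X3 (nc_St7 (nc_St hz h))
    linarith

theorem VV_im_le {z : ℂ} (hz : z ∈ P) : |(VV z).im| ≤ 393 / 1000 * (VV z).re := by
  by_cases h : z.re ≤ 8
  · exact N4 (nc_Q hz) (P_ne_zero hz) h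
  · exact X4 (nc_St hz h)

theorem VV_im_pos' {z : ℂ} (hz : z ∈ P) : 0 < (VV z).im := by
  obtain ⟨h1, h2⟩ := nc_im hz
  have hpi := Real.pi_gt_d2
  exact VV_im_pos (by linarith) h2

theorem VV_re {z : ℂ} (hz : z ∈ P) : 1 ≤ (VV z).re := by
  by_cases h : z.re ≤ 8
  · exact (N6 (nc_Q hz) (P_ne_zero hz) h).1
  · exact (X6 (nc_St hz h)).1

theorem VV_norm {z : ℂ} (hz : z ∈ P) : ‖VV z‖ ≤ 33 / 10 := by
  by_cases h : z.re ≤ 8
  · exact (N6 (nc_Q hz) (P_ne_zero hz) h).2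
  · have := (X6 (nc_St hz h)).2
    linarith

theorem tk_le {z : ℂ} (hz : z ∈ P) : ‖tk z‖ ≤ 3 / 4 * ‖kap z‖ ^ 2 := by
  by_cases h : z.re ≤ 8
  · exact N8 (nc_Q hz) (P_ne_zero hz) h
  · exact X8 (nc_St hz h)

theorem inj_re {z : ℂ} (hz : z ∈ P) : 0 < ((6 - 13 * I) * (kap z / z)).re := by
  by_cases h : z.re ≤ 8
  · exact N13 hz h
  · exact X13 (nc_St hz h)

theorem barrier_GG {z : ℂ} (hz : z ∈ closure P) (hP : z ∉ P) (him : z.im < 0) :
    ((-15 + 16 * I) * GG 1 z).im < 0 := by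
  by_cases h : z.re ≤ 8
  · exact N14 hz hP him h
  · obtain ⟨h1, h2, h3, h4, h5, h6, h7⟩ := closure_P_subset hz
    push Not at h
    refine (X14 h.le ?_).2
    by_contra hne
    apply hP
    have h8 : -(21 / 8) < z.im := lt_of_le_of_ne h7 (Ne.symm hne)
    exact ⟨him, by linarith, by linarith, by linarith, by linarith, by linarith, h8⟩

end ST3
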