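import Pool.Agent.Helper2.ST.U3
import Pool.Agent.Helper2.ST.B04

/-!
# ST-U5: the angle along a circle

PROOFS. With `t = z e^{ib}`: `GG 1 t/GG 1 z = exp (i b + (t - z)/2 + UU t - UU z)` (`GG1_eq_UU`), and
`Th z b` is the imaginary part of the exponent; `Im exp(c) = |exp c| sin (Im c)`.
`d/db (i b + t/2 + UU t) = i + (i t)(1/2) + i uu t = i kap t` (`dt/db = i t`), whose imaginary part is
`Re kap t`. `d/db hh = i (GG 1 t/GG 1 z - 1)` (`GG_hasDerivAt 0`), so
`d/db (-Re hh) = Im (GG 1 t/GG 1 z)`.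
-/

namespace ST3

open Complex

/-- the argument of `GG 1 (z e^{ib})/GG 1 z` -/
noncomputable def Th (z : ℂ) (b : ℝ) : ℝ :=
  b + ((z * exp (b * I)).im - z.im) / 2 + (UU (z * exp (b * I))).im - (UU z).im

/-- the point on the circle is periodic -/
private theorem circ_per (z : ℂ) (b : ℝ) :
    z * exp (((b + 2 * Real.pi : ℝ) : ℂ) * I) = z * exp (b * I) := by
  congr 1
  have h : ((b + 2 * Real.pi : ℝ) : ℂ) * I = b * I + 2 * Real.pi * I := by
    push_cast
    ring
  rw [h, Complex.exp_add, Complex.exp_two_pi_mul_I, mul_one]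

private theorem circ_norm (z : ℂ) (b : ℝ) : ‖z * exp (b * I)‖ = ‖z‖ := by
  rw [norm_mul, Complex.norm_exp_ofReal_mul_I, mul_one]

private theorem circ_ne {z : ℂ} (hz : z ≠ 0) (b : ℝ) : z * exp (b * I) ≠ 0 :=
  mul_ne_zero hz (exp_ne_zero _)

private theorem circ_deriv (z : ℂ) (b : ℝ) :
    HasDerivAt (fun b : ℝ => z * exp (b * I)) (z * exp (b * I) * I) b := by
  have h1 : HasDerivAt (fun b : ℝ => (b : ℂ) * I) (1 * I) b :=
    (Complex.ofRealCLM.hasDerivAt (x := b)).mul_const I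
  have h2 := (h1.cexp).const_mul z
  refine h2.congr_deriv ?_
  ring

theorem Th_zero (z : ℂ) : Th z 0 = 0 := by
  unfold Th
  simp

theorem Th_add_two_pi (z : ℂ) (b : ℝ) : Th z (b + 2 * Real.pi) = Th z b + 2 * Real.pi := by
  unfold Th
  rw [circ_per]
  ring

theorem Th_hasDerivAt {z : ℂ} (hz : z ≠ 0) (h : ‖z‖ < 8) (b : ℝ) :
    HasDerivAt (Th z) (kap (z * exp (b * I))).re b := by
  have ht := circ_ne hz b
  have hn : ‖z * exp (b * I)‖ < 8 := by
    rw [circ_norm]
    exact h
  have h1 := circ_deriv z b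
  have h2 := (UU_hasDerivAt ht hn).comp b h1
  have him : ∀ {f : ℝ → ℂ} {f' : ℂ}, HasDerivAt f f' b →
      HasDerivAt (fun b => (f b).im) f'.im b := by
    intro f f' hf
    exact (Complex.imCLM.hasFDerivAt.comp_hasDerivAt b hf)
  have h3 := him h1
  have h4 := him h2
  have h5 := (((hasDerivAt_id b).add ((h3.sub_const z.im).div_const 2)).add h4).sub_const
    (UU z).im
  have h6 : HasDerivAt (Th z) _ b := h5
  refine h6.congr_deriv ?_
  rw [kap_eq_uu ht hn]
  have h7 : uu (z * exp (b * I)) / (z * exp (b * I)) * (z * exp (b * I) * I) =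
      uu (z * exp (b * I)) * I := by
    field_simp
  rw [h7]
  simp only [Complex.mul_im, Complex.I_re, Complex.I_im, Complex.add_re, Complex.one_re,
    Complex.div_re, Complex.normSq_ofNat]
  simp
  ring

/-- the quotient as an exponential -/
private theorem quot_eq {z : ℂ} (hz : z ≠ 0) (h : ‖z‖ < 8) (b : ℝ) :
    GG 1 (z * exp (b * I)) / GG 1 z =
      exp (b * I + (z * exp (b * I) - z) / 2 + UU (z * exp (b * I)) - UU z) := by
  have hn : ‖z * exp (b * I)‖ < 8 := by
    rw [circ_norm]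
    exact h
  rw [GG1_eq_UU hn, GG1_eq_UU h, div_eq_iff (mul_ne_zero (div_ne_zero hz (by norm_num))
    (exp_ne_zero _))]
  have e : exp (b * I + (z * exp (b * I) - z) / 2 + UU (z * exp (b * I)) - UU z) *
      (z / 6 * exp (z / 2 + UU z)) =
      z / 6 * (exp (b * I + (z * exp (b * I) - z) / 2 + UU (z * exp (b * I)) - UU z) *
      exp (z / 2 + UU z)) := by ring
  rw [e, ← Complex.exp_add]
  have e2 : b * I + (z * exp (b * I) - z) / 2 + UU (z * exp (b * I)) - UU z + (z / 2 + UU z) =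
      b * I + (z * exp (b * I) / 2 + UU (z * exp (b * I))) := by ring
  rw [e2, Complex.exp_add ((b : ℂ) * I)]
  ring

theorem hh_re_hasDerivAt {z : ℂ} (hz : z ≠ 0) (h : ‖z‖ < 8) (b : ℝ) :
    HasDerivAt (fun b : ℝ => -(hh z b).re)
      (‖GG 1 (z * exp (b * I)) / GG 1 z‖ * Real.sin (Th z b)) b := by
  have ht := circ_ne hz b
  have h1 := circ_deriv z b
  have h2 := (GG_hasDerivAt 0 ht).comp b h1
  have h3 : HasDerivAt (fun b : ℝ => (b : ℂ) * I) (1 * I) b :=
    (Complex.ofRealCLM.hasDerivAt (x := b)).mul_const I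
  have h4 := ((h2.sub_const (GG 0 z)).div_const (GG 1 z)).sub h3
  have h5 : HasDerivAt (hh z) _ b := h4
  have h6 : HasDerivAt (fun b => -(hh z b).re) _ b :=
    (Complex.reCLM.hasFDerivAt.comp_hasDerivAt b h5).neg
  refine h6.congr_deriv ?_
  have h7 : GG (0 + 1) (z * exp (b * I)) / (z * exp (b * I)) * (z * exp (b * I) * I) / GG 1 z -
      1 * I = (GG 1 (z * exp (b * I)) / GG 1 z - 1) * I := by
    have : GG (0 + 1) (z * exp (b * I)) / (z * exp (b * I)) * (z * exp (b * I) * I) =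
      GG 1 (z * exp (b * I)) * I := by
      rw [zero_add]
      field_simp
    rw [this]
    ring
  rw [h7, quot_eq hz h b]
  rw [Complex.norm_exp]
  have h8 : Th z b = (b * I + (z * exp (b * I) - z) / 2 + UU (z * exp (b * I)) - UU z).im := by
    unfold Th
    simp
  rw [h8, ← Complex.exp_im]
  simp [Complex.mul_re]

theorem hh_re_add_two_pi (z : ℂ) (b : ℝ) : (hh z (b + 2 * Real.pi)).re = (hh z b).re := by
  unfold hh
  rw [circ_per]
  simp

theorem hh_zero (z : ℂ) : hh z 0 = 0 := by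
  unfold hh
  simp

end ST3
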