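import Pool.Agent.Helper2.ST.U3
import Pool.Agent.Helper2.ST.G1

/-!
# ST-U6: the imaginary part of `F` in the small disk; geometry of `P`

PROOF. From `GG1_eq_MM` and `GG1_eq_UU`, `z != 0`: `MM z = exp (UU z)`. `|UU z| <= rho^2/40 +
y^2/(2(1-y)) <= .51 + .06 < pi`, so `log (MM z) = UU z`, and
`F z = -(log z - log 6 + z/2 + UU z)`; `Im log z = arg z`, `log 6` is real.
Geometry: `z in P` and `Re z < 1` give `|z|^2 < 1 + 2.25^2 < 6.25` (`|Re z| < 1`,
`|Im z| < 33/16 + 3/16 Re z`), `Re z < 17/10` gives `|z|^2 < 2.89 + 2.3813^2 < 9`, `Re z < 3` gives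
`|z|^2 < 9 + 2.625^2 < 16`. (`Im z < 0` in `P`.)
-/

namespace ST3

open Complex

private theorem U6_log_MM {z : ℂ} (hz : z ≠ 0) (h : ‖z‖ ≤ 9 / 2) : Complex.log (MM z) = UU z := by
  have h8 : ‖z‖ < 8 := by linarith
  have h1 : MM z = exp (UU z) := by
    have h2 := GG1_eq_MM z
    rw [GG1_eq_UU h8, Complex.exp_add] at h2
    have h3 : z / 6 * exp (z / 2) ≠ 0 :=
      mul_ne_zero (div_ne_zero hz (by norm_num)) (Complex.exp_ne_zero _)
    apply mul_left_cancel₀ h3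
    rw [← h2]
    ring
  have h4 : ‖UU z‖ ≤ 3 := by
    have h5 := UU_bound h8
    have h6 : ‖z ^ 2 / 40‖ ≤ 1 := by
      rw [norm_div, norm_pow, show ‖(40 : ℂ)‖ = 40 by simp, div_le_iff₀ (by norm_num)]
      nlinarith [norm_nonneg z]
    have h7 : (‖z‖ ^ 2 / 74) ^ 2 / (2 * (1 - ‖z‖ ^ 2 / 74)) ≤ 1 := by
      have h9 : ‖z‖ ^ 2 / 74 ≤ 1 / 2 := by
        rw [div_le_iff₀ (by norm_num)]
        nlinarith [norm_nonneg z]
      have h10 : 0 ≤ ‖z‖ ^ 2 / 74 := by positivity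
      rw [div_le_one (by linarith)]
      nlinarith
    have h11 : ‖UU z‖ ≤ ‖UU z - z ^ 2 / 40‖ + ‖z ^ 2 / 40‖ := by
      have := norm_add_le (UU z - z ^ 2 / 40) (z ^ 2 / 40)
      simpa using this
    linarith
  have h12 : |(UU z).im| ≤ 3 := (Complex.abs_im_le_norm _).trans h4
  rw [abs_le] at h12
  have hpi := Real.pi_gt_three
  rw [h1]
  exact Complex.log_exp (by linarith [h12.1]) (by linarith [h12.2])

theorem F_im {z : ℂ} (hz : z ∈ P) (h : ‖z‖ ≤ 9 / 2) :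
    (F z).im = -(Complex.arg z) - z.im / 2 - (UU z).im := by
  have h0 : z ≠ 0 := by
    intro h0
    have h1 := hz.1
    rw [h0] at h1
    simp at h1
  unfold F
  rw [U6_log_MM h0 h]
  simp only [Complex.neg_im, Complex.add_im, Complex.sub_im, Complex.log_im, Complex.ofReal_im,
    sub_zero]
  have h2 : (z / 2).im = z.im / 2 := by
    simp
  rw [h2]
  ring

theorem P_geom {z : ℂ} (hz : z ∈ P) :
    (5 / 2 < ‖z‖ → 1 ≤ z.re) ∧ (3 < ‖z‖ → 17 / 10 ≤ z.re) ∧ (4 < ‖z‖ → 3 ≤ z.re) := by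
  obtain ⟨h1, h2, h3, h4, h5, h6, h7⟩ := hz
  have hn : ‖z‖ ^ 2 = z.re ^ 2 + z.im ^ 2 := by
    rw [← Complex.normSq_eq_norm_sq, Complex.normSq_apply]
    ring
  refine ⟨fun h => ?_, fun h => ?_, fun h => ?_⟩
  · by_contra hc
    rw [not_le] at hc
    nlinarith
  · by_contra hc
    rw [not_le] at hc
    nlinarith
  · by_contra hc
    rw [not_le] at hc
    nlinarith

end ST3
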