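import Pool.Agent.Helper2.ST.U4
import Pool.Agent.Helper2.ST.U5
import Pool.Agent.Helper2.ST.U6
import Pool.Agent.Helper2.ST.NC

/-!
# ST-JA2: `-Re hh` increases up to `|b| = 1/4`

PROOF. Let `z in P`, `|z| <= 9/2`, `t = z e^{is}`, `|s| <= 1/4`: `|t - z| <= |z|/4`. By `P_geom`: if
`|z| <= 5/2` use `kap_re_pos_A`; if `5/2 < |z| <= 3`: `Re t >= 1 - 3/4 > -1`, `kap_re_pos_B`; if
`3 < |z| <= 4`: `Re t >= 1.7 - 1 > 0`, `kap_re_pos_C`; if `4 < |z| <= 9/2`: `Re t >= 3 - 9/8 > 1/2`,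
`kap_re_pos_D`. So `Th z` is increasing on `[-1/4, 1/4]`, `Th z 0 = 0`, and `|Th z b| <= (9/2)|b| <= 9/8 < pi`
(`kap_norm_le`); so `sin (Th z b)` has the sign of `b`, and `hh_re_hasDerivAt` gives the claim.
-/

namespace ST3

open Complex

private theorem ja2_norm (z : ℂ) (s : ℝ) : ‖z * exp (s * I)‖ = ‖z‖ := by
  rw [norm_mul, Complex.norm_exp_ofReal_mul_I, mul_one]

private theorem ja2_sub (z : ℂ) (s : ℝ) : ‖z * exp (s * I) - z‖ ≤ ‖z‖ * |s| := by
  have h1 : z * exp (s * I) - z = z * (exp (I * s) - 1) := by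
    rw [mul_comm (s : ℂ) I]
    ring
  rw [h1, norm_mul]
  refine mul_le_mul_of_nonneg_left ?_ (norm_nonneg _)
  have := Real.norm_exp_I_mul_ofReal_sub_one_le (x := s)
  rwa [Real.norm_eq_abs] at this

private theorem ja2_re {z : ℂ} (hz : z ∈ P) (h : ‖z‖ ≤ 9 / 2) {s : ℝ} (hs : |s| ≤ 1 / 4) :
    0 < (kap (z * exp (s * I))).re := by
  have hz0 := P_ne_zero hz
  have ht0 : z * exp (s * I) ≠ 0 := mul_ne_zero hz0 (Complex.exp_ne_zero _)
  have hn := ja2_norm z s
  have hd : ‖z * exp (s * I) - z‖ ≤ ‖z‖ / 4 := by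
    refine (ja2_sub z s).trans ?_
    have := mul_le_mul_of_nonneg_left hs (norm_nonneg z)
    linarith
  have hre : z.re - ‖z‖ / 4 ≤ (z * exp (s * I)).re := by
    have h1 : |(z * exp (s * I) - z).re| ≤ ‖z‖ / 4 := (Complex.abs_re_le_norm _).trans hd
    rw [Complex.sub_re] at h1
    linarith [(abs_le.1 h1).1]
  obtain ⟨g1, g2, g3⟩ := P_geom hz
  rcases le_or_gt ‖z‖ (5 / 2) with h1 | h1
  · exact kap_re_pos_A ht0 (by rw [hn]; exact h1)
  · rcases le_or_gt ‖z‖ 3 with h2 | h2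
    · exact kap_re_pos_B ht0 (by rw [hn]; exact h2) (by linarith [g1 h1])
    · rcases le_or_gt ‖z‖ 4 with h3 | h3
      · exact kap_re_pos_C ht0 (by rw [hn]; exact h3) (by linarith [g2 h2])
      · exact kap_re_pos_D ht0 (by rw [hn]; exact h) (by linarith [g3 h3])

private theorem ja2_mono {z : ℂ} (hz : z ∈ P) (h : ‖z‖ ≤ 9 / 2) :
    StrictMonoOn (Th z) (Set.Icc (-(1 / 4)) (1 / 4)) := by
  have hz0 := P_ne_zero hz
  have h8 : ‖z‖ < 8 := by linarith
  refine strictMonoOn_of_deriv_pos (convex_Icc _ _)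
    (fun s _ => (Th_hasDerivAt hz0 h8 s).continuousAt.continuousWithinAt) ?_
  intro s hs
  rw [interior_Icc] at hs
  rw [(Th_hasDerivAt hz0 h8 s).deriv]
  exact ja2_re hz h (abs_le.2 ⟨hs.1.le, hs.2.le⟩)

private theorem ja2_lip {z : ℂ} (hz : z ∈ P) (h : ‖z‖ ≤ 9 / 2) (s : ℝ) :
    |Th z s| ≤ 9 / 2 * |s| := by
  have hz0 := P_ne_zero hz
  have h8 : ‖z‖ < 8 := by linarith
  have h1 := Convex.norm_image_sub_le_of_norm_deriv_le (𝕜 := ℝ) (f := Th z) (C := 9 / 2)
    (s := Set.univ) (x := 0) (y := s)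
    (fun x _ => (Th_hasDerivAt hz0 h8 x).differentiableAt)
    (fun x _ => by
      rw [(Th_hasDerivAt hz0 h8 x).deriv, Real.norm_eq_abs]
      refine (Complex.abs_re_le_norm _).trans (kap_norm_le ?_ ?_)
      · exact mul_ne_zero hz0 (Complex.exp_ne_zero _)
      · rw [ja2_norm]; exact h)
    convex_univ (Set.mem_univ _) (Set.mem_univ _)
  rw [Th_zero, sub_zero, sub_zero, Real.norm_eq_abs, Real.norm_eq_abs] at h1
  exact h1

theorem f_mono {z : ℂ} (hz : z ∈ P) (h : ‖z‖ ≤ 9 / 2) {b0 b : ℝ} (h0 : 0 ≤ b0) (hb : b0 ≤ b)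
    (hb4 : b ≤ 1 / 4) :
    -(hh z b0).re ≤ -(hh z b).re ∧ -(hh z (-b0)).re ≤ -(hh z (-b)).re := by
  have hz0 := P_ne_zero hz
  have h8 : ‖z‖ < 8 := by linarith
  have hpi := Real.pi_gt_three
  have hm := ja2_mono hz h
  have hlip := ja2_lip hz h
  have hd := hh_re_hasDerivAt hz0 h8
  constructor
  · have hmono : MonotoneOn (fun b : ℝ => -(hh z b).re) (Set.Icc 0 (1 / 4)) := by
      refine monotoneOn_of_deriv_nonneg (convex_Icc _ _)
        (fun s _ => (hd s).continuousAt.continuousWithinAt)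
        (fun s _ => (hd s).differentiableAt.differentiableWithinAt) ?_
      intro s hs
      rw [interior_Icc] at hs
      rw [(hd s).deriv]
      refine mul_nonneg (norm_nonneg _) (Real.sin_nonneg_of_nonneg_of_le_pi ?_ ?_)
      · have h1 := (hm (show (0 : ℝ) ∈ Set.Icc (-(1 / 4)) (1 / 4) by constructor <;> norm_num)
          (show s ∈ Set.Icc (-(1 / 4)) (1 / 4) from ⟨by linarith [hs.1], hs.2.le⟩) hs.1).le
        rwa [Th_zero] at h1
      · have h1 := le_abs_self (Th z s)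
        have h2 := hlip s
        rw [abs_of_pos hs.1] at h2
        linarith [hs.2]
    exact hmono ⟨h0, hb.trans hb4⟩ ⟨h0.trans hb, hb4⟩ hb
  · have hanti : AntitoneOn (fun b : ℝ => -(hh z b).re) (Set.Icc (-(1 / 4)) 0) := by
      refine antitoneOn_of_deriv_nonpos (convex_Icc _ _)
        (fun s _ => (hd s).continuousAt.continuousWithinAt)
        (fun s _ => (hd s).differentiableAt.differentiableWithinAt) ?_
      intro s hs
      rw [interior_Icc] at hs
      rw [(hd s).deriv]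
      refine mul_nonpos_of_nonneg_of_nonpos (norm_nonneg _)
        (Real.sin_nonpos_of_nonpos_of_neg_pi_le ?_ ?_)
      · have h1 := (hm (show s ∈ Set.Icc (-(1 / 4)) (1 / 4) from ⟨hs.1.le, by linarith [hs.2]⟩)
          (show (0 : ℝ) ∈ Set.Icc (-(1 / 4)) (1 / 4) by constructor <;> norm_num) hs.2).le
        rwa [Th_zero] at h1
      · have h1 := neg_abs_le (Th z s)
        have h2 := hlip s
        rw [abs_of_neg hs.2] at h2
        linarith [hs.1]
    exact hanti ⟨by linarith, by linarith⟩ ⟨by linarith, by linarith⟩ (by linarith)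

end ST3
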