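import Pool.Agent.Helper2.ST.NC
import Pool.Agent.Helper2.ST.B04

/-!
# ST-JA3: the left part of the circle

PROOF. `GG 0 t = (t/2) int_0^1 (1-a)^2 e^{a t} da` (power series, or integrate explicitly and use
`GG0_closed`), so `|GG 0 t| <= |t| (1/2) int_0^1 (1-a)^2 e^{a x} da` for `Re t <= x`. The integral is
monotone in `x`, and `(1/2) int_0^1 (1-a)^2 e^{ax} da = (e^x - 1 - x - x^2/2)/x^3` for `x != 0`, `1/6` for
`x = 0`: `x = -1`: `1/2 - e^{-1} <= .13213 <= 661/5000`; `x = 1/2`: `8 (e^{1/2} - 1.625) <= .18978 <= 19/100`.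
`-Re hh z b = Re (GG 0 z/GG 1 z) - Re (GG 0 t/GG 1 z)`, `|t| = |z|`, and `N18`.
-/

namespace ST3

open Complex

private lemma ja3_coe (t : ℝ) : HasDerivAt (fun s : ℝ => (s : ℂ)) 1 t :=
  Complex.ofRealCLM.hasDerivAt

private lemma ja3_expc (z : ℂ) (t : ℝ) :
    HasDerivAt (fun s : ℝ => exp ((s : ℂ) * z)) (exp ((t : ℂ) * z) * z) t := by
  have h1 : HasDerivAt (fun s : ℝ => (s : ℂ) * z) z t := by
    simpa using (ja3_coe t).mul_const z
  exact h1.cexp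

private lemma ja3_rep {z : ℂ} (hz : z ≠ 0) :
    GG 0 z = z / 2 * ∫ a in (0 : ℝ)..1, ((1 - (a : ℂ)) ^ 2 * exp (a * z)) := by
  have hd : ∀ t ∈ Set.uIcc (0 : ℝ) 1, HasDerivAt (fun s : ℝ => exp ((s : ℂ) * z) *
      ((1 - (s : ℂ)) ^ 2 / z + 2 * (1 - (s : ℂ)) / z ^ 2 + 2 / z ^ 3))
      ((1 - (t : ℂ)) ^ 2 * exp (t * z)) t := by
    intro t _
    have h1 : HasDerivAt (fun s : ℝ => (1 - (s : ℂ))) (-1) t := by
      simpa using (ja3_coe t).const_sub 1
    have h2 := (((h1.pow 2).div_const z).add (((h1.const_mul 2)).div_const (z ^ 2))).add_const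
      (2 / z ^ 3)
    have h3 := (ja3_expc z t).mul h2
    refine h3.congr_deriv ?_
    simp only [Pi.add_apply, Pi.pow_apply]
    field_simp
    ring
  have hc : Continuous fun t : ℝ => (1 - (t : ℂ)) ^ 2 * exp (t * z) := by fun_prop
  have hi := intervalIntegral.integral_eq_sub_of_hasDerivAt hd (hc.intervalIntegrable 0 1)
  have h0 := GG0_closed z
  have hz2 : z ^ 2 ≠ 0 := pow_ne_zero 2 hz
  apply mul_left_cancel₀ hz2
  rw [h0, hi]
  simp only [ofReal_one, ofReal_zero, one_mul, zero_mul, exp_zero, sub_self, sub_zero]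
  field_simp
  ring

private lemma ja3_bound {t : ℂ} {x : ℝ} (h : t.re ≤ x) :
    ‖GG 0 t‖ ≤ ‖t‖ * (1 / 2 * ∫ a in (0 : ℝ)..1, (1 - a) ^ 2 * Real.exp (a * x)) := by
  rcases eq_or_ne t 0 with rfl | ht
  · simp [GG_zero]
  · have h1 : ‖∫ a in (0 : ℝ)..1, ((1 - (a : ℂ)) ^ 2 * exp (a * t))‖ ≤
        ∫ a in (0 : ℝ)..1, (1 - a) ^ 2 * Real.exp (a * x) := by
      refine intervalIntegral.norm_integral_le_of_norm_le zero_le_one ?_ ?_
      · refine Filter.Eventually.of_forall fun a ha => ?_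
        rw [norm_mul, norm_pow, Complex.norm_exp]
        have e1 : ‖(1 : ℂ) - (a : ℂ)‖ ^ 2 = (1 - a) ^ 2 := by
          rw [show (1 : ℂ) - (a : ℂ) = ((1 - a : ℝ) : ℂ) by push_cast; rfl, Complex.norm_real,
            Real.norm_eq_abs, sq_abs]
        have e2 : ((a : ℂ) * t).re = a * t.re := by simp
        rw [e1, e2]
        exact mul_le_mul_of_nonneg_left
          (Real.exp_le_exp.2 (mul_le_mul_of_nonneg_left h ha.1.le)) (sq_nonneg _)
      · exact Continuous.intervalIntegrable (by fun_prop) _ _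
    rw [ja3_rep ht, norm_mul, norm_div]
    have : ‖(2 : ℂ)‖ = 2 := by simp
    rw [this]
    calc ‖t‖ / 2 * ‖∫ a in (0 : ℝ)..1, ((1 - (a : ℂ)) ^ 2 * exp (a * t))‖
        ≤ ‖t‖ / 2 * ∫ a in (0 : ℝ)..1, (1 - a) ^ 2 * Real.exp (a * x) :=
          mul_le_mul_of_nonneg_left h1 (by positivity)
      _ = _ := by ring

private lemma ja3_int {x : ℝ} (hx : x ≠ 0) :
    ∫ a in (0 : ℝ)..1, (1 - a) ^ 2 * Real.exp (a * x) =
      2 * Real.exp x / x ^ 3 - (1 / x + 2 / x ^ 2 + 2 / x ^ 3) := by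
  have hd : ∀ t ∈ Set.uIcc (0 : ℝ) 1, HasDerivAt (fun s : ℝ => Real.exp (s * x) *
      ((1 - s) ^ 2 / x + 2 * (1 - s) / x ^ 2 + 2 / x ^ 3))
      ((1 - t) ^ 2 * Real.exp (t * x)) t := by
    intro t _
    have h1 : HasDerivAt (fun s : ℝ => (1 - s)) (-1) t := by
      simpa using (hasDerivAt_id t).const_sub 1
    have h2 := (((h1.pow 2).div_const x).add (((h1.const_mul 2)).div_const (x ^ 2))).add_const
      (2 / x ^ 3)
    have h4 : HasDerivAt (fun s : ℝ => Real.exp (s * x)) (Real.exp (t * x) * x) t := by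
      have h5 : HasDerivAt (fun s : ℝ => s * x) x t := by
        simpa using (hasDerivAt_id t).mul_const x
      exact h5.exp
    have h3 := h4.mul h2
    refine h3.congr_deriv ?_
    simp only [Pi.add_apply, Pi.pow_apply]
    field_simp
    ring
  have hc : Continuous fun t : ℝ => (1 - t) ^ 2 * Real.exp (t * x) := by fun_prop
  rw [intervalIntegral.integral_eq_sub_of_hasDerivAt hd (hc.intervalIntegrable 0 1)]
  simp only [one_mul, zero_mul, Real.exp_zero, sub_self, sub_zero]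
  field_simp
  ring

private lemma ja3_int0 :
    ∫ a in (0 : ℝ)..1, (1 - a) ^ 2 * Real.exp (a * (0 : ℝ)) = 1 / 3 := by
  have hd : ∀ t ∈ Set.uIcc (0 : ℝ) 1, HasDerivAt (fun s : ℝ => -(1 - s) ^ 3 / 3)
      ((1 - t) ^ 2 * Real.exp (t * (0 : ℝ))) t := by
    intro t _
    have h1 : HasDerivAt (fun s : ℝ => (1 - s)) (-1) t := by
      simpa using (hasDerivAt_id t).const_sub 1
    refine ((h1.pow 3).neg.div_const 3).congr_deriv ?_
    rw [mul_zero, Real.exp_zero]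
    ring
  have hc : Continuous fun t : ℝ => (1 - t) ^ 2 * Real.exp (t * (0 : ℝ)) := by fun_prop
  rw [intervalIntegral.integral_eq_sub_of_hasDerivAt hd (hc.intervalIntegrable 0 1)]
  norm_num

theorem GG0_left {t : ℂ} :
    (t.re ≤ -1 → ‖GG 0 t‖ ≤ 661 / 5000 * ‖t‖) ∧ (t.re ≤ 0 → ‖GG 0 t‖ ≤ 1 / 6 * ‖t‖) ∧
    (t.re ≤ 1 / 2 → ‖GG 0 t‖ ≤ 19 / 100 * ‖t‖) := by
  refine ⟨fun h => ?_, fun h => ?_, fun h => ?_⟩
  · have h1 := ja3_bound h
    rw [ja3_int (by norm_num)] at h1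
    have h2 : (0.36787 : ℝ) < Real.exp (-1) := by
      have := Real.exp_neg_one_gt_d9
      linarith
    have h3 : 1 / 2 * (2 * Real.exp (-1) / (-1) ^ 3 - (1 / (-1) + 2 / (-1) ^ 2 + 2 / (-1) ^ 3)) ≤
        (661 / 5000 : ℝ) := by
      norm_num
      linarith
    calc ‖GG 0 t‖ ≤ _ := h1
      _ ≤ ‖t‖ * (661 / 5000) := mul_le_mul_of_nonneg_left h3 (norm_nonneg _)
      _ = _ := by ring
  · have h1 := ja3_bound h
    rw [ja3_int0] at h1
    linarith
  · have h1 := ja3_bound h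
    rw [ja3_int (by norm_num)] at h1
    have h2 : Real.exp (1 / 2) < (1.6487221 : ℝ) := by
      have h4 : Real.exp (1 / 2) ^ 2 = Real.exp 1 := by
        rw [← Real.exp_nat_mul]; norm_num
      have h5 := Real.exp_one_lt_d9
      have h6 := Real.exp_pos (1 / 2)
      by_contra hc
      push Not at hc
      have : (1.6487221 : ℝ) ^ 2 ≤ Real.exp (1 / 2) ^ 2 := pow_le_pow_left₀ (by norm_num) hc 2
      rw [h4] at this
      norm_num at this h5
      linarith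
    have h3 : 1 / 2 * (2 * Real.exp (1 / 2) / (1 / 2) ^ 3 -
        (1 / (1 / 2) + 2 / (1 / 2) ^ 2 + 2 / (1 / 2) ^ 3)) ≤ (19 / 100 : ℝ) := by
      have e : 1 / 2 * (2 * Real.exp (1 / 2) / (1 / 2) ^ 3 -
        (1 / (1 / 2) + 2 / (1 / 2) ^ 2 + 2 / (1 / 2) ^ 3)) = 8 * Real.exp (1 / 2) - (13 : ℝ) := by
        ring
      rw [e]
      linarith
    calc ‖GG 0 t‖ ≤ _ := h1
      _ ≤ ‖t‖ * (19 / 100) := mul_le_mul_of_nonneg_left h3 (norm_nonneg _)
      _ = _ := by ring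

private lemma ja3_main {z : ℂ} {c b : ℝ} (h : ‖GG 0 (z * exp (b * I))‖ ≤ c * ‖z * exp (b * I)‖)
    (hN : c * ‖z‖ / ‖GG 1 z‖ + 1 / 50 ≤ (GG 0 z / GG 1 z).re) : 1 / 50 ≤ -(hh z b).re := by
  have e1 : ‖z * exp (b * I)‖ = ‖z‖ := by
    rw [norm_mul, Complex.norm_exp_ofReal_mul_I, mul_one]
  rw [e1] at h
  unfold hh
  have e2 : ((b : ℂ) * I).re = 0 := by simp
  rw [sub_re, e2, sub_div, sub_re]
  have h3 : (GG 0 (z * exp (b * I)) / GG 1 z).re ≤ c * ‖z‖ / ‖GG 1 z‖ := by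
    refine (Complex.re_le_norm _).trans ?_
    rw [norm_div]
    exact div_le_div_of_nonneg_right h (norm_nonneg _)
  linarith

theorem left_part {z : ℂ} (hz : z ∈ P) (h8 : z.re ≤ 8) (b : ℝ) :
    (1 ≤ z.re → (z * exp (b * I)).re ≤ -1 → 1 / 50 ≤ -(hh z b).re) ∧
    (17 / 10 ≤ z.re → (z * exp (b * I)).re ≤ 0 → 1 / 50 ≤ -(hh z b).re) ∧
    (3 ≤ z.re → (z * exp (b * I)).re ≤ 1 / 2 → 1 / 50 ≤ -(hh z b).re) := by
  have hQ : z ∈ Q := closure_P_subset_Q (subset_closure hz)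
  obtain ⟨n1, n2, n3⟩ := N18 hQ h8
  obtain ⟨g1, g2, g3⟩ := GG0_left (t := z * exp (b * I))
  exact ⟨fun h h' => ja3_main (g1 h') (n1 h), fun h h' => ja3_main (g2 h') (n2 h),
    fun h h' => ja3_main (g3 h') (n3 h)⟩

end ST3
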