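import Pool.Agent.Helper2.ST.JA1
import Pool.Agent.Helper2.ST.JA2
import Pool.Agent.Helper2.ST.JA3

/-!
# ST-JA4: `-Re hh >= 9/500` for `1/4 <= |b| <= pi`

PROOF. Let `f b = -Re hh z b`, `rho = |z| <= 9/2`, `z in P`, `omega = Im F z in (0, om1)`. By `N12`:
`f(1/4), f(-1/4) >= 9/500` (`hh z b = (GG 0 (z e^{ib}) - GG 0 z)/GG 1 z - i b`; `closure_P_subset_Q`).
(1) `rho <= 5/2`: `Re kap > 0` on the circle (`kap_re_pos_A`), so `Th` is increasing on `[0, 2pi]`,
`Th 0 = 0`, `Th (2pi) = 2pi`. Apply `uni` with `B = 2 pi - 1/4`, `b0 = 1/4`: `f >= min(f(1/4), f(-1/4))` on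
`[1/4, 2pi - 1/4]` (`hh_re_add_two_pi`), which covers `[1/4, pi]` and, shifted by `2 pi`, `[-pi, -1/4]`.
(2) `5/2 < rho <= 3`, `x1 = -1`, (3) `3 < rho <= 4`, `x1 = 0`, (4) `4 < rho <= 9/2`, `x1 = 1/2`. By
`P_geom`, `Re z >= 1, 17/10, 3`. If `Re (z e^{ib}) <= x1`, `left_part` gives `f b >= 1/50`. Otherwise let
`alpha = -arg z in (0, pi/2)`, `phi1 = arccos(x1/rho) in (0, pi)`; `alpha < phi1` because `Re z > x1`. Write
`z e^{is} = rho e^{i(s - alpha)}`.
 - `b >= 1/4`: `phi = b - alpha in (-pi/2, pi)`, `cos phi > cos phi1`, so `|phi| < phi1`. On `[0, b1]`,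
   `b1 = phi1 + alpha >= b`, all points have `|s - alpha| <= phi1`, so `Re (z e^{is}) >= x1` and
   `Re kap > 0` (`kap_re_pos_B, C, D`). `uni` with `B = b1`, `b0 = 1/4`: `f b >= min(f(1/4), f(b1))`, and
   `f(b1) >= 1/50` by `left_part` (`Re = x1` there). Condition `Th b1 <= 2 pi`: by `F_im`,
   `Th b1 = phi1 + rho sin(phi1)/2 + Im UU(t1) + omega`, `t1 = rho e^{i phi1} = x1 + i sqrt(rho^2-x1^2)`
   (`-Im z/2 - Im UU z = omega + arg z`). `Im UU(t1) <= Im t1^2/40 + y^2/(2(1-y))`, `Im t1^2 = 2 x1 Im t1`.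
   (2): `phi1 <= pi/2 + arcsin(2/5) <= pi/2 + .4116`, `rho/2 <= 1.5`, `Im UU <= .0085`; (3): `pi/2 + 2 + .03`;
   (4): `phi1 <= pi/2 - 1/9`, `9/4`, `Im UU <= .1125 + .0516`. In all cases the sum is `<= 3.9` and
   `omega < om1 <= 2.3241` (`om1 = pi/2 + arctan(15/16) = 3pi/4 - arctan(1/31)`): (2) `3.4909 + om1`, (3)
   `3.6008 + om1`, (4) `pi/2 - .1111 + 2.25 + .1641 + om1 = 6.1979 < 2 pi = 6.2831`.
 - `b <= -1/4`: `phi = b - alpha`. If `phi < -pi` then `Re (z e^{ib}) = rho cos phi <= -rho cos alpha =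
   -Re z <= -1 <= x1`, excluded. So `phi in [-pi, 0)` and `|phi| < phi1`. Apply `uni` to `b -> f(-b)`,
   `Theta = -Th(-b)` on `[0, b2]`, `b2 = phi1 - alpha`; `-Th(-b2) = phi1 + rho sin(phi1)/2 -
   Im UU(conj t1) - omega <= 3.9 <= 2 pi` (`|Im UU| <= |Im t1^2|/40 + y^2/(2(1-y))`).
-/

namespace ST3

open Complex

private theorem circ (z : ℂ) (s : ℝ) :
    z * exp (s * I) = (‖z‖ : ℂ) * exp (((arg z + s : ℝ) : ℂ) * I) := by
  conv_lhs => rw [← Complex.norm_mul_exp_arg_mul_I z]
  rw [mul_assoc, ← Complex.exp_add]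
  congr 2
  push_cast
  ring

private theorem circ_re (z : ℂ) (s : ℝ) : (z * exp (s * I)).re = ‖z‖ * Real.cos (arg z + s) := by
  rw [circ, Complex.re_ofReal_mul, Complex.exp_ofReal_mul_I_re]

private theorem circ_im (z : ℂ) (s : ℝ) : (z * exp (s * I)).im = ‖z‖ * Real.sin (arg z + s) := by
  rw [circ, Complex.im_ofReal_mul, Complex.exp_ofReal_mul_I_im]

private theorem circ_norm (z : ℂ) (s : ℝ) : ‖z * exp (s * I)‖ = ‖z‖ := by
  rw [norm_mul, Complex.norm_exp_ofReal_mul_I, mul_one]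

private theorem circ_ne {z : ℂ} (hz : z ≠ 0) (s : ℝ) : z * exp (s * I) ≠ 0 :=
  mul_ne_zero hz (exp_ne_zero _)

private theorem Th_mono {z : ℂ} (hz : z ≠ 0) (h8 : ‖z‖ < 8) {a B : ℝ}
    (hk : ∀ s ∈ Set.Icc a B, 0 < (kap (z * exp (s * I))).re) : MonotoneOn (Th z) (Set.Icc a B) := by
  refine monotoneOn_of_deriv_nonneg (convex_Icc _ _)
    (fun x _ => (Th_hasDerivAt hz h8 x).continuousAt.continuousWithinAt)
    (fun x _ => (Th_hasDerivAt hz h8 x).differentiableAt.differentiableWithinAt) ?_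
  intro x hx
  rw [(Th_hasDerivAt hz h8 x).deriv]
  exact (hk x (interior_subset hx)).le

private theorem f_quarter {z : ℂ} (hz : z ∈ P) (h : ‖z‖ ≤ 9 / 2) :
    9 / 500 ≤ -(hh z (1 / 4 : ℝ)).re ∧ 9 / 500 ≤ -(hh z (-(1 / 4) : ℝ)).re := by
  have hre : z.re ≤ 8 := by
    have := Complex.re_le_norm z
    linarith
  have hN := N12 (closure_P_subset_Q (subset_closure hz)) (P_ne_zero hz) hre
  have e : ∀ b : ℝ, -(hh z b).re = ((GG 0 z - GG 0 (z * exp (b * I))) / GG 1 z).re := by
    intro b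
    unfold hh
    have h1 : ((b : ℂ) * I).re = 0 := by simp
    rw [Complex.sub_re, h1, sub_zero, ← Complex.neg_re]
    congr 1
    rw [← neg_div, neg_sub]
  refine ⟨?_, ?_⟩
  · rw [e]
    exact hN.1
  · rw [e]
    have h2 := hN.2
    have h3 : (((-(1 / 4) : ℝ) : ℂ)) = -((1 / 4 : ℝ) : ℂ) := by
      rw [Complex.ofReal_neg]
    rw [h3]
    exact h2

private theorem om1_le : om1 ≤ 3 * Real.pi / 4 := by
  have hne : (-15 + 16 * I : ℂ) ≠ 0 := by
    intro h
    have := congrArg Complex.im h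
    simp at this
  have hc := Complex.cos_arg hne
  have hn : ‖(-15 + 16 * I : ℂ)‖ = Real.sqrt 481 := by
    have h1 := Complex.sq_norm (-15 + 16 * I : ℂ)
    rw [Complex.normSq_apply] at h1
    have h2 : ‖(-15 + 16 * I : ℂ)‖ ^ 2 = 481 := by
      rw [h1]
      simp
      norm_num
    rw [← h2, Real.sqrt_sq (norm_nonneg _)]
  have hre : (-15 + 16 * I : ℂ).re = -15 := by simp
  rw [hn, hre] at hc
  unfold om1
  by_contra hcon
  push Not at hcon
  have hπ := Real.pi_pos
  have h1 := Real.cos_lt_cos_of_nonneg_of_le_pi (by positivity) (Complex.arg_le_pi _) hcon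
  rw [hc] at h1
  have h2 : Real.cos (3 * Real.pi / 4) = -(Real.sqrt 2 / 2) := by
    have : 3 * Real.pi / 4 = Real.pi - Real.pi / 4 := by ring
    rw [this, Real.cos_pi_sub, Real.cos_pi_div_four]
  rw [h2] at h1
  have h3 : 0 < Real.sqrt 481 := Real.sqrt_pos.2 (by norm_num)
  rw [div_lt_iff₀ h3] at h1
  have h4 : Real.sqrt 2 * Real.sqrt 481 = Real.sqrt 962 := by
    rw [← Real.sqrt_mul (by norm_num)]
    norm_num
  have h5 : (30 : ℝ) ≤ Real.sqrt 962 := by
    apply Real.le_sqrt_of_sq_le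
    norm_num
  nlinarith

/-- the common part of the cases two to four -/
private theorem core {z : ℂ} (hz : z ∈ P) (hF : F z ∈ S) (h : ‖z‖ ≤ 9 / 2) (x1 φ : ℝ) (hφ0 : 0 ≤ φ)
    (hφπ : φ ≤ Real.pi) (hφ : ‖z‖ * Real.cos φ = x1) (hre : x1 < z.re) (hre0 : 0 < z.re)
    (hneg : -z.re ≤ x1) (hk : ∀ t : ℂ, t ≠ 0 → ‖t‖ = ‖z‖ → x1 ≤ t.re → 0 < (kap t).re)
    (hl : ∀ b : ℝ, (z * exp (b * I)).re ≤ x1 → 1 / 50 ≤ -(hh z b).re)
    (hnum : φ + ‖z‖ * Real.sin φ / 2 + 2 * x1 * (‖z‖ * Real.sin φ) / 40 +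
      (‖z‖ ^ 2 / 74) ^ 2 / (2 * (1 - ‖z‖ ^ 2 / 74)) + 3 * Real.pi / 4 ≤ 2 * Real.pi)
    {b : ℝ} (h1 : 1 / 4 ≤ |b|) (h2 : |b| ≤ Real.pi) : 9 / 500 ≤ -(hh z b).re := by
  have hz0 := P_ne_zero hz
  have h8 : ‖z‖ < 8 := by linarith
  have hρ : 0 < ‖z‖ := norm_pos_iff.2 hz0
  have hπ := Real.pi_pos
  have him : z.im < 0 := hz.1
  obtain ⟨hω0, hω1⟩ : 0 < (F z).im ∧ (F z).im < om1 := hF
  have hFim := F_im hz h
  have hom := om1_le
  have hA0 : arg z < 0 := Complex.arg_neg_iff.2 him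
  have hA1 : -(Real.pi / 2) < arg z := by
    have := Complex.abs_arg_lt_pi_div_two_iff.2 (Or.inl hre0)
    exact (abs_lt.1 this).1
  obtain ⟨α, hα⟩ : ∃ α, α = -arg z := ⟨_, rfl⟩
  have hαA : arg z = -α := by linarith
  have hα0 : 0 < α := by linarith
  have hα1 : α < Real.pi / 2 := by linarith
  have hzre : z.re = ‖z‖ * Real.cos α := by
    have := circ_re z 0
    rw [add_zero, hαA, Real.cos_neg] at this
    rw [← this]
    simp
  have hαφ : α < φ := by
    by_contra hcon
    push Not at hcon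
    have h3 := Real.cos_le_cos_of_nonneg_of_le_pi hφ0 (by linarith) hcon
    have h4 := mul_le_mul_of_nonneg_left h3 hρ.le
    rw [← hzre, hφ] at h4
    linarith
  have hfq := f_quarter hz h
  have hUU : ∀ t : ℂ, ‖t‖ = ‖z‖ → |(UU t).im - (t ^ 2).im / 40| ≤
      (‖z‖ ^ 2 / 74) ^ 2 / (2 * (1 - ‖z‖ ^ 2 / 74)) := by
    intro t ht
    have h3 := UU_bound (z := t) (by rw [ht]; exact h8)
    rw [ht] at h3
    have h4 := Complex.abs_im_le_norm (UU t - t ^ 2 / 40)
    have h5 : (UU t - t ^ 2 / 40).im = (UU t).im - (t ^ 2).im / 40 := by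
      rw [Complex.sub_im]
      congr 1
      have : t ^ 2 / 40 = ((1 / 40 : ℝ) : ℂ) * t ^ 2 := by push_cast; ring
      rw [this, Complex.im_ofReal_mul]
      ring
    rw [h5] at h4
    exact h4.trans h3
  have hsq : ∀ t : ℂ, (t ^ 2).im = 2 * t.re * t.im := by
    intro t
    rw [pow_two, Complex.mul_im]
    ring
  have hcos : ∀ θ : ℝ, 0 ≤ θ → θ ≤ φ → x1 ≤ ‖z‖ * Real.cos θ := by
    intro θ hθ0 hθ
    have h3 := Real.cos_le_cos_of_nonneg_of_le_pi hθ0 hφπ hθ
    have h4 := mul_le_mul_of_nonneg_left h3 hρ.le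
    rw [hφ] at h4
    exact h4
  rcases le_total 0 b with hb | hb
  · rw [abs_of_nonneg hb] at h1 h2
    rcases le_or_gt (z * exp (b * I)).re x1 with hc | hc
    · have := hl b hc
      linarith
    · rw [circ_re, hαA, ← hφ] at hc
      have hc' : Real.cos φ < Real.cos (-α + b) := lt_of_mul_lt_mul_left hc hρ.le
      have hbφ : |b - α| < φ := by
        by_contra hcon
        push Not at hcon
        have h3 := Real.cos_le_cos_of_nonneg_of_le_pi hφ0 (y := |b - α|)
          (abs_le.2 ⟨by linarith, by linarith⟩) hcon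
        rw [Real.cos_abs] at h3
        rw [show -α + b = b - α by ring] at hc'
        linarith
      obtain ⟨b1, hb1⟩ : ∃ b1, b1 = φ + α := ⟨_, rfl⟩
      have hbb1 : b ≤ b1 := by
        have := (abs_lt.1 hbφ).2
        linarith
      have hkap : ∀ s ∈ Set.Icc 0 b1, 0 < (kap (z * exp (s * I))).re := by
        intro s hs
        apply hk _ (circ_ne hz0 s) (circ_norm z s)
        rw [circ_re, hαA]
        rcases le_total 0 (-α + s) with h3 | h3
        · exact hcos _ h3 (by linarith [hs.2])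
        · rw [← Real.cos_neg]
          exact hcos _ (by linarith) (by linarith [hs.1])
      have hmono := Th_mono hz0 h8 hkap
      have e1 : z * exp (b1 * I) = (‖z‖ : ℂ) * exp ((φ : ℂ) * I) := by
        rw [circ, hαA, show -α + b1 = φ by linarith]
      have hre1 : (z * exp (b1 * I)).re = x1 := by
        rw [circ_re, hαA, show -α + b1 = φ by linarith, hφ]
      have him1 : (z * exp (b1 * I)).im = ‖z‖ * Real.sin φ := by
        rw [circ_im, hαA, show -α + b1 = φ by linarith]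
      have hB : Th z b1 ≤ 2 * Real.pi := by
        unfold Th
        have h3 := (abs_le.1 (hUU _ (circ_norm z b1))).2
        rw [hsq, hre1, him1] at h3
        rw [him1]
        linarith
      have hfb1 : 1 / 50 ≤ -(hh z b1).re := hl b1 hre1.le
      have hu := uni (fun b : ℝ => -(hh z b).re) (Th z)
        (fun b => ‖GG 1 (z * exp (b * I)) / GG 1 z‖) b1
        (fun b _ => hh_re_hasDerivAt hz0 h8 b) (fun b _ => norm_nonneg _) hmono
        (Th_zero z).ge hB (b0 := 1 / 4) (b := b) (by norm_num) h1 hbb1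
      refine le_trans ?_ hu
      exact le_min hfq.1 (by linarith)
  · rw [abs_of_nonpos hb] at h1 h2
    rcases le_or_gt (z * exp (b * I)).re x1 with hc | hc
    · have := hl b hc
      linarith
    · rw [circ_re, hαA, ← hφ] at hc
      have hc' : Real.cos φ < Real.cos (-α + b) := lt_of_mul_lt_mul_left hc hρ.le
      have hle : -b + α ≤ Real.pi := by
        by_contra hcon
        push Not at hcon
        have h3 : Real.cos (-α + b) = -Real.cos (-b + α - Real.pi) := by
          rw [Real.cos_sub_pi, neg_neg, ← Real.cos_neg]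
          congr 1
          ring
        have h4 := Real.cos_le_cos_of_nonneg_of_le_pi (x := -b + α - Real.pi) (y := α)
          (by linarith) (by linarith) (by linarith)
        rw [h3] at hc
        have h5 := mul_le_mul_of_nonneg_left h4 hρ.le
        rw [← hzre] at h5
        rw [hφ] at hc
        linarith
      have hbφ : -b + α < φ := by
        by_contra hcon
        push Not at hcon
        have h3 := Real.cos_le_cos_of_nonneg_of_le_pi hφ0 hle hcon
        rw [← Real.cos_neg, show -(-b + α) = -α + b by ring] at h3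
        linarith
      obtain ⟨b2, hb2⟩ : ∃ b2, b2 = φ - α := ⟨_, rfl⟩
      have hkap : ∀ s ∈ Set.Icc (-b2) 0, 0 < (kap (z * exp (s * I))).re := by
        intro s hs
        apply hk _ (circ_ne hz0 s) (circ_norm z s)
        rw [circ_re, hαA, ← Real.cos_neg]
        exact hcos _ (by linarith [hs.2]) (by linarith [hs.1])
      have hmono := Th_mono hz0 h8 hkap
      have hre1 : (z * exp ((-b2 : ℝ) * I)).re = x1 := by
        rw [circ_re, hαA, show -α + -b2 = -φ by linarith, Real.cos_neg, hφ]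
      have him1 : (z * exp ((-b2 : ℝ) * I)).im = -(‖z‖ * Real.sin φ) := by
        rw [circ_im, hαA, show -α + -b2 = -φ by linarith, Real.sin_neg]
        ring
      have hB : -Th z (-b2) ≤ 2 * Real.pi := by
        unfold Th
        have h3 := (abs_le.1 (hUU _ (circ_norm z (-b2)))).1
        rw [hsq, hre1, him1] at h3
        rw [him1]
        linarith
      have hfb1 : 1 / 50 ≤ -(hh z (-b2 : ℝ)).re := hl (-b2) hre1.le
      have hmono2 : MonotoneOn (fun s => -Th z (-s)) (Set.Icc 0 b2) := by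
        intro s hs s' hs' hss
        have := hmono (a := -s') ⟨by linarith [hs'.2], by linarith [hs'.1]⟩ (b := -s)
          ⟨by linarith [hs.2], by linarith [hs.1]⟩ (by linarith)
        show -Th z (-s) ≤ -Th z (-s')
        linarith
      have hu := uni (fun b : ℝ => -(hh z (-b : ℝ)).re) (fun s => -Th z (-s))
        (fun b => ‖GG 1 (z * exp (((-b : ℝ) : ℂ) * I)) / GG 1 z‖) b2
        (fun b _ => by
          have h3 := (hh_re_hasDerivAt hz0 h8 (-b)).comp b (hasDerivAt_neg b)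
          have h4 : HasDerivAt (fun b : ℝ => -(hh z (-b : ℝ)).re) _ b := h3
          refine h4.congr_deriv ?_
          rw [Real.sin_neg]
          ring) (fun b _ => norm_nonneg _) hmono2
        (by show 0 ≤ -Th z (-0)
            rw [neg_zero, Th_zero, neg_zero]) hB (b0 := 1 / 4) (b := -b) (by norm_num) h1
        (by linarith)
      beta_reduce at hu
      rw [neg_neg] at hu
      refine le_trans ?_ hu
      exact le_min hfq.2 (by linarith)

theorem f_ge {z : ℂ} (hz : z ∈ P) (hF : F z ∈ S) (h : ‖z‖ ≤ 9 / 2) {b : ℝ} (h1 : 1 / 4 ≤ |b|)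
    (h2 : |b| ≤ Real.pi) : 9 / 500 ≤ -(hh z b).re := by
  have hz0 := P_ne_zero hz
  have h8 : ‖z‖ < 8 := by linarith
  have hρ : 0 < ‖z‖ := norm_pos_iff.2 hz0
  have hπ := Real.pi_pos
  have hπ3 := Real.pi_gt_d2
  have hre8 : z.re ≤ 8 := by
    have := Complex.re_le_norm z
    linarith
  obtain ⟨g1, g2, g3⟩ := P_geom hz
  rcases le_or_gt ‖z‖ (5 / 2) with hr | hr
  · have hfq := f_quarter hz h
    have hkap : ∀ s ∈ Set.Icc (0 : ℝ) (2 * Real.pi), 0 < (kap (z * exp (s * I))).re := fun s _ =>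
      kap_re_pos_A (circ_ne hz0 s) (by rw [circ_norm]; exact hr)
    have hmono := Th_mono hz0 h8 hkap
    have h2π : Th z (2 * Real.pi) = 2 * Real.pi := by
      have := Th_add_two_pi z 0
      rw [zero_add, Th_zero, zero_add] at this
      exact this
    have hB : Th z (2 * Real.pi - 1 / 4) ≤ 2 * Real.pi := by
      have := hmono (a := 2 * Real.pi - 1 / 4) ⟨by linarith, by linarith⟩ (b := 2 * Real.pi)
        ⟨by linarith, le_rfl⟩ (by linarith)
      linarith
    have hper : -(hh z (2 * Real.pi - 1 / 4 : ℝ)).re = -(hh z (-(1 / 4) : ℝ)).re := by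
      have := hh_re_add_two_pi z (-(1 / 4))
      rw [← this]
      congr 3
      ring
    have key : ∀ b : ℝ, 1 / 4 ≤ b → b ≤ 2 * Real.pi - 1 / 4 → 9 / 500 ≤ -(hh z b).re := by
      intro b hb1 hb2
      have hu := uni (fun b : ℝ => -(hh z b).re) (Th z)
        (fun b => ‖GG 1 (z * exp (b * I)) / GG 1 z‖) (2 * Real.pi - 1 / 4)
        (fun b _ => hh_re_hasDerivAt hz0 h8 b) (fun b _ => norm_nonneg _)
        (hmono.mono (Set.Icc_subset_Icc le_rfl (by linarith)))
        (Th_zero z).ge hB (b0 := 1 / 4) (b := b) (by norm_num) hb1 hb2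
      refine le_trans ?_ hu
      refine le_min hfq.1 ?_
      rw [hper]
      exact hfq.2
    rcases le_total 0 b with hb | hb
    · rw [abs_of_nonneg hb] at h1 h2
      exact key b h1 (by linarith)
    · rw [abs_of_nonpos hb] at h1 h2
      have h3 := key (b + 2 * Real.pi) (by linarith) (by linarith)
      have h4 := hh_re_add_two_pi z b
      have h5 : (((b + 2 * Real.pi : ℝ)) : ℂ) = (b : ℂ) + 2 * Real.pi := by push_cast; ring
      rw [← h4]
      exact h3
  · have hR1 := g1 hr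
    have hsin1 : ∀ φ : ℝ, ‖z‖ * Real.sin φ ≤ ‖z‖ := by
      intro φ
      have := mul_le_mul_of_nonneg_left (Real.sin_le_one φ) hρ.le
      linarith
    have hy : ∀ y c : ℝ, y = ‖z‖ ^ 2 / 74 → ‖z‖ ^ 2 ≤ c → c < 74 →
        (‖z‖ ^ 2 / 74) ^ 2 / (2 * (1 - ‖z‖ ^ 2 / 74)) ≤ (c / 74) ^ 2 / (2 * (1 - c / 74)) := by
      intro y c _ hc hc74
      have h3 : ‖z‖ ^ 2 / 74 ≤ c / 74 := by linarith
      have h4 : 0 < 1 - c / 74 := by linarith
      apply div_le_div₀ (by positivity)
      · exact pow_le_pow_left₀ (by positivity) h3 2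
      · positivity
      · linarith
    rcases le_or_gt ‖z‖ 3 with hr3 | hr3
    · -- second case
      have hxm : |(-1 : ℝ) / ‖z‖| ≤ 1 := by
        rw [abs_div, abs_neg, abs_one, abs_of_pos hρ, div_le_one hρ]
        linarith
      have hcosφ : Real.cos (Real.arccos (-1 / ‖z‖)) = -1 / ‖z‖ :=
        Real.cos_arccos (abs_le.1 hxm).1 (abs_le.1 hxm).2
      have hφle : Real.arccos (-1 / ‖z‖) ≤ Real.pi / 2 + 42 / 100 := by
        by_contra hcon
        push Not at hcon
        have h4 := Real.cos_lt_cos_of_nonneg_of_le_pi (x := Real.pi / 2 + 42 / 100)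
          (y := Real.arccos (-1 / ‖z‖)) (by positivity) (Real.arccos_le_pi _) hcon
        rw [hcosφ, show Real.pi / 2 + 42 / 100 = 42 / 100 + Real.pi / 2 by ring,
          Real.cos_add_pi_div_two] at h4
        have h5 := Real.sin_gt_sub_cube (x := 42 / 100) (by norm_num)
        rw [div_lt_iff₀ hρ] at h4
        nlinarith
      refine core hz hF h (-1) (Real.arccos (-1 / ‖z‖)) (Real.arccos_nonneg _)
        (Real.arccos_le_pi _) (by rw [hcosφ]; field_simp) (by linarith) (by linarith) (by linarith)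
        (fun t ht htn hx => kap_re_pos_B ht (by rw [htn]; exact hr3) hx)
        (fun b hb => (left_part hz hre8 b).1 hR1 hb) ?_ h1 h2
      have h3 := hsin1 (Real.arccos (-1 / ‖z‖))
      have h4 : 0 ≤ ‖z‖ * Real.sin (Real.arccos (-1 / ‖z‖)) :=
        mul_nonneg hρ.le (Real.sin_nonneg_of_nonneg_of_le_pi (Real.arccos_nonneg _)
          (Real.arccos_le_pi _))
      have h5 := hy _ 9 rfl (by nlinarith) (by norm_num)
      have h6 : ((9 : ℝ) / 74) ^ 2 / (2 * (1 - 9 / 74)) ≤ 1 / 100 := by norm_num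
      linarith
    · have hR2 := g2 hr3
      rcases le_or_gt ‖z‖ 4 with hr4 | hr4
      · -- third case
        refine core hz hF h 0 (Real.pi / 2) (by positivity) (by linarith)
          (by rw [Real.cos_pi_div_two, mul_zero]) (by linarith) (by linarith) (by linarith)
          (fun t ht htn hx => kap_re_pos_C ht (by rw [htn]; exact hr4) hx)
          (fun b hb => (left_part hz hre8 b).2.1 hR2 hb) ?_ h1 h2
        have h3 := hsin1 (Real.pi / 2)
        have h5 := hy _ 16 rfl (by nlinarith) (by norm_num)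
        have h6 : ((16 : ℝ) / 74) ^ 2 / (2 * (1 - 16 / 74)) ≤ 3 / 100 := by norm_num
        linarith
      · -- fourth case
        have hR3 := g3 hr4
        have hxm : |(1 / 2 : ℝ) / ‖z‖| ≤ 1 := by
          rw [abs_div, abs_of_pos hρ, div_le_one hρ, abs_of_pos (by norm_num)]
          linarith
        have hcosφ : Real.cos (Real.arccos ((1 / 2) / ‖z‖)) = (1 / 2) / ‖z‖ :=
          Real.cos_arccos (abs_le.1 hxm).1 (abs_le.1 hxm).2
        have hφle : Real.arccos ((1 / 2) / ‖z‖) ≤ Real.pi / 2 - 1 / 9 := by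
          by_contra hcon
          push Not at hcon
          have h4 := Real.cos_lt_cos_of_nonneg_of_le_pi (x := Real.pi / 2 - 1 / 9)
            (y := Real.arccos ((1 / 2) / ‖z‖)) (by linarith) (Real.arccos_le_pi _) hcon
          rw [hcosφ, Real.cos_pi_div_two_sub] at h4
          have h5 := Real.sin_lt (x := 1 / 9) (by norm_num)
          have h6 : (1 : ℝ) / 9 ≤ (1 / 2) / ‖z‖ := by
            rw [le_div_iff₀ hρ]
            linarith
          linarith
        refine core hz hF h (1 / 2) (Real.arccos ((1 / 2) / ‖z‖)) (Real.arccos_nonneg _)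
          (Real.arccos_le_pi _) (by rw [hcosφ]; field_simp) (by linarith) (by linarith)
          (by linarith)
          (fun t ht htn hx => kap_re_pos_D ht (by rw [htn]; exact h) hx)
          (fun b hb => (left_part hz hre8 b).2.2 hR3 hb) ?_ h1 h2
        have h3 := hsin1 (Real.arccos ((1 / 2) / ‖z‖))
        have h5 := hy _ (81 / 4) rfl (by nlinarith) (by norm_num)
        have h6 : ((81 / 4 : ℝ) / 74) ^ 2 / (2 * (1 - (81 / 4) / 74)) ≤ 52 / 1000 := by norm_num
        linarith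

end ST3
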