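import Pool.Agent.Helper2.ST.NC
import Pool.Agent.Helper2.ST.B04

/-!
# ST-JA5: the local expansion of `hh`

PROOF. With `t = z e^{ib}` (`dt/db = i t`, `GG_hasDerivAt`): `hh' = i (GG 1 t/GG 1 z - 1)`,
`hh'' = -GG 2 t/GG 1 z`, `hh''' = -i GG 3 t/GG 1 z`, `hh'''' = GG 4 t/GG 1 z`, of norm
`<= (GG 4 |z|).re/|GG 1 z| <= 31 |kap z|^2` (`GG_norm_le`, `N11`). At `b = 0`: `hh = 0`, `hh' = 0`,
`hh'' = -kap`, `hh''' = -i (2 + z + (z-1) kap)` (`G31`), of norm `<= (17/10)|kap|^2` (`N9`). Taylor: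
`|hh + kap b^2/2 + i (2+z+(z-1)kap) b^3/6| <= 31 |kap|^2 b^4/24`.
-/

namespace ST3

open Complex

private lemma ja5_step_pos (m : ℕ) (K : ℝ) (g g' : ℝ → ℂ) (h0 : g 0 = 0)
    (hd : ∀ b, HasDerivAt g (g' b) b) (hb : ∀ b, ‖g' b‖ ≤ K * |b| ^ m) {b : ℝ} (hb0 : 0 ≤ b) :
    ‖g b‖ ≤ K * |b| ^ (m + 1) / (m + 1) := by
  have hB : ∀ x : ℝ, HasDerivAt (fun x : ℝ => K * x ^ (m + 1) / (m + 1)) (K * x ^ m) x := by
    intro x
    refine (((hasDerivAt_pow (m + 1) x).const_mul K).div_const ((m : ℝ) + 1)).congr_deriv ?_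
    have : ((m : ℝ) + 1) ≠ 0 := by positivity
    push_cast
    field_simp
  have := image_norm_le_of_norm_deriv_right_le_deriv_boundary (f := g) (f' := g') (a := 0) (b := b)
    (fun x _ => (hd x).continuousAt.continuousWithinAt) (fun x _ => (hd x).hasDerivWithinAt)
    (B := fun x : ℝ => K * x ^ (m + 1) / (m + 1)) (B' := fun x => K * x ^ m) (by simp [h0]) hB
    (by
      intro x hx
      have := hb x
      rwa [abs_of_nonneg hx.1] at this) (x := b) ⟨hb0, le_rfl⟩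
  rw [abs_of_nonneg hb0]
  exact this

private lemma ja5_step (m : ℕ) (K : ℝ) (g g' : ℝ → ℂ) (h0 : g 0 = 0)
    (hd : ∀ b, HasDerivAt g (g' b) b) (hb : ∀ b, ‖g' b‖ ≤ K * |b| ^ m) (b : ℝ) :
    ‖g b‖ ≤ K * |b| ^ (m + 1) / (m + 1) := by
  rcases le_total 0 b with h | h
  · exact ja5_step_pos m K g g' h0 hd hb h
  · have hd' : ∀ b, HasDerivAt (fun s : ℝ => g (-s)) (-g' (-b)) b := by
      intro b
      have h1 : HasDerivAt (fun s : ℝ => -s) (-1) b := hasDerivAt_neg b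
      have h2 := HasDerivAt.scomp b (hd (-b)) h1
      refine h2.congr_deriv ?_
      simp
    have := ja5_step_pos m K (fun s : ℝ => g (-s)) (fun s => -g' (-s)) (by simp [h0]) hd'
      (by intro b; rw [norm_neg]; have := hb (-b); rwa [abs_neg] at this) (b := -b) (by linarith)
    simpa using this

theorem hh_local {z : ℂ} (hz : z ∈ P) (h : ‖z‖ ≤ 9 / 2) (b : ℝ) :
    ‖hh z b + kap z * (b : ℂ) ^ 2 / 2‖ ≤
      17 / 60 * ‖kap z‖ ^ 2 * |b| ^ 3 + 31 / 24 * ‖kap z‖ ^ 2 * b ^ 4 := by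
  have hQ : z ∈ Q := closure_P_subset_Q (subset_closure hz)
  have z0 : z ≠ 0 := P_ne_zero hz
  have g0 : GG 1 z ≠ 0 := P_GG1_ne hz
  have h8 : z.re ≤ 8 := ((Complex.re_le_norm z).trans h).trans (by norm_num)
  have n9 := N9 hQ z0 h8
  have n11 := N11 hQ z0 h
  set c : ℂ := 2 + z + (z - 1) * kap z with hc
  have hG31 : GG 3 z / GG 1 z = c := G31 g0
  have hkap : GG 2 z / GG 1 z = kap z := rfl
  have tder : ∀ b : ℝ, HasDerivAt (fun b : ℝ => z * exp (b * I)) (z * exp (b * I) * I) b := by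
    intro b
    have h1 : HasDerivAt (fun b : ℝ => (b : ℂ) * I) (1 * I) b :=
      (Complex.ofRealCLM.hasDerivAt (x := b)).mul_const I
    have h2 := (h1.cexp).const_mul z
    refine h2.congr_deriv ?_
    ring
  have gder : ∀ (j : ℕ) (b : ℝ), HasDerivAt (fun b : ℝ => GG j (z * exp (b * I)))
      (I * GG (j + 1) (z * exp (b * I))) b := by
    intro j b
    have ht : z * exp (b * I) ≠ 0 := mul_ne_zero z0 (exp_ne_zero _)
    have h1 := (GG_hasDerivAt j ht).comp b (tder b)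
    refine h1.congr_deriv ?_
    field_simp
  have bder : ∀ b : ℝ, HasDerivAt (fun b : ℝ => (b : ℂ)) 1 b := fun b =>
    Complex.ofRealCLM.hasDerivAt (x := b)
  have e0 : exp (((0 : ℝ) : ℂ) * I) = 1 := by simp
  set K : ℝ := 31 * ‖kap z‖ ^ 2 with hK
  have b4 : ∀ b : ℝ, ‖GG 4 (z * exp (b * I)) / GG 1 z‖ ≤ K * |b| ^ 0 := by
    intro b
    rw [pow_zero, mul_one, norm_div]
    have h1 : ‖GG 4 (z * exp (b * I))‖ ≤ (GG 4 (‖z‖ : ℂ)).re := by
      have := GG_norm_le 4 (z * exp (b * I))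
      rwa [norm_mul, Complex.norm_exp_ofReal_mul_I, mul_one] at this
    have hp : 0 < ‖GG 1 z‖ := norm_pos_iff.2 g0
    rw [hK]
    have h2 : ‖kap z‖ = ‖GG 2 z‖ / ‖GG 1 z‖ := by unfold kap; rw [norm_div]
    rw [h2, div_pow, div_le_iff₀ hp]
    have h3 : 31 * (‖GG 2 z‖ ^ 2 / ‖GG 1 z‖ ^ 2) * ‖GG 1 z‖ = 31 * ‖GG 2 z‖ ^ 2 / ‖GG 1 z‖ := by
      field_simp
    rw [h3, le_div_iff₀ hp]
    exact (mul_le_mul_of_nonneg_right h1 hp.le).trans n11
  have b3 := ja5_step 0 K (fun b : ℝ => -I * (GG 3 (z * exp (b * I)) / GG 1 z) + I * c)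
    (fun b : ℝ => GG 4 (z * exp (b * I)) / GG 1 z)
    (by simp only [e0, mul_one]; rw [hG31]; ring)
    (by
      intro b
      refine ((((gder 3 b).div_const (GG 1 z)).const_mul (-I)).add_const (I * c)).congr_deriv ?_
      have : -I * (I * GG (3 + 1) (z * exp (b * I)) / GG 1 z) =
        -(I * I) * (GG 4 (z * exp (b * I)) / GG 1 z) := by ring
      rw [this, I_mul_I]; ring) b4
  have b2 := ja5_step 1 K
    (fun b : ℝ => -(GG 2 (z * exp (b * I)) / GG 1 z) + kap z + I * c * b)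
    (fun b : ℝ => -I * (GG 3 (z * exp (b * I)) / GG 1 z) + I * c)
    (by rw [e0, mul_one, hkap, ofReal_zero]; ring)
    (by
      intro b
      refine (((((gder 2 b).div_const (GG 1 z)).neg).add_const (kap z)).add
        ((bder b).const_mul (I * c))).congr_deriv ?_
      ring)
    (by intro b; simpa using b3 b)
  have b1 := ja5_step 2 (K / 2)
    (fun b : ℝ => I * (GG 1 (z * exp (b * I)) / GG 1 z) - I + kap z * b + I * c / 2 * (b : ℂ) ^ 2)
    (fun b : ℝ => -(GG 2 (z * exp (b * I)) / GG 1 z) + kap z + I * c * b)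
    (by rw [e0, mul_one, div_self g0, ofReal_zero]; ring)
    (by
      intro b
      refine ((((((gder 1 b).div_const (GG 1 z)).const_mul I).sub_const I).add
        ((bder b).const_mul (kap z))).add
        (((bder b).pow 2).const_mul (I * c / 2))).congr_deriv ?_
      have : I * (I * GG (1 + 1) (z * exp (b * I)) / GG 1 z) =
        (I * I) * (GG 2 (z * exp (b * I)) / GG 1 z) := by ring
      rw [this, I_mul_I]; push_cast; ring)
    (by
      intro b
      have := b2 b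
      norm_num at this
      norm_num
      linarith)
  have b0 := ja5_step 3 (K / 6)
    (fun b : ℝ => (GG 0 (z * exp (b * I)) - GG 0 z) / GG 1 z - b * I + kap z / 2 * (b : ℂ) ^ 2 +
      I * c / 6 * (b : ℂ) ^ 3)
    (fun b : ℝ => I * (GG 1 (z * exp (b * I)) / GG 1 z) - I + kap z * b + I * c / 2 * (b : ℂ) ^ 2)
    (by rw [e0, mul_one, ofReal_zero]; ring)
    (by
      intro b
      refine (((((gder 0 b).sub_const (GG 0 z)).div_const (GG 1 z)).sub
        ((bder b).mul_const I)).add (((bder b).pow 2).const_mul (kap z / 2)) |>.add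
        (((bder b).pow 3).const_mul (I * c / 6))).congr_deriv ?_
      push_cast
      ring)
    (by
      intro b
      have := b1 b
      norm_num at this
      norm_num
      linarith)
  have hb := b0 b
  have e1 : hh z b + kap z * (b : ℂ) ^ 2 / 2 =
      ((GG 0 (z * exp (b * I)) - GG 0 z) / GG 1 z - b * I + kap z / 2 * (b : ℂ) ^ 2 +
      I * c / 6 * (b : ℂ) ^ 3) - I * c / 6 * (b : ℂ) ^ 3 := by
    unfold hh; ring
  rw [e1]
  refine (norm_sub_le _ _).trans ?_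
  have e2 : ‖I * c / 6 * (b : ℂ) ^ 3‖ = ‖c‖ / 6 * |b| ^ 3 := by
    rw [norm_mul, norm_div, norm_mul, norm_pow, Complex.norm_real, Complex.norm_I]
    simp
  rw [e2]
  have e3 : ‖c‖ / 6 * |b| ^ 3 ≤ 17 / 60 * ‖kap z‖ ^ 2 * |b| ^ 3 := by
    refine mul_le_mul_of_nonneg_right ?_ (by positivity)
    linarith
  have e4 : |b| ^ (3 + 1) = b ^ 4 := by
    rw [show (3 + 1) = 2 * 2 by norm_num, pow_mul, sq_abs, ← pow_mul]
  rw [e4, hK] at hb
  push_cast at hb
  linarith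

end ST3
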