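import Mathlib

/-!
# ST-JA6: the core of the circle integral

PROOF. `k = |kappa|`, `c = 67/200 - 17/60 k b0 - 31/24 k b0^2 > 0`.
`int_R e^{-n kappa b^2/2} db = (2 pi/(n kappa))^{1/2}` (`integral_gaussian_complex`).
(i) `|b| <= b0`: `|e^{n h} - e^{-n kappa b^2/2}| <= e^{-n Re kappa b^2/2} |E| e^{|E|}`,
`|E| <= n k^2 (17/60 |b|^3 + 31/24 b^4)`, `-n Re kappa b^2/2 + |E| <= -n k c b^2`. With `a = n k c`:
`int_R |b|^3 e^{-a b^2} = 1/a^2`, `int_R b^4 e^{-a b^2} = (3/4) sqrt(pi) a^{-5/2}`.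
(ii) `int_{|b|>b0} e^{-n Re kappa b^2/2} <= 2 int_{b0}^oo (b/b0) e^{-(67/200) n k b^2} =
e^{-(67/200) n k b0^2}/((67/200) n k b0)`.
(iii) `b0 <= |b| <= 1/4`: `|e^{n h}| <= e^{n Re h(+-b0)} <= e^{-n k c b0^2}`.
(iv) `1/4 <= |b| <= pi`: `|e^{nh}| <= e^{-9n/500}`, length `<= 2 pi`.
-/

namespace ST3

open Complex MeasureTheory

private theorem ja_m3 {a : ℝ} (ha : 0 < a) :
    IntegrableOn (fun x : ℝ => x ^ 3 * Real.exp (-a * x ^ 2)) (Set.Ioi 0) ∧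
      ∫ x in Set.Ioi (0 : ℝ), x ^ 3 * Real.exp (-a * x ^ 2) = 1 / (2 * a ^ 2) := by
  have h1 := integrableOn_rpow_mul_exp_neg_mul_sq ha (s := ((3 : ℕ) : ℝ)) (by norm_num)
  have h2 := _root_.integral_rpow_mul_exp_neg_mul_rpow (p := ((2 : ℕ) : ℝ)) (q := ((3 : ℕ) : ℝ)) (b := a)
    (by norm_num) (by norm_num) ha
  simp only [Real.rpow_natCast] at h1 h2
  refine ⟨h1, ?_⟩
  rw [h2]
  have e1 : (((3 : ℕ) : ℝ) + 1) / ((2 : ℕ) : ℝ) = 2 := by norm_num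
  have e2 : -(((3 : ℕ) : ℝ) + 1) / ((2 : ℕ) : ℝ) = -((2 : ℕ) : ℝ) := by norm_num
  rw [e1, e2, Real.Gamma_two, Real.rpow_neg ha.le, Real.rpow_natCast]
  push_cast
  field_simp

private theorem ja_m4 {a : ℝ} (ha : 0 < a) :
    IntegrableOn (fun x : ℝ => x ^ 4 * Real.exp (-a * x ^ 2)) (Set.Ioi 0) ∧
      ∫ x in Set.Ioi (0 : ℝ), x ^ 4 * Real.exp (-a * x ^ 2) =
        3 / 8 * Real.sqrt Real.pi / a ^ (5 / 2 : ℝ) := by
  have h1 := integrableOn_rpow_mul_exp_neg_mul_sq ha (s := ((4 : ℕ) : ℝ)) (by norm_num)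
  have h2 := _root_.integral_rpow_mul_exp_neg_mul_rpow (p := ((2 : ℕ) : ℝ)) (q := ((4 : ℕ) : ℝ)) (b := a)
    (by norm_num) (by norm_num) ha
  simp only [Real.rpow_natCast] at h1 h2
  refine ⟨h1, ?_⟩
  rw [h2]
  have e1 : (((4 : ℕ) : ℝ) + 1) / ((2 : ℕ) : ℝ) = 3 / 2 + 1 := by norm_num
  have e2 : -(((4 : ℕ) : ℝ) + 1) / ((2 : ℕ) : ℝ) = -(5 / 2) := by norm_num
  have e3 : Real.Gamma (3 / 2 + 1) = 3 / 4 * Real.sqrt Real.pi := by
    rw [Real.Gamma_add_one (by norm_num), show (3 / 2 : ℝ) = 1 / 2 + 1 by norm_num,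
      Real.Gamma_add_one (by norm_num), Real.Gamma_one_half_eq]
    ring
  rw [e1, e2, e3, Real.rpow_neg ha.le]
  push_cast
  field_simp
  ring

private theorem ja_tail {a b0 : ℝ} (ha : 0 < a) (hb : 0 < b0) :
    IntegrableOn (fun x : ℝ => x / b0 * Real.exp (-a * x ^ 2)) (Set.Ioi b0) ∧
      ∫ x in Set.Ioi b0, x / b0 * Real.exp (-a * x ^ 2) = Real.exp (-a * b0 ^ 2) / (2 * a * b0) := by
  have hder : ∀ x ∈ Set.Ici b0, HasDerivAt (fun x : ℝ => -(Real.exp (-a * x ^ 2) / (2 * a * b0)))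
      (x / b0 * Real.exp (-a * x ^ 2)) x := by
    intro x _
    have h1 : HasDerivAt (fun x : ℝ => -a * x ^ 2) (-a * (2 * x)) x := by
      simpa using ((hasDerivAt_id x).pow 2).const_mul (-a)
    have h2 := ((h1.exp).div_const (2 * a * b0)).neg
    refine h2.congr_deriv ?_
    field_simp
  have hpos : ∀ x ∈ Set.Ioi b0, 0 ≤ x / b0 * Real.exp (-a * x ^ 2) := by
    intro x hx
    have : 0 < x := hb.trans hx
    positivity
  have hlim : Filter.Tendsto (fun x : ℝ => -(Real.exp (-a * x ^ 2) / (2 * a * b0))) Filter.atTop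
      (nhds 0) := by
    have h1 : Filter.Tendsto (fun x : ℝ => -a * x ^ 2) Filter.atTop Filter.atBot :=
      (Filter.tendsto_pow_atTop two_ne_zero).const_mul_atTop_of_neg (by linarith)
    have h2 := ((Real.tendsto_exp_atBot.comp h1).div_const (2 * a * b0)).neg
    simpa using h2
  refine ⟨integrableOn_Ioi_deriv_of_nonneg' hder hpos hlim, ?_⟩
  rw [integral_Ioi_of_hasDerivAt_of_nonneg' hder hpos hlim]
  ring

private theorem ja_half (n : ℕ) (hn : 1 ≤ n) (κ : ℂ) (hκ : κ ≠ 0) (hre : 67 / 100 * ‖κ‖ ≤ κ.re)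
    (h : ℝ → ℂ) (hc : Continuous h) (b0 : ℝ) (hb0 : 0 < b0) (hb4 : b0 ≤ 1 / 4)
    (hloc : ∀ b : ℝ, 0 ≤ b → b ≤ b0 →
      ‖h b + κ * (b : ℂ) ^ 2 / 2‖ ≤ 17 / 60 * ‖κ‖ ^ 2 * b ^ 3 + 31 / 24 * ‖κ‖ ^ 2 * b ^ 4)
    (hmono : ∀ b : ℝ, b0 ≤ b → b ≤ 1 / 4 → (h b).re ≤ (h b0).re)
    (hfar : ∀ b : ℝ, 1 / 4 ≤ b → b ≤ Real.pi → (h b).re ≤ -(9 / 500))
    (c : ℝ) (hcdef : c = 67 / 200 - 17 / 60 * ‖κ‖ * b0 - 31 / 24 * ‖κ‖ * b0 ^ 2) (hcpos : 0 < c) :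
    ‖(∫ b in (0 : ℝ)..Real.pi, exp ((n : ℂ) * h b)) -
        (2 * (Real.pi : ℂ) / ((n : ℂ) * κ)) ^ (1 / 2 : ℂ) / 2‖ ≤
      (17 / 60 / ((n : ℝ) * c ^ 2) +
      31 / 24 * (3 / 4 * Real.sqrt Real.pi) * ‖κ‖ ^ 2 * (n : ℝ) / ((n : ℝ) * ‖κ‖ * c) ^ (5 / 2 : ℝ) +
      Real.exp (-(67 / 200 * (n : ℝ) * ‖κ‖ * b0 ^ 2)) / (67 / 200 * (n : ℝ) * ‖κ‖ * b0) +
      2 * (1 / 4 - b0) * Real.exp (-((n : ℝ) * ‖κ‖ * c * b0 ^ 2)) +
      2 * Real.pi * Real.exp (-(9 / 500 * (n : ℝ)))) / 2 := by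
  have hN : (0 : ℝ) < n := by
    have : 0 < n := hn
    exact_mod_cast this
  have hk : 0 < ‖κ‖ := norm_pos_iff.2 hκ
  obtain ⟨k, hkdef⟩ : ∃ k, k = ‖κ‖ := ⟨_, rfl⟩
  rw [← hkdef] at hre hloc hcdef hk ⊢
  obtain ⟨N, hNdef⟩ : ∃ N : ℝ, N = n := ⟨_, rfl⟩
  have hNC : (n : ℂ) = (N : ℂ) := by rw [hNdef]; simp
  rw [← hNdef] at hN ⊢
  rw [hNC]
  have hπ := Real.pi_gt_three
  have ha : 0 < N * k * c := by positivity
  -- the Gaussian
  obtain ⟨q, hq⟩ : ∃ q : ℂ, q = (N : ℂ) * κ / 2 := ⟨_, rfl⟩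
  have hqre : q.re = N * κ.re / 2 := by
    rw [hq]
    have : (N : ℂ) * κ / 2 = ((N / 2 : ℝ) : ℂ) * κ := by push_cast; ring
    rw [this, Complex.re_ofReal_mul]
    ring
  have hqlow : 67 / 200 * N * k ≤ q.re := by
    rw [hqre]
    nlinarith
  have hqpos : 0 < q.re := lt_of_lt_of_le (by positivity) hqlow
  have hG := integral_gaussian_complex_Ioi hqpos
  have hGi := integrable_cexp_neg_mul_sq hqpos
  have e0 : (Real.pi : ℂ) / q = 2 * (Real.pi : ℂ) / ((N : ℂ) * κ) := by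
    rw [hq]
    have h1 : (N : ℂ) ≠ 0 := by exact_mod_cast hN.ne'
    field_simp
  rw [e0] at hG
  rw [← hG]
  obtain ⟨w, hw⟩ : ∃ w : ℝ → ℂ, w = fun x : ℝ => cexp (-q * (x : ℂ) ^ 2) := ⟨_, rfl⟩
  rw [show (fun x : ℝ => cexp (-q * (x : ℂ) ^ 2)) = w from hw.symm] at hGi ⊢
  have hwc : Continuous w := by
    rw [hw]
    fun_prop
  have hwn : ∀ x : ℝ, ‖w x‖ ≤ Real.exp (-(67 / 200 * N * k) * x ^ 2) := by
    intro x
    rw [hw]
    simp only
    rw [Complex.norm_exp]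
    have h1 : (-q * (x : ℂ) ^ 2).re = -q.re * x ^ 2 := by
      rw [show (-q * (x : ℂ) ^ 2) = ((x ^ 2 : ℝ) : ℂ) * (-q) by push_cast; ring,
        Complex.re_ofReal_mul, Complex.neg_re]
      ring
    rw [h1, Real.exp_le_exp]
    nlinarith [sq_nonneg x]
  have hec : Continuous fun b : ℝ => cexp ((N : ℂ) * h b) := by fun_prop
  have s1 : (∫ b in (0 : ℝ)..Real.pi, cexp ((N : ℂ) * h b)) =
      (∫ b in (0 : ℝ)..b0, cexp ((N : ℂ) * h b)) + (∫ b in b0..(1 / 4), cexp ((N : ℂ) * h b)) +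
        ∫ b in (1 / 4)..Real.pi, cexp ((N : ℂ) * h b) := by
    rw [intervalIntegral.integral_add_adjacent_intervals (hec.intervalIntegrable _ _)
      (hec.intervalIntegrable _ _), intervalIntegral.integral_add_adjacent_intervals
      (hec.intervalIntegrable _ _) (hec.intervalIntegrable _ _)]
  have s2 : ∫ x in Set.Ioi (0 : ℝ), w x = (∫ x in (0 : ℝ)..b0, w x) + ∫ x in Set.Ioi b0, w x :=
    (intervalIntegral.integral_interval_add_Ioi hGi.integrableOn hGi.integrableOn).symm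
  have s3 : (∫ b in (0 : ℝ)..Real.pi, cexp ((N : ℂ) * h b)) - ∫ x in Set.Ioi (0 : ℝ), w x =
      (∫ b in (0 : ℝ)..b0, (cexp ((N : ℂ) * h b) - w b)) + (∫ b in b0..(1 / 4), cexp ((N : ℂ) * h b)) +
        (∫ b in (1 / 4)..Real.pi, cexp ((N : ℂ) * h b)) - ∫ x in Set.Ioi b0, w x := by
    rw [s1, s2, intervalIntegral.integral_sub (hec.intervalIntegrable _ _)
      (hwc.intervalIntegrable _ _)]
    ring
  rw [s3]
  -- part (i)
  have hm3 := ja_m3 ha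
  have hm4 := ja_m4 ha
  have p1 : ‖∫ b in (0 : ℝ)..b0, (cexp ((N : ℂ) * h b) - w b)‖ ≤
      (17 / 60 / (N * c ^ 2) +
        31 / 24 * (3 / 4 * Real.sqrt Real.pi) * k ^ 2 * N / (N * k * c) ^ (5 / 2 : ℝ)) / 2 := by
    have hint : IntegrableOn (fun x : ℝ => N * (17 / 60 * k ^ 2) * (x ^ 3 * Real.exp (-(N * k * c) * x ^ 2)) +
        N * (31 / 24 * k ^ 2) * (x ^ 4 * Real.exp (-(N * k * c) * x ^ 2))) (Set.Ioi 0) :=
      (hm3.1.const_mul _).add (hm4.1.const_mul _)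
    have hval : ∫ x in Set.Ioi (0 : ℝ), (N * (17 / 60 * k ^ 2) * (x ^ 3 * Real.exp (-(N * k * c) * x ^ 2)) +
        N * (31 / 24 * k ^ 2) * (x ^ 4 * Real.exp (-(N * k * c) * x ^ 2))) =
        (17 / 60 / (N * c ^ 2) +
        31 / 24 * (3 / 4 * Real.sqrt Real.pi) * k ^ 2 * N / (N * k * c) ^ (5 / 2 : ℝ)) / 2 := by
      rw [integral_add (hm3.1.const_mul _) (hm4.1.const_mul _), integral_const_mul, integral_const_mul,
        hm3.2, hm4.2]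
      have hp : 0 < (N * k * c) ^ (5 / 2 : ℝ) := Real.rpow_pos_of_pos ha _
      generalize (N * k * c) ^ (5 / 2 : ℝ) = R at hp
      field_simp
      ring
    rw [← hval, intervalIntegral.integral_of_le hb0.le]
    refine (norm_integral_le_of_norm_le (hint.mono_set Set.Ioc_subset_Ioi_self)
      ((ae_restrict_iff' measurableSet_Ioc).2 (Filter.Eventually.of_forall fun b hb => ?_))).trans ?_
    · have hl := hloc b hb.1.le hb.2
      obtain ⟨E, hE⟩ : ∃ E : ℂ, E = (N : ℂ) * (h b + κ * (b : ℂ) ^ 2 / 2) := ⟨_, rfl⟩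
      have hEn : ‖E‖ ≤ N * (17 / 60 * k ^ 2 * b ^ 3 + 31 / 24 * k ^ 2 * b ^ 4) := by
        rw [hE, norm_mul, Complex.norm_real, Real.norm_of_nonneg hN.le]
        exact mul_le_mul_of_nonneg_left hl hN.le
      have e1 : cexp ((N : ℂ) * h b) - w b = w b * (cexp E - 1) := by
        rw [mul_sub, mul_one, hw]
        simp only
        rw [← Complex.exp_add]
        congr 2
        rw [hE, hq]
        ring
      have e2 : ‖cexp E - 1‖ ≤ ‖E‖ * Real.exp ‖E‖ := by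
        have := Complex.norm_exp_sub_sum_le_norm_mul_exp E 1
        simpa using this
      rw [e1, norm_mul]
      have hb1 := hb.1
      have hb2 := hb.2
      have e3 : N * (17 / 60 * k ^ 2 * b ^ 3 + 31 / 24 * k ^ 2 * b ^ 4) ≤ N * k * b ^ 2 * (67 / 200 - c) := by
        rw [hcdef]
        have h1 : 17 / 60 * k * b + 31 / 24 * k * b ^ 2 ≤ 17 / 60 * k * b0 + 31 / 24 * k * b0 ^ 2 := by
          have h2 : b ^ 2 ≤ b0 ^ 2 := pow_le_pow_left₀ hb1.le hb2 2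
          have h3 : k * b ≤ k * b0 := mul_le_mul_of_nonneg_left hb2 hk.le
          have h4 : k * b ^ 2 ≤ k * b0 ^ 2 := mul_le_mul_of_nonneg_left h2 hk.le
          linarith
        have h2 : N * (17 / 60 * k ^ 2 * b ^ 3 + 31 / 24 * k ^ 2 * b ^ 4) =
            N * k * b ^ 2 * (17 / 60 * k * b + 31 / 24 * k * b ^ 2) := by ring
        rw [h2]
        refine mul_le_mul_of_nonneg_left ?_ (by positivity)
        linarith
      have e4 : ‖w b‖ * Real.exp ‖E‖ ≤ Real.exp (-(N * k * c) * b ^ 2) := by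
        have h1 : ‖w b‖ * Real.exp ‖E‖ ≤ Real.exp (-(67 / 200 * N * k) * b ^ 2) *
            Real.exp (N * k * b ^ 2 * (67 / 200 - c)) :=
          mul_le_mul (hwn b) (Real.exp_le_exp.2 (hEn.trans e3)) (Real.exp_pos _).le (Real.exp_pos _).le
        rw [← Real.exp_add] at h1
        refine h1.trans (le_of_eq ?_)
        congr 1
        ring
      calc ‖w b‖ * ‖cexp E - 1‖ ≤ ‖w b‖ * (‖E‖ * Real.exp ‖E‖) :=
            mul_le_mul_of_nonneg_left e2 (norm_nonneg _)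
        _ = ‖E‖ * (‖w b‖ * Real.exp ‖E‖) := by ring
        _ ≤ (N * (17 / 60 * k ^ 2 * b ^ 3 + 31 / 24 * k ^ 2 * b ^ 4)) *
            Real.exp (-(N * k * c) * b ^ 2) :=
            mul_le_mul hEn e4 (by positivity) (by positivity)
        _ = _ := by ring
    · refine setIntegral_mono_set hint ?_ (Filter.Eventually.of_forall Set.Ioc_subset_Ioi_self)
      refine (ae_restrict_iff' measurableSet_Ioi).2 (Filter.Eventually.of_forall fun b hb => ?_)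
      have hb' : 0 < b := hb
      simp only [Pi.zero_apply]
      positivity
  -- part (ii)
  have hs : 0 < 67 / 200 * N * k := by positivity
  have hta := ja_tail hs hb0
  have p2 : ‖∫ x in Set.Ioi b0, w x‖ ≤
      (Real.exp (-(67 / 200 * N * k * b0 ^ 2)) / (67 / 200 * N * k * b0)) / 2 := by
    have h1 : ‖∫ x in Set.Ioi b0, w x‖ ≤ ∫ x in Set.Ioi b0, x / b0 * Real.exp (-(67 / 200 * N * k) * x ^ 2) := by
      refine norm_integral_le_of_norm_le hta.1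
        ((ae_restrict_iff' measurableSet_Ioi).2 (Filter.Eventually.of_forall fun x hx => ?_))
      refine (hwn x).trans ?_
      have h2 : 1 ≤ x / b0 := by
        rw [le_div_iff₀ hb0, one_mul]
        exact (le_of_lt hx)
      exact le_mul_of_one_le_left (Real.exp_pos _).le h2
    rw [hta.2] at h1
    refine h1.trans (le_of_eq ?_)
    rw [show -(67 / 200 * N * k) * b0 ^ 2 = -(67 / 200 * N * k * b0 ^ 2) by ring]
    field_simp
  -- part (iii)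
  have hnorm : ∀ b : ℝ, ‖cexp ((N : ℂ) * h b)‖ = Real.exp (N * (h b).re) := by
    intro b
    rw [Complex.norm_exp, Complex.re_ofReal_mul]
  have hb0re : (h b0).re ≤ -(k * c * b0 ^ 2) := by
    have hl := hloc b0 hb0.le le_rfl
    have h1 := (Complex.re_le_norm (h b0 + κ * (b0 : ℂ) ^ 2 / 2)).trans hl
    have h2 : (h b0 + κ * (b0 : ℂ) ^ 2 / 2).re = (h b0).re + κ.re * b0 ^ 2 / 2 := by
      rw [show κ * (b0 : ℂ) ^ 2 / 2 = ((b0 ^ 2 / 2 : ℝ) : ℂ) * κ by push_cast; ring, Complex.add_re,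
        Complex.re_ofReal_mul]
      ring
    rw [h2] at h1
    have h3 : 67 / 100 * k * b0 ^ 2 ≤ κ.re * b0 ^ 2 := mul_le_mul_of_nonneg_right hre (sq_nonneg _)
    rw [hcdef]
    nlinarith
  have p3 : ‖∫ b in b0..(1 / 4), cexp ((N : ℂ) * h b)‖ ≤
      (2 * (1 / 4 - b0) * Real.exp (-(N * k * c * b0 ^ 2))) / 2 := by
    have h1 := intervalIntegral.norm_integral_le_of_norm_le_const (a := b0) (b := 1 / 4)
      (f := fun b : ℝ => cexp ((N : ℂ) * h b)) (C := Real.exp (-(N * k * c * b0 ^ 2))) (fun b hb => by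
        rw [Set.uIoc_of_le hb4] at hb
        rw [hnorm, Real.exp_le_exp]
        have h2 := (hmono b hb.1.le hb.2).trans hb0re
        have h3 := mul_le_mul_of_nonneg_left h2 hN.le
        linarith)
    rw [abs_of_nonneg (by linarith)] at h1
    linarith
  -- part (iv)
  have p4 : ‖∫ b in (1 / 4)..Real.pi, cexp ((N : ℂ) * h b)‖ ≤
      (2 * Real.pi * Real.exp (-(9 / 500 * N))) / 2 := by
    have h1 := intervalIntegral.norm_integral_le_of_norm_le_const (a := 1 / 4) (b := Real.pi)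
      (f := fun b : ℝ => cexp ((N : ℂ) * h b)) (C := Real.exp (-(9 / 500 * N))) (fun b hb => by
        rw [Set.uIoc_of_le (by linarith)] at hb
        rw [hnorm, Real.exp_le_exp]
        have h2 := hfar b hb.1.le hb.2
        have h3 := mul_le_mul_of_nonneg_left h2 hN.le
        linarith)
    rw [abs_of_nonneg (by linarith)] at h1
    have h4 := Real.exp_pos (-(9 / 500 * N))
    nlinarith
  have t1 := norm_sub_le ((∫ b in (0 : ℝ)..b0, (cexp ((N : ℂ) * h b) - w b)) +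
    (∫ b in b0..(1 / 4), cexp ((N : ℂ) * h b)) + (∫ b in (1 / 4)..Real.pi, cexp ((N : ℂ) * h b)))
    (∫ x in Set.Ioi b0, w x)
  have t2 := norm_add₃_le (a := ∫ b in (0 : ℝ)..b0, (cexp ((N : ℂ) * h b) - w b))
    (b := ∫ b in b0..(1 / 4), cexp ((N : ℂ) * h b)) (c := ∫ b in (1 / 4)..Real.pi, cexp ((N : ℂ) * h b))
  linarith

theorem ja_core (n : ℕ) (hn : 1 ≤ n) (κ : ℂ) (hκ : κ ≠ 0) (hre : 67 / 100 * ‖κ‖ ≤ κ.re)
    (h : ℝ → ℂ) (hc : Continuous h) (b0 : ℝ) (hb0 : 0 < b0) (hb4 : b0 ≤ 1 / 4)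
    (hloc : ∀ b : ℝ, |b| ≤ b0 →
      ‖h b + κ * (b : ℂ) ^ 2 / 2‖ ≤ 17 / 60 * ‖κ‖ ^ 2 * |b| ^ 3 + 31 / 24 * ‖κ‖ ^ 2 * b ^ 4)
    (hmono : ∀ b : ℝ, b0 ≤ b → b ≤ 1 / 4 → (h b).re ≤ (h b0).re ∧ (h (-b)).re ≤ (h (-b0)).re)
    (hfar : ∀ b : ℝ, 1 / 4 ≤ |b| → |b| ≤ Real.pi → (h b).re ≤ -(9 / 500))
    (c : ℝ) (hcdef : c = 67 / 200 - 17 / 60 * ‖κ‖ * b0 - 31 / 24 * ‖κ‖ * b0 ^ 2) (hcpos : 0 < c) :
    ‖(∫ b in (-Real.pi)..Real.pi, exp ((n : ℂ) * h b)) -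
        (2 * (Real.pi : ℂ) / ((n : ℂ) * κ)) ^ (1 / 2 : ℂ)‖ ≤
      17 / 60 / ((n : ℝ) * c ^ 2) +
      31 / 24 * (3 / 4 * Real.sqrt Real.pi) * ‖κ‖ ^ 2 * (n : ℝ) / ((n : ℝ) * ‖κ‖ * c) ^ (5 / 2 : ℝ) +
      Real.exp (-(67 / 200 * (n : ℝ) * ‖κ‖ * b0 ^ 2)) / (67 / 200 * (n : ℝ) * ‖κ‖ * b0) +
      2 * (1 / 4 - b0) * Real.exp (-((n : ℝ) * ‖κ‖ * c * b0 ^ 2)) +
      2 * Real.pi * Real.exp (-(9 / 500 * (n : ℝ))) := by
  have hA := ja_half n hn κ hκ hre h hc b0 hb0 hb4 (fun b h1 h2 => by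
      have := hloc b (by rw [abs_of_nonneg h1]; exact h2)
      rwa [abs_of_nonneg h1] at this)
    (fun b h1 h2 => (hmono b h1 h2).1)
    (fun b h1 h2 => hfar b (by rw [abs_of_nonneg (by linarith)]; exact h1)
      (by rw [abs_of_nonneg (by linarith)]; exact h2)) c hcdef hcpos
  have hB := ja_half n hn κ hκ hre (fun b => h (-b)) (hc.comp continuous_neg) b0 hb0 hb4 (fun b h1 h2 => by
      have := hloc (-b) (by rw [abs_neg, abs_of_nonneg h1]; exact h2)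
      rw [abs_neg, abs_of_nonneg h1] at this
      have e1 : ((-b : ℝ) : ℂ) ^ 2 = (b : ℂ) ^ 2 := by push_cast; ring
      have e2 : (-b) ^ 4 = b ^ 4 := by ring
      rwa [e1, e2] at this)
    (fun b h1 h2 => (hmono b h1 h2).2)
    (fun b h1 h2 => hfar (-b) (by rw [abs_neg, abs_of_nonneg (by linarith)]; exact h1)
      (by rw [abs_neg, abs_of_nonneg (by linarith)]; exact h2)) c hcdef hcpos
  have hec : Continuous fun b : ℝ => cexp ((n : ℂ) * h b) := by fun_prop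
  have s1 : (∫ b in (-Real.pi)..Real.pi, cexp ((n : ℂ) * h b)) =
      (∫ b in (0 : ℝ)..Real.pi, cexp ((n : ℂ) * h (-b))) + ∫ b in (0 : ℝ)..Real.pi, cexp ((n : ℂ) * h b) := by
    have h1 := intervalIntegral.integral_comp_neg (a := 0) (b := Real.pi)
      (fun b : ℝ => cexp ((n : ℂ) * h b))
    rw [h1, neg_zero, intervalIntegral.integral_add_adjacent_intervals (hec.intervalIntegrable _ _)
      (hec.intervalIntegrable _ _)]
  rw [s1]
  have t1 := norm_add_le ((∫ b in (0 : ℝ)..Real.pi, cexp ((n : ℂ) * h (-b))) -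
      (2 * (Real.pi : ℂ) / ((n : ℂ) * κ)) ^ (1 / 2 : ℂ) / 2)
    ((∫ b in (0 : ℝ)..Real.pi, cexp ((n : ℂ) * h b)) -
      (2 * (Real.pi : ℂ) / ((n : ℂ) * κ)) ^ (1 / 2 : ℂ) / 2)
  have e1 : (∫ b in (0 : ℝ)..Real.pi, cexp ((n : ℂ) * h (-b))) +
      (∫ b in (0 : ℝ)..Real.pi, cexp ((n : ℂ) * h b)) -
      (2 * (Real.pi : ℂ) / ((n : ℂ) * κ)) ^ (1 / 2 : ℂ) =
      ((∫ b in (0 : ℝ)..Real.pi, cexp ((n : ℂ) * h (-b))) -
      (2 * (Real.pi : ℂ) / ((n : ℂ) * κ)) ^ (1 / 2 : ℂ) / 2) +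
    ((∫ b in (0 : ℝ)..Real.pi, cexp ((n : ℂ) * h b)) -
      (2 * (Real.pi : ℂ) / ((n : ℂ) * κ)) ^ (1 / 2 : ℂ) / 2) := by ring
  rw [e1]
  linarith

end ST3
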