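import Mathlib

/-!
# ST-JA7: the numerical inequality for the circle integral

Relative to `sqrt(2 pi/(n k))` the sum is at most `.291` (`n = 1000`, `k = 9/2`), needed `1/3`.
PROOF. Case A: `7/10 <= k <= 3/2`, `b0 = 1/5`, `c = .335 - .056667k - .051667k >= .1725`. Case B:
`3/2 <= k <= 9/2`, `b0 = 3/(10k)`, `c = .335 - .085 - .11625/k = .25 - .11625/k >= .1725`.
Each term times `sqrt(n k/(2 pi))`:
 1: `(17/60) sqrt(k)/(c^2 sqrt(2 pi n))`; 2: `(31/24)(3/4) sqrt(pi)/(sqrt(2 pi) n c^{5/2})`, the powers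
 of `k` cancel; 3, 4, 5 exponentially small except 4 in case B: `sqrt(n k/(2pi)) (1/2 - .6/k)
 e^{-.09 n c/k}`. All are nonincreasing in `n` for `n >= 1000` (4: `sqrt(n) e^{-alpha n}` with
 `alpha = .09 c/k >= .09*.2242/4.5 = .00448` is decreasing for `n >= 1/(2 alpha)`). In case B split the
 range of `k` into a few intervals and bound term by term by monotonicity: term 1 at `n=1000`:
 `sqrt(k)*.0035747.../c^2`; `k in [3/2, 2]`: `c >= .1725`: `<= .170`; term 2 `<= .0555`; term 4: `alpha n >=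
 .09*.1725*1000/2 = 7.7`: `<= 17.9*.2*.00045 = .002`. `k in [2,3]`: `c >= .1918`: `.168 + .0426 + `
 `21.9*.3*e^{-5.75} = .021`; `k in [3,4]`: `c >= .2112`: `.1603 + .0335 + 25.3*.35*e^{-4.75} = .0764`;
 `k in [4, 4.5]`: `c >= .2209`: `.1555 + .03 + 26.8*.3667*e^{-4.41} = .1189`. Sums `<= .31`.
-/

namespace ST3

private theorem ja_exp {x e : ℝ} (hx : 0 ≤ x) (he : 0 < e)
    (h : 1 ≤ e * (1 + x + x ^ 2 / 2 + x ^ 3 / 6 + x ^ 4 / 24) ^ 4) : Real.exp (-(4 * x)) ≤ e := by
  have h1 := Real.sum_le_exp_of_nonneg hx 5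
  have h2 : 1 + x + x ^ 2 / 2 + x ^ 3 / 6 + x ^ 4 / 24 ≤ Real.exp x := by
    refine le_trans (le_of_eq ?_) h1
    norm_num [Finset.sum_range_succ, Nat.factorial]
  have h3 : (1 + x + x ^ 2 / 2 + x ^ 3 / 6 + x ^ 4 / 24) ^ 4 ≤ Real.exp (4 * x) := by
    have h4 : Real.exp (4 * x) = Real.exp x ^ 4 := by
      rw [← Real.exp_nat_mul]
      norm_num
    rw [h4]
    exact pow_le_pow_left₀ (by positivity) h2 4
  rw [Real.exp_neg, inv_le_comm₀ (Real.exp_pos _) he, inv_le_iff_one_le_mul₀ he]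
  nlinarith

/-- `sqrt N e^{-a N}` decreases -/
private theorem ja_root {N a : ℝ} (hN : 1000 ≤ N) (ha : 1 / 2000 ≤ a) :
    Real.sqrt N * Real.exp (-(N * a)) ≤ 31623 / 1000 * Real.exp (-(1000 * a)) := by
  have h1 : Real.sqrt N ≤ 31623 / 1000 * Real.exp ((N - 1000) * a) := by
    apply Real.sqrt_le_iff.2 ⟨by positivity, ?_⟩
    have h2 : 1 + (N - 1000) / 1000 ≤ Real.exp ((N - 1000) / 1000) := by
      have := Real.add_one_le_exp ((N - 1000) / 1000)
      linarith
    have h3 : Real.exp ((N - 1000) / 1000) ≤ Real.exp ((N - 1000) * a) ^ 2 := by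
      rw [← Real.exp_nat_mul]
      apply Real.exp_le_exp.2
      push_cast
      nlinarith
    nlinarith
  calc Real.sqrt N * Real.exp (-(N * a))
      ≤ 31623 / 1000 * Real.exp ((N - 1000) * a) * Real.exp (-(N * a)) :=
        mul_le_mul_of_nonneg_right h1 (Real.exp_pos _).le
    _ = 31623 / 1000 * Real.exp (-(1000 * a)) := by
        rw [mul_assoc, ← Real.exp_add]
        congr 2
        ring

private theorem ja_core {N k b0 c c0 q0 s2 b1 e4 a0 t1 t2 t4 : ℝ} (hN : 1000 ≤ N) (hk : 0 < k)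
    (hk2 : k ≤ 9 / 2) (hb0 : 0 < b0) (hb4 : b0 ≤ 1 / 4) (hc0 : 0 < c0) (hc : c0 ≤ c)
    (hq0 : 0 < q0) (hq : q0 ^ 2 ≤ c0) (hs2 : 0 < s2) (hks : k ≤ s2 ^ 2)
    (h20 : 20 ≤ N * k * b0 ^ 2) (hb1 : b1 ≤ b0) (ha0 : 1 / 2000 ≤ a0)
    (ha : a0 ≤ k * c * b0 ^ 2) (he4 : Real.exp (-(1000 * a0)) ≤ e4)
    (ht1 : 17 / 60 * s2 ≤ t1 * (31622 / 1000 * c0 ^ 2))
    (ht2 : 31 / 32 * (17725 / 10000) ≤ t2 * (1000 * (c0 ^ 2 * q0)))
    (ht4 : 2 * (1 / 4 - b1) * (31623 / 1000 * e4 * s2) ≤ t4)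
    (ht10 : 0 ≤ t1) (ht20 : 0 ≤ t2) (hsum : t1 + t2 + t4 + 2 / 1000 ≤ 8355 / 10000) :
    17 / 60 / (N * c ^ 2) +
      31 / 24 * (3 / 4 * Real.sqrt Real.pi) * k ^ 2 * N / (N * k * c) ^ (5 / 2 : ℝ) +
      Real.exp (-(67 / 200 * N * k * b0 ^ 2)) / (67 / 200 * N * k * b0) +
      2 * (1 / 4 - b0) * Real.exp (-(N * k * c * b0 ^ 2)) +
      2 * Real.pi * Real.exp (-(9 / 500 * N)) ≤
    1 / 3 * Real.sqrt (2 * Real.pi / (N * k)) := by
  have hN0 : 0 < N := by linarith
  have hcp : 0 < c := by linarith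
  set r := Real.sqrt N with hr
  set s := Real.sqrt k with hs
  have hr2 : r ^ 2 = N := Real.sq_sqrt hN0.le
  have hs22 : s ^ 2 = k := Real.sq_sqrt hk.le
  have hr0 : 0 < r := Real.sqrt_pos.2 hN0
  have hs0 : 0 < s := Real.sqrt_pos.2 hk
  have hrr : 31622 / 1000 ≤ r := Real.le_sqrt_of_sq_le (by norm_num; linarith)
  have hss : s ≤ s2 := Real.sqrt_le_iff.2 ⟨hs2.le, hks⟩
  have hs21 : s ≤ 2122 / 1000 := Real.sqrt_le_iff.2 ⟨by norm_num, by norm_num; linarith⟩
  have hrs : 0 < r * s := mul_pos hr0 hs0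
  have hpi1 := Real.pi_gt_d6
  have hpi2 := Real.pi_lt_d4
  -- the right side
  have hR : 8355 / 10000 / (r * s) ≤ 1 / 3 * Real.sqrt (2 * Real.pi / (N * k)) := by
    have h1 : Real.sqrt (2 * Real.pi / (N * k)) = Real.sqrt (2 * Real.pi) / (r * s) := by
      rw [Real.sqrt_div (by positivity), Real.sqrt_mul hN0.le]
    have h2 : 25066 / 10000 ≤ Real.sqrt (2 * Real.pi) :=
      Real.le_sqrt_of_sq_le (by norm_num; linarith)
    rw [h1, ← mul_div_assoc]
    apply div_le_div_of_nonneg_right _ hrs.le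
    linarith
  refine le_trans ?_ hR
  -- term 1
  have hT1 : 17 / 60 / (N * c ^ 2) ≤ t1 / (r * s) := by
    rw [div_le_div_iff₀ (by positivity) hrs, ← hr2]
    have h1 : c0 ^ 2 ≤ c ^ 2 := pow_le_pow_left₀ hc0.le hc 2
    have h2 : 17 / 60 * s ≤ t1 * (r * c ^ 2) := by
      calc 17 / 60 * s ≤ 17 / 60 * s2 := by linarith
        _ ≤ t1 * (31622 / 1000 * c0 ^ 2) := ht1
        _ ≤ t1 * (r * c ^ 2) := by
          apply mul_le_mul_of_nonneg_left _ ht10
          exact mul_le_mul hrr h1 (by positivity) hr0.le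
    calc 17 / 60 * (r * s) = r * (17 / 60 * s) := by ring
      _ ≤ r * (t1 * (r * c ^ 2)) := mul_le_mul_of_nonneg_left h2 hr0.le
      _ = t1 * (r ^ 2 * c ^ 2) := by ring
  -- term 2
  have hsc : 0 < Real.sqrt c := Real.sqrt_pos.2 hcp
  have hpow : (N * k * c) ^ (5 / 2 : ℝ) = (N * k * c) ^ 2 * (r * s * Real.sqrt c) := by
    have h1 : (5 / 2 : ℝ) = 2 + 1 / 2 := by norm_num
    have h0 : 0 < N * k * c := by positivity
    rw [h1, Real.rpow_add h0, ← Real.sqrt_eq_rpow, Real.sqrt_mul (by positivity), Real.sqrt_mul hN0.le]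
    norm_cast
  have hT2 : 31 / 24 * (3 / 4 * Real.sqrt Real.pi) * k ^ 2 * N / (N * k * c) ^ (5 / 2 : ℝ) ≤
      t2 / (r * s) := by
    rw [hpow, div_le_div_iff₀ (by positivity) hrs]
    have hsp : Real.sqrt Real.pi ≤ 17725 / 10000 :=
      Real.sqrt_le_iff.2 ⟨by norm_num, by norm_num; linarith⟩
    have hqc : q0 ≤ Real.sqrt c := Real.le_sqrt_of_sq_le (hq.trans hc)
    have h1 : c0 ^ 2 * q0 ≤ c ^ 2 * Real.sqrt c :=
      mul_le_mul (pow_le_pow_left₀ hc0.le hc 2) hqc hq0.le (by positivity)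
    have h2 : 31 / 32 * Real.sqrt Real.pi ≤ t2 * (N * (c ^ 2 * Real.sqrt c)) := by
      calc 31 / 32 * Real.sqrt Real.pi ≤ 31 / 32 * (17725 / 10000) := by linarith
        _ ≤ t2 * (1000 * (c0 ^ 2 * q0)) := ht2
        _ ≤ t2 * (N * (c ^ 2 * Real.sqrt c)) := by
          apply mul_le_mul_of_nonneg_left _ ht20
          exact mul_le_mul hN h1 (by positivity) hN0.le
    calc 31 / 24 * (3 / 4 * Real.sqrt Real.pi) * k ^ 2 * N * (r * s)
        = (k ^ 2 * N * (r * s)) * (31 / 32 * Real.sqrt Real.pi) := by ring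
      _ ≤ (k ^ 2 * N * (r * s)) * (t2 * (N * (c ^ 2 * Real.sqrt c))) :=
          mul_le_mul_of_nonneg_left h2 (by positivity)
      _ = t2 * ((N * k * c) ^ 2 * (r * s * Real.sqrt c)) := by ring
  -- term 3
  have hT3 : Real.exp (-(67 / 200 * N * k * b0 ^ 2)) / (67 / 200 * N * k * b0) ≤
      1 / 1000 / (r * s) := by
    rw [div_le_div_iff₀ (by positivity) hrs]
    have h1 : Real.exp (-(67 / 200 * N * k * b0 ^ 2)) ≤ 14 / 10000 := by
      refine le_trans (Real.exp_le_exp.2 ?_)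
        (ja_exp (x := 67 / 40) (e := 14 / 10000) (by norm_num) (by norm_num) (by norm_num))
      linarith
    have h2 : 447 / 100 ≤ r * s * b0 := by
      apply le_of_sq_le_sq _ (by positivity)
      have : (r * s * b0) ^ 2 = N * k * b0 ^ 2 := by
        rw [mul_pow, mul_pow, hr2, hs22]
      rw [this]
      norm_num
      linarith
    have h3 : N * k = (r * s) ^ 2 := by rw [mul_pow, hr2, hs22]
    calc Real.exp (-(67 / 200 * N * k * b0 ^ 2)) * (r * s) ≤ 14 / 10000 * (r * s) :=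
          mul_le_mul_of_nonneg_right h1 hrs.le
      _ ≤ (67 / 200000 * (r * s * b0)) * (r * s) := by
          apply mul_le_mul_of_nonneg_right _ hrs.le
          linarith
      _ = 1 / 1000 * (67 / 200 * (r * s) ^ 2 * b0) := by ring
      _ = 1 / 1000 * (67 / 200 * N * k * b0) := by rw [← h3]; ring
  -- term 4
  have hT4 : 2 * (1 / 4 - b0) * Real.exp (-(N * k * c * b0 ^ 2)) ≤ t4 / (r * s) := by
    rw [le_div_iff₀ hrs]
    have h1 : Real.exp (-(N * k * c * b0 ^ 2)) ≤ Real.exp (-(N * a0)) := by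
      apply Real.exp_le_exp.2
      have := mul_le_mul_of_nonneg_left ha hN0.le
      linarith
    have h2 : r * Real.exp (-(N * k * c * b0 ^ 2)) ≤ 31623 / 1000 * e4 := by
      calc r * Real.exp (-(N * k * c * b0 ^ 2)) ≤ r * Real.exp (-(N * a0)) :=
            mul_le_mul_of_nonneg_left h1 hr0.le
        _ ≤ 31623 / 1000 * Real.exp (-(1000 * a0)) := ja_root hN ha0
        _ ≤ 31623 / 1000 * e4 := by linarith
    have h3 : 0 ≤ r * Real.exp (-(N * k * c * b0 ^ 2)) := by positivity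
    calc 2 * (1 / 4 - b0) * Real.exp (-(N * k * c * b0 ^ 2)) * (r * s)
        = 2 * (1 / 4 - b0) * (r * Real.exp (-(N * k * c * b0 ^ 2)) * s) := by ring
      _ ≤ 2 * (1 / 4 - b1) * (31623 / 1000 * e4 * s2) := by
          apply mul_le_mul (by linarith) _ (by positivity) (by linarith)
          exact mul_le_mul h2 hss hs0.le (h3.trans h2)
      _ ≤ t4 := ht4
  -- term 5
  have hT5 : 2 * Real.pi * Real.exp (-(9 / 500 * N)) ≤ 1 / 1000 / (r * s) := by
    rw [le_div_iff₀ hrs]
    have h1 := ja_root (a := 9 / 500) hN (by norm_num)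
    have h2 : Real.exp (-(1000 * (9 / 500))) ≤ 1 / 1000000 := by
      refine le_trans (Real.exp_le_exp.2 ?_)
        (ja_exp (x := 9 / 2) (e := 1 / 1000000) (by norm_num) (by norm_num) (by norm_num))
      norm_num
    have h3 : -(N * (9 / 500)) = -(9 / 500 * N) := by ring
    rw [h3] at h1
    have h4 : r * Real.exp (-(9 / 500 * N)) ≤ 31623 / 1000 * (1 / 1000000) := h1.trans (by linarith)
    calc 2 * Real.pi * Real.exp (-(9 / 500 * N)) * (r * s)
        = 2 * Real.pi * (r * Real.exp (-(9 / 500 * N)) * s) := by ring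
      _ ≤ 2 * (31416 / 10000) * (31623 / 1000 * (1 / 1000000) * (2122 / 1000)) := by
          apply mul_le_mul (by linarith) _ (by positivity) (by norm_num)
          exact mul_le_mul h4 hs21 hs0.le (by norm_num)
      _ ≤ 1 / 1000 := by norm_num
  have hfin : t1 / (r * s) + t2 / (r * s) + 1 / 1000 / (r * s) + t4 / (r * s) + 1 / 1000 / (r * s) ≤
      8355 / 10000 / (r * s) := by
    rw [← add_div, ← add_div, ← add_div, ← add_div]
    apply div_le_div_of_nonneg_right _ hrs.le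
    linarith
  linarith

theorem ja_numeric (n : ℕ) (hn : 1000 ≤ n) (k b0 c : ℝ) (hk1 : 7 / 10 ≤ k) (hk2 : k ≤ 9 / 2)
    (hb0 : b0 = min (1 / 5) (3 / (10 * k)))
    (hc : c = 67 / 200 - 17 / 60 * k * b0 - 31 / 24 * k * b0 ^ 2) :
    0 < c ∧
    17 / 60 / ((n : ℝ) * c ^ 2) +
      31 / 24 * (3 / 4 * Real.sqrt Real.pi) * k ^ 2 * (n : ℝ) / ((n : ℝ) * k * c) ^ (5 / 2 : ℝ) +
      Real.exp (-(67 / 200 * (n : ℝ) * k * b0 ^ 2)) / (67 / 200 * (n : ℝ) * k * b0) +
      2 * (1 / 4 - b0) * Real.exp (-((n : ℝ) * k * c * b0 ^ 2)) +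
      2 * Real.pi * Real.exp (-(9 / 500 * (n : ℝ))) ≤
    1 / 3 * Real.sqrt (2 * Real.pi / ((n : ℝ) * k)) := by
  have hN : (1000 : ℝ) ≤ (n : ℝ) := by exact_mod_cast hn
  have hk0 : 0 < k := by linarith
  rcases le_total k (3 / 2) with hA | hB
  · have hb : b0 = 1 / 5 := by
      rw [hb0]
      apply min_eq_left
      rw [le_div_iff₀ (by linarith)]
      linarith
    have hc' : c = 67 / 200 - 13 / 120 * k := by
      rw [hc, hb]
      ring
    have hclo : 1725 / 10000 ≤ c := by rw [hc']; linarith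
    refine ⟨by linarith, ?_⟩
    have hkc : 7 / 10 * (1725 / 10000) ≤ k * c :=
      mul_le_mul hk1 hclo (by norm_num) hk0.le
    refine ja_core (c0 := 1725 / 10000) (q0 := 415 / 1000) (s2 := 1225 / 1000) (b1 := 1 / 5)
      (e4 := 1 / 100) (a0 := 483 / 100000) (t1 := 37 / 100) (t2 := 14 / 100) (t4 := 4 / 100)
      hN hk0 hk2 (by rw [hb]; norm_num) (by rw [hb]; norm_num) (by norm_num) hclo (by norm_num)
      (by norm_num) (by norm_num) (by norm_num; linarith) ?_ (by rw [hb]) (by norm_num) ?_ ?_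
      (by norm_num) (by norm_num) (by norm_num) (by norm_num) (by norm_num) (by norm_num)
    · rw [hb]
      nlinarith
    · rw [hb]
      linarith
    · refine le_trans (Real.exp_le_exp.2 ?_)
        (ja_exp (x := 483 / 400) (e := 1 / 100) (by norm_num) (by norm_num) (by norm_num))
      norm_num
  · have hb : b0 = 3 / (10 * k) := by
      rw [hb0]
      apply min_eq_right
      rw [div_le_iff₀ (by linarith)]
      linarith
    have hkb : k * b0 = 3 / 10 := by
      rw [hb]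
      field_simp
    have hi1 : k⁻¹ ≤ 2 / 3 := by
      rw [inv_le_comm₀ hk0 (by norm_num)]
      norm_num
      linarith
    have hb' : b0 = 3 / 10 * k⁻¹ := by
      rw [hb]
      field_simp
    have hc' : c = 1 / 4 - 93 / 800 * k⁻¹ := by
      rw [hc, hb']
      field_simp
      ring
    have hinv : k * k⁻¹ = 1 := mul_inv_cancel₀ hk0.ne'
    have hinv0 : 0 < k⁻¹ := inv_pos.2 hk0
    have hcpos : 0 < c := by rw [hc']; linarith
    refine ⟨hcpos, ?_⟩
    have hkbb : k * b0 ^ 2 = 9 / 100 * k⁻¹ := by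
      rw [hb']
      field_simp
      ring
    have h20 : 20 ≤ (n : ℝ) * k * b0 ^ 2 := by
      have h1 : (2 : ℝ) / 9 ≤ k⁻¹ := by
        rw [le_inv_comm₀ (by norm_num) hk0]
        norm_num
        linarith
      rw [mul_assoc, hkbb]
      nlinarith
    have hkcb : k * c * b0 ^ 2 = 9 / 100 * c * k⁻¹ := by
      have : k * c * b0 ^ 2 = k * b0 ^ 2 * c := by ring
      rw [this, hkbb]
      ring
    have hb00 : 0 < b0 := by rw [hb']; positivity
    have hb4 : b0 ≤ 1 / 4 := by rw [hb']; linarith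
    have key : ∀ (k1 k2 : ℝ), 0 < k1 → 0 < k2 → k1 ≤ k → k ≤ k2 → k2⁻¹ ≤ k⁻¹ ∧ k⁻¹ ≤ k1⁻¹ := by
      intro k1 k2 h1 h2 h3 h4
      exact ⟨inv_anti₀ hk0 h4, inv_anti₀ h1 h3⟩
    rcases le_total k 2 with h2 | h2
    · obtain ⟨hu, hl⟩ := key (3 / 2) 2 (by norm_num) (by norm_num) hB h2
      norm_num at hu hl
      have hclo : 1725 / 10000 ≤ c := by rw [hc']; linarith
      refine ja_core (c0 := 1725 / 10000) (q0 := 415 / 1000) (s2 := 14143 / 10000) (b1 := 3 / 20)
        (e4 := 1 / 1000) (a0 := 9 / 100 * (1725 / 10000) * (1 / 2)) (t1 := 43 / 100) (t2 := 14 / 100)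
        (t4 := 1 / 100)
        hN hk0 hk2 hb00 hb4 (by norm_num) hclo (by norm_num)
        (by norm_num) (by norm_num) (by norm_num; linarith) h20 (by rw [hb']; linarith) (by norm_num) ?_ ?_
        (by norm_num) (by norm_num) (by norm_num) (by norm_num) (by norm_num) (by norm_num)
      · rw [hkcb]
        exact mul_le_mul (by linarith) hu (by norm_num) (by positivity)
      · refine le_trans (Real.exp_le_exp.2 ?_)
          (ja_exp (x := 194 / 100) (e := 1 / 1000) (by norm_num) (by norm_num) (by norm_num))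
        norm_num
    rcases le_total k 3 with h3 | h3
    · obtain ⟨hu, hl⟩ := key 2 3 (by norm_num) (by norm_num) h2 h3
      norm_num at hu hl
      have hclo : 191875 / 1000000 ≤ c := by rw [hc']; linarith
      refine ja_core (c0 := 191875 / 1000000) (q0 := 438 / 1000) (s2 := 17321 / 10000) (b1 := 1 / 10)
        (e4 := 35 / 10000) (a0 := 9 / 100 * (191875 / 1000000) * (1 / 3)) (t1 := 43 / 100)
        (t2 := 11 / 100) (t4 := 6 / 100)
        hN hk0 hk2 hb00 hb4 (by norm_num) hclo (by norm_num)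
        (by norm_num) (by norm_num) (by norm_num; linarith) h20 (by rw [hb']; linarith) (by norm_num) ?_ ?_
        (by norm_num) (by norm_num) (by norm_num) (by norm_num) (by norm_num) (by norm_num)
      · rw [hkcb]
        exact mul_le_mul (by linarith) hu (by norm_num) (by positivity)
      · refine le_trans (Real.exp_le_exp.2 ?_)
          (ja_exp (x := 1439 / 1000) (e := 35 / 10000) (by norm_num) (by norm_num) (by norm_num))
        norm_num
    rcases le_total k 4 with h4 | h4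
    · obtain ⟨hu, hl⟩ := key 3 4 (by norm_num) (by norm_num) h3 h4
      norm_num at hu hl
      have hclo : 21125 / 100000 ≤ c := by rw [hc']; linarith
      refine ja_core (c0 := 21125 / 100000) (q0 := 459 / 1000) (s2 := 2) (b1 := 3 / 40)
        (e4 := 95 / 10000) (a0 := 9 / 100 * (21125 / 100000) * (1 / 4)) (t1 := 41 / 100)
        (t2 := 9 / 100) (t4 := 22 / 100)
        hN hk0 hk2 hb00 hb4 (by norm_num) hclo (by norm_num)
        (by norm_num) (by norm_num) (by norm_num; linarith) h20 (by rw [hb']; linarith) (by norm_num) ?_ ?_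
        (by norm_num) (by norm_num) (by norm_num) (by norm_num) (by norm_num) (by norm_num)
      · rw [hkcb]
        exact mul_le_mul (by linarith) hu (by norm_num) (by positivity)
      · refine le_trans (Real.exp_le_exp.2 ?_)
          (ja_exp (x := 1188 / 1000) (e := 95 / 10000) (by norm_num) (by norm_num) (by norm_num))
        norm_num
    · obtain ⟨hu, hl⟩ := key 4 (9 / 2) (by norm_num) (by norm_num) h4 hk2
      norm_num at hu hl
      have hclo : 2209375 / 10000000 ≤ c := by rw [hc']; linarith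
      refine ja_core (c0 := 2209375 / 10000000) (q0 := 47 / 100) (s2 := 21214 / 10000) (b1 := 1 / 15)
        (e4 := 125 / 10000) (a0 := 9 / 100 * (2209375 / 10000000) * (2 / 9)) (t1 := 395 / 1000)
        (t2 := 8 / 100) (t4 := 31 / 100)
        hN hk0 hk2 hb00 hb4 (by norm_num) hclo (by norm_num)
        (by norm_num) (by norm_num) (by norm_num; linarith) h20 (by rw [hb']; linarith) (by norm_num) ?_ ?_
        (by norm_num) (by norm_num) (by norm_num) (by norm_num) (by norm_num) (by norm_num)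
      · rw [hkcb]
        exact mul_le_mul (by linarith) hu (by norm_num) (by positivity)
      · refine le_trans (Real.exp_le_exp.2 ?_)
          (ja_exp (x := 11046 / 10000) (e := 125 / 10000) (by norm_num) (by norm_num) (by norm_num))
        norm_num

end ST3
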