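import Pool.Agent.Helper2.ST.JA4
import Pool.Agent.Helper2.ST.JA5
import Pool.Agent.Helper2.ST.JA6
import Pool.Agent.Helper2.ST.JA7

/-!
# ST-JA8: `J_n` in the small disk

PROOFS. `J_circle`: `J n z = (1/2pi) int_{-pi}^{pi} e^{n hh z b} db`.
* crude: `-Re hh z b >= 0` for `|b| <= pi`: for `|b| <= 1/4` by `f_mono` with `b0 = 0` (`hh_zero`), else `f_ge`.
* sharp: `ja_core` with `kappa = kap z`, `h = hh z` (continuous), `b0 = min (1/5) (3/(10 k))`; `N10` gives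
  `Re kap >= .67 |kap|`, `hh_local`, `f_mono`, `f_ge`; `7/10 <= |kap z| <= 9/2` (`kap_re`, `kap_norm_le`);
  `ja_numeric`. Then `J (2 pi n kap)^{1/2} - 1 = (1/2pi) (2 pi n kap)^{1/2} (int - (2pi/(n kap))^{1/2})`
  because `(2 pi n kap)^{1/2} (2 pi/(n kap))^{1/2} = 2 pi` (`Re kap > 0`), and the norm is at most
  `(1/2pi) sqrt(2 pi n k) (1/3) sqrt(2 pi/(n k)) = 1/3`.
-/

namespace ST3

open Complex MeasureTheory

private theorem ja8_zero (z : ℂ) : hh z 0 = 0 := by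
  unfold hh
  simp

private theorem ja8_cont (z : ℂ) : Continuous (hh z) := by
  unfold hh
  have h1 := (GG_differentiable 0).continuous
  have h2 : Continuous fun b : ℝ => GG 0 (z * exp (b * I)) := h1.comp (by fun_prop)
  fun_prop

private theorem ja8_mono {z : ℂ} (hz : z ∈ P) (h : ‖z‖ ≤ 9 / 2) {b0 b : ℝ} (h0 : 0 ≤ b0)
    (hb : b0 ≤ b) (hb4 : b ≤ 1 / 4) :
    (hh z b).re ≤ (hh z b0).re ∧ (hh z (-b)).re ≤ (hh z (-b0)).re := by
  obtain ⟨h1, h2⟩ := f_mono hz h h0 hb hb4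
  exact ⟨by linarith, by linarith⟩

private theorem ja8_nonpos {z : ℂ} (hz : z ∈ P) (hF : F z ∈ S) (h : ‖z‖ ≤ 9 / 2) {b : ℝ}
    (hb : |b| ≤ Real.pi) : (hh z b).re ≤ 0 := by
  rcases le_total (1 / 4) |b| with h1 | h1
  · have := f_ge hz hF h h1 hb
    linarith
  · have h2 := ja8_mono hz h (b0 := 0) (b := |b|) le_rfl (abs_nonneg b) h1
    rw [neg_zero, ja8_zero, Complex.zero_re] at h2
    rcases abs_cases b with ⟨h3, _⟩ | ⟨h3, _⟩
    · rw [h3] at h2
      exact h2.1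
    · rw [h3, neg_neg] at h2
      exact h2.2

theorem J_small_crude (n : ℕ) {z : ℂ} (hz : z ∈ P) (hF : F z ∈ S) (h : ‖z‖ ≤ 9 / 2) :
    ‖J n z‖ ≤ 1 := by
  rw [J_circle n (P_ne_zero hz) (P_GG1_ne hz), norm_smul]
  have hπ := Real.pi_pos
  have h1 := intervalIntegral.norm_integral_le_of_norm_le_const (a := -Real.pi) (b := Real.pi)
    (f := fun b : ℝ => cexp ((n : ℂ) * hh z b)) (C := 1) (fun b hb => by
      rw [Set.uIoc_of_le (by linarith)] at hb
      rw [Complex.norm_exp]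
      have h2 : ((n : ℂ) * hh z b).re = (n : ℝ) * (hh z b).re := by
        rw [show (n : ℂ) = ((n : ℝ) : ℂ) by simp, Complex.re_ofReal_mul]
      rw [h2, ← Real.exp_zero, Real.exp_le_exp]
      have h3 := ja8_nonpos hz hF h (b := b) (abs_le.2 ⟨by linarith [hb.1], hb.2⟩)
      exact mul_nonpos_of_nonneg_of_nonpos (Nat.cast_nonneg n) h3)
  rw [Real.norm_of_nonneg (by positivity)]
  have h4 : |Real.pi - -Real.pi| = 2 * Real.pi := by
    rw [abs_of_nonneg (by linarith)]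
    ring
  rw [h4, one_mul] at h1
  calc 1 / (2 * Real.pi) * ‖∫ b in (-Real.pi)..Real.pi, cexp ((n : ℂ) * hh z b)‖ ≤
      1 / (2 * Real.pi) * (2 * Real.pi) := mul_le_mul_of_nonneg_left h1 (by positivity)
    _ = 1 := by field_simp

theorem J_small_sharp (n : ℕ) (hn : 1000 ≤ n) {z : ℂ} (hz : z ∈ P) (hF : F z ∈ S)
    (h : ‖z‖ ≤ 9 / 2) :
    ‖J n z * (2 * (Real.pi : ℂ) * (n : ℂ) * kap z) ^ (1 / 2 : ℂ) - 1‖ ≤ 1 / 3 := by
  have hn0 : (0 : ℝ) < n := by
    have : 0 < n := by omega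
    exact_mod_cast this
  have hπ := Real.pi_pos
  have hz0 := P_ne_zero hz
  have hkre := kap_re hz
  have hkne := kap_ne hz
  have hzre : z.re ≤ 8 := by
    have := Complex.re_le_norm z
    linarith
  have h10 : 67 / 100 * ‖kap z‖ ≤ (kap z).re :=
    N10 (closure_P_subset_Q (subset_closure hz)) hz0 hzre
  have hk1 : 7 / 10 ≤ ‖kap z‖ := hkre.trans (Complex.re_le_norm _)
  have hk2 := kap_norm_le hz0 h
  obtain ⟨k, hk⟩ : ∃ k, k = ‖kap z‖ := ⟨_, rfl⟩
  obtain ⟨b0, hb0⟩ : ∃ b0 : ℝ, b0 = min (1 / 5) (3 / (10 * k)) := ⟨_, rfl⟩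
  obtain ⟨c, hc⟩ : ∃ c : ℝ, c = 67 / 200 - 17 / 60 * k * b0 - 31 / 24 * k * b0 ^ 2 := ⟨_, rfl⟩
  have hkpos : 0 < k := by rw [hk]; linarith
  have hb0pos : 0 < b0 := by
    rw [hb0]
    exact lt_min (by norm_num) (by positivity)
  have hb04 : b0 ≤ 1 / 4 := by
    rw [hb0]
    exact (min_le_left _ _).trans (by norm_num)
  obtain ⟨hcpos, hnum⟩ := ja_numeric n hn k b0 c (by rw [hk]; exact hk1) (by rw [hk]; exact hk2) hb0 hc
  have hcore := ja_core n (by omega) (kap z) hkne h10 (hh z) (ja8_cont z) b0 hb0pos hb04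
    (fun b _ => hh_local hz h b)
    (fun b h1 h2 => ja8_mono hz h hb0pos.le h1 h2)
    (fun b h1 h2 => by
      have := f_ge hz hF h h1 h2
      linarith) c (by rw [hc, hk]) hcpos
  rw [← hk] at hcore
  have hmain := hcore.trans hnum
  rw [J_circle n hz0 (P_GG1_ne hz)]
  obtain ⟨X, hX⟩ : ∃ X : ℂ, X = ∫ b in (-Real.pi)..Real.pi, cexp ((n : ℂ) * hh z b) := ⟨_, rfl⟩
  rw [← hX] at hmain ⊢
  obtain ⟨A, hA⟩ : ∃ A : ℂ, A = (2 * (Real.pi : ℂ) * (n : ℂ) * kap z) ^ (1 / 2 : ℂ) := ⟨_, rfl⟩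
  obtain ⟨B, hB⟩ : ∃ B : ℂ, B = (2 * (Real.pi : ℂ) / ((n : ℂ) * kap z)) ^ (1 / 2 : ℂ) := ⟨_, rfl⟩
  rw [← hB] at hmain
  rw [← hA]
  -- the product of the roots
  have hnC : (n : ℂ) ≠ 0 := by
    have : n ≠ 0 := by omega
    exact_mod_cast this
  have hπC : (Real.pi : ℂ) ≠ 0 := by exact_mod_cast Real.pi_ne_zero
  have harg : (kap z).arg ≠ Real.pi := by
    intro h1
    have h2 := (Complex.arg_eq_pi_iff.1 h1).1
    linarith
  have hAlog : Complex.log (2 * (Real.pi : ℂ) * (n : ℂ) * kap z) =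
      ((Real.log (2 * Real.pi * n) : ℝ) : ℂ) + Complex.log (kap z) := by
    rw [show 2 * (Real.pi : ℂ) * (n : ℂ) * kap z = ((2 * Real.pi * n : ℝ) : ℂ) * kap z by push_cast; ring,
      Complex.log_ofReal_mul (by positivity) hkne]
  have hBlog : Complex.log (2 * (Real.pi : ℂ) / ((n : ℂ) * kap z)) =
      ((Real.log (2 * Real.pi / n) : ℝ) : ℂ) - Complex.log (kap z) := by
    rw [show 2 * (Real.pi : ℂ) / ((n : ℂ) * kap z) = ((2 * Real.pi / n : ℝ) : ℂ) * (kap z)⁻¹ by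
      push_cast; field_simp,
      Complex.log_ofReal_mul (by positivity) (inv_ne_zero hkne), Complex.log_inv _ harg]
    ring
  have hA0 : 2 * (Real.pi : ℂ) * (n : ℂ) * kap z ≠ 0 :=
    mul_ne_zero (mul_ne_zero (mul_ne_zero two_ne_zero hπC) hnC) hkne
  have hB0 : 2 * (Real.pi : ℂ) / ((n : ℂ) * kap z) ≠ 0 :=
    div_ne_zero (mul_ne_zero two_ne_zero hπC) (mul_ne_zero hnC hkne)
  have hAB : A * B = 2 * (Real.pi : ℂ) := by
    rw [hA, hB, Complex.cpow_def_of_ne_zero hA0, Complex.cpow_def_of_ne_zero hB0, ← Complex.exp_add,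
      hAlog, hBlog]
    have h1 : (((Real.log (2 * Real.pi * n) : ℝ) : ℂ) + Complex.log (kap z)) * (1 / 2) +
        (((Real.log (2 * Real.pi / n) : ℝ) : ℂ) - Complex.log (kap z)) * (1 / 2) =
        ((Real.log (2 * Real.pi) : ℝ) : ℂ) := by
      rw [Real.log_mul (by positivity) hn0.ne', Real.log_div (by positivity) hn0.ne']
      push_cast
      ring
    rw [h1, ← Complex.ofReal_exp, Real.exp_log (by positivity)]
    push_cast
    ring
  have hAn : ‖A‖ = Real.sqrt (2 * Real.pi * n * k) := by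
    have h1 : ‖A‖ ^ 2 = 2 * Real.pi * n * k := by
      rw [← norm_pow, hA, ← Complex.cpow_nat_mul]
      have h2 : ((2 : ℕ) : ℂ) * (1 / 2) = 1 := by norm_num
      rw [h2, Complex.cpow_one, norm_mul, norm_mul, norm_mul, ← hk, Complex.norm_real,
        Real.norm_of_nonneg hπ.le]
      simp
    rw [← h1, Real.sqrt_sq (norm_nonneg A)]
  have e1 : ((1 / (2 * Real.pi) : ℝ) • X) * A - 1 = ((1 / (2 * Real.pi) : ℝ) : ℂ) * (A * (X - B)) := by
    rw [Complex.real_smul, mul_sub, hAB]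
    push_cast
    field_simp
  rw [e1, norm_mul, norm_mul, Complex.norm_real, Real.norm_of_nonneg (by positivity), hAn]
  have hs : Real.sqrt (2 * Real.pi * n * k) * Real.sqrt (2 * Real.pi / (n * k)) = 2 * Real.pi := by
    rw [← Real.sqrt_mul (by positivity)]
    have h1 : 2 * Real.pi * n * k * (2 * Real.pi / (n * k)) = (2 * Real.pi) ^ 2 := by
      field_simp
    rw [h1, Real.sqrt_sq (by positivity)]
  calc 1 / (2 * Real.pi) * (Real.sqrt (2 * Real.pi * n * k) * ‖X - B‖) ≤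
      1 / (2 * Real.pi) * (Real.sqrt (2 * Real.pi * n * k) *
        (1 / 3 * Real.sqrt (2 * Real.pi / (n * k)))) :=
        mul_le_mul_of_nonneg_left (mul_le_mul_of_nonneg_left hmain (Real.sqrt_nonneg _)) (by positivity)
    _ = 1 / (2 * Real.pi) * (1 / 3) *
        (Real.sqrt (2 * Real.pi * n * k) * Real.sqrt (2 * Real.pi / (n * k))) := by ring
    _ = 1 / 3 := by
        rw [hs]
        field_simp

end ST3
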