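import Mathlib

/-!
# ST-L1: slopes of the phase

PROOFS. `|V| <= sqrt(1+.393^2) Re V <= 1.0745 Re V`, so `|V'| <= .2794 Re V <= (7/25) Re V`; hence for
`t >= 0`: `Re V(t) <= Re V(0) e^{7t/25}` (Gronwall: `e^{-7t/25} Re V(t)` is nonincreasing), and for
`t <= 0`: `Re V(t) >= Re V(0) e^{7t/25}` (same function).
* `t >= 0`: `Re (V(t) - V(0) e^{t/2}) <= Re V(0) e^{7t/25} (1 - e^{11t/50}) <= 1 - e^{11t/50} <=
  -(1 - e^{-11t/50})` (`Re V(0) >= 1`, `e^x - 1 >= 1 - e^{-x}`).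
* `t <= 0`: put `A = Re V(0) e^{7t/25}`, `Re (V(t) - V(0) e^{t/2}) >= max(1, A) - A e^{11t/50}
  >= 1 - e^{11t/50}` (if `A >= 1` it is `>= A(1 - e^{11t/50})`, else `>= 1 - e^{11t/50}`).
-/

namespace ST3

open Complex

theorem lap_re_eq (V : ℝ → ℂ) (t : ℝ) : ((V t - V 0 * exp ((t : ℂ) / 2)) / 2).re =
    ((V t).re - (V 0).re * Real.exp (t / 2)) / 2 := by
  have h1 : exp ((t : ℂ) / 2) = ((Real.exp (t / 2) : ℝ) : ℂ) := by
    rw [Complex.ofReal_exp]
    congr 1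
    push_cast
    ring
  have h2 : (2 : ℂ) = ((2 : ℝ) : ℂ) := by norm_num
  rw [h1, h2, Complex.div_ofReal_re, Complex.sub_re, Complex.re_mul_ofReal]

theorem lap_norm_le {v : ℂ} (h2 : |v.im| ≤ 393 / 1000 * v.re) (h3 : 1 ≤ v.re) :
    ‖v‖ ≤ 1075 / 1000 * v.re := by
  rw [Complex.norm_eq_sqrt_sq_add_sq]
  apply Real.sqrt_le_iff.mpr
  constructor
  · positivity
  · have h4 : v.im ^ 2 ≤ (393 / 1000 * v.re) ^ 2 := by
      rw [← sq_abs v.im]
      exact pow_le_pow_left₀ (abs_nonneg _) h2 2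
    nlinarith [sq_nonneg v.re]

theorem lap_anti (V V' : ℝ → ℂ) (hV : ∀ t, HasDerivAt V (V' t) t)
    (h1 : ∀ t, ‖V' t‖ ≤ 13 / 50 * ‖V t‖) (h2 : ∀ t, |(V t).im| ≤ 393 / 1000 * (V t).re)
    (h3 : ∀ t, 1 ≤ (V t).re) :
    Antitone (fun t : ℝ => Real.exp (-(7 / 25 * t)) * (V t).re) := by
  have hd : ∀ t : ℝ, HasDerivAt (fun t : ℝ => Real.exp (-(7 / 25 * t)) * (V t).re)
      (Real.exp (-(7 / 25 * t)) * (-(7 / 25)) * (V t).re +
        Real.exp (-(7 / 25 * t)) * (V' t).re) t := by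
    intro t
    have e1 : HasDerivAt (fun t : ℝ => -(7 / 25 * t)) (-(7 / 25 : ℝ)) t := by
      have h := ((hasDerivAt_id' t).const_mul (7 / 25 : ℝ)).neg
      rw [mul_one] at h
      exact h
    have e2 : HasDerivAt (fun t : ℝ => (V t).re) (V' t).re t := by
      exact (Complex.reCLM.hasFDerivAt (x := V t)).comp_hasDerivAt t (hV t)
    exact e1.exp.mul e2
  apply antitone_of_deriv_nonpos
  · intro t
    exact (hd t).differentiableAt
  · intro t
    rw [(hd t).deriv]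
    have h4 : (V' t).re ≤ 7 / 25 * (V t).re := by
      have h5 := lap_norm_le (h2 t) (h3 t)
      have h6 := Complex.re_le_norm (V' t)
      have h7 := h1 t
      have h8 := h3 t
      linarith
    have h5 := Real.exp_pos (-(7 / 25 * t))
    nlinarith

theorem lap_slope_pos (V V' : ℝ → ℂ) (hV : ∀ t, HasDerivAt V (V' t) t)
    (h1 : ∀ t, ‖V' t‖ ≤ 13 / 50 * ‖V t‖) (h2 : ∀ t, |(V t).im| ≤ 393 / 1000 * (V t).re)
    (h3 : ∀ t, 1 ≤ (V t).re) {t : ℝ} (ht : 0 ≤ t) :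
    ((V t - V 0 * exp ((t : ℂ) / 2)) / 2).re ≤ -((1 - Real.exp (-(11 / 50 * t))) / 2) := by
  rw [lap_re_eq]
  have h4 := lap_anti V V' hV h1 h2 h3 ht
  simp only [mul_zero, neg_zero, Real.exp_zero, one_mul] at h4
  have h5 : (V t).re ≤ Real.exp (7 / 25 * t) * (V 0).re := by
    have h6 : (V t).re = Real.exp (7 / 25 * t) * (Real.exp (-(7 / 25 * t)) * (V t).re) := by
      rw [← mul_assoc, ← Real.exp_add]
      simp
    rw [h6]
    exact mul_le_mul_of_nonneg_left h4 (Real.exp_pos _).le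
  have h6 : Real.exp (t / 2) = Real.exp (7 / 25 * t) * Real.exp (11 / 50 * t) := by
    rw [← Real.exp_add]
    congr 1
    ring
  have h7 : 1 ≤ Real.exp (11 / 50 * t) := Real.one_le_exp (by positivity)
  have h8 : 1 ≤ Real.exp (7 / 25 * t) := Real.one_le_exp (by positivity)
  have h9 := h3 0
  have h10 : 1 ≤ Real.exp (7 / 25 * t) * (V 0).re := by nlinarith
  have h11 : Real.exp (11 / 50 * t) * Real.exp (-(11 / 50 * t)) = 1 := by
    rw [← Real.exp_add]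
    simp
  have h12 : 0 < Real.exp (-(11 / 50 * t)) := Real.exp_pos _
  rw [h6]
  set E := Real.exp (11 / 50 * t) with hE
  set E' := Real.exp (-(11 / 50 * t)) with hE'
  have h13 : 2 ≤ E + E' := by nlinarith [sq_nonneg (E - 1), sq_nonneg (E - E')]
  have h14 : Real.exp (7 / 25 * t) * (V 0).re * (E - 1) ≥ 1 * (E - 1) :=
    mul_le_mul_of_nonneg_right h10 (by linarith)
  nlinarith

theorem lap_slope_neg (V V' : ℝ → ℂ) (hV : ∀ t, HasDerivAt V (V' t) t)
    (h1 : ∀ t, ‖V' t‖ ≤ 13 / 50 * ‖V t‖) (h2 : ∀ t, |(V t).im| ≤ 393 / 1000 * (V t).re)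
    (h3 : ∀ t, 1 ≤ (V t).re) {t : ℝ} (ht : t ≤ 0) :
    (1 - Real.exp (11 / 50 * t)) / 2 ≤ ((V t - V 0 * exp ((t : ℂ) / 2)) / 2).re := by
  rw [lap_re_eq]
  have h4 := lap_anti V V' hV h1 h2 h3 ht
  simp only [mul_zero, neg_zero, Real.exp_zero, one_mul] at h4
  have h5 : Real.exp (7 / 25 * t) * (V 0).re ≤ (V t).re := by
    have h6 : (V t).re = Real.exp (7 / 25 * t) * (Real.exp (-(7 / 25 * t)) * (V t).re) := by
      rw [← mul_assoc, ← Real.exp_add]
      simp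
    rw [h6]
    exact mul_le_mul_of_nonneg_left h4 (Real.exp_pos _).le
  have h6 : Real.exp (t / 2) = Real.exp (7 / 25 * t) * Real.exp (11 / 50 * t) := by
    rw [← Real.exp_add]
    congr 1
    ring
  have h7 : Real.exp (11 / 50 * t) ≤ 1 := Real.exp_le_one_iff.mpr (by linarith)
  have h8 := Real.exp_pos (11 / 50 * t)
  have h9 := h3 t
  rw [h6]
  set A := Real.exp (7 / 25 * t) * (V 0).re with hA
  set E := Real.exp (11 / 50 * t) with hE
  have h10 : (V 0).re * (Real.exp (7 / 25 * t) * E) = A * E := by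
    rw [hA]
    ring
  rw [h10]
  by_cases h11 : 1 ≤ A
  · nlinarith
  · push Not at h11
    nlinarith

end ST3
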