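import Pool.Agent.Helper2.ST.L1

/-!
# ST-L2: linear decay of `Re B` away from the saddle

PROOF. `Re B` has derivative `<= -(1 - e^{-11t/50})/2` for `t >= 0` (`lap_slope_pos`), which is
`<= -(1 - e^{-.055})/2 <= -13/500` for `t >= 1/4` and `<= -(1-e^{-.088})/2 <= -1/25` for `t >= 2/5`
(`1 - e^{-x} >= x - x^2/2`). Integrate (mean value inequality / monotonicity of
`Re B(t) + (13/500) t`). The same on the left.
-/

namespace ST3

open Complex

private theorem l2_int (f f' : ℝ → ℝ) (hf : ∀ t, HasDerivAt f (f' t) t) (a c : ℝ)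
    (h : ∀ t, a ≤ t → f' t ≤ -c) (t : ℝ) (ht : a ≤ t) : f t ≤ f a - c * (t - a) := by
  have h1 := (convex_Ici a).image_sub_le_mul_sub_of_deriv_le (f := f) (C := -c)
    (fun x _ => (hf x).continuousAt.continuousWithinAt)
    (fun x _ => (hf x).differentiableAt.differentiableWithinAt) (fun x hx => by
      rw [interior_Ici] at hx
      rw [(hf x).deriv]
      exact h x (le_of_lt hx)) a Set.self_mem_Ici t ht ht
  linarith

private theorem l2_exp1 {t : ℝ} (ht : 1 / 4 ≤ t) :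
    -((1 - Real.exp (-(11 / 50 * t))) / 2) ≤ -(13 / 500) := by
  have h1 : Real.exp (-(11 / 50 * t)) ≤ Real.exp (-(11 / 200)) := Real.exp_le_exp.2 (by linarith)
  have h2 := Real.quadratic_le_exp_of_nonneg (show (0 : ℝ) ≤ 11 / 200 by norm_num)
  have h3 : Real.exp (-(11 / 200)) ≤ 947 / 1000 := by
    rw [Real.exp_neg, inv_le_comm₀ (Real.exp_pos _) (by norm_num)]
    refine le_trans ?_ h2
    norm_num
  linarith

private theorem l2_exp2 {t : ℝ} (ht : 2 / 5 ≤ t) :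
    -((1 - Real.exp (-(11 / 50 * t))) / 2) ≤ -(1 / 25) := by
  have h1 : Real.exp (-(11 / 50 * t)) ≤ Real.exp (-(22 / 250)) := Real.exp_le_exp.2 (by linarith)
  have h2 := Real.quadratic_le_exp_of_nonneg (show (0 : ℝ) ≤ 22 / 250 by norm_num)
  have h3 : Real.exp (-(22 / 250)) ≤ 917 / 1000 := by
    rw [Real.exp_neg, inv_le_comm₀ (Real.exp_pos _) (by norm_num)]
    refine le_trans ?_ h2
    norm_num
  linarith

theorem lap_decay (V V' B : ℝ → ℂ) (hV : ∀ t, HasDerivAt V (V' t) t)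
    (h1 : ∀ t, ‖V' t‖ ≤ 13 / 50 * ‖V t‖) (h2 : ∀ t, |(V t).im| ≤ 393 / 1000 * (V t).re)
    (h3 : ∀ t, 1 ≤ (V t).re)
    (hB : ∀ t, HasDerivAt B ((V t - V 0 * exp ((t : ℂ) / 2)) / 2) t) :
    (∀ t, 1 / 4 ≤ t → (B (t : ℝ)).re ≤ (B (1 / 4)).re - 13 / 500 * (t - 1 / 4)) ∧
    (∀ t, 2 / 5 ≤ t → (B (t : ℝ)).re ≤ (B (2 / 5)).re - 1 / 25 * (t - 2 / 5)) ∧
    (∀ t, 1 / 4 ≤ t → (B (-t : ℝ)).re ≤ (B (-(1 / 4))).re - 13 / 500 * (t - 1 / 4)) ∧
    (∀ t, 2 / 5 ≤ t → (B (-t : ℝ)).re ≤ (B (-(2 / 5))).re - 1 / 25 * (t - 2 / 5)) := by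
  have hp : ∀ t, HasDerivAt (fun s => (B s).re) ((V t - V 0 * exp ((t : ℂ) / 2)) / 2).re t := by
    intro t
    exact Complex.reCLM.hasFDerivAt.comp_hasDerivAt t (hB t)
  have hn : ∀ t, HasDerivAt (fun s : ℝ => (B (-s)).re)
      (-((V (-t) - V 0 * exp (((-t : ℝ) : ℂ) / 2)) / 2).re) t := by
    intro t
    have h4 := (hp (-t)).comp t (hasDerivAt_neg t)
    refine h4.congr_deriv ?_
    ring
  have hp1 : ∀ t, 0 ≤ t →
      ((V t - V 0 * exp ((t : ℂ) / 2)) / 2).re ≤ -((1 - Real.exp (-(11 / 50 * t))) / 2) :=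
    fun t ht => lap_slope_pos V V' hV h1 h2 h3 ht
  have hn1 : ∀ t, 0 ≤ t → -((V (-t) - V 0 * exp (((-t : ℝ) : ℂ) / 2)) / 2).re ≤
      -((1 - Real.exp (-(11 / 50 * t))) / 2) := by
    intro t ht
    have h4 := lap_slope_neg V V' hV h1 h2 h3 (t := -t) (by linarith)
    have h5 : 11 / 50 * -t = -(11 / 50 * t) := by ring
    rw [h5] at h4
    linarith
  refine ⟨?_, ?_, ?_, ?_⟩
  · exact l2_int _ _ hp (1 / 4) (13 / 500)
      (fun t ht => (hp1 t (by linarith)).trans (l2_exp1 ht))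
  · exact l2_int _ _ hp (2 / 5) (1 / 25)
      (fun t ht => (hp1 t (by linarith)).trans (l2_exp2 ht))
  · exact l2_int _ _ hn (1 / 4) (13 / 500)
      (fun t ht => (hn1 t (by linarith)).trans (l2_exp1 ht))
  · exact l2_int _ _ hn (2 / 5) (1 / 25)
      (fun t ht => (hn1 t (by linarith)).trans (l2_exp2 ht))

end ST3
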