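import Mathlib

/-!
# ST-L3: the local expansion of the phase

PROOF. `B(0) = B'(0) = 0`, `B'' = (V' - V_0 e^{t/2}/2)/2`, `B''(0) = -(V_0/2 - V'(0))/2 = -beta/2`,
`B''' = (V'' - V_0 e^{t/2}/4)/2`, of norm `<= (A + W e^{1/8}/4)/2` for `|t| <= 1/4`, and
`e^{1/8}/4 <= 567/2000`. Taylor: `|B(t) + beta t^2/4| <= sup|B'''| |t|^3/6` (apply the mean value
inequality three times, or `taylor_mean_remainder_bound` for `t >= 0` and reflected for `t <= 0`).
-/

namespace ST3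

open Complex

private theorem l3_pos {C r : ℝ} {k : ℕ} (f f' : ℝ → ℂ) (hf : ∀ t, HasDerivAt f (f' t) t)
    (h0 : f 0 = 0) (hb : ∀ t, |t| ≤ r → ‖f' t‖ ≤ C * |t| ^ k) (t : ℝ) (ht0 : 0 ≤ t)
    (htr : t ≤ r) : ‖f t‖ ≤ C / (k + 1) * t ^ (k + 1) := by
  have hk : ((k : ℝ) + 1) ≠ 0 := by positivity
  have h := image_norm_le_of_norm_deriv_right_le_deriv_boundary (a := 0) (b := t) (f := f)
    (f' := f') (B := fun x => C / (k + 1) * x ^ (k + 1)) (B' := fun x => C * x ^ k)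
    (fun x _ => (hf x).continuousAt.continuousWithinAt)
    (fun x _ => (hf x).hasDerivWithinAt) (by simp [h0])
    (fun x => by
      refine ((hasDerivAt_pow (k + 1) x).const_mul (C / ((k : ℝ) + 1))).congr_deriv ?_
      rw [Nat.add_sub_cancel]
      push_cast
      field_simp)
    (fun x hx => by
      have h1 := hb x (by
        rw [abs_of_nonneg hx.1]
        linarith [hx.2])
      rwa [abs_of_nonneg hx.1] at h1)
  exact h ⟨ht0, le_refl t⟩

private theorem l3_step {C r : ℝ} {k : ℕ} {f f' : ℝ → ℂ} (hf : ∀ t, HasDerivAt f (f' t) t)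
    (h0 : f 0 = 0) (hb : ∀ t, |t| ≤ r → ‖f' t‖ ≤ C * |t| ^ k) (t : ℝ) (ht : |t| ≤ r) :
    ‖f t‖ ≤ C / (k + 1) * |t| ^ (k + 1) := by
  rcases le_total 0 t with h | h
  · rw [abs_of_nonneg h] at ht ⊢
    exact l3_pos f f' hf h0 hb t h ht
  · rw [abs_of_nonpos h] at ht ⊢
    have h1 := l3_pos (C := C) (r := r) (k := k) (fun s => f (-s)) (fun s => -f' (-s))
      (fun s => by
        have h2 : HasDerivAt (fun s : ℝ => -s) (-1) s := hasDerivAt_neg s
        refine ((hf (-s)).scomp s h2).congr_deriv ?_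
        simp) (by simp [h0])
      (fun s hs => by
        rw [norm_neg]
        have h2 := hb (-s) (by rwa [abs_neg])
        rwa [abs_neg] at h2) (-t) (by linarith) ht
    simp only [neg_neg] at h1
    exact h1

private theorem l3_exp : Real.exp (1 / 8) ≤ 1134 / 1000 := by
  have h1 : Real.exp (1 / 8) ^ 8 = Real.exp 1 := by
    rw [← Real.exp_nat_mul]
    norm_num
  have h2 := Real.exp_one_lt_d9
  refine le_of_lt (lt_of_pow_lt_pow_left₀ 8 (by norm_num) ?_)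
  rw [h1]
  refine h2.trans ?_
  norm_num

theorem lap_cubic (V V' V'' B : ℝ → ℂ) (hV : ∀ t, HasDerivAt V (V' t) t)
    (hV' : ∀ t, HasDerivAt V' (V'' t) t) (A W : ℝ)
    (hA : ∀ t : ℝ, |t| ≤ 1 / 4 → ‖V'' t‖ ≤ A) (hW : ‖V 0‖ ≤ W)
    (hB : ∀ t, HasDerivAt B ((V t - V 0 * exp ((t : ℂ) / 2)) / 2) t) (hB0 : B 0 = 0)
    {t : ℝ} (ht : |t| ≤ 1 / 4) :
    ‖B t + (V 0 / 2 - V' 0) * (t : ℂ) ^ 2 / 4‖ ≤ (A + W * (567 / 2000)) / 12 * |t| ^ 3 := by
  have hc : ∀ t : ℝ, HasDerivAt (fun t : ℝ => (t : ℂ)) 1 t := fun t => Complex.ofRealCLM.hasDerivAt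
  have hE : ∀ t : ℝ, HasDerivAt (fun t : ℝ => exp ((t : ℂ) / 2)) (exp ((t : ℂ) / 2) / 2) t := by
    intro t
    refine ((hc t).div_const 2).cexp.congr_deriv ?_
    ring
  have hD0 : ∀ t : ℝ, HasDerivAt (fun t : ℝ => B t + (V 0 / 2 - V' 0) * (t : ℂ) ^ 2 / 4)
      ((V t - V 0 * exp ((t : ℂ) / 2)) / 2 + (V 0 / 2 - V' 0) * (t : ℂ) / 2) t := by
    intro t
    have h1 : HasDerivAt (fun t : ℝ => (t : ℂ) ^ 2) (2 * (t : ℂ)) t := by
      refine ((hc t).pow 2).congr_deriv ?_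
      simp
    refine ((hB t).add ((h1.const_mul (V 0 / 2 - V' 0)).div_const 4)).congr_deriv ?_
    ring
  have hD1 : ∀ t : ℝ, HasDerivAt
      (fun t : ℝ => (V t - V 0 * exp ((t : ℂ) / 2)) / 2 + (V 0 / 2 - V' 0) * (t : ℂ) / 2)
      ((V' t - V 0 * (exp ((t : ℂ) / 2) / 2)) / 2 + (V 0 / 2 - V' 0) / 2) t := by
    intro t
    refine ((((hV t).sub ((hE t).const_mul (V 0))).div_const 2).add
      (((hc t).const_mul (V 0 / 2 - V' 0)).div_const 2)).congr_deriv ?_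
    ring
  have hD2 : ∀ t : ℝ, HasDerivAt
      (fun t : ℝ => (V' t - V 0 * (exp ((t : ℂ) / 2) / 2)) / 2 + (V 0 / 2 - V' 0) / 2)
      ((V'' t - V 0 * (exp ((t : ℂ) / 2) / 2 / 2)) / 2) t := by
    intro t
    exact (((hV' t).sub (((hE t).div_const 2).const_mul (V 0))).div_const 2).add_const _
  have hb3 : ∀ t : ℝ, |t| ≤ 1 / 4 →
      ‖(V'' t - V 0 * (exp ((t : ℂ) / 2) / 2 / 2)) / 2‖ ≤
        (A + W * (567 / 2000)) / 2 * |t| ^ 0 := by
    intro t ht
    have h1 : ‖exp ((t : ℂ) / 2)‖ ≤ 1134 / 1000 := by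
      rw [Complex.norm_exp]
      refine le_trans (Real.exp_le_exp.2 ?_) l3_exp
      have h2 : ((t : ℂ) / 2).re = t / 2 := by
        have : ((t : ℂ) / 2) = ((t / 2 : ℝ) : ℂ) := by
          push_cast
          rfl
        rw [this, Complex.ofReal_re]
      rw [h2]
      have := le_abs_self t
      linarith
    have h2 : ‖V 0 * (exp ((t : ℂ) / 2) / 2 / 2)‖ ≤ W * (567 / 2000) := by
      rw [norm_mul, norm_div, norm_div]
      have h3 : ‖(2 : ℂ)‖ = 2 := by simp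
      rw [h3]
      exact mul_le_mul hW (by linarith) (by positivity) ((norm_nonneg _).trans hW)
    rw [norm_div, pow_zero, mul_one]
    have h3 : ‖(2 : ℂ)‖ = 2 := by simp
    rw [h3]
    have h4 := norm_sub_le (V'' t) (V 0 * (exp ((t : ℂ) / 2) / 2 / 2))
    have h5 := hA t ht
    linarith
  have hb2 := l3_step hD2 (by
    simp
    ring) hb3
  have hb1 := l3_step hD1 (by simp) hb2
  have hb0 := l3_step hD0 (by simp [hB0]) hb1 t ht
  refine hb0.trans (le_of_eq ?_)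
  simp only [Nat.cast_zero, Nat.cast_add, Nat.cast_one, zero_add]
  ring

end ST3
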