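import Pool.Agent.Helper2.ST.E1

/-!
# ST-M4: control of the path `t -> Zf (w + t)`

PROOFS.
* `stay`: for `t >= 0` (the other side by reflection): let `t0` be the supremum of the `t <= T` with
  `|f s - f 0| <= R` for all `0 <= s <= t`. On `[0,t0]` the derivative is bounded by `M`, so
  `|f s - f 0| <= M s <= M T < R`; by continuity the inequality `<= R` persists beyond `t0`, so `t0 = T`.
* `path_a`: base `w' = w + t`, `z' = Zf w'`, `|z'| >= 8`, `|Im z'| <= 21/8`, `Re z' >= 7.55`. Apply `stay` to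
  `f s = Zf (w' + s)`, `f' = -z/kap z`, `R = 11/20`, `M = 13/10`, `T = 2/5`: if `|f s - z'| <= 11/20` then
  `Re f s >= 7`, `f s in St 7`, and `X17` gives `|z/kap| <= 13/10`. So `|Zf w - z'| <= 13/25` and
  `Re Zf w >= 7`.
* `path_b`: the same from the base `w`, `R = 1`: `|Zf (w+t) - Zf w| <= 13/25`, so `Re >= 7`.
* `path_im`: suppose `Im z' < -9/4`, `z' = Zf (w+t)`, `|z'| >= 8`, `Re z' >= 15/2`. By `path_a`
  `Zf w in St 7` and `X15`: `Im log VV = arg VV <= arctan(7/50)`; so `Im w = Im zeta + 2 arg VV <=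
  pi/2 + 2 arctan(7/50) < pi/2 + arctan(2/7) = arg(-2+7i)` (`2 arctan(.14) = arctan(.28/.9804)`,
  `.28/.9804 < 2/7`). `GG 1 z' = exp(-(w+t))`, so `(-2+7i) GG 1 z'` has argument
  `arg(-2+7i) - Im w in (0, pi)` and positive imaginary part, against `X16`.
-/

namespace ST3

open Complex

private theorem stay_pos (f f' : ℝ → ℂ) (hf : ∀ t, HasDerivAt f (f' t) t) (R M T : ℝ) (hM : 0 ≤ M)
    (hMT : M * T < R) (h : ∀ t, ‖f t - f 0‖ ≤ R → ‖f' t‖ ≤ M) (t : ℝ) (h0 : 0 ≤ t) (ht : t ≤ T) :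
    ‖f t - f 0‖ ≤ M * t := by
  have hcont : Continuous f := continuous_iff_continuousAt.mpr fun s => (hf s).continuousAt
  have hcl : IsClosed {r : ℝ | ‖f r - f 0‖ ≤ M * r} :=
    isClosed_le ((hcont.sub continuous_const).norm) (continuous_const.mul continuous_id)
  have hsub : Set.Icc 0 T ⊆ {r : ℝ | ‖f r - f 0‖ ≤ M * r} := by
    refine IsClosed.Icc_subset_of_forall_exists_gt (hcl.inter isClosed_Icc) (by simp) ?_
    intro x hx y hy
    have hx1 : ‖f x - f 0‖ ≤ M * x := hx.1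
    have hxR : ‖f x - f 0‖ < R := by
      refine lt_of_le_of_lt (hx1.trans ?_) hMT
      exact mul_le_mul_of_nonneg_left hx.2.2.le hM
    have hev : ∀ᶠ r in nhds x, ‖f r - f 0‖ < R :=
      ((hcont.sub continuous_const).norm.continuousAt).eventually_lt continuousAt_const hxR
    obtain ⟨δ, hδ, hball⟩ := Metric.eventually_nhds_iff.mp hev
    have hxy : x < y := hy
    refine ⟨min y (x + δ / 2), ?_, ⟨lt_min hxy (by linarith), min_le_left _ _⟩⟩
    set r := min y (x + δ / 2) with hr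
    have hxr : x < r := lt_min hxy (by linarith)
    have hrδ : r ≤ x + δ / 2 := min_le_right _ _
    have hb := norm_image_sub_le_of_norm_deriv_le_segment' (f := f) (f' := f') (C := M) (a := x) (b := r)
      (fun s _ => (hf s).hasDerivWithinAt) (fun s hs => h s (hball (by
        rw [Real.dist_eq, abs_of_nonneg (by linarith [hs.1])]
        linarith [hs.2])).le) r ⟨hxr.le, le_rfl⟩
    show ‖f r - f 0‖ ≤ M * r
    have e : f r - f 0 = (f r - f x) + (f x - f 0) := by ring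
    rw [e]
    refine (norm_add_le _ _).trans ?_
    linarith
  exact hsub ⟨h0, ht⟩

theorem stay (f f' : ℝ → ℂ) (hf : ∀ t, HasDerivAt f (f' t) t) (R M T : ℝ) (hM : 0 ≤ M)
    (hMT : M * T < R) (h : ∀ t, ‖f t - f 0‖ ≤ R → ‖f' t‖ ≤ M) (t : ℝ) (ht : |t| ≤ T) :
    ‖f t - f 0‖ ≤ M * |t| := by
  rcases le_total 0 t with h0 | h0
  · rw [abs_of_nonneg h0] at ht ⊢
    exact stay_pos f f' hf R M T hM hMT h t h0 ht
  · rw [abs_of_nonpos h0] at ht ⊢
    have hg : ∀ s, HasDerivAt (fun s => f (-s)) (-(f' (-s))) s := by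
      intro s
      have h1 := (hf (-s)).scomp s (hasDerivAt_neg s)
      rw [neg_smul, one_smul] at h1
      exact h1
    have h2 := stay_pos (fun s => f (-s)) (fun s => -(f' (-s))) hg R M T hM hMT (by
      intro s hs
      rw [norm_neg]
      refine h (-s) ?_
      simpa using hs) (-t) (by linarith) ht
    simpa using h2

/-- the path of `Zf` along the horizontal line -/
private theorem path_der {w : ℂ} (hw : w ∈ S) (s : ℝ) :
    HasDerivAt (fun s : ℝ => Zf (w + (s : ℂ))) (-(Zf (w + s)) / kap (Zf (w + s))) s := by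
  have h1 := Zf_hasDerivAt (add_mem_S hw s)
  have h2 : HasDerivAt (fun s : ℂ => w + s) 1 (s : ℂ) := (hasDerivAt_id (s : ℂ)).const_add w
  have h3 : HasDerivAt (fun s : ℂ => Zf (w + s)) (-(Zf (w + s)) / kap (Zf (w + s)) * 1) (s : ℂ) :=
    HasDerivAt.comp (s : ℂ) h1 h2
  rw [mul_one] at h3
  exact h3.comp_ofReal

private theorem path_main {w : ℂ} (hw : w ∈ S) {R : ℝ} (hR : 13 / 25 < R)
    (hre : 7 + R ≤ (Zf w).re) {t : ℝ} (ht : |t| ≤ 2 / 5) :
    ‖Zf (w + t) - Zf w‖ ≤ 13 / 25 := by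
  have h1 := stay (fun s : ℝ => Zf (w + (s : ℂ))) _ (path_der hw) R (13 / 10) (2 / 5)
    (by norm_num) (by norm_num; linarith) (by
      intro s hs
      simp only [ofReal_zero, add_zero] at hs
      have hP := Zf_mem (add_mem_S hw s)
      have hre' : 7 ≤ (Zf (w + s)).re := by
        have h2 := (abs_le.mp ((abs_re_le_norm _).trans hs)).1
        rw [sub_re] at h2
        linarith
      have h3 := X17 (z := Zf (w + s)) ⟨hre', P_im_lt hP⟩
      have hk : 0 < ‖kap (Zf (w + s))‖ := norm_pos_iff.mpr (kap_ne hP)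
      rw [norm_div, norm_neg, div_le_iff₀ hk]
      exact h3) t ht
  simp only [ofReal_zero, add_zero] at h1
  refine h1.trans ?_
  linarith

private theorem re_of_norm {z : ℂ} (hP : z ∈ P) (h8 : 8 ≤ ‖z‖) : 151 / 20 ≤ z.re := by
  have him := abs_le.mp (P_im_lt hP)
  have h1 : ‖z‖ ^ 2 = z.re ^ 2 + z.im ^ 2 := by
    rw [← normSq_eq_norm_sq, normSq_apply]
    ring
  have h2 : z.im ^ 2 ≤ (21 / 8) ^ 2 := by
    rw [← sq_abs]
    exact pow_le_pow_left₀ (abs_nonneg _) (P_im_lt hP) 2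
  have h3 : 64 ≤ ‖z‖ ^ 2 := by nlinarith
  have h4 : -(3 / 8) < z.re := hP.2.2.1
  by_contra hlt
  push Not at hlt
  nlinarith

theorem path_a {w : ℂ} (hw : w ∈ S) {t : ℝ} (ht : |t| ≤ 2 / 5) (h8 : 8 ≤ ‖Zf (w + t)‖) :
    ‖Zf (w + t) - Zf w‖ ≤ 13 / 25 ∧ 7 ≤ (Zf w).re := by
  have hw' := add_mem_S hw t
  have hre := re_of_norm (Zf_mem hw') h8
  have h1 := path_main hw' (R := 11 / 20) (by norm_num) (by linarith) (t := -t) (by rwa [abs_neg])
  have e : w + (t : ℂ) + ((-t : ℝ) : ℂ) = w := by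
    push_cast
    ring
  rw [e] at h1
  refine ⟨by rwa [norm_sub_rev], ?_⟩
  have h2 := (abs_le.mp ((abs_re_le_norm _).trans h1)).1
  rw [sub_re] at h2
  linarith

theorem path_b {w : ℂ} (hw : w ∈ S) (h8 : 8 ≤ (Zf w).re) {t : ℝ} (ht : |t| ≤ 2 / 5) :
    7 ≤ (Zf (w + t)).re := by
  have h1 := path_main hw (R := 1) (by norm_num) (by linarith) ht
  have h2 := (abs_le.mp ((abs_re_le_norm _).trans h1)).1
  rw [sub_re] at h2
  linarith

private theorem arg_lt {z : ℂ} (hz : z ∈ P) (h7 : 7 ≤ z.re) :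
    2 * (Complex.log (VV z)).im < Real.arctan (2 / 7) := by
  have h1 := VV_re hz
  have h3 := X15 (z := z) ⟨h7, P_im_lt hz⟩
  have hre : 0 < (VV z).re := by linarith
  rw [Complex.log_im]
  have h4 := abs_lt.1 (Complex.abs_arg_lt_pi_div_two_iff.2 (Or.inl hre))
  have h5 : Real.arctan ((VV z).im / (VV z).re) = Complex.arg (VV z) := by
    rw [← Complex.tan_arg, Real.arctan_tan h4.1 h4.2]
  rw [← h5]
  have h6 : Real.arctan ((VV z).im / (VV z).re) ≤ Real.arctan (7 / 50) := by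
    refine Real.arctan_mono ?_
    rw [div_le_iff₀ hre]
    exact (le_abs_self _).trans h3
  have h7 : 2 * Real.arctan (7 / 50) < Real.arctan (2 / 7) := by
    rw [Real.two_mul_arctan (by norm_num) (by norm_num)]
    exact Real.arctan_strictMono (by norm_num)
  linarith

private theorem trig_pos {y : ℝ} (h0 : 0 < y) (h1 : y < Real.pi / 2 + Real.arctan (2 / 7)) :
    0 < 2 * Real.sin y + 7 * Real.cos y := by
  have hpi := Real.pi_pos
  have h2 := Real.arctan_lt_pi_div_two (2 / 7)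
  rcases le_total y (Real.pi / 2) with hy | hy
  · have hs : 0 < Real.sin y := Real.sin_pos_of_pos_of_lt_pi h0 (by linarith)
    have hc : 0 ≤ Real.cos y := Real.cos_nonneg_of_neg_pi_div_two_le_of_le (by linarith) hy
    linarith
  · obtain ⟨x, rfl⟩ : ∃ x, y = x + Real.pi / 2 := ⟨y - Real.pi / 2, by ring⟩
    rw [Real.sin_add_pi_div_two, Real.cos_add_pi_div_two]
    have hx0 : 0 ≤ x := by linarith
    have hx1 : x < Real.arctan (2 / 7) := by linarith
    have hc : 0 < Real.cos x := Real.cos_pos_of_mem_Ioo ⟨by linarith, by linarith⟩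
    have ht : Real.tan x < 2 / 7 := by
      have h3 := Real.tan_lt_tan_of_nonneg_of_lt_pi_div_two hx0 h2 hx1
      rwa [Real.tan_arctan] at h3
    rw [Real.tan_eq_sin_div_cos, div_lt_iff₀ hc] at ht
    linarith

theorem path_im {w ζ : ℂ} (hw : w ∈ S) (hζ : ζ.im ≤ Real.pi / 2)
    (h : w = ζ + 2 * Complex.log (VV (Zf w))) {t : ℝ} (ht : |t| ≤ 2 / 5)
    (h8 : 8 ≤ ‖Zf (w + t)‖) : -(9 / 4) ≤ (Zf (w + t)).im := by
  by_contra hlt
  push Not at hlt
  have hw' := add_mem_S hw t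
  have hP' := Zf_mem hw'
  have hre := re_of_norm hP' h8
  have him := (abs_le.mp (P_im_lt hP')).1
  have h1 := X16 (by linarith) him hlt.le
  obtain ⟨-, h7⟩ := path_a hw ht h8
  have h2 := arg_lt (Zf_mem hw) h7
  have h3 : w.im = ζ.im + 2 * (Complex.log (VV (Zf w))).im := by
    conv_lhs => rw [h]
    simp
  have h4 : 0 < 2 * Real.sin w.im + 7 * Real.cos w.im := trig_pos hw.1 (by linarith)
  rw [GG1_Zf hw'] at h1
  have h5 : ((-2 + 7 * I) * exp (-(w + (t : ℂ)))).im =
      Real.exp (-(w.re + t)) * (2 * Real.sin w.im + 7 * Real.cos w.im) := by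
    rw [mul_im, exp_re, exp_im]
    have e1 : (-(w + (t : ℂ))).re = -(w.re + t) := by simp
    have e2 : (-(w + (t : ℂ))).im = -w.im := by simp
    rw [e1, e2, Real.sin_neg, Real.cos_neg]
    simp
    ring
  rw [h5] at h1
  have h6 := mul_pos (Real.exp_pos (-(w.re + t))) h4
  linarith

end ST3
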