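import Pool.Agent.Helper2.ST.B03

/-!
# ST-NX0: the base estimate for `Re z >= 7`, `|Im z| <= 21/8`

Write `e = e^{-z}`, `|e| = e^{-Re z}`, `D = z - 2 + (z+2) e`. From the closed forms (multiply by
`z^2 e^{-z}`): `z^2 e^{-z} GG 1 z = D`, `kap = (z^2 - 3z + 4 - (z+4) e)/D`,
`VV - 1 = kap + 1 - z = (2 - (z^2+2z+2) e)/D`.
For `Re z = X >= 7`: `|z| <= X + 1/2`, `|z^2+2z+2| |e| <= (7.5^2+15+2) e^{-7} <= 0.067` (the bound
decreases in `X`; `e^{-7} < 0.000912`), `|z+2| |e| <= 0.0087`, `|D| >= |z-2| - 0.0087 >= 4.99`. Hence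
`VV - 1 - 2/(z-2) = -(z^2+2z+2)e/D - 2 (z+2) e/(D (z-2))` has norm
`<= 0.067/4.99 + 2*0.0087/(4.99*5) <= 0.0142`. For `X >= 8`: `(8.5^2+17+2) e^{-8} <= 0.0307`,
`|D| >= 5.99`, total `<= 0.0053`.
(Monotonicity: `(X+2)^2 e^{-X}` is decreasing for `X >= 0`; for instance
`e^{X} >= e^7 (1 + (X-7) + (X-7)^2/2)`.)
-/

namespace ST3

open Complex

/-- the strip -/
def St (X0 : ℝ) : Set ℂ := {z | X0 ≤ z.re ∧ |z.im| ≤ 21 / 8}

/-- `D = z - 2 + (z + 2) e^{-z}` -/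
noncomputable def nxD (z : ℂ) : ℂ := z - 2 + (z + 2) * exp (-z)

theorem nx_GG1 (z : ℂ) : z ^ 2 * GG 1 z = exp z * nxD z := by
  rw [GG1_closed, nxD]
  have h : exp z * exp (-z) = 1 := by rw [← Complex.exp_add]; simp
  linear_combination (-(z + 2)) * h

theorem nx_GG2 (z : ℂ) :
    z ^ 2 * GG 2 z = exp z * (z ^ 2 - 3 * z + 4 - (z + 4) * exp (-z)) := by
  rw [GG2_closed]
  have h : exp z * exp (-z) = 1 := by rw [← Complex.exp_add]; simp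
  linear_combination (z + 4) * h

theorem nx_VV {z : ℂ} (hz : z ≠ 0) (hz2 : z - 2 ≠ 0) (hD : nxD z ≠ 0) :
    VV z - 1 - 2 / (z - 2) = -((z ^ 2 + 2 * z + 2) * exp (-z)) / nxD z -
      2 * ((z + 2) * exp (-z)) / (nxD z * (z - 2)) := by
  have hk : kap z = (z ^ 2 - 3 * z + 4 - (z + 4) * exp (-z)) / nxD z := by
    have h1 : kap z = (z ^ 2 * GG 2 z) / (z ^ 2 * GG 1 z) := by
      unfold kap
      rw [mul_div_mul_left _ _ (pow_ne_zero 2 hz)]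
    rw [h1, nx_GG1, nx_GG2, mul_div_mul_left _ _ (Complex.exp_ne_zero z)]
  unfold VV
  rw [hk]
  have e : nxD z = z - 2 + (z + 2) * exp (-z) := rfl
  have h2 : (z ^ 2 - 3 * z + 4 - (z + 4) * exp (-z)) =
      (z - 1) * nxD z + 2 - (z ^ 2 + 2 * z + 2) * exp (-z) := by
    rw [e]; ring
  rw [h2]
  rw [eq_comm]
  have h3 : ((z - 1) * nxD z + 2 - (z ^ 2 + 2 * z + 2) * exp (-z)) / nxD z + 2 - z - 1 -
      2 / (z - 2) = (2 - (z ^ 2 + 2 * z + 2) * exp (-z)) / nxD z - 2 / (z - 2) := by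
    field_simp
    ring
  rw [h3]
  have h4 : (2 - (z ^ 2 + 2 * z + 2) * exp (-z)) / nxD z - 2 / (z - 2) =
      -((z ^ 2 + 2 * z + 2) * exp (-z)) / nxD z + (2 / nxD z - 2 / (z - 2)) := by
    ring
  rw [h4]
  have h5 : (2 / nxD z - 2 / (z - 2)) = - (2 * ((z + 2) * exp (-z)) / (nxD z * (z - 2))) := by
    rw [div_sub_div _ _ hD hz2, ← neg_div]
    congr 1
    rw [e]; ring
  rw [h5]
  ring

/-- numerical bounds for `Re z ≥ X0` -/
theorem nx_bounds {z : ℂ} {X0 r E : ℝ} (hX : 7 ≤ X0) (hz : X0 ≤ z.re) (him : |z.im| ≤ 21 / 8)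
    (hr0 : 0 ≤ r) (hr : 6890625 / 1000000 ≤ 2 * r * X0 + r ^ 2) (hE : Real.exp (-X0) ≤ E) :
    ‖(z ^ 2 + 2 * z + 2) * exp (-z)‖ ≤ (X0 ^ 2 + 2 * X0 + 8890625 / 1000000 + 2 * r) * E ∧
    ‖(z + 2) * exp (-z)‖ ≤ (X0 + 2 + r) * E ∧ X0 - 2 ≤ ‖z - 2‖ := by
  have hE0 : 0 < E := lt_of_lt_of_le (Real.exp_pos _) hE
  set X : ℝ := z.re with hXdef
  have hX0 : 7 ≤ X := hX.trans hz
  have him2 : z.im ^ 2 ≤ 6890625 / 1000000 := by
    have h1 : z.im ^ 2 = |z.im| ^ 2 := (sq_abs _).symm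
    rw [h1]
    have h2 := abs_nonneg z.im
    nlinarith
  have hn2 : ‖z‖ ^ 2 = X ^ 2 + z.im ^ 2 := by
    rw [Complex.sq_norm, Complex.normSq_apply]; ring
  have hn2' : ‖z‖ ^ 2 ≤ X ^ 2 + 6890625 / 1000000 := by linarith
  have hn : ‖z‖ ≤ X + r := by
    refine le_of_sq_le_sq ?_ (by linarith)
    nlinarith
  obtain ⟨t, ht⟩ : ∃ t : ℝ, X = X0 + t := ⟨X - X0, by ring⟩
  have ht0 : 0 ≤ t := by linarith
  set q : ℝ := 1 + t + t ^ 2 / 2 with hq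
  have hq0 : 0 < q := by positivity
  have hexp : ‖exp (-z)‖ ≤ E / q := by
    rw [Complex.norm_exp, Complex.neg_re, ← hXdef, ht, neg_add, Real.exp_add]
    have h1 : Real.exp (-t) ≤ 1 / q := by
      rw [Real.exp_neg, ← one_div]
      exact one_div_le_one_div_of_le hq0 (Real.quadratic_le_exp_of_nonneg ht0)
    calc Real.exp (-X0) * Real.exp (-t) ≤ E * (1 / q) :=
          mul_le_mul hE h1 (Real.exp_pos _).le hE0.le
      _ = E / q := by ring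
  have hA : ‖z ^ 2 + 2 * z + 2‖ ≤ (X0 ^ 2 + 2 * X0 + 8890625 / 1000000 + 2 * r) * q := by
    have h1 : ‖z ^ 2 + 2 * z + 2‖ ≤ ‖z‖ ^ 2 + 2 * ‖z‖ + 2 := by
      refine (norm_add_le _ _).trans ?_
      have h2 : ‖z ^ 2 + 2 * z‖ ≤ ‖z‖ ^ 2 + 2 * ‖z‖ := by
        refine (norm_add_le _ _).trans ?_
        rw [norm_pow, norm_mul]
        simp
      have h3 : ‖(2 : ℂ)‖ = 2 := by simp
      linarith
    refine h1.trans ?_
    have h2 : ‖z‖ ^ 2 + 2 * ‖z‖ + 2 ≤ X ^ 2 + 2 * X + 8890625 / 1000000 + 2 * r := by linarith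
    refine h2.trans ?_
    rw [ht, hq]
    nlinarith [mul_nonneg ht0 ht0, mul_nonneg hr0 ht0, mul_nonneg hr0 (mul_nonneg ht0 ht0),
      mul_nonneg (sub_nonneg.2 hX) ht0, mul_nonneg (sub_nonneg.2 hX) (mul_nonneg ht0 ht0)]
  have hB : ‖z + 2‖ ≤ (X0 + 2 + r) * q := by
    have h1 : ‖z + 2‖ ≤ ‖z‖ + 2 := by
      refine (norm_add_le _ _).trans ?_
      simp
    refine h1.trans ?_
    have h2 : ‖z‖ + 2 ≤ X0 + 2 + r + t := by linarith
    refine h2.trans ?_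
    rw [hq]
    nlinarith [mul_nonneg ht0 ht0, mul_nonneg hr0 ht0, mul_nonneg hr0 (mul_nonneg ht0 ht0),
      mul_nonneg (sub_nonneg.2 hX) ht0, mul_nonneg (sub_nonneg.2 hX) (mul_nonneg ht0 ht0)]
  refine ⟨?_, ?_, ?_⟩
  · rw [norm_mul]
    calc ‖z ^ 2 + 2 * z + 2‖ * ‖exp (-z)‖
        ≤ ((X0 ^ 2 + 2 * X0 + 8890625 / 1000000 + 2 * r) * q) * (E / q) :=
          mul_le_mul hA hexp (norm_nonneg _) (by positivity)
      _ = _ := by field_simp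
  · rw [norm_mul]
    calc ‖z + 2‖ * ‖exp (-z)‖ ≤ ((X0 + 2 + r) * q) * (E / q) :=
          mul_le_mul hB hexp (norm_nonneg _) (by positivity)
      _ = _ := by field_simp
  · have h1 : |(z - 2).re| ≤ ‖z - 2‖ := Complex.abs_re_le_norm _
    have h2 : (z - 2).re = X - 2 := by simp [hXdef]
    rw [h2] at h1
    have h3 := le_abs_self (X - 2)
    linarith

theorem nx_main {z : ℂ} {a b m c : ℝ} (hm : 0 < m) (hb : b < m) (hb0 : 0 ≤ b)
    (hz : z ≠ 0) (ha : ‖(z ^ 2 + 2 * z + 2) * exp (-z)‖ ≤ a)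
    (hb' : ‖(z + 2) * exp (-z)‖ ≤ b) (hm' : m ≤ ‖z - 2‖)
    (hc : a / (m - b) + 2 * b / ((m - b) * m) ≤ c) :
    nxD z ≠ 0 ∧ ‖VV z - 1 - 2 / (z - 2)‖ ≤ c := by
  have hz2 : z - 2 ≠ 0 := by
    intro h
    rw [h, norm_zero] at hm'
    linarith
  have hDn : m - b ≤ ‖nxD z‖ := by
    have h1 : ‖z - 2‖ ≤ ‖nxD z‖ + ‖(z + 2) * exp (-z)‖ := by
      have h2 : z - 2 = nxD z - (z + 2) * exp (-z) := by unfold nxD; ring
      calc ‖z - 2‖ = ‖nxD z - (z + 2) * exp (-z)‖ := by rw [← h2]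
        _ ≤ _ := norm_sub_le _ _
    linarith
  have hmb : 0 < m - b := by linarith
  have hD : nxD z ≠ 0 := by
    intro h
    rw [h, norm_zero] at hDn
    linarith
  have ha0 : 0 ≤ a := (norm_nonneg _).trans ha
  refine ⟨hD, ?_⟩
  rw [nx_VV hz hz2 hD]
  refine (norm_sub_le _ _).trans (le_trans (add_le_add ?_ ?_) hc)
  · rw [norm_div, norm_neg]
    exact div_le_div₀ ha0 ha hmb hDn
  · rw [norm_div, norm_mul (2 : ℂ)]
    have h2 : ‖(2 : ℂ)‖ = 2 := by simp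
    rw [h2]
    refine div_le_div₀ (by positivity) (mul_le_mul_of_nonneg_left hb' (by norm_num))
      (by positivity) ?_
    rw [norm_mul]
    exact mul_le_mul hDn hm' hm.le (norm_nonneg _)

theorem nx_exp7 : Real.exp (-7) ≤ 912 / 1000000 := by
  have h1 := Real.sum_le_exp_of_nonneg (show (0 : ℝ) ≤ 7 by norm_num) 24
  rw [Real.exp_neg, inv_le_comm₀ (Real.exp_pos _) (by norm_num)]
  refine le_trans ?_ h1
  simp only [Finset.sum_range_succ, Finset.sum_range_zero, Nat.factorial]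
  norm_num

theorem nx_exp8 : Real.exp (-8) ≤ 3355 / 10000000 := by
  have h1 := Real.sum_le_exp_of_nonneg (show (0 : ℝ) ≤ 8 by norm_num) 28
  rw [Real.exp_neg, inv_le_comm₀ (Real.exp_pos _) (by norm_num)]
  refine le_trans ?_ h1
  simp only [Finset.sum_range_succ, Finset.sum_range_zero, Nat.factorial]
  norm_num

theorem nx_seven {z : ℂ} (hz : z ∈ St 7) :
    z ≠ 0 ∧ nxD z ≠ 0 ∧ ‖VV z - 1 - 2 / (z - 2)‖ ≤ 151 / 10000 := by
  have h0 : z ≠ 0 := by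
    rintro rfl
    have := hz.1
    norm_num at this
  obtain ⟨h1, h2, h3⟩ := nx_bounds (r := 1 / 2) (le_refl (7 : ℝ)) hz.1 hz.2 (by norm_num)
    (by norm_num) nx_exp7
  refine ⟨h0, nx_main (m := 7 - 2) (by norm_num) ?_ ?_ h0 h1 h2 h3 ?_⟩ <;> norm_num

theorem GG1_ne_St {z : ℂ} (hz : z ∈ St 7) : GG 1 z ≠ 0 := by
  obtain ⟨_, h2, _⟩ := nx_seven hz
  intro h
  have h1 := nx_GG1 z
  rw [h, mul_zero] at h1
  exact (mul_ne_zero (Complex.exp_ne_zero z) h2) h1.symm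

theorem nu7 {z : ℂ} (hz : z ∈ St 7) : ‖VV z - 1 - 2 / (z - 2)‖ ≤ 151 / 10000 :=
  (nx_seven hz).2.2

theorem nu8 {z : ℂ} (hz : z ∈ St 8) : ‖VV z - 1 - 2 / (z - 2)‖ ≤ 53 / 10000 := by
  have h0 : z ≠ 0 := by
    rintro rfl
    have := hz.1
    norm_num at this
  obtain ⟨h1, h2, h3⟩ := nx_bounds (r := 43 / 100) (by norm_num : (7 : ℝ) ≤ 8) hz.1 hz.2
    (by norm_num) (by norm_num) nx_exp8
  refine (nx_main (m := 8 - 2) (by norm_num) ?_ ?_ h0 h1 h2 h3 ?_).2 <;> norm_num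

theorem kap_nu (z : ℂ) : kap z = z - 1 + (VV z - 1) := by
  unfold VV
  ring

end ST3
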