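import Pool.Agent.Helper2.ST.NX0

/-!
# ST-NX1: facts for `Re z >= 7`, `|Im z| <= 21/8`, part 1

Write `nu = VV z - 1 = 2/(z-2) + eta`, `|eta| <= 0.0151` (`nu7`), `kap = z - 1 + nu` (`kap_nu`),
`|nu| <= 2/5 + 0.0151 <= 0.4151`, `V1 = nu - 2/kap` (`V1_eq`), `tk = 2 + z - kap nu` (ring).
* `X1`: `Re kap >= 6 - 0.4151`; `|kap| <= |z-1| + 0.4151 <= |z|` because
  `|z| - |z-1| = (2X-1)/(|z|+|z-1|)` and `|z| + |z-1| <= 2X - 1 + 2*2.625^2/(2(X-1))...`; with `X >= 7`: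
  `|z| <= X + 0.5`, `|z-1| <= X - 0.4`, so the quotient is `>= (2X-1)/(2X+0.1) >= 0.9`.
* `X1b`: for `X >= 12`: `|kap| >= |z| - 1 - 0.2151 ` with `|nu| <= 2/10 + 0.0151`; `|z| >= 12`:
  `1.1 (|z| - 1.22) >= |z|` iff `|z| >= 13.42`; for `12 <= |z|` use the sharper
  `|z - 1| >= |z| - 1` and `Re nu >= 2 (X-2)/|z-2|^2 - .0151 > 0`: `|kap| >= |z - 1 + Re nu| - |Im nu|`;
  `Re nu >= 2*10/(100+6.9) - 0.0151 >= 0.17` at `X = 12`... in general:
  `|kap| >= Re kap >= X - 1 + Re nu`, `|z| <= X + 2.625^2/(2X)`, and `Re nu >= 0`, so it suffices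
  that `X + 3.45/X <= 1.1 (X - 1 + Re nu)`, true for `X >= 13` with `Re nu >= 0`
  (`.1 X >= 1.1 + 3.45/X` needs `X >= 13.6`), and between `12` and `14` use
  `Re nu >= 2/(X-2+0.69) - .0151 >= .142`: `.1 X + 1.1 * .142 >= 1.1 + 3.45/X` at `X = 12`:
  `1.2 + .156 >= 1.1 + .288` fails by `.03`; so there use the true modulus of `kap`:
  `|kap|^2 >= (X - 1 + Re nu)^2 + (Im z + Im nu)^2`, `|Im nu| <= 2*2.625/(X-2)^2 + .0151 <= .07`, and
  `|z|^2 = X^2 + (Im z)^2 <= 1.21 |kap|^2` follows from `X <= 1.1 (X - 1 + Re nu)` up to the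
  small term `1.21 * 2 * .07 |Im z| <= .45`: `1.21 (11.142)^2 = 150.2 >= 144 + .45`. In general
  `1.21 (X - 1 + Re nu)^2 - X^2 - .45 >= 0` for `X >= 12`, with `Re nu >= .142` for `X <= 14` and
  `Re nu >= 0` for `X >= 14`.
* `X3`: `kap nu - 2 = (z-2) eta + nu + nu^2` (using `(z-2)(2/(z-2)) = 2`), so
  `|V1| = |kap nu - 2|/|kap| <= (|z-2| 0.0151 + |nu| + |nu|^2)/|kap|`, `|kap| >= |z-1| - |nu|`,
  `|z-2| <= 1.1 |kap|`: `|V1| <= 0.0166 + (0.4151 + 0.1723)/5.58 <= 0.122`. Then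
  `|V2| <= |V1| + 2|tk|/|kap|^3`, `|tk| <= |z| + |V1||kap|`, `|z| <= 1.35 |kap|` (at `X=7`:
  `7.5/5.58`), so the second term is `<= 2 (1.35 + .122)/|kap|^2 <= 2.944/31 = 0.095`.
  Sum `0.217`, slightly too big: sharpen `|nu| <= 2/|z-2| + .0151` and `|kap| >= |z - 1| - |nu|`,
  and use the cancellation: true value of `|V2|` is at most `0.11` on the region. One way: the numbers
  at `X = 7, Im z = 0`: `nu = .4 -+ .0151`. A clean way: `Re kap >= X - 1 + Re nu` with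
  `Re nu >= 2(X-2)/|z-2|^2 - .0151 >= 10/(25+6.9) - .0151 >= .29`, so `|kap| >= 6.29`:
  `|V1| <= .0166*... + .5874/6.29 <= .0134 + .0934 = .107` (`|z-2| <= .9 |kap|`), and
  `2|tk|/|kap|^3 <= 2 (1.2 + .107)/6.29^2 <= .067`. Total `.174`.
You may reorganise the proofs completely; only the statements matter (all have been checked
numerically with a good margin). A convenient tactic: write `z = x + i y`, and prove polynomial
inequalities with `nlinarith`.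
-/

namespace ST3

open Complex

/-- `w + 1 + 2/w` with `w = z - 2` -/
private noncomputable def k0 (z : ℂ) : ℂ := z - 1 + 2 / (z - 2)

private theorem nx_sq {a b : ℝ} (hb : 0 ≤ b) (h : a ^ 2 ≤ b ^ 2) : a ≤ b := by
  rcases le_or_gt a 0 with ha | ha
  · exact ha.trans hb
  · exact (pow_le_pow_iff_left₀ ha.le hb two_ne_zero).1 h

private theorem nx_eta {z : ℂ} (hz : z ∈ St 7) : ‖kap z - k0 z‖ ≤ 151 / 10000 := by
  have h := nu7 hz
  have e : kap z - k0 z = VV z - 1 - 2 / (z - 2) := by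
    rw [kap_nu z]
    unfold k0
    ring
  rw [e]
  exact h

private theorem nx_k0re (z : ℂ) :
    (k0 z).re = (z.re - 2) + 1 + 2 * ((z.re - 2) / ((z.re - 2) ^ 2 + z.im ^ 2)) := by
  unfold k0
  rw [div_eq_mul_inv]
  simp only [Complex.add_re, Complex.sub_re, Complex.mul_re, Complex.inv_re, Complex.one_re,
    Complex.normSq_apply, Complex.sub_im, Complex.re_ofNat, Complex.im_ofNat, sub_zero, zero_mul]
  have e : (z.re - 2) * (z.re - 2) + z.im * z.im = (z.re - 2) ^ 2 + z.im ^ 2 := by ring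
  rw [e]
  ring

private theorem nx_k0im (z : ℂ) :
    (k0 z).im = z.im - 2 * (z.im / ((z.re - 2) ^ 2 + z.im ^ 2)) := by
  unfold k0
  rw [div_eq_mul_inv]
  simp only [Complex.add_im, Complex.sub_im, Complex.mul_im, Complex.inv_im, Complex.one_im,
    Complex.normSq_apply, Complex.sub_re, Complex.re_ofNat, Complex.im_ofNat, sub_zero, zero_mul,
    add_zero]
  have e : (z.re - 2) * (z.re - 2) + z.im * z.im = (z.re - 2) ^ 2 + z.im ^ 2 := by ring
  rw [e]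
  ring

private theorem nx_k0sq {z : ℂ} (hz : 5 ≤ z.re - 2) :
    ‖k0 z‖ ^ 2 = (z.re - 2 + 1) ^ 2 + z.im ^ 2 + 4 -
      8 * (z.im ^ 2 / ((z.re - 2) ^ 2 + z.im ^ 2)) +
      4 * ((z.re - 2 + 1) / ((z.re - 2) ^ 2 + z.im ^ 2)) := by
  rw [Complex.sq_norm, Complex.normSq_apply, nx_k0re, nx_k0im]
  set u : ℝ := z.re - 2
  set y : ℝ := z.im
  have hM : u ^ 2 + y ^ 2 ≠ 0 := by positivity
  field_simp
  ring

private theorem nx_zsq (z : ℂ) : ‖z‖ ^ 2 = (z.re - 2 + 2) ^ 2 + z.im ^ 2 := by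
  rw [Complex.sq_norm, Complex.normSq_apply]
  ring

private theorem nx_wsq (z : ℂ) : ‖z - 2‖ ^ 2 = (z.re - 2) ^ 2 + z.im ^ 2 := by
  rw [Complex.sq_norm, Complex.normSq_apply]
  simp only [Complex.sub_re, Complex.sub_im, Complex.re_ofNat, Complex.im_ofNat, sub_zero]
  ring

private theorem nx_im {z : ℂ} {a : ℝ} (hz : z ∈ St a) : z.im ^ 2 ≤ 441 / 64 := by
  have h := hz.2
  have h1 : |z.im| ^ 2 ≤ (21 / 8 : ℝ) ^ 2 := pow_le_pow_left₀ (abs_nonneg _) h 2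
  rw [sq_abs] at h1
  linarith

private theorem nx1_bounds {z : ℂ} (hz : z ∈ St 7) :
    (z.re - 2 + 1) ^ 2 + z.im ^ 2 + 2264 / 1000 ≤ ‖k0 z‖ ^ 2 ∧
    ‖k0 z‖ ^ 2 ≤ (z.re - 2 + 1) ^ 2 + z.im ^ 2 + 496 / 100 := by
  have hu : 5 ≤ z.re - 2 := by linarith [hz.1]
  have hy := nx_im hz
  rw [nx_k0sq hu]
  set u : ℝ := z.re - 2
  set y : ℝ := z.im
  have hM : 0 < u ^ 2 + y ^ 2 := by positivity
  have h1 : y ^ 2 / (u ^ 2 + y ^ 2) ≤ 217 / 1000 := by
    rw [div_le_iff₀ hM]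
    nlinarith
  have h2 : 0 ≤ (u + 1) / (u ^ 2 + y ^ 2) := by positivity
  have h3 : (u + 1) / (u ^ 2 + y ^ 2) ≤ 24 / 100 := by
    rw [div_le_iff₀ hM]
    nlinarith [sq_nonneg y]
  have h4 : 0 ≤ y ^ 2 / (u ^ 2 + y ^ 2) := by positivity
  constructor <;> linarith

private theorem nx_kap_le {z : ℂ} (hz : z ∈ St 7) : ‖kap z‖ ≤ ‖k0 z‖ + 151 / 10000 := by
  have h := nx_eta hz
  have e : kap z = k0 z + (kap z - k0 z) := by ring
  calc ‖kap z‖ = ‖k0 z + (kap z - k0 z)‖ := by rw [← e]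
    _ ≤ ‖k0 z‖ + ‖kap z - k0 z‖ := norm_add_le _ _
    _ ≤ _ := by linarith

private theorem nx_kap_ge {z : ℂ} (hz : z ∈ St 7) : ‖k0 z‖ - 151 / 10000 ≤ ‖kap z‖ := by
  have h := nx_eta hz
  have e : k0 z = kap z - (kap z - k0 z) := by ring
  have h2 : ‖k0 z‖ ≤ ‖kap z‖ + ‖kap z - k0 z‖ := by
    calc ‖k0 z‖ = ‖kap z - (kap z - k0 z)‖ := by rw [← e]
      _ ≤ _ := norm_sub_le _ _
  linarith

theorem X1 {z : ℂ} (hz : z ∈ St 7) : 5 ≤ (kap z).re ∧ ‖kap z‖ ≤ ‖z‖ := by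
  have hu : 5 ≤ z.re - 2 := by linarith [hz.1]
  have hy := nx_im hz
  constructor
  · have h := nx_eta hz
    have h1 : |(kap z - k0 z).re| ≤ 151 / 10000 := (Complex.abs_re_le_norm _).trans h
    rw [Complex.sub_re, nx_k0re] at h1
    have h2 := (abs_le.1 h1).1
    have h3 : 0 ≤ (z.re - 2) / ((z.re - 2) ^ 2 + z.im ^ 2) := by
      have : 0 < z.re - 2 := by linarith
      positivity
    linarith
  · refine (nx_kap_le hz).trans ?_
    apply nx_sq (norm_nonneg _)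
    rw [nx_zsq]
    obtain ⟨-, hb⟩ := nx1_bounds hz
    set u : ℝ := z.re - 2
    set y : ℝ := z.im
    set K : ℝ := ‖k0 z‖
    have hK : K ≤ u + 4 := by
      apply nx_sq (by linarith)
      nlinarith
    have hK0 : 0 ≤ K := norm_nonneg _
    nlinarith

theorem X1b {z : ℂ} (hz : z ∈ St 12) : ‖z‖ ≤ 11 / 10 * ‖kap z‖ := by
  have hz7 : z ∈ St 7 := ⟨by linarith [hz.1], hz.2⟩
  have hu : 10 ≤ z.re - 2 := by linarith [hz.1]
  have hy := nx_im hz
  have hk := nx_kap_ge hz7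
  have hsq := nx_k0sq (show 5 ≤ z.re - 2 by linarith)
  have hzsq := nx_zsq z
  have key : ‖z‖ + 1661 / 100000 ≤ 11 / 10 * ‖k0 z‖ := by
    apply nx_sq (by positivity)
    have hz0 : 0 ≤ ‖z‖ := norm_nonneg _
    set u : ℝ := z.re - 2
    set y : ℝ := z.im
    set K : ℝ := ‖k0 z‖
    set Z : ℝ := ‖z‖
    have hM : 0 < u ^ 2 + y ^ 2 := by positivity
    have h1 : y ^ 2 / (u ^ 2 + y ^ 2) ≤ 7 / 100 := by
      rw [div_le_iff₀ hM]
      nlinarith
    have h2 : 0 ≤ (u + 1) / (u ^ 2 + y ^ 2) := by positivity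
    have hK2 : (u + 1) ^ 2 + y ^ 2 + 344 / 100 ≤ K ^ 2 := by linarith
    have hZ : Z ≤ u + 5 := by
      apply nx_sq (by linarith)
      nlinarith
    nlinarith
  linarith

theorem X3 {z : ℂ} (hz : z ∈ St 7) : ‖V2 z‖ ≤ 1 / 5 := by
  have hu : 5 ≤ z.re - 2 := by linarith [hz.1]
  have hy := nx_im hz
  have hk := nx_kap_ge hz
  obtain ⟨hb, -⟩ := nx1_bounds hz
  have hzsq := nx_zsq z
  have hwsq := nx_wsq z
  have hK6 : 6169 / 1000 ≤ ‖kap z‖ := by
    have : 61855 / 10000 ≤ ‖k0 z‖ := by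
      apply nx_sq (norm_nonneg _)
      nlinarith [sq_nonneg z.im]
    linarith
  have hwk : ‖z - 2‖ ≤ ‖kap z‖ := by
    have : ‖z - 2‖ + 151 / 10000 ≤ ‖k0 z‖ := by
      apply nx_sq (norm_nonneg _)
      have hN0 : 0 ≤ ‖z - 2‖ := norm_nonneg _
      set u : ℝ := z.re - 2
      set y : ℝ := z.im
      set N : ℝ := ‖z - 2‖
      have hN : N ≤ u + 3 := by
        apply nx_sq (by linarith)
        nlinarith
      nlinarith
    linarith
  have hzk : ‖z‖ ≤ 12 / 10 * ‖kap z‖ := by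
    have : ‖z‖ + 1812 / 100000 ≤ 12 / 10 * ‖k0 z‖ := by
      apply nx_sq (by positivity)
      have hz0 : 0 ≤ ‖z‖ := norm_nonneg _
      set u : ℝ := z.re - 2
      set y : ℝ := z.im
      set K : ℝ := ‖k0 z‖
      set Z : ℝ := ‖z‖
      have hZ : Z ≤ u + 5 := by
        apply nx_sq (by linarith)
        nlinarith
      nlinarith
    linarith
  -- nu
  have hw5 : 5 ≤ ‖z - 2‖ := by
    apply nx_sq (norm_nonneg _)
    nlinarith [sq_nonneg z.im]
  have hw0 : z - 2 ≠ 0 := by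
    intro h0
    rw [h0, norm_zero] at hw5
    linarith
  have hkap0 : kap z ≠ 0 := by
    intro h0
    rw [h0, norm_zero] at hK6
    linarith
  obtain ⟨ν, hν⟩ : ∃ ν, ν = VV z - 1 := ⟨_, rfl⟩
  obtain ⟨η, hη⟩ : ∃ η, η = VV z - 1 - 2 / (z - 2) := ⟨_, rfl⟩
  have hηn : ‖η‖ ≤ 151 / 10000 := by
    rw [hη]
    exact nu7 hz
  have hνη : ν = 2 / (z - 2) + η := by
    rw [hν, hη]
    ring
  have hνn : ‖ν‖ ≤ 4151 / 10000 := by
    rw [hνη]
    refine (norm_add_le _ _).trans ?_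
    have h1 : ‖(2 : ℂ) / (z - 2)‖ ≤ 2 / 5 := by
      rw [norm_div, Complex.norm_ofNat]
      exact div_le_div_of_nonneg_left (by norm_num) (by norm_num) hw5
    linarith
  have hkν : kap z = z - 1 + ν := by
    rw [hν]
    exact kap_nu z
  have hV1 : kap z * V1 z = (z - 2) * η + ν + ν ^ 2 := by
    unfold V1 tk
    rw [mul_div_assoc', mul_div_cancel_left₀ _ hkap0]
    have e1 : (z - 2) * η = (z - 2) * ν - 2 := by
      rw [hνη]
      field_simp
      ring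
    rw [e1, hkν]
    ring
  have htk : tk z = z - kap z * V1 z := by
    unfold V1
    rw [mul_div_assoc', mul_div_cancel_left₀ _ hkap0]
    ring
  have hV1n : ‖V1 z‖ ≤ 1104 / 10000 := by
    have h1 : ‖kap z‖ * ‖V1 z‖ ≤ ‖z - 2‖ * (151 / 10000) + 4151 / 10000 + (4151 / 10000) ^ 2 := by
      rw [← norm_mul, hV1]
      refine (norm_add_le _ _).trans (add_le_add ((norm_add_le _ _).trans (add_le_add ?_ hνn)) ?_)
      · rw [norm_mul]
        exact mul_le_mul_of_nonneg_left hηn (norm_nonneg _)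
      · rw [norm_pow]
        exact pow_le_pow_left₀ (norm_nonneg _) hνn 2
    have h2 : ‖kap z‖ * ‖V1 z‖ ≤ ‖kap z‖ * (1104 / 10000) := by
      nlinarith
    exact le_of_mul_le_mul_left h2 (by linarith)
  unfold V2
  refine (norm_sub_le _ _).trans ?_
  have h3 : ‖2 * tk z / kap z ^ 3‖ ≤ 69 / 1000 := by
    rw [norm_div, norm_mul, norm_pow, Complex.norm_ofNat]
    have hkpos : 0 < ‖kap z‖ := by linarith
    rw [div_le_iff₀ (by positivity)]
    have h4 : ‖tk z‖ ≤ ‖kap z‖ * (13104 / 10000) := by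
      rw [htk]
      refine (norm_sub_le _ _).trans ?_
      rw [norm_mul]
      nlinarith
    have h5 : (6169 / 1000 : ℝ) ^ 2 ≤ ‖kap z‖ ^ 2 := pow_le_pow_left₀ (by norm_num) hK6 2
    have h6 : ‖kap z‖ ^ 3 = ‖kap z‖ * ‖kap z‖ ^ 2 := by ring
    rw [h6]
    nlinarith
  linarith

end ST3
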