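import Pool.Agent.Helper2.ST.B01

/-!
# ST-R01: `d n k` as a coefficient; upper and lower bounds for `S3 n k`

`EE = e^t - 1 - t - t^2/2`, `eps = 1 + t + t^2/2`.
PROOFS.
* `d_eq_coeff`: let `f_k = EE^k/k!`; `EE' = EE + t^2/2`, so `f_{k+1}' = f_k EE' = (k+1) f_{k+1} +
  (t^2/2) f_k`. Comparing coefficients of `t^(M-1)`, with `c(M,k)` the coefficient of `t^M` in `f_k`:
  `M c(M,k+1) = (k+1) c(M-1,k+1) + c(M-3,k)/2`; with `M = n+1+2(k+1)` this is the recursion `d_rec`.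
  Start: `c(2k,k) = 0` for `k >= 1` (the order of `EE^k` is `3k`), `c(M,0) = 0` for `M >= 1`.
  Induction on `n`.
* `S3_le`: `(n+2k)! [t^(n+2k)] EE^k <= (n+2k)! [t^(n+2k)] e^(kt) = k^(n+2k)` because `EE <= e^t`
  coefficientwise and both have nonnegative coefficients (products of coefficientwise inequalities
  between series with nonnegative coefficients). `S3 n k = (n+2k)! d n k`.
* `S3_ge`: coefficientwise `EE^k >= e^(kt) - k eps e^((k-1)t)`; by induction on `k`: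
  if `(A-B)^k >= A^k - k B A^(k-1)` with `A - B >= 0`, `B >= 0`, `A >= 0` (coefficientwise), multiply
  by `A - B >= 0`: `(A-B)^(k+1) >= A^(k+1) - (k+1) B A^k + k B^2 A^(k-1)`. The coefficient of `t^N/N!`
  in `eps e^(mt)` is `m^N + N m^(N-1) + N(N-1)/2 m^(N-2)` (here `N = n+2k >= 2`).
-/

namespace ST3

/-- the power series `e^t - 1 - t - t^2/2` -/
noncomputable def EE : PowerSeries ℝ :=
  PowerSeries.exp ℝ - (1 + PowerSeries.X + PowerSeries.C (1 / 2 : ℝ) * PowerSeries.X ^ 2)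

/-- the coefficients of the exponential series -/
theorem r01_coeff_exp (m : ℕ) :
    PowerSeries.coeff m (PowerSeries.exp ℝ) = 1 / (m.factorial : ℝ) := by
  rw [PowerSeries.coeff_exp]
  simp

theorem r01_coeff_exp_pow (k m : ℕ) :
    PowerSeries.coeff m (PowerSeries.exp ℝ ^ k) = (k : ℝ) ^ m / (m.factorial : ℝ) := by
  rw [PowerSeries.exp_pow_eq_rescale_exp, PowerSeries.coeff_rescale, r01_coeff_exp, mul_one_div]

/-- `1 + t + t^2/2` -/
noncomputable def r01eps : PowerSeries ℝ :=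
  1 + PowerSeries.X + PowerSeries.C (1 / 2 : ℝ) * PowerSeries.X ^ 2

theorem r01_EE : EE = PowerSeries.exp ℝ - r01eps := rfl

theorem r01_coeff_eps (m : ℕ) : PowerSeries.coeff m r01eps =
    (if m = 0 then 1 else 0) + (if m = 1 then 1 else 0) + (if m = 2 then 1 / 2 else 0) := by
  unfold r01eps
  rw [map_add, map_add, PowerSeries.coeff_one, PowerSeries.coeff_X, PowerSeries.coeff_C_mul_X_pow]

theorem r01_coeff_EE (m : ℕ) :
    PowerSeries.coeff m EE = if m < 3 then 0 else 1 / (m.factorial : ℝ) := by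
  rw [r01_EE, map_sub, r01_coeff_exp, r01_coeff_eps]
  by_cases h : m < 3
  · rw [if_pos h]
    interval_cases m <;> norm_num [Nat.factorial]
  · rw [if_neg h, if_neg (by omega), if_neg (by omega), if_neg (by omega)]
    ring

theorem r01_deriv : (PowerSeries.derivative ℝ) EE =
    EE + PowerSeries.C (1 / 2 : ℝ) * PowerSeries.X ^ 2 := by
  ext m
  rw [PowerSeries.coeff_derivative, map_add, PowerSeries.coeff_C_mul_X_pow, r01_coeff_EE,
    r01_coeff_EE]
  by_cases h : m < 2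
  · rw [if_pos (by omega), if_pos (by omega), if_neg (by omega)]
    ring
  · by_cases h2 : m = 2
    · subst h2
      norm_num [Nat.factorial]
    · rw [if_neg (by omega), if_neg (by omega), if_neg h2, Nat.factorial_succ]
      have : (m.factorial : ℝ) ≠ 0 := by positivity
      push_cast
      field_simp
      ring

theorem r01_rec (M k : ℕ) :
    ((M : ℝ) + 3) * PowerSeries.coeff (M + 3) (EE ^ (k + 1)) =
      ((k : ℝ) + 1) * (PowerSeries.coeff (M + 2) (EE ^ (k + 1)) +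
        1 / 2 * PowerSeries.coeff M (EE ^ k)) := by
  have h1 : (PowerSeries.derivative ℝ) (EE ^ (k + 1)) =
      PowerSeries.C ((k : ℝ) + 1) * (EE ^ (k + 1) +
        PowerSeries.C (1 / 2 : ℝ) * (PowerSeries.X ^ 2 * EE ^ k)) := by
    rw [Derivation.leibniz_pow, r01_deriv]
    simp only [smul_eq_mul, nsmul_eq_mul, Nat.add_sub_cancel]
    rw [map_add, map_one, map_natCast]
    push_cast
    ring
  have h2 := congrArg (PowerSeries.coeff (M + 2)) h1
  rw [PowerSeries.coeff_derivative, PowerSeries.coeff_C_mul, map_add, PowerSeries.coeff_C_mul,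
    PowerSeries.coeff_X_pow_mul] at h2
  rw [← h2]
  push_cast
  ring

theorem r01_coeff_zero {m k : ℕ} (h : m < 3 * k) : PowerSeries.coeff m (EE ^ k) = 0 := by
  have h1 : (PowerSeries.X : PowerSeries ℝ) ^ 3 ∣ EE := by
    rw [PowerSeries.X_pow_dvd_iff]
    intro m hm
    rw [r01_coeff_EE, if_pos hm]
  have h2 : (PowerSeries.X : PowerSeries ℝ) ^ (3 * k) ∣ EE ^ k := by
    rw [pow_mul]
    exact pow_dvd_pow_of_dvd h1 k
  exact PowerSeries.X_pow_dvd_iff.1 h2 m h

theorem d_eq_coeff (n k : ℕ) :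
    d n k = PowerSeries.coeff (n + 2 * k) (EE ^ k) / (k.factorial : ℝ) := by
  induction n generalizing k with
  | zero =>
    rcases Nat.eq_zero_or_pos k with hk | hk
    · subst hk
      simp [d, S3]
    · rw [d_eq_zero hk, r01_coeff_zero (by omega)]
      simp
  | succ n ih =>
    rcases Nat.eq_zero_or_pos k with hk | hk
    · subst hk
      have h1 : d (n + 1) 0 = 0 := by
        unfold d
        rw [S3_zero_right (by omega)]
        simp
      rw [h1, pow_zero, PowerSeries.coeff_one, if_neg (by omega)]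
      simp
    · obtain ⟨k, rfl⟩ : ∃ j, k = j + 1 := ⟨k - 1, by omega⟩
      have h1 := d_rec n k
      have h2 := r01_rec (n + 2 * k) k
      rw [ih (k + 1), ih k] at h1
      have e1 : n + 1 + 2 * (k + 1) = n + 2 * k + 3 := by ring
      have e2 : n + 2 * (k + 1) = n + 2 * k + 2 := by ring
      rw [e2] at h1
      rw [e1]
      have hf : ((k + 1).factorial : ℝ) = ((k : ℝ) + 1) * (k.factorial : ℝ) := by
        rw [Nat.factorial_succ]; push_cast; ring
      have hk0 : (k.factorial : ℝ) ≠ 0 := by positivity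
      have hk1 : ((k : ℝ) + 1) ≠ 0 := by positivity
      have hne : ((n : ℝ) + 1 + 2 * ((k : ℝ) + 1)) ≠ 0 := by positivity
      apply mul_left_cancel₀ hne
      rw [h1, hf]
      push_cast at h2
      have h3 : ((n : ℝ) + 1 + 2 * ((k : ℝ) + 1)) *
          (PowerSeries.coeff (n + 2 * k + 3) (EE ^ (k + 1)) /
            (((k : ℝ) + 1) * (k.factorial : ℝ))) =
          (((n : ℝ) + 2 * (k : ℝ) + 3) * PowerSeries.coeff (n + 2 * k + 3) (EE ^ (k + 1))) /
            (((k : ℝ) + 1) * (k.factorial : ℝ)) := by ring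
      rw [h3, h2]
      field_simp

/-- coefficientwise nonnegative series -/
def r01Pos (f : PowerSeries ℝ) : Prop := ∀ m, 0 ≤ PowerSeries.coeff m f

theorem r01Pos.mul {f g : PowerSeries ℝ} (hf : r01Pos f) (hg : r01Pos g) : r01Pos (f * g) := by
  intro m
  rw [PowerSeries.coeff_mul]
  exact Finset.sum_nonneg fun p _ => mul_nonneg (hf _) (hg _)

theorem r01Pos.add {f g : PowerSeries ℝ} (hf : r01Pos f) (hg : r01Pos g) : r01Pos (f + g) := by
  intro m
  rw [map_add]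
  exact add_nonneg (hf m) (hg m)

theorem r01Pos.one : r01Pos 1 := by
  intro m
  rw [PowerSeries.coeff_one]
  split_ifs <;> norm_num

theorem r01Pos.pow {f : PowerSeries ℝ} (hf : r01Pos f) (k : ℕ) : r01Pos (f ^ k) := by
  induction k with
  | zero => rw [pow_zero]; exact r01Pos.one
  | succ k ih => rw [pow_succ]; exact ih.mul hf

theorem r01Pos.EE : r01Pos EE := by
  intro m
  rw [r01_coeff_EE]
  split_ifs
  · exact le_refl _
  · positivity

theorem r01Pos.exp : r01Pos (PowerSeries.exp ℝ) := by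
  intro m
  rw [r01_coeff_exp]
  positivity

theorem r01Pos.eps : r01Pos r01eps := by
  intro m
  rw [r01_coeff_eps]
  split_ifs <;> norm_num

theorem r01Pos.natC (n : ℕ) : r01Pos (n : PowerSeries ℝ) := by
  intro m
  induction n with
  | zero => simp
  | succ n ih =>
    push_cast
    rw [map_add]
    exact add_nonneg ih (r01Pos.one m)

/-- `EE^k <= exp^k` -/
theorem r01_le (k : ℕ) : r01Pos (PowerSeries.exp ℝ ^ k - EE ^ k) := by
  induction k with
  | zero =>
    intro m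
    simp
  | succ k ih =>
    have e : PowerSeries.exp ℝ ^ (k + 1) - EE ^ (k + 1) =
        (PowerSeries.exp ℝ ^ k - EE ^ k) * PowerSeries.exp ℝ + EE ^ k * r01eps := by
      have h : PowerSeries.exp ℝ = EE + r01eps := by rw [r01_EE]; ring
      rw [pow_succ, pow_succ]
      have h2 : EE ^ k * PowerSeries.exp ℝ = EE ^ k * EE + EE ^ k * r01eps := by
        rw [h]; ring
      rw [sub_mul, h2]
      ring
    rw [e]
    exact (ih.mul r01Pos.exp).add ((r01Pos.EE.pow k).mul r01Pos.eps)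

/-- `EE^(k+1) >= exp^(k+1) - (k+1) eps exp^k` -/
theorem r01_ge (k : ℕ) : r01Pos (EE ^ (k + 1) - (PowerSeries.exp ℝ ^ (k + 1) -
    ((k + 1 : ℕ) : PowerSeries ℝ) * (r01eps * PowerSeries.exp ℝ ^ k))) := by
  induction k with
  | zero =>
    intro m
    have e : EE ^ (0 + 1) - (PowerSeries.exp ℝ ^ (0 + 1) -
        ((0 + 1 : ℕ) : PowerSeries ℝ) * (r01eps * PowerSeries.exp ℝ ^ 0)) = 0 := by
      rw [r01_EE]
      push_cast
      ring
    rw [e]
    simp
  | succ k ih =>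
    have e : EE ^ (k + 1 + 1) - (PowerSeries.exp ℝ ^ (k + 1 + 1) -
        ((k + 1 + 1 : ℕ) : PowerSeries ℝ) * (r01eps * PowerSeries.exp ℝ ^ (k + 1))) =
        (EE ^ (k + 1) - (PowerSeries.exp ℝ ^ (k + 1) -
          ((k + 1 : ℕ) : PowerSeries ℝ) * (r01eps * PowerSeries.exp ℝ ^ k))) * EE +
        ((k + 1 : ℕ) : PowerSeries ℝ) * (r01eps * (r01eps * PowerSeries.exp ℝ ^ k)) := by
      have h : EE = PowerSeries.exp ℝ - r01eps := r01_EE
      generalize PowerSeries.exp ℝ = A at h ⊢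
      rw [pow_succ EE (k + 1)]
      generalize hE : EE ^ (k + 1) = Y
      rw [h]
      push_cast
      ring
    rw [e]
    exact (ih.mul r01Pos.EE).add
      ((r01Pos.natC _).mul (r01Pos.eps.mul (r01Pos.eps.mul (r01Pos.exp.pow k))))

theorem r01_S3 (n k : ℕ) : (S3 n k : ℝ) =
    ((n + 2 * k).factorial : ℝ) * PowerSeries.coeff (n + 2 * k) (EE ^ k) / (k.factorial : ℝ) := by
  have h1 := d_eq_coeff n k
  unfold d at h1
  have h2 : ((n + 2 * k).factorial : ℝ) ≠ 0 := by positivity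
  rw [div_eq_iff h2] at h1
  rw [h1]
  ring

theorem S3_le (n k : ℕ) : (S3 n k : ℝ) ≤ (k : ℝ) ^ (n + 2 * k) / (k.factorial : ℝ) := by
  rw [r01_S3]
  have h1 := r01_le k (n + 2 * k)
  rw [map_sub, r01_coeff_exp_pow] at h1
  have h2 : ((n + 2 * k).factorial : ℝ) * PowerSeries.coeff (n + 2 * k) (EE ^ k) ≤
      (k : ℝ) ^ (n + 2 * k) := by
    have h3 : (0 : ℝ) < ((n + 2 * k).factorial : ℝ) := by positivity
    have h4 : PowerSeries.coeff (n + 2 * k) (EE ^ k) ≤
        (k : ℝ) ^ (n + 2 * k) / ((n + 2 * k).factorial : ℝ) := by linarith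
    rw [le_div_iff₀ h3] at h4
    linarith
  gcongr

/-- the relative error; here `N = n + 2k` -/
noncomputable def eta (n k : ℕ) : ℝ :=
  (k : ℝ) * (((k : ℝ) - 1) ^ (n + 2 * k) +
    ((n + 2 * k : ℕ) : ℝ) * ((k : ℝ) - 1) ^ (n + 2 * k - 1) +
    ((n + 2 * k : ℕ) : ℝ) * (((n + 2 * k : ℕ) : ℝ) - 1) / 2 * ((k : ℝ) - 1) ^ (n + 2 * k - 2)) /
    (k : ℝ) ^ (n + 2 * k)

/-- the coefficients of `eps exp^m` -/
theorem r01_coeff_epsexp (m N : ℕ) :
    ((N + 2).factorial : ℝ) * PowerSeries.coeff (N + 2) (r01eps * PowerSeries.exp ℝ ^ m) =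
      (m : ℝ) ^ (N + 2) + ((N : ℝ) + 2) * (m : ℝ) ^ (N + 1) +
        ((N : ℝ) + 2) * ((N : ℝ) + 1) / 2 * (m : ℝ) ^ N := by
  have e : r01eps * PowerSeries.exp ℝ ^ m = PowerSeries.exp ℝ ^ m +
      PowerSeries.X * PowerSeries.exp ℝ ^ m +
      PowerSeries.C (1 / 2 : ℝ) * (PowerSeries.X ^ 2 * PowerSeries.exp ℝ ^ m) := by
    unfold r01eps
    ring
  rw [e, map_add, map_add, PowerSeries.coeff_C_mul, PowerSeries.coeff_X_pow_mul,
    show N + 2 = (N + 1) + 1 from rfl, PowerSeries.coeff_succ_X_mul, r01_coeff_exp_pow,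
    r01_coeff_exp_pow, r01_coeff_exp_pow, Nat.factorial_succ (N + 1), Nat.factorial_succ N]
  have h1 : (N.factorial : ℝ) ≠ 0 := by positivity
  have h2 : (N : ℝ) + 1 ≠ 0 := by positivity
  have h3 : (N : ℝ) + 1 + 1 ≠ 0 := by positivity
  push_cast
  field_simp
  ring

theorem S3_ge (n k : ℕ) (hk : 1 ≤ k) :
    (k : ℝ) ^ (n + 2 * k) / (k.factorial : ℝ) * (1 - eta n k) ≤ (S3 n k : ℝ) := by
  rw [r01_S3]
  obtain ⟨m, rfl⟩ : ∃ m, k = m + 1 := ⟨k - 1, by omega⟩
  obtain ⟨N, hN⟩ : ∃ N, n + 2 * (m + 1) = N + 2 := ⟨n + 2 * m, by ring⟩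
  have h1 := r01_ge m (N + 2)
  have e0 : ((m + 1 : ℕ) : PowerSeries ℝ) = PowerSeries.C ((m : ℝ) + 1) := by
    rw [map_add, map_one, map_natCast]
    push_cast
    rfl
  rw [map_sub, map_sub, e0, PowerSeries.coeff_C_mul, r01_coeff_exp_pow] at h1
  have hf : (0 : ℝ) < ((N + 2).factorial : ℝ) := by positivity
  have h2 := r01_coeff_epsexp m N
  have h3 : ((m + 1 : ℕ) : ℝ) ^ (N + 2) - ((m : ℝ) + 1) * ((m : ℝ) ^ (N + 2) +
      ((N : ℝ) + 2) * (m : ℝ) ^ (N + 1) + ((N : ℝ) + 2) * ((N : ℝ) + 1) / 2 * (m : ℝ) ^ N) ≤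
      ((N + 2).factorial : ℝ) * PowerSeries.coeff (N + 2) (EE ^ (m + 1)) := by
    rw [← h2]
    have h4 := mul_nonneg hf.le h1
    have e1 : ((N + 2).factorial : ℝ) * (((m + 1 : ℕ) : ℝ) ^ (N + 2) / ((N + 2).factorial : ℝ)) =
        ((m + 1 : ℕ) : ℝ) ^ (N + 2) := by
      field_simp
    have e2 : ((N + 2).factorial : ℝ) * (PowerSeries.coeff (N + 2) (EE ^ (m + 1)) -
        (((m + 1 : ℕ) : ℝ) ^ (N + 2) / ((N + 2).factorial : ℝ) - ((m : ℝ) + 1) *
          PowerSeries.coeff (N + 2) (r01eps * PowerSeries.exp ℝ ^ m))) =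
        ((N + 2).factorial : ℝ) * PowerSeries.coeff (N + 2) (EE ^ (m + 1)) -
        (((N + 2).factorial : ℝ) * (((m + 1 : ℕ) : ℝ) ^ (N + 2) / ((N + 2).factorial : ℝ)) -
          ((m : ℝ) + 1) * (((N + 2).factorial : ℝ) *
            PowerSeries.coeff (N + 2) (r01eps * PowerSeries.exp ℝ ^ m))) := by ring
    rw [e2, e1] at h4
    linarith
  have hk0 : (0 : ℝ) < ((m + 1 : ℕ) : ℝ) ^ (N + 2) := by positivity
  have heta : ((m + 1 : ℕ) : ℝ) ^ (N + 2) * (1 - eta n (m + 1)) =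
      ((m + 1 : ℕ) : ℝ) ^ (N + 2) - ((m : ℝ) + 1) * ((m : ℝ) ^ (N + 2) +
      ((N : ℝ) + 2) * (m : ℝ) ^ (N + 1) + ((N : ℝ) + 2) * ((N : ℝ) + 1) / 2 * (m : ℝ) ^ N) := by
    unfold eta
    rw [hN]
    have e3 : N + 2 - 1 = N + 1 := by omega
    have e4 : N + 2 - 2 = N := by omega
    have e5 : ((m + 1 : ℕ) : ℝ) - 1 = m := by push_cast; ring
    rw [e3, e4, e5, mul_sub, mul_one, mul_div_cancel₀ _ hk0.ne']
    push_cast
    ring
  rw [hN]
  have h5 : ((m + 1 : ℕ) : ℝ) ^ (N + 2) / ((m + 1).factorial : ℝ) * (1 - eta n (m + 1)) =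
      (((m + 1 : ℕ) : ℝ) ^ (N + 2) * (1 - eta n (m + 1))) / ((m + 1).factorial : ℝ) := by ring
  rw [h5, heta]
  gcongr

end ST3
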