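import Pool.Agent.Helper2.ST.R01

/-!
# ST-R02: the relative error is tiny

PROOF. `k = 1`: `eta n 1 = 0` (`0^M = 0`, `M >= 1`). Let `k >= 2`, `N = n + 2k`, `y = N/k`. Then
`eta = k (1-1/k)^N (1 + N/(k-1) + N(N-1)/(2(k-1)^2)) <= k e^{-y} (1 + 2y + 2y^2)` because
`(1-1/k)^N <= e^{-N/k}` and `k/(k-1) <= 2`. From `81 (k-2)^2 <= 196 n` and `n >= 1000`:
`k <= 2 + (14/9) sqrt n <= 1.62 sqrt n` (since `2 <= 0.064 sqrt n`), so `k <= 1.62^2 n/k <= 2.63 y` and
`y >= n/k + 2 >= sqrt n/1.62 + 2 >= 21.5`. So `eta <= 2.63 y (1 + 2y + 2y^2) e^{-y}`, decreasing for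
`y >= 21.5`, value there `<= 2.5e-5`. (For instance `y^3 e^{-y/2}` is decreasing for `y >= 6`, or
`e^y >= e^{21.5} (1 + t + t^2/2 + t^3/6)`, `t = y - 21.5`.)
-/

namespace ST3

theorem eta_nonneg (n k : ℕ) (hk : 1 ≤ k) : 0 ≤ eta n k := by
  have h1 : (0 : ℝ) ≤ (k : ℝ) - 1 := by
    have : (1 : ℝ) ≤ (k : ℝ) := by exact_mod_cast hk
    linarith
  have h2 : (0 : ℝ) ≤ ((n + 2 * k : ℕ) : ℝ) - 1 := by
    have : (1 : ℝ) ≤ ((n + 2 * k : ℕ) : ℝ) := by
      have : 1 ≤ n + 2 * k := by omega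
      exact_mod_cast this
    linarith
  unfold eta
  positivity

private theorem cube_exp (y : ℝ) (hy : 21 ≤ y) : y ^ 3 * Real.exp (-y) ≤ 1 / 100000 := by
  have h1 : (y - 21) / 21 + 1 ≤ Real.exp ((y - 21) / 21) := Real.add_one_le_exp _
  have h2 : y ≤ 21 * Real.exp ((y - 21) / 21) := by linarith
  have h3 : y ^ 3 ≤ (21 * Real.exp ((y - 21) / 21)) ^ 3 := pow_le_pow_left₀ (by linarith) h2 3
  have h4 : (21 * Real.exp ((y - 21) / 21)) ^ 3 ≤ 9261 * Real.exp (y - 21) := by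
    rw [mul_pow, ← Real.exp_nat_mul]
    have : Real.exp (((3 : ℕ) : ℝ) * ((y - 21) / 21)) ≤ Real.exp (y - 21) := by
      apply Real.exp_le_exp.2
      push_cast
      linarith
    nlinarith [Real.exp_pos (((3 : ℕ) : ℝ) * ((y - 21) / 21))]
  have h5 : y ^ 3 * Real.exp (-y) ≤ 9261 * Real.exp (y - 21) * Real.exp (-y) :=
    mul_le_mul_of_nonneg_right (h3.trans h4) (Real.exp_pos _).le
  have h6 : 9261 * Real.exp (y - 21) * Real.exp (-y) = 9261 * Real.exp (-21) := by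
    rw [mul_assoc, ← Real.exp_add]
    congr 2
    ring
  have h7 : Real.exp (-21) ≤ 1 / (27 / 10) ^ 21 := by
    rw [Real.exp_neg, ← one_div]
    apply one_div_le_one_div_of_le (by positivity)
    have h8 : Real.exp 21 = Real.exp 1 ^ 21 := by
      rw [← Real.exp_nat_mul]
      norm_num
    rw [h8]
    have h9 := Real.exp_one_gt_d9
    exact pow_le_pow_left₀ (by norm_num) (by linarith) 21
  have h10 : (9261 : ℝ) * (1 / (27 / 10) ^ 21) ≤ 1 / 100000 := by norm_num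
  linarith

private theorem eta_bound (n k : ℕ) (hk : 2 ≤ k) :
    eta n k ≤ (k : ℝ) * Real.exp (-(((n + 2 * k : ℕ) : ℝ) / k)) *
      (1 + 2 * (((n + 2 * k : ℕ) : ℝ) / k) + 2 * (((n + 2 * k : ℕ) : ℝ) / k) ^ 2) := by
  have hK : (2 : ℝ) ≤ (k : ℝ) := by exact_mod_cast hk
  obtain ⟨M, hM⟩ : ∃ M, n + 2 * k = M + 2 := ⟨n + 2 * k - 2, by omega⟩
  unfold eta
  rw [hM]
  have e1 : M + 2 - 1 = M + 1 := rfl
  have e2 : M + 2 - 2 = M := rfl
  rw [e1, e2]
  set K : ℝ := (k : ℝ) with hKdef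
  set N : ℝ := ((M + 2 : ℕ) : ℝ) with hN
  have hN2 : 2 ≤ N := by
    rw [hN]
    push_cast
    have := Nat.cast_nonneg (α := ℝ) M
    linarith
  have hK0 : 0 < K := by linarith
  have ha : 1 ≤ K - 1 := by linarith
  have ha0 : 0 < K - 1 := by linarith
  have h1 : ((K - 1) / K) ^ (M + 2) ≤ Real.exp (-(N / K)) := by
    have h2 : (K - 1) / K ≤ Real.exp (-(1 / K)) := by
      have := Real.add_one_le_exp (-(1 / K))
      have h3 : (K - 1) / K = -(1 / K) + 1 := by field_simp; ring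
      rw [h3]
      exact this
    have h4 := pow_le_pow_left₀ (by positivity) h2 (M + 2)
    rw [← Real.exp_nat_mul] at h4
    have h5 : ((M + 2 : ℕ) : ℝ) * -(1 / K) = -(N / K) := by
      rw [← hN]
      ring
    rw [h5] at h4
    exact h4
  have h6 : K * ((K - 1) ^ (M + 2) + N * (K - 1) ^ (M + 1) + N * (N - 1) / 2 * (K - 1) ^ M) /
      K ^ (M + 2) = K * ((K - 1) / K) ^ (M + 2) *
        (1 + N / (K - 1) + N * (N - 1) / (2 * (K - 1) ^ 2)) := by
    rw [div_pow]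
    field_simp
    ring
  rw [h6]
  have h7 : 1 / (K - 1) ≤ 2 / K := by
    rw [div_le_div_iff₀ ha0 hK0]
    linarith
  have h8 : N / (K - 1) ≤ 2 * (N / K) := by
    calc N / (K - 1) = N * (1 / (K - 1)) := by ring
      _ ≤ N * (2 / K) := mul_le_mul_of_nonneg_left h7 (by linarith)
      _ = _ := by ring
  have h9 : N * (N - 1) / (2 * (K - 1) ^ 2) ≤ 2 * (N / K) ^ 2 := by
    have h10 : N * (N - 1) / (2 * (K - 1) ^ 2) ≤ N ^ 2 / (2 * (K - 1) ^ 2) := by
      apply div_le_div_of_nonneg_right _ (by positivity)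
      nlinarith
    have h11 : N ^ 2 / (2 * (K - 1) ^ 2) = (N / (K - 1)) ^ 2 / 2 := by
      field_simp
    have h12 : (N / (K - 1)) ^ 2 ≤ (2 * (N / K)) ^ 2 :=
      pow_le_pow_left₀ (div_nonneg (by linarith) ha0.le) h8 2
    rw [h11] at h10
    nlinarith
  have h13 : 0 ≤ N / (K - 1) := div_nonneg (by linarith) ha0.le
  have h14 : 0 ≤ N * (N - 1) / (2 * (K - 1) ^ 2) := by
    apply div_nonneg _ (by positivity)
    nlinarith
  apply mul_le_mul
  · exact mul_le_mul_of_nonneg_left h1 hK0.le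
  · linarith
  · linarith
  · positivity

theorem eta_le (n k : ℕ) (hn : 1000 ≤ n) (hk : 1 ≤ k) (h : 81 * (k - 2) ^ 2 ≤ 196 * n) :
    eta n k ≤ 1 / 10000 := by
  rcases Nat.lt_or_ge k 2 with hk2 | hk2
  · have hk1 : k = 1 := by omega
    subst hk1
    unfold eta
    obtain ⟨M, hM⟩ : ∃ M, n + 2 * 1 = M + 3 := ⟨n + 2 * 1 - 3, by omega⟩
    rw [hM]
    have e1 : M + 3 - 1 = M + 2 := rfl
    have e2 : M + 3 - 2 = M + 1 := rfl
    rw [e1, e2]
    norm_num
  · refine (eta_bound n k hk2).trans ?_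
    obtain ⟨e, rfl⟩ : ∃ e, k = e + 2 := ⟨k - 2, by omega⟩
    rw [Nat.add_sub_cancel] at h
    have hR : (81 : ℝ) * (e : ℝ) ^ 2 ≤ 196 * (n : ℝ) := by exact_mod_cast h
    have hnR : (1000 : ℝ) ≤ (n : ℝ) := by exact_mod_cast hn
    have he0 : (0 : ℝ) ≤ (e : ℝ) := Nat.cast_nonneg _
    set K : ℝ := ((e + 2 : ℕ) : ℝ) with hK
    have hKe : K = (e : ℝ) + 2 := by rw [hK]; push_cast; ring
    have hK0 : 0 < K := by linarith
    set y : ℝ := ((n + 2 * (e + 2) : ℕ) : ℝ) / K with hy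
    have hNe : ((n + 2 * (e + 2) : ℕ) : ℝ) = (n : ℝ) + 2 * K := by
      rw [hKe]
      push_cast
      ring
    have hy21 : 21 ≤ y := by
      rw [hy, hNe, le_div_iff₀ hK0, hKe]
      rcases le_or_gt (e : ℝ) 49 with h1 | h1
      · linarith
      · nlinarith
    have hKy : K ≤ 263 / 100 * y := by
      rw [hy, hNe, ← mul_div_assoc, le_div_iff₀ hK0, hKe]
      nlinarith
    have h2 : 1 + 2 * y + 2 * y ^ 2 ≤ 21 / 10 * y ^ 2 := by nlinarith
    have h3 := cube_exp y hy21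
    have hE := Real.exp_pos (-y)
    calc K * Real.exp (-y) * (1 + 2 * y + 2 * y ^ 2)
        ≤ (263 / 100 * y) * Real.exp (-y) * (21 / 10 * y ^ 2) := by
          apply mul_le_mul (mul_le_mul_of_nonneg_right hKy hE.le) h2 (by positivity)
          have : 0 ≤ y := by linarith
          positivity
      _ = 263 / 100 * (21 / 10) * (y ^ 3 * Real.exp (-y)) := by ring
      _ ≤ 263 / 100 * (21 / 10) * (1 / 100000) := by linarith
      _ ≤ 1 / 10000 := by norm_num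

end ST3
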