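import Pool.Agent.Helper2.ST.R02

/-!
# ST-R03: the ratio bounds

PROOF. `N = n + 2k`. From `S3_ge` for `k` and `S3_le` for `k-1`, `k+1`:
`S3 n k ^2 / (S3 n (k-1) S3 n (k+1)) >= (1-eta)^2 (k^(2N)/k!^2) (k-1)!(k+1)! /
((k-1)^(N-2) (k+1)^(N+2)) = (1-eta)^2 (k^2/(k^2-1))^N (k-1)^2/(k(k+1))`,
`(k^2/(k^2-1))^N = (1 - 1/k^2)^(-N) >= e^{N/k^2} = e^{n/k^2 + 2/k}` and `(1-eta)^2 >= 9998/10000`.
(Here the `k`-shift: `S3 n (k-1) <= (k-1)^(n+2(k-1))/(k-1)!`, exponent `N-2`.)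

Numbers: let `L(n,k) = e^{n/k^2+2/k} (k-1)^2/(k(k+1)) * 9998/10000`. The smallest values are
`1.4817` for `81 k^2 <= 196 n` (`k=50`), `1.4586` for `81 (k-1)^2 <= 196 n` (`k=51`), `1.4373` for
`81 (k-2)^2 <= 196 n` (`k = 52`), always `n >= 1000`. Proof of the bounds: for `k >= 53`, with
`n >= 81 (k-s)^2/196`, `s = 0,1,2`: `n/k^2 >= (81/196)(1 - s/k)^2 >= (81/196)(1 - 2s/k)`,
`e^{2/k} >= 1 + 2/k + 2/k^2`; for `2 <= k <= 52` use `n >= max(1000, 81(k-s)^2/196)` (the function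
`e^{1000/k^2}` is large for small `k`: `k <= 20` gives `e^{2.5} (1/6) >= 2`; for `21 <= k <= 40`:
`e^{1000/1600 + 2/40} * 400/(21*22)... `; for `41 <= k <= 52` a finite check `interval_cases k`
with rational lower bounds of the exponential, e.g. `e^x >= 1 + x + x^2/2 + x^3/6 + x^4/24`).
Any organisation is fine.
-/

namespace ST3

theorem ratio_gen (n k : ℕ) (hn : 1000 ≤ n) (hk : 2 ≤ k) (h : 81 * (k - 2) ^ 2 ≤ 196 * n) :
    (S3 n (k - 1) : ℝ) * (S3 n (k + 1) : ℝ) *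
      (Real.exp ((n : ℝ) / (k : ℝ) ^ 2 + 2 / (k : ℝ)) *
        (((k : ℝ) - 1) ^ 2 / ((k : ℝ) * ((k : ℝ) + 1))) * (9998 / 10000)) ≤ (S3 n k : ℝ) ^ 2 := by
  have heta := eta_le n k hn (by omega) h
  obtain ⟨j, rfl⟩ : ∃ j, k = j + 1 := ⟨k - 1, by omega⟩
  have hj : 1 ≤ j := by omega
  have h1 := S3_le n j
  have h2 := S3_le n (j + 2)
  have h3 := S3_ge n (j + 1) (by omega)
  have e0 : j + 1 - 1 = j := by omega
  have e1 : j + 1 + 1 = j + 2 := by ring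
  rw [e0, e1]
  have hf1 : ((j + 1).factorial : ℝ) = ((j : ℝ) + 1) * (j.factorial : ℝ) := by
    rw [Nat.factorial_succ]
    push_cast
    ring
  have hf2 : ((j + 2).factorial : ℝ) = ((j : ℝ) + 2) * (((j : ℝ) + 1) * (j.factorial : ℝ)) := by
    rw [Nat.factorial_succ, Nat.factorial_succ]
    push_cast
    ring
  rw [hf1] at h3
  rw [hf2] at h2
  have hf : (0 : ℝ) < (j.factorial : ℝ) := by exact_mod_cast Nat.factorial_pos j
  set f : ℝ := (j.factorial : ℝ) with hfdef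
  have ex2 : n + 2 * (j + 2) = n + 2 * j + 4 := by ring
  have ex3 : n + 2 * (j + 1) = n + 2 * j + 2 := by ring
  rw [ex2] at h2
  rw [ex3] at h3
  have hxr : (1 : ℝ) ≤ (j : ℝ) := by exact_mod_cast hj
  have hNdef : ((n + 2 * j : ℕ) : ℝ) = (n : ℝ) + 2 * (j : ℝ) := by push_cast; ring
  push_cast at h2 h3 ⊢
  set m : ℕ := n + 2 * j with hm
  set x : ℝ := (j : ℝ) with hx
  have hx0 : 0 < x := by linarith
  -- exponential
  have hE : Real.exp ((n : ℝ) / (x + 1) ^ 2 + 2 / (x + 1)) ≤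
      ((x + 1) ^ 2 / (x * (x + 2))) ^ (m + 2) := by
    have e2 : (n : ℝ) / (x + 1) ^ 2 + 2 / (x + 1) = ((m + 2 : ℕ) : ℝ) * (1 / (x + 1) ^ 2) := by
      have : ((m + 2 : ℕ) : ℝ) = (n : ℝ) + 2 * x + 2 := by
        push_cast
        rw [hNdef]
      rw [this]
      field_simp
      ring
    rw [e2, Real.exp_nat_mul]
    apply pow_le_pow_left₀ (Real.exp_pos _).le
    have h5 := Real.add_one_le_exp (-(1 / (x + 1) ^ 2))
    have h6 : 0 < x * (x + 2) / (x + 1) ^ 2 := by positivity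
    have h7 : x * (x + 2) / (x + 1) ^ 2 ≤ Real.exp (-(1 / (x + 1) ^ 2)) := by
      have : x * (x + 2) / (x + 1) ^ 2 = -(1 / (x + 1) ^ 2) + 1 := by
        field_simp
        ring
      linarith
    rw [Real.exp_neg] at h7
    have h8 := inv_anti₀ h6 h7
    rw [inv_inv, inv_div] at h8
    exact h8
  have hS1 : (0 : ℝ) ≤ (S3 n j : ℝ) := Nat.cast_nonneg _
  have hS2 : (0 : ℝ) ≤ (S3 n (j + 2) : ℝ) := Nat.cast_nonneg _
  have hprod : (S3 n j : ℝ) * (S3 n (j + 2) : ℝ) ≤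
      (x ^ m / f) * ((x + 2) ^ (m + 4) / ((x + 2) * ((x + 1) * f))) :=
    mul_le_mul h1 h2 hS2 (by positivity)
  have hcoef : (0 : ℝ) ≤ (x + 1 - 1) ^ 2 / ((x + 1) * (x + 1 + 1)) := by positivity
  have hE2 : Real.exp ((n : ℝ) / (x + 1) ^ 2 + 2 / (x + 1)) *
      ((x + 1 - 1) ^ 2 / ((x + 1) * (x + 1 + 1))) * (9998 / 10000) ≤
      ((x + 1) ^ 2 / (x * (x + 2))) ^ (m + 2) *
      ((x + 1 - 1) ^ 2 / ((x + 1) * (x + 1 + 1))) * (9998 / 10000) := by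
    gcongr
  have hA : (S3 n j : ℝ) * (S3 n (j + 2) : ℝ) *
      (Real.exp ((n : ℝ) / (x + 1) ^ 2 + 2 / (x + 1)) *
      ((x + 1 - 1) ^ 2 / ((x + 1) * (x + 1 + 1))) * (9998 / 10000)) ≤
      (x ^ m / f) * ((x + 2) ^ (m + 4) / ((x + 2) * ((x + 1) * f))) *
      (((x + 1) ^ 2 / (x * (x + 2))) ^ (m + 2) *
      ((x + 1 - 1) ^ 2 / ((x + 1) * (x + 1 + 1))) * (9998 / 10000)) := by
    apply mul_le_mul hprod hE2 (by positivity) (by positivity)
  have hB : (x ^ m / f) * ((x + 2) ^ (m + 4) / ((x + 2) * ((x + 1) * f))) *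
      (((x + 1) ^ 2 / (x * (x + 2))) ^ (m + 2) *
      ((x + 1 - 1) ^ 2 / ((x + 1) * (x + 1 + 1))) * (9998 / 10000)) =
      ((x + 1) ^ (m + 2) / ((x + 1) * f)) ^ 2 * (9998 / 10000) := by
    have e5 : x + 1 - 1 = x := by ring
    have e6 : x + 1 + 1 = x + 2 := by ring
    rw [e5, e6, div_pow, mul_pow]
    have hxn : x ≠ 0 := hx0.ne'
    have hx1 : x + 1 ≠ 0 := by positivity
    have hx2 : x + 2 ≠ 0 := by positivity
    have e7 : x ^ (m + 2) = x ^ m * x ^ 2 := pow_add _ _ _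
    have e8 : (x + 2) ^ (m + 2) = (x + 2) ^ m * (x + 2) ^ 2 := pow_add _ _ _
    have e9 : (x + 2) ^ (m + 4) = (x + 2) ^ m * (x + 2) ^ 4 := pow_add _ _ _
    have e10 : ((x + 1) ^ 2) ^ (m + 2) = ((x + 1) ^ (m + 2)) ^ 2 := by
      rw [← pow_mul, ← pow_mul, mul_comm]
    rw [e7, e8, e9, e10]
    have hxm : x ^ m ≠ 0 := pow_ne_zero _ hxn
    have hxm2 : (x + 2) ^ m ≠ 0 := pow_ne_zero _ hx2
    generalize x ^ m = X at *
    generalize (x + 2) ^ m = Y at *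
    generalize (x + 1) ^ (m + 2) = Z at *
    field_simp
  have hC : ((x + 1) ^ (m + 2) / ((x + 1) * f)) ^ 2 * (9998 / 10000) ≤
      (S3 n (j + 1) : ℝ) ^ 2 := by
    have h9 : (x + 1) ^ (m + 2) / ((x + 1) * f) * (9999 / 10000) ≤ (S3 n (j + 1) : ℝ) := by
      refine le_trans ?_ h3
      apply mul_le_mul_of_nonneg_left _ (by positivity)
      linarith
    have h10 : ((x + 1) ^ (m + 2) / ((x + 1) * f) * (9999 / 10000)) ^ 2 ≤
        (S3 n (j + 1) : ℝ) ^ 2 := pow_le_pow_left₀ (by positivity) h9 2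
    refine le_trans ?_ h10
    rw [mul_pow]
    apply mul_le_mul_of_nonneg_left _ (by positivity)
    norm_num
  exact hA.trans (hB.le.trans hC)

private theorem L_small (n k : ℕ) (n0 c : ℝ) (h0 : 0 ≤ n0) (h1 : n0 ≤ n) (hk : 2 ≤ k)
    (h : c ≤ (1 + (n0 / (k : ℝ) ^ 2 + 2 / (k : ℝ)) + (n0 / (k : ℝ) ^ 2 + 2 / (k : ℝ)) ^ 2 / 2 +
      (n0 / (k : ℝ) ^ 2 + 2 / (k : ℝ)) ^ 3 / 6 + (n0 / (k : ℝ) ^ 2 + 2 / (k : ℝ)) ^ 4 / 24) *
        (((k : ℝ) - 1) ^ 2 / ((k : ℝ) * ((k : ℝ) + 1))) * (9998 / 10000)) :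
    c ≤ Real.exp ((n : ℝ) / (k : ℝ) ^ 2 + 2 / (k : ℝ)) *
        (((k : ℝ) - 1) ^ 2 / ((k : ℝ) * ((k : ℝ) + 1))) * (9998 / 10000) := by
  refine h.trans ?_
  have hk' : (2 : ℝ) ≤ k := by exact_mod_cast hk
  set y := n0 / (k : ℝ) ^ 2 + 2 / (k : ℝ) with hy
  have hy0 : 0 ≤ y := by positivity
  have h2 : 1 + y + y ^ 2 / 2 + y ^ 3 / 6 + y ^ 4 / 24 ≤ Real.exp y := by
    have h3 := Real.sum_le_exp_of_nonneg hy0 5
    simp only [Finset.sum_range_succ, Finset.sum_range_zero, Nat.factorial] at h3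
    norm_num at h3
    linarith
  have h3 : Real.exp y ≤ Real.exp ((n : ℝ) / (k : ℝ) ^ 2 + 2 / (k : ℝ)) := by
    apply Real.exp_le_exp.mpr
    rw [hy]
    gcongr
  have h4 : 1 + y + y ^ 2 / 2 + y ^ 3 / 6 + y ^ 4 / 24 ≤
      Real.exp ((n : ℝ) / (k : ℝ) ^ 2 + 2 / (k : ℝ)) := h2.trans h3
  gcongr

private theorem exp_a : (15116 / 10000 : ℝ) ≤ Real.exp (81 / 196) := by
  have h3 := Real.sum_le_exp_of_nonneg (show (0 : ℝ) ≤ 81 / 196 by norm_num) 5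
  simp only [Finset.sum_range_succ, Finset.sum_range_zero, Nat.factorial] at h3
  norm_num at h3
  linarith

private theorem L_big (n k : ℕ) (s b c : ℝ) (hk : 53 ≤ k)
    (h : 81 * ((k : ℝ) - s) ^ 2 ≤ 196 * n) (hb : b = 2 - 162 * s / 196) (hb0 : 0 ≤ b)
    (hfin : ∀ t : ℝ, 0 ≤ t → t ≤ 1 / 53 →
      c * (1 + t) ≤ 15116 / 10000 * (1 + b * t) * (1 - t) ^ 2 * (9998 / 10000)) :
    c ≤ Real.exp ((n : ℝ) / (k : ℝ) ^ 2 + 2 / (k : ℝ)) *
        (((k : ℝ) - 1) ^ 2 / ((k : ℝ) * ((k : ℝ) + 1))) * (9998 / 10000) := by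
  have hk' : (53 : ℝ) ≤ k := by exact_mod_cast hk
  have hk0 : (0 : ℝ) < k := by linarith
  set K : ℝ := (k : ℝ) with hK
  have hKn : K ≠ 0 := hk0.ne'
  have ht0 : 0 ≤ 1 / K := by positivity
  have ht1 : 1 / K ≤ 1 / 53 := one_div_le_one_div_of_le (by norm_num) hk'
  have h1 := hfin (1 / K) ht0 ht1
  have h2 : 81 / 196 + b * (1 / K) ≤ (n : ℝ) / K ^ 2 + 2 / K := by
    have h3 : 81 / 196 * (1 - 2 * s / K) ≤ (n : ℝ) / K ^ 2 := by
      rw [le_div_iff₀ (by positivity)]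
      have h4 : 81 / 196 * (1 - 2 * s / K) * K ^ 2 = 81 / 196 * (K ^ 2 - 2 * s * K) := by
        field_simp
      rw [h4]
      nlinarith [sq_nonneg s]
    have h5 : 81 / 196 + b * (1 / K) = 81 / 196 * (1 - 2 * s / K) + 2 / K := by
      rw [hb]
      field_simp
      ring
    linarith
  have h3 : 15116 / 10000 * (1 + b * (1 / K)) ≤ Real.exp ((n : ℝ) / K ^ 2 + 2 / K) := by
    calc 15116 / 10000 * (1 + b * (1 / K)) ≤ Real.exp (81 / 196) * Real.exp (b * (1 / K)) := by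
          apply mul_le_mul exp_a _ (by positivity) (Real.exp_pos _).le
          have := Real.add_one_le_exp (b * (1 / K))
          linarith
      _ = Real.exp (81 / 196 + b * (1 / K)) := by rw [Real.exp_add]
      _ ≤ _ := Real.exp_le_exp.mpr h2
  have h4 : (K - 1) ^ 2 / (K * (K + 1)) = (1 - 1 / K) ^ 2 / (1 + 1 / K) := by
    field_simp
  rw [h4]
  have h5 : 0 < 1 + 1 / K := by positivity
  calc c = c * (1 + 1 / K) / (1 + 1 / K) := by field_simp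
    _ ≤ (15116 / 10000 * (1 + b * (1 / K)) * (1 - 1 / K) ^ 2 * (9998 / 10000)) /
        (1 + 1 / K) := by gcongr
    _ = 15116 / 10000 * (1 + b * (1 / K)) * ((1 - 1 / K) ^ 2 / (1 + 1 / K)) *
        (9998 / 10000) := by ring
    _ ≤ _ := by gcongr

theorem L_148 (n k : ℕ) (hn : 1000 ≤ n) (hk : 2 ≤ k) (h : 81 * k ^ 2 ≤ 196 * n) :
    37 / 25 ≤ Real.exp ((n : ℝ) / (k : ℝ) ^ 2 + 2 / (k : ℝ)) *
        (((k : ℝ) - 1) ^ 2 / ((k : ℝ) * ((k : ℝ) + 1))) * (9998 / 10000) := by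
  have hn' : (1000 : ℝ) ≤ n := by exact_mod_cast hn
  have hr : 81 * (k : ℝ) ^ 2 ≤ 196 * (n : ℝ) := by exact_mod_cast h
  by_cases hk3 : 53 ≤ k
  · refine L_big n k 0 2 _ hk3 (by simpa using hr) (by norm_num) (by norm_num) ?_
    intro t ht0 ht1
    nlinarith [mul_nonneg ht0 (sub_nonneg.mpr ht1), mul_nonneg ht0 (mul_nonneg ht0 ht0)]
  · push Not at hk3
    by_cases hk4 : k ≤ 49
    · apply L_small n k 1000 _ (by norm_num) hn' hk
      interval_cases k <;> norm_num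
    · push Not at hk4
      apply L_small n k (81 * (k : ℝ) ^ 2 / 196) _ (by positivity) (by linarith) hk
      interval_cases k <;> norm_num

theorem L_145 (n k : ℕ) (hn : 1000 ≤ n) (hk : 2 ≤ k) (h : 81 * (k - 1) ^ 2 ≤ 196 * n) :
    29 / 20 ≤ Real.exp ((n : ℝ) / (k : ℝ) ^ 2 + 2 / (k : ℝ)) *
        (((k : ℝ) - 1) ^ 2 / ((k : ℝ) * ((k : ℝ) + 1))) * (9998 / 10000) := by
  have hn' : (1000 : ℝ) ≤ n := by exact_mod_cast hn
  have hr : 81 * ((k : ℝ) - 1) ^ 2 ≤ 196 * (n : ℝ) := by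
    have h2 : ((k - 1 : ℕ) : ℝ) = (k : ℝ) - 1 := by
      rw [Nat.cast_sub (by omega)]
      norm_num
    rw [← h2]
    exact_mod_cast h
  by_cases hk3 : 53 ≤ k
  · refine L_big n k 1 (2 - 162 / 196) _ hk3 hr (by norm_num) (by norm_num) ?_
    intro t ht0 ht1
    nlinarith [mul_nonneg ht0 (sub_nonneg.mpr ht1), mul_nonneg ht0 (mul_nonneg ht0 ht0)]
  · push Not at hk3
    by_cases hk4 : k ≤ 50
    · apply L_small n k 1000 _ (by norm_num) hn' hk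
      interval_cases k <;> norm_num
    · push Not at hk4
      apply L_small n k (81 * ((k : ℝ) - 1) ^ 2 / 196) _ (by positivity) (by linarith) hk
      interval_cases k <;> norm_num

theorem L_143 (n k : ℕ) (hn : 1000 ≤ n) (hk : 2 ≤ k) (h : 81 * (k - 2) ^ 2 ≤ 196 * n) :
    10 / 7 ≤ Real.exp ((n : ℝ) / (k : ℝ) ^ 2 + 2 / (k : ℝ)) *
        (((k : ℝ) - 1) ^ 2 / ((k : ℝ) * ((k : ℝ) + 1))) * (9998 / 10000) := by
  have hn' : (1000 : ℝ) ≤ n := by exact_mod_cast hn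
  have hr : 81 * ((k : ℝ) - 2) ^ 2 ≤ 196 * (n : ℝ) := by
    have h2 : ((k - 2 : ℕ) : ℝ) = (k : ℝ) - 2 := by
      rw [Nat.cast_sub (by omega)]
      norm_num
    rw [← h2]
    exact_mod_cast h
  by_cases hk3 : 53 ≤ k
  · refine L_big n k 2 (2 - 324 / 196) _ hk3 hr (by norm_num) (by norm_num) ?_
    intro t ht0 ht1
    nlinarith [mul_nonneg ht0 (sub_nonneg.mpr ht1), mul_nonneg ht0 (mul_nonneg ht0 ht0)]
  · push Not at hk3
    by_cases hk4 : k ≤ 51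
    · apply L_small n k 1000 _ (by norm_num) hn' hk
      interval_cases k <;> norm_num
    · push Not at hk4
      apply L_small n k (81 * ((k : ℝ) - 2) ^ 2 / 196) _ (by positivity) (by linarith) hk
      interval_cases k <;> norm_num

end ST3
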