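import Pool.Agent.Helper2.ST.Defs
import Pool.Agent.Helper2.ST.K.Main

/-!
# ST-Small: the rows `n < 1000` (block of helper9)

The theorem `ST3.small` is proved in `K/Main.lean`:
`theorem ST3.small (n : ℕ) (h1 : 1 ≤ n) (h2 : n < 1000) (x : ℂ) (hx : 0 ≤ x.re) (hx0 : x ≠ 0) :
s n x ≠ 0`.
-/

namespace ST3

example (n : ℕ) (h1 : 1 ≤ n) (h2 : n < 1000) (x : ℂ) (hx : 0 ≤ x.re) (hx0 : x ≠ 0) :
    s n x ≠ 0 := small n h1 h2 x hx hx0

end ST3
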