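import Mathlib

/-!
# ST-U1: the Riccati coefficients

`c_1 = 1/20`, `(2k+3) c_k = sum_{i+j=k} c_i c_j` (`c_0 = 0`).
PROOF of `cc_le`: strong induction. `k = 2`: `c_2 = 1/2800 <= 2/5476`. `k >= 3`:
`(2k+3) c_k = 2 c_1 c_{k-1} + sum_{2<=i<=k-2} c_i c_{k-i} <= (1/10) 2/74^{k-1} + (k-3) 4/74^k =
(2/74^k)(7.4 + 2(k-3)) <= (2/74^k)(2k+3)`.
-/

namespace ST3

/-- the Riccati coefficients -/
noncomputable def cc : ℕ → ℝ
  | 0 => 0
  | 1 => 1 / 20
  | k + 2 => (∑ i : Fin (k + 1), cc ((i : ℕ) + 1) * cc (k + 1 - (i : ℕ))) / (2 * ((k : ℝ) + 2) + 3)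
  termination_by n => n
  decreasing_by
    all_goals simp_wf
    all_goals have := i.2
    all_goals omega

theorem cc_zero : cc 0 = 0 := by
  rw [cc]

theorem cc_one : cc 1 = 1 / 20 := by
  rw [cc]

theorem u1_add_two (k : ℕ) : cc (k + 2) =
    (∑ i ∈ Finset.range (k + 1), cc (i + 1) * cc (k + 1 - i)) / (2 * ((k : ℝ) + 2) + 3) := by
  rw [cc, Finset.sum_range]

theorem cc_rec {k : ℕ} (hk : 2 ≤ k) :
    (2 * (k : ℝ) + 3) * cc k = ∑ p ∈ Finset.HasAntidiagonal.antidiagonal k, cc p.1 * cc p.2 := by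
  obtain ⟨m, rfl⟩ := Nat.exists_eq_add_of_le' hk
  have h1 : ∑ p ∈ Finset.HasAntidiagonal.antidiagonal (m + 2), cc p.1 * cc p.2 =
      ∑ i ∈ Finset.range (m + 2 + 1), cc i * cc (m + 2 - i) :=
    Finset.Nat.sum_antidiagonal_eq_sum_range_succ (fun i j => cc i * cc j) (m + 2)
  rw [h1, Finset.sum_range_succ, Finset.sum_range_succ', Nat.sub_self, cc_zero, mul_zero, zero_mul,
    add_zero, add_zero, u1_add_two]
  have h2 : (2 * ((m : ℝ) + 2) + 3) ≠ 0 := by positivity
  push_cast
  rw [mul_div_cancel₀ _ h2]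

theorem cc_nonneg (k : ℕ) : 0 ≤ cc k := by
  induction k using Nat.strong_induction_on with
  | _ k ih =>
    match k with
    | 0 => rw [cc_zero]
    | 1 => rw [cc_one]; norm_num
    | m + 2 =>
      rw [u1_add_two]
      apply div_nonneg _ (by positivity)
      refine Finset.sum_nonneg fun i hi => ?_
      rw [Finset.mem_range] at hi
      exact mul_nonneg (ih _ (by omega)) (ih _ (by omega))

theorem cc_le {k : ℕ} (hk : 2 ≤ k) : cc k ≤ 2 / 74 ^ k := by
  induction k using Nat.strong_induction_on with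
  | _ k ih =>
    match k, hk with
    | 2, _ =>
      have h := u1_add_two 0
      rw [show (0 + 2 : ℕ) = 2 from rfl] at h
      rw [h, Finset.sum_range_one, cc_one]
      norm_num
    | m + 3, _ =>
      have h := u1_add_two (m + 1)
      rw [show (m + 1 + 2 : ℕ) = m + 3 from rfl] at h
      rw [h, Finset.sum_range_succ, Finset.sum_range_succ']
      have hA : (0 : ℝ) < 74 ^ (m + 3) := by positivity
      have hc2 : cc (m + 2) ≤ 2 / 74 ^ (m + 2) := ih (m + 2) (by omega) (by omega)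
      have hmid : ∑ i ∈ Finset.range m, cc (i + 1 + 1) * cc (m + 1 + 1 - (i + 1)) ≤
          ∑ _i ∈ Finset.range m, 4 / (74 : ℝ) ^ (m + 3) := by
        refine Finset.sum_le_sum fun i hi => ?_
        rw [Finset.mem_range] at hi
        have e1 := ih (i + 1 + 1) (by omega) (by omega)
        have e2 := ih (m + 1 + 1 - (i + 1)) (by omega) (by omega)
        calc cc (i + 1 + 1) * cc (m + 1 + 1 - (i + 1)) ≤
              2 / 74 ^ (i + 1 + 1) * (2 / 74 ^ (m + 1 + 1 - (i + 1))) :=
              mul_le_mul e1 e2 (cc_nonneg _) (by positivity)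
          _ = 4 / (74 : ℝ) ^ (m + 3) := by
              rw [div_mul_div_comm, ← pow_add,
                show i + 1 + 1 + (m + 1 + 1 - (i + 1)) = m + 3 by omega]
              norm_num
      rw [Finset.sum_const, Finset.card_range, nsmul_eq_mul] at hmid
      have hfirst : cc (0 + 1) * cc (m + 1 + 1 - 0) ≤ 37 / 5 / (74 : ℝ) ^ (m + 3) := by
        rw [show (0 + 1 : ℕ) = 1 from rfl, show (m + 1 + 1 - 0 : ℕ) = m + 2 from rfl, cc_one]
        calc 1 / 20 * cc (m + 2) ≤ 1 / 20 * (2 / 74 ^ (m + 2)) :=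
              mul_le_mul_of_nonneg_left hc2 (by norm_num)
          _ = 37 / 5 / (74 : ℝ) ^ (m + 3) := by
              rw [pow_succ (74 : ℝ) (m + 2)]
              field_simp
              norm_num
      have hlast : cc (m + 1 + 1) * cc (m + 1 + 1 - (m + 1)) ≤ 37 / 5 / (74 : ℝ) ^ (m + 3) := by
        have e : m + 1 + 1 - (m + 1) = 1 := by omega
        rw [e, show (m + 1 + 1 : ℕ) = m + 2 from rfl, cc_one]
        calc cc (m + 2) * (1 / 20) ≤ (2 / 74 ^ (m + 2)) * (1 / 20) :=
              mul_le_mul_of_nonneg_right hc2 (by norm_num)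
          _ = 37 / 5 / (74 : ℝ) ^ (m + 3) := by
              rw [pow_succ (74 : ℝ) (m + 2)]
              field_simp
              norm_num
      rw [div_le_iff₀ (by positivity)]
      have hB : (0 : ℝ) < 1 / 74 ^ (m + 3) := by positivity
      have e4 : 4 / (74 : ℝ) ^ (m + 3) = 4 * (1 / 74 ^ (m + 3)) := by ring
      have e5 : 37 / 5 / (74 : ℝ) ^ (m + 3) = 37 / 5 * (1 / 74 ^ (m + 3)) := by ring
      have e6 : 2 / (74 : ℝ) ^ (m + 3) = 2 * (1 / 74 ^ (m + 3)) := by ring
      rw [e4] at hmid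
      rw [e5] at hfirst hlast
      rw [e6]
      have hm : (0 : ℝ) ≤ m := Nat.cast_nonneg m
      have key := add_le_add (add_le_add hmid hfirst) hlast
      refine key.trans ?_
      push_cast
      nlinarith [mul_nonneg hm hB.le]

end ST3
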