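import Pool.Agent.Helper2.ST.U1

/-!
# ST-U2: the functions `uu` and `UU`

`uu z = sum (-1)^(k+1) c_k z^(2k)`, `UU z = sum (-1)^(k+1) c_k z^(2k)/(2k)` (the term `k = 0` is `0`).
PROOFS. `|c_k z^(2k)| <= 2 (|z|^2/74)^k` for `k >= 2`, `|z|^2 < 64 < 74`: summable, and termwise
differentiation is allowed (`hasDerivAt_tsum_of_isPreconnected` on the ball of radius 8, or power
series). `z UU' = uu`; `z uu' = sum (-1)^(k+1) 2k c_k z^(2k)`, and by `cc_rec` (Cauchy product,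
`tsum_mul_tsum_eq_tsum_sum_antidiagonal_of_summable_norm`) `uu^2 = sum_k (-1)^k (sum_{i+j=k} c_i c_j)
z^(2k) = sum_{k>=2} (-1)^k (2k+3) c_k z^(2k)`, so `z uu' + 3 uu + uu^2 = 5 c_1 z^2 = z^2/4`.
Bounds: `|uu - z^2/20| <= sum_{k>=2} 2 y^k = 2y^2/(1-y)`, `y = |z|^2/74`;
`|UU - z^2/40| <= sum_{k>=2} 2 y^k/(2k) <= (1/2) sum_{k>=2} y^k`.
-/

namespace ST3

open Complex

/-- `u = z M'/M` -/
noncomputable def uu (z : ℂ) : ℂ := ∑' k : ℕ, (-1) ^ (k + 1) * (cc k : ℂ) * z ^ (2 * k)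

/-- `U = log M` -/
noncomputable def UU (z : ℂ) : ℂ :=
  ∑' k : ℕ, (-1) ^ (k + 1) * (cc k : ℂ) * z ^ (2 * k) / (2 * (k : ℂ))

private theorem cc_le4 (k : ℕ) : cc k ≤ 4 / 74 ^ k := by
  match k with
  | 0 => rw [cc_zero]; norm_num
  | 1 => rw [cc_one]; norm_num
  | k + 2 =>
    refine (cc_le (by omega)).trans ?_
    gcongr
    norm_num

private theorem b_norm (k : ℕ) : ‖(-1 : ℂ) ^ (k + 1) * (cc k : ℂ)‖ ≤ 4 / 74 ^ k := by
  rw [norm_mul, norm_pow, norm_neg, norm_one, one_pow, one_mul, Complex.norm_real, Real.norm_eq_abs,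
    abs_of_nonneg (cc_nonneg k)]
  exact cc_le4 k

private theorem term_bound {b : ℕ → ℂ} (hb : ∀ k, ‖b k‖ ≤ 4 / 74 ^ k) (z : ℂ) (k : ℕ) :
    ‖b k * z ^ (2 * k)‖ ≤ 4 * (‖z‖ ^ 2 / 74) ^ k := by
  rw [norm_mul, norm_pow, pow_mul, div_pow]
  calc ‖b k‖ * (‖z‖ ^ 2) ^ k ≤ 4 / 74 ^ k * (‖z‖ ^ 2) ^ k := by gcongr; exact hb k
    _ = _ := by ring

private theorem y_lt {z : ℂ} (h : ‖z‖ < 8) : ‖z‖ ^ 2 / 74 < 1 := by
  have := norm_nonneg z
  rw [div_lt_one (by norm_num)]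
  nlinarith

private theorem term_summable {b : ℕ → ℂ} (hb : ∀ k, ‖b k‖ ≤ 4 / 74 ^ k) {z : ℂ} (h : ‖z‖ < 8) :
    Summable fun k => ‖b k * z ^ (2 * k)‖ := by
  refine Summable.of_nonneg_of_le (fun _ => norm_nonneg _) (term_bound hb z) ?_
  exact (summable_geometric_of_lt_one (by positivity) (y_lt h)).mul_left 4

private theorem gen_deriv {b : ℕ → ℂ} (hb : ∀ k, ‖b k‖ ≤ 4 / 74 ^ k) {z : ℂ} (h : ‖z‖ < 8) :
    HasDerivAt (fun z => ∑' k : ℕ, b k * z ^ (2 * k)) (∑' k : ℕ, b k * ((2 * k : ℕ) * z ^ (2 * k - 1))) z := by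
  have hu0 : Summable fun k : ℕ => (k : ℝ) ^ 1 * (64 / 74 : ℝ) ^ k :=
    summable_pow_mul_geometric_of_norm_lt_one 1 (by
      rw [Real.norm_eq_abs, abs_of_pos (by norm_num)]
      norm_num)
  have hu : Summable fun k : ℕ => (8 : ℝ) * ((k : ℝ) ^ 1 * (64 / 74) ^ k) := hu0.mul_left 8
  have hc : IsPreconnected (Metric.ball (0 : ℂ) 8) := (convex_ball (0 : ℂ) 8).isPreconnected
  refine hasDerivAt_tsum_of_isPreconnected (g := fun (n : ℕ) (y : ℂ) => b n * y ^ (2 * n))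
    (g' := fun (n : ℕ) (y : ℂ) => b n * ((2 * n : ℕ) * y ^ (2 * n - 1))) (y₀ := 0) hu Metric.isOpen_ball hc
    (fun n y _ => ?_) (fun n y hy => ?_) (Metric.mem_ball_self (by norm_num)) ?_
    (mem_ball_zero_iff.2 h)
  · exact (hasDerivAt_pow (2 * n) y).const_mul (b n)
  · rw [mem_ball_zero_iff] at hy
    rcases Nat.eq_zero_or_pos n with rfl | hn
    · simp
    · rw [norm_mul, norm_mul, norm_pow, Complex.norm_natCast]
      have h1 : ‖y‖ ^ (2 * n - 1) ≤ 8 ^ (2 * n - 1) := by gcongr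
      have h2 : (8 : ℝ) ^ (2 * n - 1) = 64 ^ n / 8 := by
        rw [eq_div_iff (by norm_num), ← pow_succ, show 2 * n - 1 + 1 = 2 * n by omega, pow_mul]
        norm_num
      calc ‖b n‖ * (((2 * n : ℕ) : ℝ) * ‖y‖ ^ (2 * n - 1))
          ≤ 4 / 74 ^ n * (((2 * n : ℕ) : ℝ) * (64 ^ n / 8)) := by
            rw [← h2]
            gcongr
            exact hb n
        _ ≤ _ := by
            push_cast
            rw [div_pow]
            have h3 : (0 : ℝ) ≤ (n : ℝ) * (64 ^ n / 74 ^ n) := by positivity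
            calc 4 / 74 ^ n * (2 * (n : ℝ) * (64 ^ n / 8)) = (n : ℝ) * (64 ^ n / 74 ^ n) := by ring
              _ ≤ 8 * ((n : ℝ) ^ 1 * (64 ^ n / 74 ^ n)) := by rw [pow_one]; linarith
  · exact (term_summable hb (z := 0) (by simp)).of_norm

private theorem bU_norm (k : ℕ) : ‖(-1 : ℂ) ^ (k + 1) * (cc k : ℂ) / (2 * (k : ℂ))‖ ≤ 4 / 74 ^ k := by
  rcases Nat.eq_zero_or_pos k with rfl | hk
  · simp
  · rw [norm_div]
    refine (div_le_self (norm_nonneg _) ?_).trans (b_norm k)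
    rw [norm_mul, Complex.norm_natCast, Complex.norm_ofNat]
    have : (1 : ℝ) ≤ k := by exact_mod_cast hk
    linarith

private theorem UU_eq : UU = fun z => ∑' k : ℕ, (-1 : ℂ) ^ (k + 1) * (cc k : ℂ) / (2 * (k : ℂ)) * z ^ (2 * k) := by
  funext z
  unfold UU
  refine tsum_congr fun k => ?_
  ring

private theorem UU_deriv {z : ℂ} (h : ‖z‖ < 8) : HasDerivAt UU
    (∑' k : ℕ, (-1 : ℂ) ^ (k + 1) * (cc k : ℂ) / (2 * (k : ℂ)) * ((2 * k : ℕ) * z ^ (2 * k - 1))) z := by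
  rw [UU_eq]
  exact gen_deriv bU_norm h

theorem UU_zero : UU 0 = 0 := by
  unfold UU
  have h : ∀ k : ℕ, (-1 : ℂ) ^ (k + 1) * (cc k : ℂ) * 0 ^ (2 * k) / (2 * (k : ℂ)) = 0 := by
    intro k
    rcases Nat.eq_zero_or_pos k with rfl | hk
    · simp
    · rw [zero_pow (by omega)]
      simp
  rw [tsum_congr h, tsum_zero]

theorem UU_continuousAt {z : ℂ} (h : ‖z‖ < 8) : ContinuousAt UU z := (UU_deriv h).continuousAt

theorem UU_hasDerivAt {z : ℂ} (hz : z ≠ 0) (h : ‖z‖ < 8) : HasDerivAt UU (uu z / z) z := by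
  refine (UU_deriv h).congr_deriv ?_
  rw [eq_div_iff hz, mul_comm, ← tsum_mul_left]
  unfold uu
  refine tsum_congr fun k => ?_
  rcases Nat.eq_zero_or_pos k with rfl | hk
  · simp [cc_zero]
  · have hk' : (k : ℂ) ≠ 0 := by exact_mod_cast hk.ne'
    have e : z ^ (2 * k) = z * z ^ (2 * k - 1) := by
      rw [← pow_succ', show 2 * k - 1 + 1 = 2 * k by omega]
    rw [e]
    push_cast
    field_simp

theorem uu_hasDerivAt {z : ℂ} (hz : z ≠ 0) (h : ‖z‖ < 8) :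
    HasDerivAt uu ((z ^ 2 / 4 - 3 * uu z - uu z ^ 2) / z) z := by
  have hd : HasDerivAt uu (∑' k : ℕ, (-1 : ℂ) ^ (k + 1) * (cc k : ℂ) * ((2 * k : ℕ) * z ^ (2 * k - 1))) z :=
    gen_deriv b_norm h
  refine hd.congr_deriv ?_
  rw [eq_div_iff hz, mul_comm, ← tsum_mul_left]
  have hs := term_summable b_norm h
  have e1 : ∀ k : ℕ, z * ((-1 : ℂ) ^ (k + 1) * (cc k : ℂ) * ((2 * k : ℕ) * z ^ (2 * k - 1)))
      = (2 * k : ℂ) * ((-1 : ℂ) ^ (k + 1) * (cc k : ℂ) * z ^ (2 * k)) := by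
    intro k
    rcases Nat.eq_zero_or_pos k with rfl | hk
    · simp
    · have e : z ^ (2 * k) = z * z ^ (2 * k - 1) := by
        rw [← pow_succ', show 2 * k - 1 + 1 = 2 * k by omega]
      rw [e]
      push_cast
      ring
  rw [tsum_congr e1]
  have e2 : uu z ^ 2 = ∑' k : ℕ, ∑ p ∈ Finset.HasAntidiagonal.antidiagonal k,
      ((-1 : ℂ) ^ (p.1 + 1) * (cc p.1 : ℂ) * z ^ (2 * p.1)) * ((-1 : ℂ) ^ (p.2 + 1) * (cc p.2 : ℂ) * z ^ (2 * p.2)) := by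
    rw [sq]
    unfold uu
    exact tsum_mul_tsum_eq_tsum_sum_antidiagonal_of_summable_norm hs hs
  have hs2 : Summable fun k : ℕ => ∑ p ∈ Finset.HasAntidiagonal.antidiagonal k,
      ((-1 : ℂ) ^ (p.1 + 1) * (cc p.1 : ℂ) * z ^ (2 * p.1)) * ((-1 : ℂ) ^ (p.2 + 1) * (cc p.2 : ℂ) * z ^ (2 * p.2)) :=
    (summable_norm_sum_mul_antidiagonal_of_summable_norm hs hs).of_norm
  have e3 : ∀ k : ℕ, ∑ p ∈ Finset.HasAntidiagonal.antidiagonal k,
      ((-1 : ℂ) ^ (p.1 + 1) * (cc p.1 : ℂ) * z ^ (2 * p.1)) * ((-1 : ℂ) ^ (p.2 + 1) * (cc p.2 : ℂ) * z ^ (2 * p.2))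
      = (-1) ^ k * ((∑ p ∈ Finset.HasAntidiagonal.antidiagonal k, cc p.1 * cc p.2 : ℝ) : ℂ) * z ^ (2 * k) := by
    intro k
    push_cast
    rw [Finset.mul_sum, Finset.sum_mul]
    refine Finset.sum_congr rfl fun p hp => ?_
    have hk : p.1 + p.2 = k := Finset.HasAntidiagonal.mem_antidiagonal.1 hp
    rw [← hk, mul_add, pow_add, pow_add, pow_add, pow_add]
    ring
  have hs0 : Summable fun k : ℕ => (-1 : ℂ) ^ (k + 1) * (cc k : ℂ) * z ^ (2 * k) := hs.of_norm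
  have hs1 : Summable fun k : ℕ => (2 * k : ℂ) * ((-1 : ℂ) ^ (k + 1) * (cc k : ℂ) * z ^ (2 * k)) := by
    have h0 : Summable fun k : ℕ => (k : ℝ) ^ 1 * (‖z‖ ^ 2 / 74) ^ k := by
      refine summable_pow_mul_geometric_of_norm_lt_one 1 ?_
      rw [Real.norm_eq_abs, abs_of_nonneg (by positivity)]
      exact y_lt h
    have h1 : Summable fun k : ℕ => (8 : ℝ) * ((k : ℝ) ^ 1 * (‖z‖ ^ 2 / 74) ^ k) := h0.mul_left 8
    refine Summable.of_norm_bounded h1 fun k => ?_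
    rw [norm_mul, norm_mul, Complex.norm_natCast, Complex.norm_ofNat]
    have h2 := term_bound b_norm z k
    have h3 : (0 : ℝ) ≤ k := Nat.cast_nonneg k
    calc 2 * (k : ℝ) * ‖(-1 : ℂ) ^ (k + 1) * (cc k : ℂ) * z ^ (2 * k)‖
        ≤ 2 * (k : ℝ) * (4 * (‖z‖ ^ 2 / 74) ^ k) := by gcongr
      _ = _ := by ring
  have e4 : ∑' k : ℕ, (2 * k : ℂ) * ((-1 : ℂ) ^ (k + 1) * (cc k : ℂ) * z ^ (2 * k)) + 3 * uu z + uu z ^ 2
      = z ^ 2 / 4 := by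
    rw [e2]
    unfold uu
    rw [← tsum_mul_left, ← hs1.tsum_add (hs0.mul_left 3), ← (hs1.add (hs0.mul_left 3)).tsum_add hs2]
    rw [tsum_eq_single 1]
    · rw [e3 1]
      simp [Finset.Nat.antidiagonal_succ, cc_zero, cc_one]
      ring
    · intro k hk
      rw [e3 k]
      rcases Nat.eq_zero_or_pos k with rfl | hk0
      · simp [cc_zero]
      · rw [← cc_rec (k := k) (by omega)]
        push_cast
        ring
  linear_combination e4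

theorem uu_bound {z : ℂ} (h : ‖z‖ < 8) :
    ‖uu z - z ^ 2 / 20‖ ≤ 2 * (‖z‖ ^ 2 / 74) ^ 2 / (1 - ‖z‖ ^ 2 / 74) := by
  have hs0 : Summable fun k : ℕ => (-1 : ℂ) ^ (k + 1) * (cc k : ℂ) * z ^ (2 * k) :=
    (term_summable b_norm h).of_norm
  have e1 := hs0.sum_add_tsum_nat_add 2
  have e2 : uu z - z ^ 2 / 20
      = ∑' i : ℕ, (-1 : ℂ) ^ (i + 2 + 1) * (cc (i + 2) : ℂ) * z ^ (2 * (i + 2)) := by
    unfold uu
    rw [← e1, Finset.sum_range_succ, Finset.sum_range_one, cc_zero, cc_one]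
    push_cast
    ring
  rw [e2]
  have hg := (hasSum_geometric_of_lt_one (r := ‖z‖ ^ 2 / 74) (by positivity) (y_lt h)).mul_left
    (2 * (‖z‖ ^ 2 / 74) ^ 2)
  rw [← div_eq_mul_inv] at hg
  refine tsum_of_norm_bounded hg fun i => ?_
  rw [norm_mul, norm_mul, norm_pow, norm_neg, norm_one, one_pow, one_mul, Complex.norm_real, Real.norm_eq_abs,
    abs_of_nonneg (cc_nonneg _), norm_pow, pow_mul]
  calc cc (i + 2) * (‖z‖ ^ 2) ^ (i + 2) ≤ 2 / 74 ^ (i + 2) * (‖z‖ ^ 2) ^ (i + 2) := by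
        gcongr
        exact cc_le (by omega)
    _ = _ := by rw [div_pow, div_pow]; ring

theorem UU_bound {z : ℂ} (h : ‖z‖ < 8) :
    ‖UU z - z ^ 2 / 40‖ ≤ (‖z‖ ^ 2 / 74) ^ 2 / (2 * (1 - ‖z‖ ^ 2 / 74)) := by
  have hs0 : Summable fun k : ℕ => (-1 : ℂ) ^ (k + 1) * (cc k : ℂ) / (2 * (k : ℂ)) * z ^ (2 * k) :=
    (term_summable bU_norm h).of_norm
  have e1 := hs0.sum_add_tsum_nat_add 2
  have e2 : UU z - z ^ 2 / 40
      = ∑' i : ℕ, (-1 : ℂ) ^ (i + 2 + 1) * (cc (i + 2) : ℂ) / (2 * ((i + 2 : ℕ) : ℂ)) * z ^ (2 * (i + 2)) := by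
    rw [UU_eq]
    beta_reduce
    rw [← e1, Finset.sum_range_succ, Finset.sum_range_one, cc_zero, cc_one]
    push_cast
    ring
  rw [e2]
  have hg := (hasSum_geometric_of_lt_one (r := ‖z‖ ^ 2 / 74) (by positivity) (y_lt h)).mul_left
    ((‖z‖ ^ 2 / 74) ^ 2 / 2)
  rw [show (‖z‖ ^ 2 / 74) ^ 2 / 2 * (1 - ‖z‖ ^ 2 / 74)⁻¹ = (‖z‖ ^ 2 / 74) ^ 2 / (2 * (1 - ‖z‖ ^ 2 / 74)) by
    rw [← div_eq_mul_inv, div_div]] at hg
  refine tsum_of_norm_bounded hg fun i => ?_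
  rw [norm_mul, norm_div, norm_mul, norm_pow, norm_neg, norm_one, one_pow, one_mul, Complex.norm_real,
    Real.norm_eq_abs, abs_of_nonneg (cc_nonneg _), norm_pow, pow_mul, norm_mul, Complex.norm_natCast,
    Complex.norm_ofNat]
  have h4 : (4 : ℝ) ≤ 2 * ((i + 2 : ℕ) : ℝ) := by
    push_cast
    have : (0 : ℝ) ≤ i := Nat.cast_nonneg i
    linarith
  calc cc (i + 2) / (2 * ((i + 2 : ℕ) : ℝ)) * (‖z‖ ^ 2) ^ (i + 2)
      ≤ (2 / 74 ^ (i + 2)) / 4 * (‖z‖ ^ 2) ^ (i + 2) := by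
        gcongr
        exact cc_le (by omega)
    _ = _ := by rw [div_pow, div_pow]; ring

end ST3
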