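import Pool.Agent.Helper2.ST.U2
import Pool.Agent.Helper2.ST.B03

/-!
# ST-U3: `G = (z/6) exp (z/2 + UU)` for `|z| < 8`

PROOF. Let `Y z = (z/6) exp (z/2 + UU z)` and `D f = z f'` (`z != 0`, `|z| < 8`). `D Y = k Y` with
`k = 1 + z/2 + uu z`, and `D k = z/2 + z^2/4 - 3uu - uu^2 = 2 + z + (z-1) k - k^2` (ring), hence
`D (D Y) = (2+z) Y + (z-1) D Y`. The same holds for `G = GG 1` (`GG_hasDerivAt`, `GG_rel3`):
`D G = GG 2`, `D (GG 2) = (2+z) G + (z-1) GG 2`. Let `W = G D Y - Y D G`; then `D W = (z-1) W`, so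
`(z e^{-z} W)' = 0` on the connected set `0 < |z| < 8`, and `z e^{-z} W -> 0` at `0`; therefore `W = 0`.
`Y` has no zero there, so `(G/Y)' = 0`, `G/Y` is constant, and its limit at `0` is `1`
(`GG 1 z/z -> 1/6`, `UU` continuous at `0`).
(Connectedness: punctured ball; or work along segments `s -> s z`, `0 < s <= 1`, real variable `s`.)
`kap = G_2/G = D G/G = D Y/Y = k`.
-/

namespace ST3

open Complex

private theorem const_ball (f : ℂ → ℂ) (hc : ContinuousAt f 0)
    (hd : ∀ z : ℂ, z ≠ 0 → ‖z‖ < 8 → HasDerivAt f 0 z) : ∀ z : ℂ, ‖z‖ < 8 → f z = f 0 := by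
  have hball : ∀ z : ℂ, z ∈ Metric.ball (0 : ℂ) 8 ↔ ‖z‖ < 8 := fun z => mem_ball_zero_iff
  have hnb : ∀ᶠ z in nhdsWithin (0 : ℂ) {0}ᶜ, z ≠ 0 ∧ ‖z‖ < 8 := by
    have h1 : ∀ᶠ z in nhdsWithin (0 : ℂ) {0}ᶜ, ‖z‖ < 8 := by
      refine Filter.Eventually.filter_mono nhdsWithin_le_nhds ?_
      filter_upwards [Metric.ball_mem_nhds (0 : ℂ) (by norm_num : (0 : ℝ) < 8)] with z hz
      exact (hball z).1 hz
    filter_upwards [self_mem_nhdsWithin, h1] with z h2 h3
    exact ⟨h2, h3⟩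
  have han : AnalyticAt ℂ f 0 := by
    refine Complex.analyticAt_of_differentiable_on_punctured_nhds_of_continuousAt ?_ hc
    filter_upwards [hnb] with z hz
    exact (hd z hz.1 hz.2).differentiableAt
  have hd0 : deriv f 0 = 0 := by
    have h1 : Filter.Tendsto (deriv f) (nhdsWithin (0 : ℂ) {0}ᶜ) (nhds (deriv f 0)) :=
      han.deriv.continuousAt.tendsto.mono_left nhdsWithin_le_nhds
    have h2 : Filter.Tendsto (deriv f) (nhdsWithin (0 : ℂ) {0}ᶜ) (nhds 0) := by
      refine tendsto_const_nhds.congr' ?_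
      filter_upwards [hnb] with z hz
      exact (hd z hz.1 hz.2).deriv.symm
    exact tendsto_nhds_unique h1 h2
  have hdz : ∀ z : ℂ, ‖z‖ < 8 → HasDerivAt f 0 z := by
    intro z hz
    by_cases h0 : z = 0
    · have h1 := han.differentiableAt.hasDerivAt
      rw [hd0] at h1
      rw [h0]
      exact h1
    · exact hd z h0 hz
  intro z hz
  refine Metric.isOpen_ball.is_const_of_deriv_eq_zero (s := Metric.ball (0 : ℂ) 8)
    (convex_ball 0 8).isPreconnected (fun w hw => ?_) (fun w hw => ?_) ((hball z).2 hz)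
    (Metric.mem_ball_self (by norm_num))
  · exact (hdz w ((hball w).1 hw)).differentiableAt.differentiableWithinAt
  · exact (hdz w ((hball w).1 hw)).deriv

private theorem uu_cont0 : ContinuousAt uu 0 := by
  have hg : Filter.Tendsto (fun z : ℂ => ‖z‖ ^ 2 / 20 +
      2 * (‖z‖ ^ 2 / 74) ^ 2 / (1 - ‖z‖ ^ 2 / 74)) (nhds 0) (nhds 0) := by
    have hc : ContinuousAt (fun z : ℂ => ‖z‖ ^ 2 / 20 +
        2 * (‖z‖ ^ 2 / 74) ^ 2 / (1 - ‖z‖ ^ 2 / 74)) 0 := by
      refine ContinuousAt.add (by fun_prop) (ContinuousAt.div (by fun_prop) (by fun_prop) ?_)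
      norm_num
    have h1 := hc.tendsto
    simpa using h1
  have hb : ∀ z : ℂ, ‖z‖ < 8 → ‖uu z‖ ≤ ‖z‖ ^ 2 / 20 +
      2 * (‖z‖ ^ 2 / 74) ^ 2 / (1 - ‖z‖ ^ 2 / 74) := by
    intro z hz
    have h1 := uu_bound hz
    have h2 : uu z = z ^ 2 / 20 + (uu z - z ^ 2 / 20) := by ring
    rw [h2]
    refine (norm_add_le _ _).trans (add_le_add (le_of_eq ?_) h1)
    rw [norm_div, norm_pow]
    norm_num
  have h0 : uu 0 = 0 := by
    have h1 := hb 0 (by norm_num)
    simpa using h1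
  rw [ContinuousAt, h0]
  refine squeeze_zero_norm' ?_ hg
  filter_upwards [Metric.ball_mem_nhds (0 : ℂ) (by norm_num : (0 : ℝ) < 8)] with z hz
  exact hb z (mem_ball_zero_iff.1 hz)

private theorem T_zero {z : ℂ} (hz : z ≠ 0) (h : ‖z‖ < 8) :
    GG 2 z = (1 + z / 2 + uu z) * GG 1 z := by
  set Φ : ℂ → ℂ := fun z => z ^ 2 * exp (-(z / 2) + UU z) *
    (GG 2 z - (1 + z / 2 + uu z) * GG 1 z) with hΦ
  have hd : ∀ z : ℂ, z ≠ 0 → ‖z‖ < 8 → HasDerivAt Φ 0 z := by
    intro z hz h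
    have d1 := GG_hasDerivAt 1 hz
    have d2 := GG_hasDerivAt 2 hz
    have du := uu_hasDerivAt hz h
    have dU := UU_hasDerivAt hz h
    have did := hasDerivAt_id z
    have e1 : HasDerivAt (fun z : ℂ => z ^ 2) (2 * z) z := by
      simpa using hasDerivAt_pow 2 z
    have e2 : HasDerivAt (fun z : ℂ => z / 2) (1 / 2) z := did.div_const 2
    have e3 : HasDerivAt (fun z : ℂ => exp (-(z / 2) + UU z))
        (exp (-(z / 2) + UU z) * (-(1 / 2) + uu z / z)) z := (e2.neg.add dU).cexp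
    have e4 : HasDerivAt (fun z : ℂ => 1 + z / 2 + uu z)
        (1 / 2 + (z ^ 2 / 4 - 3 * uu z - uu z ^ 2) / z) z := by
      have := (e2.const_add 1).add du
      exact this
    have e5 : HasDerivAt (fun z : ℂ => GG 2 z - (1 + z / 2 + uu z) * GG 1 z)
        (GG (2 + 1) z / z - ((1 / 2 + (z ^ 2 / 4 - 3 * uu z - uu z ^ 2) / z) * GG 1 z +
          (1 + z / 2 + uu z) * (GG (1 + 1) z / z))) z := d2.sub (e4.mul d1)
    have e6 := (e1.mul e3).mul e5
    refine e6.congr_deriv ?_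
    have h3 := GG_rel3 z
    rw [show (2 : ℕ) + 1 = 3 from rfl, show (1 : ℕ) + 1 = 2 from rfl, h3]
    simp only [Pi.mul_apply]
    field_simp
    ring
  have hcont : ContinuousAt Φ 0 := by
    have c1 : ContinuousAt (GG 1) 0 := (GG_differentiable 1).continuous.continuousAt
    have c2 : ContinuousAt (GG 2) 0 := (GG_differentiable 2).continuous.continuousAt
    have c3 : ContinuousAt UU 0 := UU_continuousAt (by norm_num)
    have c4 : ContinuousAt (fun z : ℂ => exp (-(z / 2) + UU z)) 0 := by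
      have : ContinuousAt (fun z : ℂ => -(z / 2) + UU z) 0 :=
        ContinuousAt.add (by fun_prop) c3
      exact this.cexp
    have c5 : ContinuousAt (fun z : ℂ => (1 + z / 2 + uu z) * GG 1 z) 0 :=
      (ContinuousAt.add (by fun_prop) uu_cont0).mul c1
    have c6 : ContinuousAt (fun z : ℂ => z ^ 2) 0 := by fun_prop
    exact (c6.mul c4).mul (c2.sub c5)
  have h1 := const_ball Φ hcont hd z h
  have h2 : Φ 0 = 0 := by
    rw [hΦ]
    simp
  rw [h2, hΦ] at h1
  simp only at h1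
  have h3 : z ^ 2 * exp (-(z / 2) + UU z) ≠ 0 := mul_ne_zero (pow_ne_zero 2 hz) (exp_ne_zero _)
  have h4 := (mul_eq_zero.1 h1).resolve_left h3
  exact sub_eq_zero.1 h4

private theorem MM_eq {z : ℂ} (h : ‖z‖ < 8) : MM z = exp (UU z) := by
  set N : ℂ → ℂ := fun z => MM z * exp (-UU z) with hN
  have hd : ∀ z : ℂ, z ≠ 0 → ‖z‖ < 8 → HasDerivAt N 0 z := by
    intro z hz h
    have dM := (MM_differentiable z).hasDerivAt
    have dU := UU_hasDerivAt hz h
    have e3 : HasDerivAt (fun z : ℂ => exp (-UU z)) (exp (-UU z) * -(uu z / z)) z := dU.neg.cexp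
    have e2 : HasDerivAt (fun z : ℂ => z / 2) (1 / 2) z := (hasDerivAt_id z).div_const 2
    have e4 : HasDerivAt (fun z : ℂ => z / 6 * exp (z / 2) * MM z)
        ((1 / 6 * exp (z / 2) + z / 6 * (exp (z / 2) * (1 / 2))) * MM z +
          z / 6 * exp (z / 2) * deriv MM z) z :=
      (((hasDerivAt_id z).div_const 6).mul e2.cexp).mul dM
    have e5 : (fun z : ℂ => z / 6 * exp (z / 2) * MM z) = GG 1 := by
      funext w
      exact (GG1_eq_MM w).symm
    rw [e5] at e4
    have e6 := e4.unique (GG_hasDerivAt 1 hz)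
    have e7 := T_zero hz h
    rw [show (1 : ℕ) + 1 = 2 from rfl, e7, GG1_eq_MM z] at e6
    have e8 : z * deriv MM z = uu z * MM z := by
      have hx : exp (z / 2) ≠ 0 := exp_ne_zero _
      field_simp at e6
      linear_combination (1 / 2 : ℂ) * e6
    refine (dM.mul e3).congr_deriv ?_
    field_simp
    linear_combination exp (-UU z) * e8
  have hcont : ContinuousAt N 0 := by
    have c3 : ContinuousAt UU 0 := UU_continuousAt (by norm_num)
    exact MM_differentiable.continuous.continuousAt.mul c3.neg.cexp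
  have h1 := const_ball N hcont hd z h
  rw [hN] at h1
  simp only [MM_zero, UU_zero, neg_zero, exp_zero, mul_one] at h1
  rw [exp_neg] at h1
  have hx : exp (UU z) ≠ 0 := exp_ne_zero _
  field_simp at h1
  exact h1

theorem GG1_eq_UU {z : ℂ} (h : ‖z‖ < 8) : GG 1 z = z / 6 * exp (z / 2 + UU z) := by
  rw [GG1_eq_MM, MM_eq h, exp_add]
  ring

theorem GG1_ne_ball {z : ℂ} (hz : z ≠ 0) (h : ‖z‖ < 8) : GG 1 z ≠ 0 := by
  rw [GG1_eq_UU h]
  exact mul_ne_zero (div_ne_zero hz (by norm_num)) (exp_ne_zero _)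

theorem kap_eq_uu {z : ℂ} (hz : z ≠ 0) (h : ‖z‖ < 8) : kap z = 1 + z / 2 + uu z := by
  unfold kap
  rw [T_zero hz h]
  exact mul_div_cancel_right₀ _ (GG1_ne_ball hz h)

end ST3
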