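import Pool.Agent.Helper2.ST.U3

/-!
# ST-U4: positivity of `Re kap` in disks

PROOF. `kap z = 1 + z/2 + z^2/20 + r`, `|r| <= T := 2y^2/(1-y)`, `y = |z|^2/74`. With `x = Re z`,
`rho = |z|`: `Re z^2 = 2x^2 - rho^2`, so `Re kap >= 1 + x/2 + x^2/10 - rho^2/20 - T`. The function
`1 + x/2 + x^2/10` increases for `x >= -5/2`. `T` increases with `rho`.
* `rho <= 5/2`: at `x = -rho`: `1 - rho/2 + rho^2/20 - T >= 1 - 1.25 + .3125 - .0156 > 0`.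
* `rho <= 3`, `x >= -1`: `.6 - .45 - .0337 > 0`.
* `rho <= 4`, `x >= 0`: `1 - .8 - .1194 > 0`.
* `rho <= 9/2`, `x >= 1/2`: `1.275 - 1.0125 - .2063 > 0`.
* `|kap| <= 1 + 2.25 + 1.0125 + .2063 <= 9/2`.
-/

namespace ST3

open Complex

private theorem u4_main {z : ℂ} (hz : z ≠ 0) {r T : ℝ} (h : ‖z‖ ≤ r) (hr : r ≤ 9 / 2)
    (hT : 2 * (r ^ 2 / 74) ^ 2 / (1 - r ^ 2 / 74) ≤ T) :
    ‖kap z - (1 + z / 2 + z ^ 2 / 20)‖ ≤ T := by
  have h8 : ‖z‖ < 8 := by linarith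
  have h0 := norm_nonneg z
  have h1 : kap z - (1 + z / 2 + z ^ 2 / 20) = uu z - z ^ 2 / 20 := by
    rw [kap_eq_uu hz h8]
    ring
  rw [h1]
  refine (uu_bound h8).trans (le_trans ?_ hT)
  have h2 : ‖z‖ ^ 2 ≤ r ^ 2 := pow_le_pow_left₀ h0 h 2
  have h3 : r ^ 2 ≤ (9 / 2) ^ 2 := pow_le_pow_left₀ (h0.trans h) hr 2
  have h4 : 0 < 1 - r ^ 2 / 74 := by
    norm_num at h3
    linarith
  apply div_le_div₀ (by positivity) ?_ h4 (by linarith)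
  have h5 : (‖z‖ ^ 2 / 74) ^ 2 ≤ (r ^ 2 / 74) ^ 2 :=
    pow_le_pow_left₀ (by positivity) (by linarith) 2
  linarith

private theorem u4_re {z : ℂ} {T : ℝ} (h : ‖kap z - (1 + z / 2 + z ^ 2 / 20)‖ ≤ T) :
    1 + z.re / 2 + z.re ^ 2 / 10 - ‖z‖ ^ 2 / 20 - T ≤ (kap z).re := by
  have h1 := (Complex.abs_re_le_norm _).trans h
  have h2 : (kap z - (1 + z / 2 + z ^ 2 / 20)).re =
      (kap z).re - (1 + z.re / 2 + (z.re ^ 2 - z.im ^ 2) / 20) := by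
    have e1 : (z / 2).re = z.re / 2 := by
      have : z / 2 = z / ((2 : ℝ) : ℂ) := by push_cast; rfl
      rw [this, Complex.div_ofReal_re]
    have e2 : (z ^ 2 / 20).re = (z.re ^ 2 - z.im ^ 2) / 20 := by
      have : z ^ 2 / 20 = z ^ 2 / ((20 : ℝ) : ℂ) := by push_cast; rfl
      rw [this, Complex.div_ofReal_re, sq, Complex.mul_re]
      ring
    rw [Complex.sub_re, Complex.add_re, Complex.add_re, Complex.one_re, e1, e2]
  have h3 : ‖z‖ ^ 2 = z.re ^ 2 + z.im ^ 2 := by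
    rw [Complex.sq_norm, Complex.normSq_apply]
    ring
  rw [h2] at h1
  have h4 := neg_le_of_abs_le h1
  rw [h3]
  linarith

theorem kap_re_pos_A {z : ℂ} (hz : z ≠ 0) (h : ‖z‖ ≤ 5 / 2) : 0 < (kap z).re := by
  have h1 := u4_re (u4_main hz h (by norm_num) (T := 16 / 1000) (by norm_num))
  have h2 := neg_le_of_abs_le (Complex.abs_re_le_norm z)
  have h3 := le_of_abs_le (Complex.abs_re_le_norm z)
  have h0 := norm_nonneg z
  refine lt_of_lt_of_le ?_ h1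
  generalize ‖z‖ = ρ at h h2 h3 h0 ⊢
  generalize z.re = x at h2 h3 ⊢
  have h4 : 0 ≤ (x + ρ) * (1 / 2 + (x - ρ) / 10) := mul_nonneg (by linarith) (by linarith)
  have h5 : 0 ≤ (5 / 2 - ρ) * (1 / 2 - (5 / 2 + ρ) / 20) := mul_nonneg (by linarith) (by linarith)
  nlinarith

theorem kap_re_pos_B {z : ℂ} (hz : z ≠ 0) (h : ‖z‖ ≤ 3) (hx : -1 ≤ z.re) : 0 < (kap z).re := by
  have h1 := u4_re (u4_main hz h (by norm_num) (T := 34 / 1000) (by norm_num))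
  have h0 := norm_nonneg z
  refine lt_of_lt_of_le ?_ h1
  generalize ‖z‖ = ρ at h h0 ⊢
  generalize z.re = x at hx ⊢
  have h4 : 0 ≤ (x + 1) * (1 / 2 + (x - 1) / 10) := mul_nonneg (by linarith) (by linarith)
  have h5 : ρ ^ 2 ≤ 3 ^ 2 := pow_le_pow_left₀ h0 h 2
  nlinarith

theorem kap_re_pos_C {z : ℂ} (hz : z ≠ 0) (h : ‖z‖ ≤ 4) (hx : 0 ≤ z.re) : 0 < (kap z).re := by
  have h1 := u4_re (u4_main hz h (by norm_num) (T := 12 / 100) (by norm_num))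
  have h0 := norm_nonneg z
  refine lt_of_lt_of_le ?_ h1
  generalize ‖z‖ = ρ at h h0 ⊢
  generalize z.re = x at hx ⊢
  have h5 : ρ ^ 2 ≤ 4 ^ 2 := pow_le_pow_left₀ h0 h 2
  have h6 : 0 ≤ x ^ 2 := sq_nonneg x
  linarith

theorem kap_re_pos_D {z : ℂ} (hz : z ≠ 0) (h : ‖z‖ ≤ 9 / 2) (hx : 1 / 2 ≤ z.re) :
    0 < (kap z).re := by
  have h1 := u4_re (u4_main hz h (by norm_num) (T := 207 / 1000) (by norm_num))
  have h0 := norm_nonneg z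
  refine lt_of_lt_of_le ?_ h1
  generalize ‖z‖ = ρ at h h0 ⊢
  generalize z.re = x at hx ⊢
  have h5 : ρ ^ 2 ≤ (9 / 2) ^ 2 := pow_le_pow_left₀ h0 h 2
  have h6 : (1 / 2) ^ 2 ≤ x ^ 2 := pow_le_pow_left₀ (by norm_num) hx 2
  linarith

theorem kap_norm_le {z : ℂ} (hz : z ≠ 0) (h : ‖z‖ ≤ 9 / 2) : ‖kap z‖ ≤ 9 / 2 := by
  have h1 := u4_main hz h (by norm_num) (T := 207 / 1000) (by norm_num)
  have h0 := norm_nonneg z
  have h2 : ‖kap z‖ ≤ ‖kap z - (1 + z / 2 + z ^ 2 / 20)‖ + ‖1 + z / 2 + z ^ 2 / 20‖ := by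
    have := norm_add_le (kap z - (1 + z / 2 + z ^ 2 / 20)) (1 + z / 2 + z ^ 2 / 20)
    rwa [sub_add_cancel] at this
  have h3 : ‖1 + z / 2 + z ^ 2 / 20‖ ≤ 1 + ‖z‖ / 2 + ‖z‖ ^ 2 / 20 := by
    refine (norm_add_le _ _).trans ?_
    refine add_le_add ((norm_add_le _ _).trans ?_) ?_
    · rw [norm_one, norm_div]
      have : ‖(2 : ℂ)‖ = 2 := by simp
      rw [this]
    · rw [norm_div, norm_pow]
      have : ‖(20 : ℂ)‖ = 20 := by simp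
      rw [this]
  have h5 : ‖z‖ ^ 2 ≤ (9 / 2) ^ 2 := pow_le_pow_left₀ h0 h 2
  linarith

end ST3
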